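import Pool.Agent.P.MP_67c9d4_al.FR.Iface

/-! Step ABS. -/

set_option autoImplicit false
set_option linter.unusedSectionVars false

namespace Pool.Agent.P.MP_67c9d4_al.FR

open Equiv Wr Multiplicative FC

lemma ABS_ker {F W : Type} [Group F] [Group W] (s : F →* W) (h : Finite s.range) : FN s.ker := by
  rw [← s.ker_rangeRestrict]
  exact FN.ker _

lemma ABS_sep {F : Type} [Group F] {A : Subgroup F} (h : Sepb A) (Θ : MulAut F) :
    Sepb (im Θ A) := fun g hg => by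
  obtain ⟨N, hN, h⟩ := h _ (mt mem_im.2 hg)
  refine ⟨N.comap (Θ⁻¹ : MulAut F).toMonoidHom, hN.comap _, fun e => h ?_⟩
  have : im Θ A ⊔ N.comap (Θ⁻¹ : MulAut F).toMonoidHom ≤
      (A ⊔ N).comap (Θ⁻¹ : MulAut F).toMonoidHom :=
    sup_le (fun x hx => Subgroup.mem_sup_left (mem_im.1 hx)) fun x hx => Subgroup.mem_sup_right hx
  exact this e

lemma ABS_deep {F : Type} [Group F] {B : Subgroup F} (h : RF F) (h' : Sepb B) {R : Set F}
    (hR : R.Finite) : ∃ N₀, FN N₀ ∧ ∀ N ≤ N₀, ∀ g ∈ R, (g ∈ N → g = 1) ∧ (g ∈ B ⊔ N → g ∈ B) := by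
  have := hR.to_subtype
  obtain ⟨N₀, h1, h2⟩ := FN.exists_forall (J := R)
    (p := fun g N => ((g : F) ∈ N → (g : F) = 1) ∧ ((g : F) ∈ B ⊔ N → (g : F) ∈ B))
    (fun _ _ _ le h => ⟨fun e => h.1 (le e), fun e => h.2 (sup_le_sup_left le _ e)⟩) fun g => by
      have a : ∃ N, FN N ∧ ((g : F) ∈ N → (g : F) = 1) := by
        by_cases e : (g : F) = 1
        · exact ⟨⊤, FN.top, fun _ => e⟩
        · obtain ⟨N, n, e⟩ := h _ e
          exact ⟨N, n, fun e' => absurd e' e⟩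
      have b : ∃ N, FN N ∧ ((g : F) ∈ B ⊔ N → (g : F) ∈ B) := by
        by_cases e : (g : F) ∈ B
        · exact ⟨⊤, FN.top, fun _ => e⟩
        · obtain ⟨N, n, e⟩ := h' _ e
          exact ⟨N, n, fun e' => absurd e' e⟩
      obtain ⟨N, n, a⟩ := a
      obtain ⟨N', n', b⟩ := b
      exact ⟨N ⊓ N', n.inf n', fun e => a e.1, fun e => b (sup_le_sup_left (inf_le_right : N ⊓ N' ≤ N') _ e)⟩
  exact ⟨N₀, h1, fun N le g hg => ⟨fun e => (h2 ⟨g, hg⟩).1 (le e),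
    fun e => (h2 ⟨g, hg⟩).2 (sup_le_sup_left le _ e)⟩⟩

lemma ABS_card {X H W : Type} [Group H] [Group W] (d : AD X H W) :
    {z | ∃ b ∈ d.B, z = d.z0 b}.ncard = d.N.relIndex d.B := by
  have e : {z | ∃ b ∈ d.B, z = d.z0 b} =
      Set.range fun q : d.B ⧸ d.N.subgroupOf d.B => d.z0 (q.out : FreeGroup X)⁻¹ := by
    ext z
    constructor
    · rintro ⟨b, hb, rfl⟩
      refine ⟨((⟨b, hb⟩⁻¹ : d.B) : d.B ⧸ d.N.subgroupOf d.B), ?_⟩
      have := QuotientGroup.eq.1 (QuotientGroup.out_eq'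
        ((⟨b, hb⟩⁻¹ : d.B) : d.B ⧸ d.N.subgroupOf d.B))
      exact congrArg (fun x => ((x, 1), 1)) (pt_eq.2 this)
    · rintro ⟨q, rfl⟩
      exact ⟨_, d.B.inv_mem q.out.2, rfl⟩
  rw [e, Set.ncard_range_of_injective]
  · rfl
  · intro q q' h
    have := pt_eq.1 (congrArg (fun z : d.Y => z.1.1) h)
    rw [inv_inv] at this
    rw [← q.out_eq', ← q'.out_eq', QuotientGroup.eq]
    exact this

theorem p_ABS (hRFF : S_RFF) (hLIFT : S_LIFT) (hBM : S_BM) (hBJ : S_BJ) (hAJ : S_AJ) (hFINIM : S_FINIM) (hCSET : S_CSET) :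
    S_ABS := by
  intro X J H _ _ _ S Θ v D τ α pos hR hD hpos
  have ch : ∀ u j, ∃ a ∈ FS S, Dc (im Θ (FS S)) (v j) (FS S) u →
      ∃ b ∈ im Θ (FS S), u = b * v j * a := fun u j => by
    by_cases h : Dc (im Θ (FS S)) (v j) (FS S) u
    · obtain ⟨b, hb, a, ha, e⟩ := h
      exact ⟨a, ha, fun _ => ⟨b, hb, e⟩⟩
    · exact ⟨1, one_mem _, fun h' => absurd h' h⟩
  choose ch c1 c2 using ch
  let F0 : Set (FreeGroup X) := insert 1 (⋃ y, Pre (Θ (FreeGroup.of y)))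
  have f0 : F0.Finite := (Set.finite_iUnion fun _ => pre_finite _).insert 1
  refine ⟨Set.image2 ch F0 Set.univ, f0.image2 _ Set.finite_univ, ?_, fun T fT hT aT => ?_⟩
  · rintro _ ⟨u, -, j, -, rfl⟩
    exact c1 u j
  let F1 : Set (FreeGroup X) := F0 ∪ Set.image2 (fun j u => v j * u) Set.univ T
  have f1 : F1.Finite := f0.union (Set.finite_univ.image2 _ fT)
  obtain ⟨RB, fB, hB⟩ := hBJ X S Θ F1 f1
  obtain ⟨RA, fA, hA⟩ := hAJ X S Θ F1 f1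
  have fR := fB.union fA
  refine ⟨Set.image2 (fun u g => (pos u)⁻¹ * pos g) (RB ∪ RA) (RB ∪ RA), fR.image2 _ fR,
    fun W _ l s th => ?_⟩
  obtain ⟨N₀, n0, h0⟩ := ABS_deep (hRFF X).1 (ABS_sep ((hRFF X).2 S) Θ)
    (fB.union (f1.image2 (fun u u' => u' * u⁻¹) f1))
  refine ⟨N₀ ⊓ ((s.ker.comap τ) ⊓ s.ker.comap α), n0.inf
    (((ABS_ker s th.fs).comap τ).inf ((ABS_ker s th.fs).comap α)), fun N n le => ?_⟩
  have h0 := h0 N (le.trans inf_le_left)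
  let d : AD X H W := ⟨S, Θ, F1, τ, α, pos, l, s, N⟩
  have ok : d.Ok := ⟨n, hpos, fun x hx => (le hx).2.1, fun x hx => (le hx).2.2,
    fun u hu u' hu' => (h0 _ (Or.inr ⟨u, hu, u', hu', rfl⟩)).2, Or.inl (Or.inl rfl),
    fun y _ x hx => Or.inl (Or.inr (Set.mem_iUnion.2 ⟨y, hx⟩))⟩
  have fe : ∀ R ⊆ RB ∪ RA, Finite (d.EQ R) := fun R hR => (th.mono (Q' := d.QS R)
    fun _ ⟨u, hu, g, hg, e⟩ => ⟨u, hR hu, g, hR hg, e.symm⟩).fe
  obtain ⟨C, ν, hc, hn⟩ := hCSET X H W d ok J v D T hR hD aT fun j b hb a ha => by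
    have key : ∀ b' ∈ im Θ (FS S), ∀ j', ∀ u ∈ T, b * v j * a = b' * v j' * u →
        a ∈ DT (D j) T := fun b' hb' j' u hu e => by
      obtain rfl : j = j' := hR.dist _ _ ⟨b'⁻¹ * b, mul_mem (inv_mem hb') hb, a * u⁻¹,
        mul_mem ha (inv_mem (aT u hu)), by
          rw [show b'⁻¹ * b * v j * (a * u⁻¹) = b'⁻¹ * (b * v j * a) * u⁻¹ by group, e]; group⟩
      refine ⟨a * u⁻¹, ?_, u, hu, by group⟩
      rw [← hD, mem_Dv]
      refine ⟨mul_mem ha (inv_mem (aT u hu)), ?_⟩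
      rw [show v j * (a * u⁻¹) * (v j)⁻¹ = b⁻¹ * (b * v j * a) * u⁻¹ * (v j)⁻¹ by group, e]
      simpa [mul_assoc] using (im Θ (FS S)).mul_mem (inv_mem hb) hb'
    constructor
    · rintro ⟨b', hb', u, hu | ⟨j', -, u, hu, rfl⟩, e⟩
      · obtain ⟨b'', hb'', e'⟩ := c2 u j ⟨b'⁻¹ * b, mul_mem (inv_mem hb') hb, a, ha, by
          rw [mul_assoc b'⁻¹, mul_assoc b'⁻¹, e]; group⟩
        exact key (b' * b'') (mul_mem hb' hb'') j _ (hT ⟨u, hu, j, trivial, rfl⟩) (by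
          rw [e]; conv_lhs => rw [e']
          group)
      · exact key b' hb' j' u hu (by rw [e, mul_assoc])
    · rintro ⟨x, hx, u, hu, rfl⟩
      rw [← hD, mem_Dv] at hx
      exact ⟨b * (v j * x * (v j)⁻¹), mul_mem hb hx.2, v j * u, Or.inr ⟨j, trivial, u, hu, rfl⟩,
        by group⟩
  have := n.2
  obtain ⟨NB, nB, pB, zB⟩ := hFINIM _ d.Y W d.rho d.B
    (Θ.toMonoidHom.comp ((retr S).comp (Θ⁻¹ : MulAut (FreeGroup X)).toMonoidHom)) (d.EQ RB)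
    (fun z => ∀ b ∈ d.B, z.1.1 ≠ pt d.N b) (fe _ Set.subset_union_left)
    (fun a ha => by
      change Θ (retr S (Θ⁻¹ a)) = a
      rw [retr_eq (mem_im.1 ha), MulAut.apply_inv_self])
    (fun x => apply_mem_im.2 (retr_mem S _))
    (hB H W d rfl rfl rfl ok fun g hg => h0 g (Or.inl hg))
  obtain ⟨NA, nA, -, zA⟩ := hFINIM _ d.Y W d.rho d.A (retr S) (d.EQ RA) (fun z => z ∉ C)
    (fe _ Set.subset_union_right) (fun a ha => retr_eq ha) (retr_mem S)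
    fun z hz => hA H W d rfl rfl rfl ok z (hn z hz)
  obtain ⟨m1, m2⟩ := hBM X H W d ok
  refine ⟨d.Y, inferInstance, d.rho, NB ⊓ NA ⊓ N, {z | ∃ b ∈ d.B, z = d.z0 b}, C, ν,
    (nB.inf nA).inf n, fun x hx => pB x hx.1.1, ABS_card d, ?_, fun z hz x hx => ?_,
    fun y => (hc y).mono inf_le_right, fun z hz x hx => zA z hz x hx.1.1.2 hx.2⟩
  · rintro _ ⟨b, hb, rfl⟩
    obtain ⟨c, hc⟩ := (hLIFT X H W d ok).2.2.2.2.2 b hb
    exact ⟨c, fun x hx => (m1 b hb x hx.2).trans (hc x hx.1.2 hx.2)⟩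
  · by_cases h : ∃ b ∈ d.B, z.1.1 = pt d.N b
    · exact m2 z h (fun b hb e => hz ⟨b, hb, e⟩) x hx.2
    · exact zB z (fun b hb e => h ⟨b, hb, e⟩) x hx.1.1.1 hx.2

end Pool.Agent.P.MP_67c9d4_al.FR
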