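import Pool.Agent.P.MP_67c9d4_al.FR.Iface
import Pool.Agent.P.MP_67c9d4_al.FC.COMP1

/-! Step ACT. -/

set_option autoImplicit false
set_option linter.unusedSectionVars false

namespace Pool.Agent.P.MP_67c9d4_al.FR

open Equiv Wr Multiplicative FC

open COMP1x in
lemma ACT_step {T Y : Type} (Mv : T × Bool → Y → Y → Prop) (a : T) (σ : Bool)
    (q : Y × (T → Bool)) : ∃ L : List (T × Bool), (∀ x ∈ L, x.1 = a) ∧
      Walk Mv L q.1 (mv Mv a σ q).1 := by
  unfold mv
  split_ifs with m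
  · exact ⟨[(a, xor σ (q.2 a))], by simp, Walk.cons m.choose_spec (Walk.nil _)⟩
  · exact ⟨[], by simp, Walk.nil _⟩

open COMP1x in
theorem p_ACT :
    S_ACT := by
  intro T Y Γ Mv h
  obtain ⟨a, ha⟩ := raag_lift (Γ := Γ) (fun a => (sp h a)⁻¹) fun a b adj =>
    Equiv.ext fun q => mv_comm h adj false false q
  have e : ∀ (x : T × Bool) q, (a (wd Γ [x]))⁻¹ q = mv Mv x.1 x.2 q := by
    rintro ⟨x, _ | _⟩ q
    · rw [wd_false, map_inv, ha]; rfl
    · rw [wd_true, ha]; rfl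
  refine ⟨a, fun L y y' w => ?_, fun S g hg => ?_⟩
  · induction w with
    | nil y => rw [wd_nil, map_one]; rfl
    | cons m _ ih => rw [wd_cons, inv_mul_apply, e, mv_yes h (by simpa using m), ih]
  · have k : ∀ (x : T × Bool) g, x.1 ∈ S →
        (∀ q, ∃ L, (∀ x ∈ L, x.1 ∈ S) ∧ Walk Mv L q.1 ((a g)⁻¹ q).1) →
        ∀ q, ∃ L, (∀ x ∈ L, x.1 ∈ S) ∧ Walk Mv L q.1 ((a (wd Γ [x] * g))⁻¹ q).1 := by
      intro x g hx ih q
      obtain ⟨L, hL, w⟩ := ACT_step Mv x.1 x.2 q
      obtain ⟨L', hL', w'⟩ := ih (mv Mv x.1 x.2 q)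
      refine ⟨L ++ L', fun z hz => ?_, ?_⟩
      · rcases List.mem_append.1 hz with hz | hz
        · exact hL z hz ▸ hx
        · exact hL' z hz
      · rw [inv_mul_apply, e]
        exact w.append w'
    induction hg using Subgroup.closure_induction_left with
    | one => exact fun q => ⟨[], by simp, by rw [map_one]; exact Walk.nil _⟩
    | mul_left x hx g _ ih =>
      obtain ⟨t, ht, rfl⟩ := hx
      exact k (t, true) g ht ih
    | inv_mul_cancel x hx g _ ih =>
      obtain ⟨t, ht, rfl⟩ := hx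
      rw [← wd_false]
      exact k (t, false) g ht ih

end Pool.Agent.P.MP_67c9d4_al.FR
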