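import Pool.Agent.P.MP_67c9d4_al.FR.Iface

/-! Step AJ. -/

set_option autoImplicit false
set_option linter.unusedSectionVars false

namespace Pool.Agent.P.MP_67c9d4_al.FR

open Equiv Wr Multiplicative FC

lemma AJ_fin {F : Type} [Group F] (A B : Subgroup F) {F1 : Set F} (h : F1.Finite) :
    {g | ∃ u ∈ F1, ∃ u' ∈ F1, Dv A B u = ⊥ ∧ (∃ a ∈ A, g = u * a) ∧ g * u'⁻¹ ∈ B}.Finite := by
  refine (h.biUnion fun u _ => h.biUnion fun u' _ => Set.Subsingleton.finite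
    (s := {g | Dv A B u = ⊥ ∧ (∃ a ∈ A, g = u * a) ∧ g * u'⁻¹ ∈ B}) ?_).subset ?_
  · rintro _ ⟨e, ⟨a, ha, rfl⟩, h1⟩ _ ⟨-, ⟨a', ha', rfl⟩, h2⟩
    have : a * a'⁻¹ ∈ Dv A B u := mem_Dv.2 ⟨A.mul_mem ha (A.inv_mem ha'), by
      simpa [mul_assoc] using B.mul_mem h1 (B.inv_mem h2)⟩
    rw [e, Subgroup.mem_bot, mul_inv_eq_one] at this
    rw [this]
  · rintro g ⟨u, hu, u', hu', h1⟩
    exact Set.mem_biUnion hu (Set.mem_biUnion hu' h1)

theorem p_AJ (hLIFT : S_LIFT) (hPIECE : S_PIECE) (hINS : S_INS) :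
    S_AJ := by
  intro X _ S Θ F1 hF
  refine ⟨_, hF.union (AJ_fin (FS S) (im Θ (FS S)) hF), ?_⟩
  rintro H W _ _ d rfl rfl rfl ok z hz
  obtain ⟨L1, -, L3, -, L5, -⟩ := hLIFT X H W d ok
  obtain ⟨I1, I2, I3, I4, -⟩ := hINS X H W d ok
  generalize hR : d.F1 ∪ _ = R
  have key : ∃ c, ∀ a ∈ d.A, ∀ x : X × Bool, x.1 ∈ d.S →
      (d.rho (lt x)).c ((d.a2 a)⁻¹ z) ∈ cj c (d.EQ R) := by
    by_cases h0 : ∃ a ∈ d.A, ∃ v, d.Rg v ∧ (d.a2 a)⁻¹ z = d.z0 v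
    · obtain ⟨a0, ha0, v0, hv0, e0⟩ := h0
      have hD := hz a0 ha0 v0 hv0 e0
      have k : ∀ a ∈ d.A, d.Rg (v0 * a) → d.w v0 (v0 * a) ∈ cj (d.s (d.pos v0)) (d.EQ R) := by
        intro a ha ⟨b, hb, u, hu, e⟩
        have p : ∀ g, d.pos (g * a) = d.pos g * d.α a := fun g => by
          simpa using ok.eqv 1 d.B.one_mem a ha g
        obtain ⟨b0, hb0, u0, hu0, rfl⟩ := hv0
        rw [L5 _ _ _ (p _), conj_mem_cj]
        refine Subgroup.subset_closure ⟨_, ⟨u0, hR ▸ Or.inl hu0, u0 * a, hR ▸ Or.inr ⟨u0, hu0, u, hu,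
          (Dc.bot ⟨b0, hb0, 1, one_mem _, (mul_one _).symm⟩).1 hD, ⟨a, ha, rfl⟩, ?_⟩, ?_⟩, rfl⟩
        · rw [show u0 * a * u⁻¹ = b0⁻¹ * (b0 * u0 * a * u⁻¹) by group, e, mul_inv_cancel_right]
          exact d.B.mul_mem (d.B.inv_mem hb0) hb
        · rw [p, inv_mul_cancel_left]
      refine ⟨d.s (d.pos v0), fun a ha x hx => ?_⟩
      by_cases c : (d.rho (lt x)).c ((d.a2 a)⁻¹ z) = 1
      · rw [c]
        exact one_mem _
      obtain ⟨v, h1, h2, e⟩ := I2 _ x c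
      have e1 : (d.a2 (a0⁻¹ * a))⁻¹ (d.z0 v0) = d.z0 v := by
        rw [← e0, ← inv_mul_apply, mul_inv_cancel_left, e]
      obtain ⟨n, hn, hnB, a', ha', rfl⟩ := hPIECE X H W d ok _ (d.A.mul_mem (d.A.inv_mem ha0) ha)
        v0 v hv0 h1 ((I4 _ (d.z0 v0)).symm.trans (congrArg Prod.fst e1))
      rw [e, (I1 _ x h1 h2).2.2, mul_assoc n, mul_assoc n, L3 n hn hnB]
      rw [mul_assoc n, L1 n hnB] at h1
      rw [mul_assoc n, mul_assoc n, L1 n hnB, mul_assoc] at h2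
      have := mul_mem (inv_mem (k a' ha' h1)) (k _ (d.A.mul_mem ha' (lt_mem hx)) h2)
      simpa only [AD.w, mul_assoc, mul_inv_rev, inv_inv, mul_inv_cancel_left] using this
    · refine ⟨1, fun a ha x _ => ?_⟩
      by_cases c : (d.rho (lt x)).c ((d.a2 a)⁻¹ z) = 1
      · rw [c]
        exact one_mem _
      obtain ⟨v, h1, -, e⟩ := I2 _ x c
      exact absurd ⟨a, ha, v, h1, e⟩ h0
  obtain ⟨c, key⟩ := key
  have fin : ∀ a' ∈ FS d.S, ∀ a ∈ d.A, (d.rho a').c ((d.a2 a)⁻¹ z) ∈ cj c (d.EQ R) := by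
    intro a' ha'
    induction ha' using Subgroup.closure_induction'' with
    | mem g hg =>
      obtain ⟨y, hy, rfl⟩ := hg
      exact fun a ha => key a ha (y, true) hy
    | inv_mem g hg =>
      obtain ⟨y, hy, rfl⟩ := hg
      exact fun a ha => key a ha (y, false) hy
    | one =>
      intro a _
      rw [map_one]
      exact one_mem _
    | mul g h hg _ i1 i2 =>
      intro a ha
      rw [c_mul, I3, ← inv_mul_apply]
      exact mul_mem (i1 a ha) (i2 _ (d.A.mul_mem ha hg))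
  exact ⟨c, fun a ha => by simpa using fin a ha 1 d.A.one_mem⟩

end Pool.Agent.P.MP_67c9d4_al.FR
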