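import Pool.Agent.P.MP_67c9d4_al.FR.Iface

/-! Step BAS. -/

set_option autoImplicit false
set_option linter.unusedSectionVars false

namespace Pool.Agent.P.MP_67c9d4_al.FR

open Equiv Wr Multiplicative FC

lemma BAS_fin {G : Type} (h : Group.FG (FreeGroup G)) : Finite G := by
  classical
  obtain ⟨s, hs, fin⟩ := Group.fg_iff.1 h
  have := fin.to_subtype
  have h1 : Function.Injective fun (f : FreeGroup G →* Z2) (x : s) => f x := fun f g e =>
    MonoidHom.eq_of_eqOn_dense hs fun x hx => congrFun e ⟨x, hx⟩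
  have := Finite.of_injective _ h1
  refine Finite.of_injective (fun x : G => (FreeGroup.lift fun y => if y = x then ofAdd 1 else 1 :
    FreeGroup G →* Z2)) fun x y e => ?_
  have := DFunLike.congr_fun e (FreeGroup.of x)
  by_contra n
  simp only [FreeGroup.lift_apply_of, if_true, if_neg n] at this
  revert this; decide

lemma BAS_ff {F G I : Type} [Group F] {A U : Subgroup F} {c : I → F} (h : FF A c U)
    (j : FreeGroup G →* F) (hj : Function.Injective j) (hr : j.range = A) :
    ∃ ι : FreeGroup (G ⊕ I) →* F, Function.Injective ι ∧ ι.range = U ∧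
      ∀ x, ι (FreeGroup.of (Sum.inl x)) = j (FreeGroup.of x) := by
  let ι : FreeGroup (G ⊕ I) →* F := FreeGroup.lift (Sum.elim (fun x => j (FreeGroup.of x)) c)
  have hA : Subgroup.closure (Set.range fun x => j (FreeGroup.of x)) = A := by
    rw [← hr, MonoidHom.range_eq_map, ← FreeGroup.closure_range_of, MonoidHom.map_closure,
      ← Set.range_comp]; rfl
  have hU : ι.range = U := by
    rw [FreeGroup.range_lift_eq_closure, Set.Sum.elim_range, Subgroup.closure_union, hA, h.1]
  refine ⟨ι, ?_, hU, fun x => by simp [ι]⟩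
  have e : ∀ x, Function.invFun j (j x) = x := Function.leftInverse_invFun hj
  obtain ⟨g, h1, h2, h3⟩ := h.2 (FreeGroup (G ⊕ I))
    (fun a => FreeGroup.map Sum.inl (Function.invFun j a)) (fun i => FreeGroup.of (Sum.inr i)) (by
      rw [← hr]
      rintro _ ⟨a, rfl⟩ _ ⟨b, rfl⟩
      simp only [← map_mul, e])
  have m : ∀ w, ι w ∈ U := fun w => hU ▸ ⟨w, rfl⟩
  have : (h1.hom.comp (ι.codRestrict U m)) = MonoidHom.id _ := by
    refine FreeGroup.ext_hom _ _ ?_
    rintro (x | i)
    · have : g (j (FreeGroup.of x)) = FreeGroup.of (Sum.inl x) := by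
        rw [h2 _ (hr ▸ ⟨_, rfl⟩), e, FreeGroup.map.of]
      simpa [ι] using this
    · simpa [ι] using h3 i
  exact Function.LeftInverse.injective (g := g) fun w => DFunLike.congr_fun this w

theorem p_BAS :
    S_BAS := by
  rintro X Ψ A U hA ⟨n, c, h⟩ ⟨n', c', h'⟩
  let G := IsFreeGroup.Generators A
  let e : FreeGroup G ≃* A := IsFreeGroup.mulEquiv A
  have : Group.FG A := (Group.fg_iff_subgroup_fg A).2 hA
  have : Finite G := BAS_fin (Group.fg_of_surjective (f := e.symm.toMonoidHom) e.symm.surjective)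
  let j : FreeGroup G →* FreeGroup X := A.subtype.comp e.toMonoidHom
  have hj : Function.Injective j := A.subtype_injective.comp e.injective
  have hr : j.range = A := by
    rw [MonoidHom.range_comp, MonoidHom.range_eq_top.2 e.surjective, ← MonoidHom.range_eq_map,
      Subgroup.range_subtype]
  obtain ⟨ι, i1, i2, i3⟩ := BAS_ff h j hj hr
  have hj' : Function.Injective (Ψ.toMonoidHom.comp j) := Ψ.injective.comp hj
  have hr' : (Ψ.toMonoidHom.comp j).range = im Ψ A := by rw [MonoidHom.range_comp, hr, im]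
  have iso : ∀ {I I' : Type} (ι : FreeGroup I →* FreeGroup X) (ι' : FreeGroup I' →* FreeGroup X),
      Function.Injective ι → Function.Injective ι' → ι.range = U → ι'.range = U →
      ∃ θ : FreeGroup I' ≃* FreeGroup I, ∀ w, ι (θ w) = ι' w := fun ι ι' a b a' b' =>
    ⟨(MonoidHom.ofInjective b).trans ((MulEquiv.subgroupCongr (b'.trans a'.symm)).trans
      (MonoidHom.ofInjective a).symm), fun w => by
        simp [MonoidHom.apply_ofInjective_symm, MonoidHom.ofInjective_apply]⟩
  obtain rfl : n = n' := by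
    obtain ⟨ι', k1, k2, -⟩ := BAS_ff h' _ hj' hr'
    obtain ⟨θ, -⟩ := iso ι ι' i1 k1 i2 k2
    have := Nat.card_congr (Equiv.ofFreeGroupEquiv θ)
    simp only [Nat.card_sum, Nat.card_eq_fintype_card, Fintype.card_fin] at this
    omega
  obtain ⟨ι', k1, k2, k3⟩ := BAS_ff h' _ hj' hr'
  obtain ⟨θ, hθ⟩ := iso ι ι' i1 k1 i2 k2
  refine ⟨G ⊕ Fin n, inferInstance, Set.range Sum.inl, ι, θ, i1, i2, ?_, fun a ha => ?_⟩
  · rw [FS, MonoidHom.map_closure, ← Set.range_comp, ← Set.range_comp, ← hr,
      MonoidHom.range_eq_map, ← FreeGroup.closure_range_of, MonoidHom.map_closure,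
      ← Set.range_comp]
    exact congrArg _ (congrArg _ (funext i3))
  · rw [hθ]
    refine (hm_hom ⊤ ι').ext_closure (hm_hom ⊤ (Ψ.toMonoidHom.comp ι)) le_top ?_ a ha
    rintro _ ⟨_, ⟨x, rfl⟩, rfl⟩
    exact (k3 x).trans (congrArg Ψ (i3 x).symm)

end Pool.Agent.P.MP_67c9d4_al.FR
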