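import Pool.Agent.P.MP_67c9d4_al.FR.Iface

/-! Step BIJ. -/

set_option autoImplicit false
set_option linter.unusedSectionVars false

namespace Pool.Agent.P.MP_67c9d4_al.FR

open Equiv Wr Multiplicative FC

theorem p_BIJ :
    S_BIJ := by
  intro P Y Y' _ _ _ M C M' C' ν hM hM'
  obtain ⟨e⟩ : Nonempty (P ≃ M) := Finite.card_eq.1 (by rw [Nat.card_coe_set_eq, hM])
  obtain ⟨e'⟩ : Nonempty (M' ≃ P) := Finite.card_eq.1 (by rw [Nat.card_coe_set_eq, hM'])
  let f : P ⊕ C ⊕ M' → P ⊕ Y ⊕ Y' := Sum.map id (Sum.map Subtype.val Subtype.val)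
  let g : P ⊕ C ⊕ M' → P ⊕ Y ⊕ Y' := Sum.elim (fun p => .inr (.inl (e p)))
    (Sum.elim (fun y => .inr (.inr (ν y))) fun y => .inl (e' y))
  obtain ⟨β, h⟩ := Perm.exists_extending_pair (f := f) (g := g)
    (Function.injective_id.sumMap (Subtype.val_injective.sumMap Subtype.val_injective)) (by
      rintro (a | a | a) (b | b | b) k <;> simp_all [g, Subtype.val_inj])
  refine ⟨β, fun p => ⟨_, (e p).2, h (.inl p)⟩, fun y => h (.inr (.inl y)),
    fun y hy => ⟨_, h (.inr (.inr ⟨y, hy⟩))⟩, fun q hq => ?_⟩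
  have k : ∀ a, β q ≠ g a := fun a c => by
    obtain rfl := β.injective (c.trans (h a).symm)
    rcases hq with ⟨y, hy, c⟩ | ⟨y, hy, c⟩ <;> rcases a with a | a | a <;> cases c
    exacts [hy a.2, hy a.2]
  rcases c : β q with p | y | y
  · exact (k (.inr (.inr (e'.symm p))) (by simp [g, c])).elim
  · exact .inl ⟨y, fun hy => k (.inl (e.symm ⟨y, hy⟩)) (by simp [g, c]), rfl⟩
  · exact .inr ⟨y, fun hy => k (.inr (.inl (ν.symm ⟨y, hy⟩))) (by simp [g, c]), rfl⟩

end Pool.Agent.P.MP_67c9d4_al.FR
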