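import Pool.Agent.P.MP_67c9d4_al.FR.Iface

/-! Step BJ. -/

set_option autoImplicit false
set_option linter.unusedSectionVars false

namespace Pool.Agent.P.MP_67c9d4_al.FR

open Equiv Wr Multiplicative FC

lemma BJ_words {X H W : Type} [Group H] [Group W] (d : AD X H W) (ok : d.Ok)
    (hp : ∀ h, (d.rho h).p = d.a2 h) (z : d.Y) (E : Subgroup W)
    (h : ∀ b ∈ d.B, ∀ p ∈ d.F1, ∀ x, (d.rho (lt x)).c ((d.a2 (b * p))⁻¹ z) ∈ E) :
    ∀ b ∈ d.B, (d.rho b).c z ∈ E := by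
  classical
  have key : ∀ a ∈ FS d.S, ∀ b ∈ d.B, (d.rho (d.Θ a)).c ((d.a2 b)⁻¹ z) ∈ E := by
    intro a ha
    induction ha using Subgroup.closure_induction with
    | mem a ha =>
      obtain ⟨y, hy, rfl⟩ := ha
      intro b hb
      have : ∀ L L', (d.Θ (FreeGroup.of y)).toWord = L ++ L' →
          (d.rho (FreeGroup.mk L)).c ((d.a2 b)⁻¹ z) ∈ E := by
        intro L
        induction L using List.reverseRecOn with
        | nil =>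
          intro _ _
          rw [mk_nil, map_one]
          exact E.one_mem
        | append_singleton L x ih =>
          intro L' e
          rw [List.append_assoc] at e
          rw [← FreeGroup.mul_mk, c_mul, hp, ← inv_mul_apply]
          exact E.mul_mem (ih _ e) (h b hb _ (ok.pre y hy ⟨L, _, e, rfl⟩) x)
      have := this _ [] (List.append_nil _).symm
      rwa [FreeGroup.mk_toWord] at this
    | one =>
      intro b _
      rw [map_one, map_one]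
      exact E.one_mem
    | mul a a' ha _ i i' =>
      intro b hb
      rw [map_mul d.Θ, c_mul, hp, ← inv_mul_apply]
      exact E.mul_mem (i b hb) (i' _ (d.B.mul_mem hb (apply_mem_im.2 ha)))
    | inv a ha i =>
      intro b hb
      have := c_inv d.rho (d.Θ a) ((d.a2 (b * (d.Θ a)⁻¹))⁻¹ z)
      rw [hp, ← inv_mul_apply, inv_mul_cancel_right] at this
      rw [map_inv d.Θ, this]
      exact E.inv_mem (i _ (d.B.mul_mem hb (d.B.inv_mem (apply_mem_im.2 ha))))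
  rintro _ ⟨a, ha, rfl⟩
  simpa using key a ha 1 d.B.one_mem

lemma BJ_pot (hLIFT : S_LIFT) (hPOT : S_POT) {X H W : Type} [Finite X] [Group H] [Group W]
    (d : AD X H W) (ok : d.Ok) (η : FreeGroup X →* Wr (FreeGroup X ⧸ d.N) Z2)
    (e1 : ∀ h, (η h).p = qa d.N h) (e2 : ∀ b ∈ d.B, ∀ y, (η b).c y = 1) {v v' h : FreeGroup X}
    (hv : d.Rg v) (hv' : d.Rg v') (e : (d.a1 h)⁻¹ (pt d.N v, 1) = (pt d.N v', 1)) :
    (η (v * h)).c (pt d.N 1) = (η v').c (pt d.N 1) := by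
  classical
  have km : ∀ g g', (η (g * g')).c (pt d.N 1) = (η g).c (pt d.N 1) * (η g').c (pt d.N g) :=
    fun g g' => by rw [c_mul, e1, qa_pt, one_mul]
  let ψ : FreeGroup X ⧸ d.N → Z2 := fun y =>
    if h : ∃ v, d.Rg v ∧ pt d.N v = y then (η h.choose).c (pt d.N 1) else 1
  have hψ : ∀ v, d.Rg v → ψ (pt d.N v) = (η v).c (pt d.N 1) := fun v hv => by
    have h : ∃ v', d.Rg v' ∧ pt d.N v' = pt d.N v := ⟨v, hv, rfl⟩
    obtain ⟨n, n1, n2, n3⟩ := (hLIFT X H W d ok).2.1 _ _ h.choose_spec.1 hv h.choose_spec.2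
    simp only [ψ, dif_pos h]
    conv_rhs => rw [n3, km, e2 n n2, one_mul,
      (pt_eq (g := n) (g' := 1)).2 (by simpa using n1)]
  have := hPOT X d.N d.Ins η ψ ok.fn e1 (by
    rintro _ y ⟨u, u1, u2, rfl⟩
    rw [qa_pt, hψ _ u1, hψ _ u2, km, ← mul_assoc, z2_mul_self, one_mul]) h _ _ e
  rw [km, this, hψ _ hv, hψ _ hv', ← mul_assoc, z2_mul_self, one_mul]

theorem p_BJ (hLIFT : S_LIFT) (hPOT : S_POT) (hINS : S_INS) (hEDGE : S_EDGE) :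
    S_BJ := by
  intro X _ S Θ F1 hF
  classical
  have ed := fun g => (em (g ∈ im Θ (FS S))).elim
    (fun h => ⟨∅, Set.finite_empty, fun h' => absurd h h'⟩)
    (fun h => (hEDGE X S Θ g h).imp fun R hR => (⟨hR.1, fun _ : g ∉ im Θ (FS S) => hR.2⟩ : _ ∧ _))
  choose RE fE hE using ed
  let G := Set.image2 (fun u p => u * p⁻¹) F1 F1
  have fG : G.Finite := hF.image2 _ hF
  let R0 := ⋃ g ∈ G, RE g
  have f0 : R0.Finite := fG.biUnion fun g _ => fE g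
  let R1 := ⋃ g ∈ G, Θ '' Pre (Θ⁻¹ g)
  have f1 : R1.Finite := fG.biUnion fun g _ => (pre_finite _).image _
  let Bs := Set.image2 (fun r r' => r * r'⁻¹) R0 R1
  have fB : Bs.Finite := f0.image2 _ f1
  let R2 := Set.image2 (· * ·) Bs F1
  have f2 : R2.Finite := fB.image2 _ hF
  let R3 := Set.image2 (fun g x => g * lt x) R2 (Set.univ : Set (X × Bool))
  have f3 : R3.Finite := f2.image2 _ Set.finite_univ
  refine ⟨F1 ∪ (R0 ∪ (Bs ∪ (R2 ∪ R3))), hF.union (f0.union (fB.union (f2.union f3))), ?_⟩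
  intro H W _ _ d e1 e2 e3 ok dp z hz
  subst e1 e2 e3
  obtain ⟨i1, i2, i3, i4, i5⟩ := hINS X H W d ok
  obtain ⟨-, l2, l3, -, l5, -⟩ := hLIFT X H W d ok
  by_cases h : ∃ b ∈ d.B, ∃ p ∈ d.F1, ∃ v, d.Rg v ∧ (d.a2 (b * p))⁻¹ z = d.z0 v
  swap
  · refine ⟨1, BJ_words d ok i3 z _ fun b hb p hp x => ?_⟩
    by_contra c
    obtain ⟨v, v1, -, v2⟩ := i2 _ x fun e => c (by rw [e]; exact Subgroup.one_mem _)
    exact h ⟨b, hb, p, hp, v, v1, v2⟩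
  obtain ⟨b0, hb0, p0, hp0, _, ⟨h0, hh0, u0, hu0, rfl⟩, a0⟩ := h
  have a0' : (d.a1 (b0 * p0))⁻¹ z.1 = (pt d.N (h0 * u0), 1) := by rw [← i4, a0]; rfl
  have g0 : u0 * p0⁻¹ ∉ d.B := fun c => by
    refine hz (h0 * (u0 * p0⁻¹) * b0⁻¹) (d.B.mul_mem (d.B.mul_mem hh0 c) (d.B.inv_mem hb0)) ?_
    have := congrArg Prod.fst a0'
    rw [i5, Perm.inv_eq_iff_eq, qa_pt'] at this
    rw [this]
    congr 1
    group
  have s0 : ∀ r ∈ RE (u0 * p0⁻¹), r ∈ R0 := fun r hr =>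
    Set.mem_biUnion (Set.mem_image2_of_mem hu0 hp0) hr
  obtain ⟨η, r0, hr0, k1, k2, k3, k4⟩ := hE _ g0 d.N ok.fn.1
    (fun r hr => (dp r (Or.inr (Or.inl (s0 r hr)))).1) (pt d.N h0)
  have km : ∀ g g', (η (g * g')).c (pt d.N 1) = (η g).c (pt d.N 1) * (η g').c (pt d.N g) :=
    fun g g' => by rw [c_mul, k1, qa_pt, one_mul]
  refine ⟨d.s (d.pos (h0 * u0)), BJ_words d ok i3 z _ fun b1 hb1 p1 hp1 x => ?_⟩
  by_cases c : (d.rho (lt x)).c ((d.a2 (b1 * p1))⁻¹ z) = 1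
  · exact c ▸ Subgroup.one_mem _
  obtain ⟨v1, hv1, hv1', a1⟩ := i2 _ x c
  rw [a1, (i1 v1 x hv1 hv1').2.2]
  obtain ⟨h1, hh1, u1, hu1, rfl⟩ := id hv1
  have a1' : (d.a1 (b1 * p1))⁻¹ z.1 = (pt d.N (h1 * u1), 1) := by rw [← i4, a1]; rfl
  have e : (d.a1 ((b0 * p0)⁻¹ * (b1 * p1)))⁻¹ (pt d.N (h0 * u0), 1) = (pt d.N (h1 * u1), 1) := by
    rw [← a0', ← inv_mul_apply, mul_inv_cancel_left, a1']
  have q1 := BJ_pot hLIFT hPOT d ok η k1 k2 ⟨h0, hh0, u0, hu0, rfl⟩ hv1 e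
  have q2 := congrArg Prod.fst e
  rw [i5, qa_pt] at q2
  have q3 : (η (u1 * p1⁻¹)).c (pt d.N h1) = (η (u0 * p0⁻¹)).c (pt d.N h0) := by
    have t1 := km (h1 * u1) p1⁻¹
    rw [← q1, ← show _ = pt d.N (h1 * u1) from q2, ← km, mul_assoc h1, km, k2 h1 hh1, one_mul,
      show h0 * u0 * ((b0 * p0)⁻¹ * (b1 * p1)) * p1⁻¹ = h0 * (u0 * p0⁻¹) * (b0⁻¹ * b1) by group,
      km, k2 _ (d.B.mul_mem (d.B.inv_mem hb0) hb1), mul_one, km, k2 h0 hh0, one_mul] at t1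
    exact t1
  obtain ⟨r1, hr1, q4⟩ := k4 _ _ (q3 ▸ k3)
  rw [qa_pt, qa_pt, eq_comm, pt_eq] at q4
  have m1 : r0 * r1⁻¹ ∈ Bs := Set.mem_image2_of_mem (s0 r0 hr0)
    (Set.mem_biUnion (Set.mem_image2_of_mem hu1 hp1) hr1)
  have bs : r0 * r1⁻¹ ∈ d.B := (dp _ (Or.inr (Or.inr (Or.inl m1)))).2 (by
    rw [show r0 * r1⁻¹ = h0⁻¹ * (h0 * r0 * (h1 * r1)⁻¹) * h1 by group]
    exact Subgroup.mul_mem _ (Subgroup.mul_mem _ (Subgroup.mem_sup_left (d.B.inv_mem hh0))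
      (Subgroup.mem_sup_right q4)) (Subgroup.mem_sup_left hh1))
  obtain ⟨n, n1, n2, n3⟩ := l2 (h0 * (r0 * r1⁻¹) * u1) _ ⟨_, d.B.mul_mem hh0 bs, u1, hu1, rfl⟩ hv1
    (pt_eq.2 (by convert q4 using 1; group))
  have m2 : r0 * r1⁻¹ * u1 ∈ R2 := Set.mem_image2_of_mem m1 hu1
  have m3 : r0 * r1⁻¹ * u1 * lt x ∈ R3 := Set.mem_image2_of_mem m2 (Set.mem_univ x)
  have key : ∀ g ∈ d.F1 ∪ (R0 ∪ (Bs ∪ (R2 ∪ R3))), d.w (h0 * u0) (h0 * g) ∈
      cj (d.s (d.pos (h0 * u0))) (d.EQ (d.F1 ∪ (R0 ∪ (Bs ∪ (R2 ∪ R3))))) := fun g hg => by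
    have t : ∀ g, d.pos (h0 * g) = d.τ h0 * d.pos g := fun g => by
      simpa using ok.eqv h0 hh0 1 d.A.one_mem g
    rw [l5 _ _ ((d.pos u0)⁻¹ * d.pos g) (by rw [t, t]; group), conj_mem_cj]
    exact Subgroup.subset_closure ⟨_, ⟨u0, Or.inl hu0, g, hg, rfl⟩, rfl⟩
  have := Subgroup.mul_mem _ (Subgroup.inv_mem _ (key _ (Or.inr (Or.inr (Or.inr (Or.inl m2))))))
    (key _ (Or.inr (Or.inr (Or.inr (Or.inr m3)))))
  rw [n3, mul_assoc n, l3 n n1 n2]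
  convert this using 1
  simp only [AD.w, mul_assoc, mul_inv_rev, inv_inv, mul_inv_cancel_left]

end Pool.Agent.P.MP_67c9d4_al.FR
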