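import Pool.Agent.P.MP_67c9d4_al.FR.Iface

/-! Step BM. -/

set_option autoImplicit false
set_option linter.unusedSectionVars false

namespace Pool.Agent.P.MP_67c9d4_al.FR

open Equiv Wr Multiplicative FC

section
variable {X H W : Type} [Group H] [Group W] (d : AD X H W)

/-- Reading `h` from the states over `v`. -/
def BM_P (v h : FreeGroup X) : Prop :=
  (d.a2 h)⁻¹ (d.z0 v) = d.z0 (v * h) ∧ (d.rho h).c (d.z0 v) = d.w v (v * h) ∧
    ∀ z : d.Y, z.1.1 = pt d.N v → z ≠ d.z0 v → (d.rho h).c z = 1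

variable {d}

lemma BM_one (v : FreeGroup X) : BM_P d v 1 :=
  ⟨by simp, by rw [map_one, mul_one, AD.w, inv_mul_cancel]; rfl, fun z _ _ => by
    rw [map_one]; rfl⟩

lemma BM_mul (hp : ∀ h, (d.rho h).p = d.a2 h)
    (hq : ∀ h (z : d.Y), ((d.a2 h)⁻¹ z).1.1 = (qa d.N h)⁻¹ z.1.1) {v g h : FreeGroup X}
    (h1 : BM_P d v g) (h2 : BM_P d (v * g) h) : BM_P d v (g * h) := by
  refine ⟨by rw [inv_mul_apply, h1.1, h2.1, mul_assoc], ?_, fun z e ne => ?_⟩
  · rw [c_mul, hp, h1.1, h1.2.1, h2.2.1, mul_assoc v]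
    simp only [AD.w]
    group
  · rw [c_mul, hp, h1.2.2 z e ne, one_mul]
    refine h2.2.2 _ (by rw [hq, e, qa_pt]) fun e' => ne ?_
    exact (d.a2 g)⁻¹.injective (e'.trans h1.1.symm)

lemma BM_inv (hp : ∀ h, (d.rho h).p = d.a2 h)
    (hq : ∀ h (z : d.Y), ((d.a2 h)⁻¹ z).1.1 = (qa d.N h)⁻¹ z.1.1) {v h : FreeGroup X}
    (h1 : BM_P d v h) : BM_P d (v * h) h⁻¹ := by
  refine ⟨?_, ?_, fun z e ne => ?_⟩
  · rw [← h1.1, ← inv_mul_apply, mul_inv_cancel, mul_inv_cancel_right]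
    simp
  · rw [← h1.1, ← hp, c_inv, h1.2.1, mul_inv_cancel_right]
    simp only [AD.w]
    group
  · have e1 : (d.a2 h)⁻¹ (d.a2 h z) = z := by simp
    rw [← e1, ← hp, c_inv, hp, h1.2.2 _ ?_ fun e' => ne ?_, inv_one]
    · refine (qa d.N h)⁻¹.injective ?_
      rw [← hq, e1, e, qa_pt]
    · rw [← e1, e', h1.1]

end

theorem p_BM (hLIFT : S_LIFT) (hINS : S_INS) :
    S_BM := by
  classical
  intro X H W _ _ _ d ok
  obtain ⟨i1, i2, hp, i4, i5⟩ := hINS X H W d ok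
  have hq : ∀ h (z : d.Y), ((d.a2 h)⁻¹ z).1.1 = (qa d.N h)⁻¹ z.1.1 := fun h z => by
    rw [i4, i5]
  have word : ∀ (L : List (X × Bool)) (v : FreeGroup X),
      (∀ L₁ L₂, L = L₁ ++ L₂ → d.Rg (v * FreeGroup.mk L₁)) → BM_P d v (FreeGroup.mk L) := by
    intro L
    induction L with
    | nil => exact fun v _ => BM_one v
    | cons x L ih =>
      intro v h
      have r0 : d.Rg v := by simpa [← FreeGroup.one_eq_mk] using h [] _ rfl
      obtain ⟨-, a, b⟩ := i1 v x r0 (h [x] L rfl)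
      rw [mk_cons]
      refine BM_mul hp hq ⟨a 1, b, fun z e ne => ?_⟩ (ih _ fun L₁ L₂ e => ?_)
      · by_contra hc
        obtain ⟨v', -, -, rfl⟩ := i2 z x hc
        exact ne (congrArg (fun p => ((p, 1), 1)) e)
      · rw [mul_assoc, ← mk_cons]
        exact h (x :: L₁) L₂ (by rw [e]; rfl)
  have mem : ∀ a ∈ FS d.S, d.Θ a ∈ d.B := fun a ha => ⟨a, ha, rfl⟩
  have key : ∀ a ∈ FS d.S, ∀ b ∈ d.B, BM_P d b (d.Θ a) := by
    intro a ha
    induction ha using Subgroup.closure_induction with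
    | mem a ha =>
      obtain ⟨y, hy, rfl⟩ := ha
      intro b hb
      rw [← FreeGroup.mk_toWord (x := d.Θ (FreeGroup.of y))]
      exact word _ b fun L₁ L₂ e => ⟨b, hb, _, ok.pre y hy ⟨L₁, L₂, by convert e, rfl⟩, rfl⟩
    | one => exact fun b _ => by rw [map_one]; exact BM_one b
    | mul a a' ha _ h h' =>
      exact fun b hb => map_mul d.Θ a a' ▸
        BM_mul hp hq (h b hb) (h' _ (d.B.mul_mem hb (mem a ha)))
    | inv a ha h =>
      intro b hb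
      have := BM_inv hp hq (h _ (d.B.mul_mem hb (d.B.inv_mem (mem a ha))))
      rwa [inv_mul_cancel_right, ← map_inv] at this
  refine ⟨fun b hb _ ⟨a, ha, e⟩ => e ▸ (key a ha b hb).2.1, ?_⟩
  rintro z ⟨b, hb, e⟩ ne _ ⟨a, ha, rfl⟩
  exact (key a ha b hb).2.2 z e (ne b hb)

end Pool.Agent.P.MP_67c9d4_al.FR
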