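import Pool.Agent.P.MP_67c9d4_al.FR.Iface

/-! Step BOTH. -/

set_option autoImplicit false
set_option linter.unusedSectionVars false

namespace Pool.Agent.P.MP_67c9d4_al.FR

open Equiv Wr Multiplicative FC

theorem p_BOTH (hMINI : S_MINI) (hTREE : S_TREE) (hFULL : S_FULL) :
    S_BOTH := by
  intro X Φ A₀ h0 g0
  classical
  have hex : ∃ m, ∃ A : Subgroup (FreeGroup X), A.FG ∧ Gt Φ A ∧ Gn A (Vk Φ A 1) m := by
    obtain ⟨s, hs⟩ := Vk_fg (Φ := Φ) h0 1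
    have := gn_of_fintype (A := A₀) (Subtype.val : s → FreeGroup X) le_rfl
    rw [Subtype.range_coe_subtype, Finset.setOfPred_mem, hs, sup_eq_right.2 (le_Vk 1)] at this
    exact ⟨_, A₀, h0, g0, this⟩
  obtain ⟨A₁, h1, g1, n1⟩ := Nat.find_spec hex
  obtain ⟨S, -, hS, cS, e1⟩ := hFULL X {1} A₁ (Set.finite_singleton _) cn_one h1
  have hfin : {A | LS S A = A ∧ Gt Φ A ∧ Gn A (Vk Φ A 1) (Nat.find hex)}.Finite :=
    ((hS.image2 (fun p q => p * q⁻¹) hS).finite_subsets.image Subgroup.closure).subset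
      fun A hA => ⟨{g | g ∈ A ∧ ∃ p ∈ S, ∃ q ∈ S, g = p * q⁻¹},
        fun g ⟨_, p, hp, q, hq, e⟩ => ⟨p, hp, q, hq, e.symm⟩, hA.1⟩
  obtain ⟨A, ⟨eA, gA, b, hb⟩, hmax⟩ := hfin.exists_maximal ⟨A₁, e1, g1, n1⟩
  have hA : A.FG := eA ▸ LS_fg hS A
  have eU : im Φ (im Φ⁻¹ (Vk Φ A 1)) = Vk Φ A 1 := by rw [im_im, mul_inv_cancel, im_one]
  have l1 : A ≤ LS S (im Φ⁻¹ (Vk Φ A 1)) := eA.ge.trans (LS_mono le_rfl fun x hx =>
    mem_im.2 (Vk_one.ge (Subgroup.mem_sup_right (apply_mem_im.2 hx))))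
  have l2 := hmax (y := LS S (im Φ⁻¹ (Vk Φ A 1))) ⟨LS_LS _ _, gA.mono l1, b, by
    rw [Vk_one (A := LS S _)]
    refine le_antisymm (sup_le le_sup_left (((im_mono (LS_le _ _)).trans (eU.trans hb).le).trans
      (sup_le_sup_right l1 _))) (sup_le le_sup_left ?_)
    exact (le_sup_right.trans (hb.symm.trans Vk_one).le).trans (sup_le_sup l1 (im_mono l1))⟩ l1
  refine ⟨A, _, b, hA, gA, fun k => ?_, ?_⟩
  · rw [← Vk_Vk]
    refine hMINI X Φ _ (fun B m h2 h3 h4 => Nat.find_min' hex ⟨B, h2, h3, h4⟩) _ (Vk_fg hA k)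
      (gA.mono (le_Vk k)) _ ?_
    have e2 := congrArg (im (Φ ^ k)) (Vk_one.symm.trans hb)
    rw [im_sup, im_sup, im_im, ← pow_succ, im.eq_1 _ (Subgroup.closure _), MonoidHom.map_closure,
      ← Set.range_comp] at e2
    rw [Vk_Vk, Vk_succ, ← sup_eq_left.2 (im_le_Vk (Φ := Φ) (A := A) (le_refl k)), sup_assoc, e2,
      sup_assoc]
    rfl
  · have := (hTREE X S _ hS cS (im_fg (Φ := Φ⁻¹) (Vk_fg (Φ := Φ) hA 1))).im Φ
    rwa [eU, le_antisymm l2 l1] at this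

end Pool.Agent.P.MP_67c9d4_al.FR
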