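import Pool.Agent.P.MP_67c9d4_al.FR.Iface

/-! Step BOUND. -/

set_option autoImplicit false
set_option linter.unusedSectionVars false

namespace Pool.Agent.P.MP_67c9d4_al.FR

open Equiv Wr Multiplicative FC

section
variable {F : Type} [Group F]

open Classical in
/-- Replace the new vertex `ν` by the known point `q`. -/
noncomputable def BOUND_sub (ν : ℕ) (q : F) (a : F ⊕ ℕ) : F ⊕ ℕ :=
  if a = Sum.inr ν then Sum.inl q else a

/-- The same on edges. -/
noncomputable def BOUND_subE (ν : ℕ) (q : F) (e : Ed F) : Ed F :=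
  (BOUND_sub ν q e.1, e.2.1, BOUND_sub ν q e.2.2)

lemma BOUND_elim (ν : ℕ) (q : F) (π : ℕ → F) (a : F ⊕ ℕ) :
    Sum.elim id π (BOUND_sub ν q a) = Sum.elim id (Function.update π ν q) a := by
  unfold BOUND_sub
  split_ifs with h
  · subst h; simp
  · cases a with
    | inl p => rfl
    | inr m =>
      have : m ≠ ν := fun e => h (by rw [e])
      simp [Function.update_of_ne this]

lemma BOUND_el (ν : ℕ) (q : F) (π : ℕ → F) (e : Ed F) :
    el π (BOUND_subE ν q e) = el (Function.update π ν q) e := by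
  simp only [el, BOUND_subE, BOUND_elim]

lemma BOUND_inr {ν m : ℕ} {q : F} {a : F ⊕ ℕ} (h : BOUND_sub ν q a = Sum.inr m) :
    a = Sum.inr m ∧ m ≠ ν := by
  unfold BOUND_sub at h
  split_ifs at h with h'
  exact ⟨h, fun e => h' (by rw [h, e])⟩

lemma BOUND_base (A V : Subgroup F) (E : List (Ed F)) (hAV : A ≤ V) (hS : Spans A V E)
    (hF : Fits V E) : Gn A V E.length := by
  obtain ⟨π, hπ⟩ := hF
  refine ⟨fun i => el π (E.get i), le_antisymm ?_ ?_⟩
  · refine hS _ le_sup_left π fun e he => ?_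
    obtain ⟨i, rfl⟩ := List.get_of_mem he
    exact Subgroup.mem_sup_right (Subgroup.subset_closure ⟨i, rfl⟩)
  · refine sup_le hAV ((Subgroup.closure_le _).2 ?_)
    rintro _ ⟨i, rfl⟩
    exact hπ _ (List.get_mem E i)

lemma BOUND_cross {R : F ⊕ ℕ → F ⊕ ℕ → Prop} {p : F} {b : F ⊕ ℕ}
    (h : Relation.ReflTransGen R (Sum.inl p) b) :
    (∃ q, b = Sum.inl q) ∨ ∃ q m, R (Sum.inl q) (Sum.inr m) := by
  induction h with
  | refl => exact Or.inl ⟨p, rfl⟩
  | @tail b c _ hbc ih =>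
    rcases ih with ⟨q, rfl⟩ | h
    · cases c with
      | inl r => exact Or.inl ⟨r, rfl⟩
      | inr m => exact Or.inr ⟨q, m, hbc⟩
    · exact Or.inr h

lemma BOUND_step (A V : Subgroup F) (s t : List (Ed F)) (e : Ed F) (N : Finset ℕ) (ν : ℕ) (q : F)
    (h1 : ∀ π : ℕ → F, π ν = q → el π e = 1)
    (h2 : ∀ π : ℕ → F, el π e ∈ V → q * (π ν)⁻¹ ∈ V)
    (h3 : (∃ r, BOUND_sub ν q e.1 = Sum.inl r) ∧ ∃ r, BOUND_sub ν q e.2.2 = Sum.inl r)
    (hS : Spans A V (s ++ e :: t)) (hF : Fits V (s ++ e :: t)) (hC : Conn (s ++ e :: t) N) :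
    Spans A V ((s ++ t).map (BOUND_subE ν q)) ∧ Fits V ((s ++ t).map (BOUND_subE ν q)) ∧
      Conn ((s ++ t).map (BOUND_subE ν q)) (N.erase ν) := by
  have hsub : ∀ e' ∈ s ++ t, e' ∈ s ++ e :: t := fun e' h => by
    simp only [List.mem_append, List.mem_cons] at h ⊢; tauto
  have hcase : ∀ e' ∈ s ++ e :: t, e' = e ∨ e' ∈ s ++ t := fun e' h => by
    simp only [List.mem_append, List.mem_cons] at h ⊢; tauto
  refine ⟨fun H hA π hπ => hS H hA (Function.update π ν q) fun e' he' => ?_, ?_, ?_, ?_⟩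
  · rcases hcase e' he' with rfl | h
    · rw [h1 _ (Function.update_self _ _ _)]; exact H.one_mem
    · rw [← BOUND_el]; exact hπ _ (List.mem_map_of_mem h)
  · obtain ⟨π, hπ⟩ := hF
    have hq := h2 π (hπ e (by simp))
    have hu : ∀ a : F ⊕ ℕ, ∃ u ∈ V,
        Sum.elim id (Function.update π ν q) a = u * Sum.elim id π a := by
      intro a
      cases a with
      | inl p => exact ⟨1, V.one_mem, by simp⟩
      | inr m =>
        by_cases hm : m = ν
        · subst hm; exact ⟨_, hq, by simp⟩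
        · exact ⟨1, V.one_mem, by simp [Function.update_of_ne hm]⟩
    refine ⟨π, fun e'' he'' => ?_⟩
    obtain ⟨e', he', rfl⟩ := List.mem_map.1 he''
    obtain ⟨u, hu1, hu2⟩ := hu e'.1
    obtain ⟨v, hv1, hv2⟩ := hu e'.2.2
    have : el π (BOUND_subE ν q e') = u * el π e' * v⁻¹ := by
      rw [BOUND_el]; simp only [el, hu2, hv2]; group
    rw [this]
    exact V.mul_mem (V.mul_mem hu1 (hπ e' (hsub e' he'))) (V.inv_mem hv1)
  · intro e'' he'' m hm
    obtain ⟨e', he', rfl⟩ := List.mem_map.1 he''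
    rcases hm with hm | hm
    · obtain ⟨a, b⟩ := BOUND_inr hm
      exact Finset.mem_erase.2 ⟨b, hC.1 e' (hsub e' he') m (Or.inl a)⟩
    · obtain ⟨a, b⟩ := BOUND_inr hm
      exact Finset.mem_erase.2 ⟨b, hC.1 e' (hsub e' he') m (Or.inr a)⟩
  · intro m hm
    obtain ⟨hne, hmN⟩ := Finset.mem_erase.1 hm
    obtain ⟨p, hp⟩ := hC.2 m hmN
    have key : ∀ b, Relation.ReflTransGen
        (fun a b => ∃ e' ∈ s ++ e :: t, e'.1 = a ∧ e'.2.2 = b ∨ e'.1 = b ∧ e'.2.2 = a)
        (Sum.inl p) b → ∃ p', Relation.ReflTransGen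
        (fun a b => ∃ e' ∈ (s ++ t).map (BOUND_subE ν q),
          e'.1 = a ∧ e'.2.2 = b ∨ e'.1 = b ∧ e'.2.2 = a) (Sum.inl p') (BOUND_sub ν q b) := by
      intro b hb
      induction hb with
      | refl =>
        refine ⟨p, ?_⟩
        have : BOUND_sub ν q (Sum.inl p) = Sum.inl p := if_neg (by simp)
        rw [this]
      | @tail b c _ hbc ih =>
        obtain ⟨e', he', hh⟩ := hbc
        rcases hcase e' he' with rfl | h
        · rcases hh with ⟨_, rfl⟩ | ⟨rfl, _⟩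
          · obtain ⟨r, hr⟩ := h3.2
            exact ⟨r, by rw [hr]⟩
          · obtain ⟨r, hr⟩ := h3.1
            exact ⟨r, by rw [hr]⟩
        · obtain ⟨p', hp'⟩ := ih
          refine ⟨p', hp'.tail ⟨BOUND_subE ν q e', List.mem_map_of_mem h, ?_⟩⟩
          rcases hh with ⟨rfl, rfl⟩ | ⟨rfl, rfl⟩
          · exact Or.inl ⟨rfl, rfl⟩
          · exact Or.inr ⟨rfl, rfl⟩
    obtain ⟨p', hp'⟩ := key _ hp
    have : BOUND_sub ν q (Sum.inr m) = Sum.inr m :=
      if_neg (fun h => hne (Sum.inr_injective h))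
    rw [this] at hp'
    exact ⟨p', hp'⟩

lemma BOUND_main (A V : Subgroup F) (hAV : A ≤ V) : ∀ (n : ℕ) (E : List (Ed F)) (N : Finset ℕ),
    N.card = n → Spans A V E → Fits V E → Conn E N → n ≤ E.length ∧ Gn A V (E.length - n) := by
  intro n
  induction n with
  | zero => exact fun E N _ hS hF _ => ⟨Nat.zero_le _, BOUND_base A V E hAV hS hF⟩
  | succ n ih =>
    intro E N hN hS hF hC
    obtain ⟨m, hm⟩ : N.Nonempty := Finset.card_pos.1 (by omega)
    obtain ⟨p₀, hp₀⟩ := hC.2 m hm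
    rcases BOUND_cross hp₀ with ⟨r, hr⟩ | ⟨p, ν, e, he, hh⟩
    · cases hr
    have hν : ν ∈ N := hC.1 e he ν (by tauto)
    obtain ⟨s, t, rfl⟩ := List.append_of_mem he
    have hl : ∀ q : F, BOUND_sub ν q (Sum.inl p) = Sum.inl p := fun q => if_neg (by simp)
    have hr : ∀ q : F, BOUND_sub ν q (Sum.inr ν) = Sum.inl q := fun q => if_pos rfl
    have : ∃ q : F, (∀ π : ℕ → F, π ν = q → el π e = 1) ∧
        (∀ π : ℕ → F, el π e ∈ V → q * (π ν)⁻¹ ∈ V) ∧
        ((∃ r, BOUND_sub ν q e.1 = Sum.inl r) ∧ ∃ r, BOUND_sub ν q e.2.2 = Sum.inl r) := by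
      rcases hh with ⟨a, b⟩ | ⟨a, b⟩
      · refine ⟨p * e.2.1, fun π h => ?_, fun π h => ?_, ⟨_, by rw [a, hl]⟩, ⟨_, by rw [b, hr]⟩⟩
        · simp [el, a, b, h]
        · simpa [el, a, b] using h
      · refine ⟨p * e.2.1⁻¹, fun π h => ?_, fun π h => ?_, ⟨_, by rw [a, hr]⟩, ⟨_, by rw [b, hl]⟩⟩
        · simp [el, a, b, h]
        · have := V.inv_mem h
          simpa [el, a, b, mul_assoc] using this
    obtain ⟨q, h1, h2, h3⟩ := this
    obtain ⟨k1, k2, k3⟩ := BOUND_step A V s t e N ν q h1 h2 h3 hS hF hC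
    obtain ⟨l1, l2⟩ := ih _ (N.erase ν) (by rw [Finset.card_erase_of_mem hν]; omega) k1 k2 k3
    simp only [List.length_map, List.length_append, List.length_cons] at l1 l2 ⊢
    refine ⟨by omega, ?_⟩
    have : s.length + (t.length + 1) - (n + 1) = s.length + t.length - n := by omega
    rw [this]; exact l2

end

theorem p_BOUND :
    S_BOUND := by
  intro F _ A V E N hAV hS hF hC
  exact BOUND_main A V hAV _ E N rfl hS hF hC

end Pool.Agent.P.MP_67c9d4_al.FR
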