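import Pool.Agent.P.MP_67c9d4_al.FR.Iface

/-! Step CMPA. -/

set_option autoImplicit false
set_option linter.unusedSectionVars false

namespace Pool.Agent.P.MP_67c9d4_al.FR

open Equiv Wr Multiplicative FC

lemma CMPA_fin (G : Type) [Group G] [h : Group.FG G] : Finite (G →* Z2) := by
  obtain ⟨s, hs, hf⟩ := Group.fg_iff.1 h
  have := hf.to_subtype
  refine Finite.of_injective (fun (f : G →* Z2) (x : s) => f x) fun f g e => ?_
  exact MonoidHom.eq_of_eqOn_dense hs fun x hx => congrFun e ⟨x, hx⟩

lemma CMPA_nt (G : Type) [Group G] [IsFreeGroup G] [Nontrivial G] : ∃ χ : G →* Z2, χ ≠ 1 := by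
  by_cases h : Nonempty (IsFreeGroup.Generators G)
  · obtain ⟨a⟩ := h
    refine ⟨IsFreeGroup.lift fun _ => ofAdd 1, fun e => ?_⟩
    have := DFunLike.congr_fun e (IsFreeGroup.of a)
    rw [IsFreeGroup.lift_of, MonoidHom.one_apply] at this
    exact absurd this (by decide)
  · obtain ⟨x, hx⟩ := exists_ne (1 : G)
    have : MonoidHom.id G = 1 := IsFreeGroup.ext_hom fun a => (h ⟨a⟩).elim
    exact absurd (DFunLike.congr_fun this x) hx

lemma CMPA_fg (G : Type) [Group G] [IsFreeGroup G] [Finite (G →* Z2)] : Group.FG G := by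
  classical
  have h1 : Finite (IsFreeGroup.Generators G → Z2) := Finite.of_equiv _ IsFreeGroup.lift.symm
  have h2 : Finite (IsFreeGroup.Generators G) :=
    Finite.of_injective (fun a => (Pi.mulSingle a (ofAdd 1) : IsFreeGroup.Generators G → Z2))
      fun a b e => by
        by_contra hne
        have := congrFun e a
        simp only [Pi.mulSingle_eq_same, Pi.mulSingle_eq_of_ne hne] at this
        exact absurd this (by decide)
  exact Group.fg_of_surjective (f := (IsFreeGroup.mulEquiv G).toMonoidHom)
    (IsFreeGroup.mulEquiv G).surjective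

theorem p_CMPA :
    S_CMPA := by
  classical
  intro X E A D hA hD
  have := (Group.fg_iff_subgroup_fg A).2 hA
  have h1 := CMPA_fin A
  let res : (A →* Z2) →* (∀ e, D e →* Z2) :=
    MonoidHom.mk' (fun χ e => χ.comp (Subgroup.inclusion (hD.le e))) fun _ _ => rfl
  have hs : Function.Surjective res := fun χ => by
    choose g hg hg' using fun e => exists_hm (χ e)
    obtain ⟨ψ, hψ, h⟩ := hD.ext Z2 g hg
    refine ⟨hψ.hom, funext fun e => MonoidHom.ext fun d => ?_⟩
    obtain ⟨k, hk⟩ := h e
    change ψ d = _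
    rw [hk d d.2, mul_inv_cancel_comm, hg']
  have h2 : Finite (∀ e, D e →* Z2) := Finite.of_surjective _ hs
  have h3 : ∀ e, ∃ χ : D e →* Z2, χ ≠ 1 := fun e =>
    have := (Subgroup.nontrivial_iff_ne_bot _).2 (hD.ne e)
    CMPA_nt _
  choose χ hχ using h3
  have hi : Function.Injective fun e => (Pi.mulSingle e (χ e) : ∀ e, D e →* Z2) := fun a b e => by
    by_contra hne
    have := congrFun e a
    simp only [Pi.mulSingle_eq_same, Pi.mulSingle_eq_of_ne hne] at this
    exact hχ a this
  refine ⟨h1, Finite.of_injective _ hi, (Nat.card_le_card_of_injective _ hi).trans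
    (Nat.card_le_card_of_surjective _ hs), fun e => ?_, ?_⟩
  · have : Finite (D e →* Z2) :=
      Finite.of_injective _ (Pi.mulSingle_injective (M := fun e => D e →* Z2) e)
    exact (Group.fg_iff_subgroup_fg _).1 (CMPA_fg _)
  · have hk : Zs A D = (res.ker : Set (A →* Z2)) := by
      ext ψ
      exact ⟨fun h => funext fun e => MonoidHom.ext fun d => h e _ d.2,
        fun h e d hd => DFunLike.congr_fun (congrFun h e) ⟨d, hd⟩⟩
    rw [Subgroup.card_eq_card_quotient_mul_card_subgroup res.ker, mul_comm, hk,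
      Nat.card_congr (QuotientGroup.quotientKerEquivOfSurjective res hs).toEquiv]
    rfl

end Pool.Agent.P.MP_67c9d4_al.FR
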