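import Pool.Agent.P.MP_67c9d4_al.FR.Iface

/-! Step CMPB. -/

set_option autoImplicit false
set_option linter.unusedSectionVars false

namespace Pool.Agent.P.MP_67c9d4_al.FR

open Equiv Wr Multiplicative FC

lemma CMPB_fin {Q : Type} [Group Q] [IsFreeGroup Q] (h : Group.FG Q) :
    Finite (IsFreeGroup.Generators Q) := by
  classical
  obtain ⟨S, hS, hf⟩ := Group.fg_iff.1 h
  have := hf.to_subtype
  have : Finite (Q →* Z2) := Finite.of_injective (fun (χ : Q →* Z2) (s : S) => χ s)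
    fun χ χ' e => MonoidHom.eq_of_eqOn_dense hS fun x hx => congrFun e ⟨x, hx⟩
  have : Finite (IsFreeGroup.Generators Q → Z2) := Finite.of_equiv _ IsFreeGroup.lift.symm
  refine Finite.of_injective
    (fun x : IsFreeGroup.Generators Q => (Pi.mulSingle x (ofAdd 1) : _ → Z2)) fun x y e => ?_
  by_contra n
  have := congrFun e x
  simp only [Pi.mulSingle_eq_same, Pi.mulSingle_eq_of_ne n] at this
  exact absurd this (by decide)

lemma CMPB_surj {P Q : Type} [Group P] [Group Q] [IsFreeGroup P] [IsFreeGroup Q]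
    (hP : Group.FG P) (hQ : Group.FG Q)
    (hop : ∀ f : Q →* Q, Function.Surjective f → Function.Injective f) (i : P →* Q) (r : Q →* P)
    (hr : ∀ x, r (i x) = x) (h : ∀ χ : Q →* Z2, (∀ x, χ (i x) = 1) → χ = 1) :
    Function.Surjective i := by
  have := CMPB_fin hP
  have := CMPB_fin hQ
  have b : Function.Bijective fun χ : Q →* Z2 => χ.comp i := ⟨fun χ χ' e =>
    div_eq_one.1 (h _ fun x => div_eq_one.2 (DFunLike.congr_fun e x)),
    fun χ => ⟨χ.comp r, MonoidHom.ext fun x => congrArg χ (hr x)⟩⟩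
  have c := Nat.card_congr ((IsFreeGroup.lift.trans (Equiv.ofBijective _ b)).trans
    IsFreeGroup.lift.symm)
  have z : Nat.card Z2 = 2 := by simp
  rw [Nat.card_fun, Nat.card_fun, z] at c
  obtain ⟨g⟩ := Finite.card_eq.1 (Nat.pow_right_injective le_rfl c)
  let φ : Q ≃* P := ((IsFreeGroup.toFreeGroup Q).trans (FreeGroup.freeGroupCongr g)).trans
    (IsFreeGroup.toFreeGroup P).symm
  have j := hop (φ.symm.toMonoidHom.comp r) (φ.symm.surjective.comp fun x => ⟨i x, hr x⟩)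
  exact fun y => ⟨r y, j (congrArg φ.symm (hr _))⟩

lemma CMPB_ext {F E K : Type} [Group F] [Group K] {A : Subgroup F} {D : E → Subgroup F}
    (h : Fam A D) (e₀ : E) (f : D e₀ →* K) : ∃ (ψ : A →* K) (k : K),
      (∀ (d : A) (hd : (d : F) ∈ D e₀), ψ d = k * f ⟨d, hd⟩ * k⁻¹) ∧
      ∀ e, e ≠ e₀ → ∀ d : A, (d : F) ∈ D e → ψ d = 1 := by
  classical
  obtain ⟨g, hg, e⟩ := exists_hm f
  obtain ⟨ψ, h1, h2⟩ := h.ext K (fun e => if e = e₀ then g else fun _ => 1) fun e => by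
    split_ifs with c
    · exact c ▸ hg
    · exact hm_const _
  obtain ⟨k, hk⟩ := h2 e₀
  refine ⟨h1.hom, k, fun d hd => ?_, fun e' n d hd => ?_⟩
  · rw [Hm.hom_apply, hk d hd, if_pos rfl, ← e]
  · obtain ⟨k, hk⟩ := h2 e'
    rw [Hm.hom_apply, hk d hd, if_neg n, mul_one, mul_inv_cancel]

lemma CMPB_cj {A : Type} [Group A] (χ : A →* Z2) (a d : A) : χ (a⁻¹ * d * a) = χ d := by
  rw [map_mul, map_mul, map_inv, inv_mul_cancel_comm]

theorem p_CMPB (hHOPF : S_HOPF) (hCMPA : S_CMPA) :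
    S_CMPB := by
  intro X E E' A D D' π a hA hD hD' ha le
  refine ⟨fun χ hχ e d hd => ?_, fun hZ => ?_⟩
  · rw [← CMPB_cj χ ⟨a e, ha e⟩ d]
    exact hχ (π e) _ (mem_cj.1 (le e hd))
  have key : ∀ e₀ (f : D e₀ →* Z2), (∀ e d (h : (a e)⁻¹ * d * a e ∈ D e₀), π e = e₀ →
      d ∈ D' e → f ⟨_, h⟩ = 1) → f = 1 := fun e₀ f hf => by
    obtain ⟨ψ, k, h1, h2⟩ := CMPB_ext hD e₀ f
    have : ψ ∈ Zs A D' := fun e d hd => by
      rw [← CMPB_cj ψ ⟨a e, ha e⟩ d]
      have m := mem_cj.1 (le e hd)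
      by_cases c : π e = e₀
      · rw [h1 _ (c ▸ m)]
        have := hf e d (c ▸ m) c hd
        exact (congrArg (k * · * k⁻¹) this).trans (by simp)
      · exact h2 _ c _ m
    ext y
    have b := hZ this e₀ ⟨y, hD.le _ y.2⟩ y.2
    rw [h1 _ y.2, mul_inv_cancel_comm] at b
    exact congrArg toAdd b
  refine ⟨fun e₀ => ?_, fun hi e => le_antisymm (le e) fun d hd => ?_⟩
  · by_contra n
    refine hD.ne e₀ ((Subgroup.eq_bot_iff_forall _).2 fun x hx => ?_)
    have : MonoidHom.id (D e₀) = 1 := IsFreeGroup.ext_hom fun g => by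
      have := DFunLike.congr_fun (key e₀ (IsFreeGroup.lift fun _ => ofAdd 1)
        fun e _ _ c _ => absurd ⟨e, c⟩ n) (IsFreeGroup.of g)
      rw [IsFreeGroup.lift_of, MonoidHom.one_apply] at this
      exact absurd this (by decide)
    exact congrArg Subtype.val (DFunLike.congr_fun this ⟨x, hx⟩)
  obtain ⟨ψ, k, h1, -⟩ := CMPB_ext hD' e (MonoidHom.id _)
  have fP := (Group.fg_iff_subgroup_fg _).2 ((hCMPA X E' A D' hA hD').2.2.2.1 e)
  have fQ := (Group.fg_iff_subgroup_fg _).2 ((hCMPA X E A D hA hD).2.2.2.1 (π e))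
  let i : D' e →* D (π e) := MonoidHom.mk' (fun x => ⟨(a e)⁻¹ * x * a e, mem_cj.1 (le e x.2)⟩)
    fun x y => Subtype.ext (by simp [mul_assoc])
  let r : D (π e) →* D' e := (MulAut.conj k⁻¹).toMonoidHom.comp (ψ.comp
    ((MulAut.conj (⟨a e, ha e⟩ : A)).toMonoidHom.comp (Subgroup.inclusion (hD.le _))))
  obtain ⟨x, hx⟩ := CMPB_surj fP fQ (hHOPF.1 _ fQ (hHOPF.2 X _)) i r (fun x => by
    have : (MulAut.conj (⟨a e, ha e⟩ : A)).toMonoidHom (Subgroup.inclusion (hD.le _) (i x)) =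
        ⟨x, hD'.le e x.2⟩ := Subtype.ext (by simp [i, mul_assoc])
    simp only [r, MonoidHom.comp_apply, this]
    rw [h1 _ x.2]
    simp [mul_assoc]) (fun χ hχ => key _ χ fun e' y _ c hy => by
      have c' := hi c
      subst c'
      exact hχ ⟨y, hy⟩) ⟨_, mem_cj.1 hd⟩
  have : (a e)⁻¹ * x * a e = (a e)⁻¹ * d * a e := congrArg Subtype.val hx
  rw [mul_left_inj, mul_right_inj] at this
  exact this ▸ x.2

end Pool.Agent.P.MP_67c9d4_al.FR
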