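import Pool.Agent.P.MP_67c9d4_al.FR.Iface

/-! Step CNT. -/

set_option autoImplicit false
set_option linter.unusedSectionVars false

namespace Pool.Agent.P.MP_67c9d4_al.FR

open Equiv Wr Multiplicative FC

theorem CNT_left {T : Type} {Γ : SimpleGraph T} (z y : RAAG Γ) (W : Wall Γ) :
    z • W ∈ Sp Γ z y ↔ W ∈ Sp Γ 1 (z⁻¹ * y) := by
  rw [← smul_mem_Sp z 1 (z⁻¹ * y) W, mul_one, mul_inv_cancel_left]

theorem p_CNT (hG1 : S_G1) (hMED : S_MED) :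
    S_CNT := by
  intro T _ Γ ρ
  have hU : (⋃ v ∈ {g : RAAG Γ | Sh Γ ρ g}, Sp Γ 1 v).Finite :=
    (sh_finite ρ).biUnion fun v _ => ((hG1 T Γ).2 v).1
  refine ⟨(⋃ v ∈ {g : RAAG Γ | Sh Γ ρ g}, Sp Γ 1 v).ncard, fun S x hN => ?_⟩
  obtain ⟨z, hz, hd⟩ := (hMED T Γ).1 S x
  refine ⟨z, hz, (((hG1 T Γ).2 _).2 _).2 (Set.ncard_le_ncard (fun W hW => ?_) hU)⟩
  have h1 : z • W ∈ Sp Γ z x := (CNT_left z x W).2 hW
  have h2 : ∀ c ∈ PS Γ S, ∀ Y, Y ∈ Sp Γ z x → Y ∉ Sp Γ z c := fun c hc Y hY =>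
    Set.disjoint_left.1 (hd c hc) hY
  obtain ⟨c, hc, v, hv, hcv⟩ := hN (z • W) fun c hc => by
    rw [Sp_xor c z x, Sp_comm c z]
    exact fun e => h2 c hc _ h1 (e.2 h1)
  have h3 : z • W ∈ Sp Γ z (c * v) := by
    rw [Sp_xor z c (c * v)]
    exact fun e => h2 c hc _ h1 (e.2 hcv)
  obtain ⟨μ, hμ⟩ := (hMED T Γ).2 (z⁻¹ * x) (z⁻¹ * (c * v))
  have h4 : Sh Γ ρ μ := by
    refine (((hG1 T Γ).2 μ).2 ρ).2 (le_trans ?_ ((((hG1 T Γ).2 v).2 ρ).1 hv))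
    refine Set.ncard_le_ncard_of_injOn (fun Y => c⁻¹ • z • Y) (fun Y hY => ?_)
      (fun Y _ Y' _ e => MulAction.injective z (MulAction.injective c⁻¹ e)) ((hG1 T Γ).2 v).1
    rw [hμ] at hY
    have a1 := (CNT_left z x Y).2 hY.1
    have a2 := (CNT_left z (c * v) Y).2 hY.2
    rw [Sp_xor z c (c * v)] at a2
    have a3 : z • Y ∈ Sp Γ c (c * v) := by
      by_contra h
      exact a2 (iff_of_false (h2 c hc _ a1) h)
    have := (CNT_left c (c * v) (c⁻¹ • z • Y)).1 (by rwa [smul_inv_smul])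
    rwa [inv_mul_cancel_left] at this
  refine Set.mem_biUnion (show μ ∈ {g : RAAG Γ | Sh Γ ρ g} from h4) ?_
  rw [hμ]
  exact ⟨hW, (CNT_left z (c * v) W).1 h3⟩

end Pool.Agent.P.MP_67c9d4_al.FR
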