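import Pool.Agent.P.MP_67c9d4_al.FR.Iface

/-! Step CUSP. -/

set_option autoImplicit false
set_option linter.unusedSectionVars false

namespace Pool.Agent.P.MP_67c9d4_al.FR

open Equiv Wr Multiplicative FC

section
variable {X H W : Type} [Group H] [Group W] (d : AD X H W)

lemma CUSP_tr_pt (hN : d.N.Normal) (g p : FreeGroup X) : d.tr g (pt d.N p) = pt d.N (g * p) :=
  pt_left hN (pt_out d.N _) g

lemma CUSP_tr_inv (hN : d.N.Normal) (g : FreeGroup X) (x : FreeGroup X ⧸ d.N) :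
    d.tr g⁻¹ (d.tr g x) = x := by
  obtain ⟨p, rfl⟩ := pt_surj d.N x
  rw [CUSP_tr_pt d hN, CUSP_tr_pt d hN, inv_mul_cancel_left]

lemma CUSP_tr_iff (hN : d.N.Normal) (g : FreeGroup X) (x : FreeGroup X ⧸ d.N) (y : X)
    (e : (FreeGroup X ⧸ d.N) × X) : e = (d.tr g x, y) ↔ (d.tr g⁻¹ e.1, e.2) = (x, y) := by
  constructor
  · rintro rfl
    rw [CUSP_tr_inv d hN]
  · intro h
    obtain ⟨h1, h2⟩ := Prod.mk.inj h
    have := CUSP_tr_inv d hN g⁻¹ e.1
    rw [inv_inv, h1] at this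
    exact Prod.ext this.symm h2

lemma CUSP_bits (hN : d.N.Normal) (g : FreeGroup X) (z : (FreeGroup X ⧸ d.N) × MB d.N) :
    ((d.nu g z).1.2 = 1 ∧ (d.nu g z).2 = 1) ↔ z.2 = 1 := by
  constructor
  · rintro ⟨-, h⟩
    funext e
    have : z.2 (d.tr g⁻¹ (d.tr g e.1), e.2) = 1 := congrFun h (d.tr g e.1, e.2)
    rwa [CUSP_tr_inv d hN] at this
  · intro h
    refine ⟨funext fun e => ?_, funext fun e => ?_⟩
    · simp only [AD.nu, h, Pi.one_apply, ite_self]
    · simp only [AD.nu, h, Pi.one_apply]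

lemma CUSP_tg {E E' : Type} {p p' : Prop} {a b : E} {a' b' : E'} (h : p ↔ p')
    (h' : b = a ↔ b' = a') : tg p a b = tg p' a' b' := by
  unfold tg
  by_cases c : p ∧ b = a
  · rw [if_pos c, if_pos ((and_congr h h').1 c)]
  · rw [if_neg c, if_neg (mt (and_congr h h').2 c)]

lemma CUSP_zp {m : MD X H W} {z : (FreeGroup X ⧸ m.N) × MB m.N} (hz : z ∈ m.Zp)
    {a : FreeGroup X} (ha : a ∈ FS m.S) : (m.a1 a)⁻¹ z ∈ m.Zp := by
  obtain ⟨a₀, h0, p, hp, rfl⟩ := hz
  exact ⟨a₀ * a, (FS m.S).mul_mem h0 ha, p, hp, inv_mul_apply _ _ _ _⟩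

end

theorem p_CUSP (hLIFT : S_LIFT) (hINS : S_INS) (hCUSP1 : S_CUSP1) :
    S_CUSP := by
  intro X H W _ _ _ d ok g C hC hR
  classical
  obtain ⟨-, -, -, l4, l5, -⟩ := hLIFT X H W d ok
  obtain ⟨-, -, c3, c4⟩ := hCUSP1 X H W d ok g C hC hR
  have hN : d.N.Normal := ok.fn.1
  have rp : ∀ a, (d.rho a).p = d.a2 a := fun a => lab_p _ _ a
  have sp : ∀ a, ((d.md C).st a).p = (d.md C).a1 a := fun a => lab_p _ _ a
  suffices h : ∀ a ∈ d.A, ∀ z ∈ (d.md C).Zp,
      (d.a2 a)⁻¹ (d.nu g z) = d.nu g (((d.md C).a1 a)⁻¹ z) ∧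
      (d.rho a).c (d.nu g z) = d.s (d.pos g) * ((d.md C).st a).c z * (d.s (d.pos g))⁻¹ from
    fun z hz a ha => h a ha z hz
  intro a ha
  induction ha using Subgroup.closure_induction with
  | mem a ha =>
    obtain ⟨y, hy, rfl⟩ := ha
    have hyA : FreeGroup.of y ∈ d.A := Subgroup.subset_closure ⟨y, hy, rfl⟩
    intro z hz
    have c5 := c4 z hz y hy
    constructor
    · refine Prod.ext ?_ (funext fun e => ?_)
      · rw [← c3 z _ hyA]
        exact congrArg (fun p : Perm _ => p⁻¹ (d.nu g z).1) (lab_p _ _ _)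
      · change z.2 (d.tr g⁻¹ e.1, e.2) *
            (lab (W := MB d.N) d.a1 _ (FreeGroup.of y)).c (d.nu g z).1 e =
          z.2 (d.tr g⁻¹ e.1, e.2) *
            (lab (W := MB d.N) (qa d.N) _ (FreeGroup.of y)).c z.1 (d.tr g⁻¹ e.1, e.2)
        rw [lab_of, lab_of]
        congr 1
        refine CUSP_tg ?_ (CUSP_tr_iff d hN g z.1 y e)
        rw [c5]
        exact and_iff_right hy
    · rw [AD.rho, MD.st, lab_of, lab_of]
      by_cases hb : z.2 = 1
      · rw [if_pos ((CUSP_bits d hN g z).2 hb)]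
        by_cases hi : (d.md C).Ins (z.1, y)
        · rw [if_pos ⟨hb, hi⟩]
          obtain ⟨-, a, h1, h2, h3⟩ := hi
          have r1 := (hR a (hC a h1)).2 h1
          have r2 := (hR _ (hC _ h2)).2 h2
          rw [← mul_assoc] at r2
          have e1 : d.tr g z.1 = pt d.N (g * a) := by
            rw [← CUSP_tr_pt d hN]
            exact congrArg (d.tr g) h3.symm
          have e2 := ok.eqv 1 d.B.one_mem _ hyA (g * a)
          have e3 := ok.eqv 1 d.B.one_mem _ (hC a h1) g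
          rw [one_mul, map_one, one_mul] at e2 e3
          have e4 : d.s (d.α a) = d.s (d.α z.1.out⁻¹) := by
            have := ok.ka _ (pt_eq.1 (h3.trans (pt_out d.N z.1).symm))
            rwa [map_mul, map_mul, map_inv, map_inv, mul_inv_eq_one] at this
          change d.wt (d.tr g z.1, y) = d.s (d.pos g) * (d.s (d.α z.1.out⁻¹) *
            dd d.l d.s (d.α (FreeGroup.of y)) * (d.s (d.α z.1.out⁻¹))⁻¹) * (d.s (d.pos g))⁻¹
          rw [e1, l4 _ y r1 r2, l5 _ _ _ e2, e3, map_mul, e4]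
          group
        · rw [if_neg fun h => hi h.2, mul_one, mul_inv_cancel]
          refine dif_neg fun h => hi (c5.1 ?_)
          obtain ⟨v, v1, v2, v3⟩ := h
          refine ⟨1, d.A.one_mem, v, v1, ?_, 1, d.A.one_mem, by rwa [mul_one], by rwa [mul_one],
            by rwa [mul_one]⟩
          rw [map_one, inv_one, Perm.one_apply]
          exact Prod.ext v3.symm ((CUSP_bits d hN g z).2 hb).1
      · rw [if_neg fun h => hb ((CUSP_bits d hN g z).1 h), if_neg fun h => hb h.1, mul_one,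
          mul_inv_cancel]
  | one =>
    intro z _
    simp only [map_one, inv_one, Perm.one_apply, one_c, mul_one, mul_inv_cancel, and_self]
  | mul a b ha hb ia ib =>
    intro z hz
    obtain ⟨a1, a2⟩ := ia z hz
    obtain ⟨b1, b2⟩ := ib _ (CUSP_zp hz ha)
    refine ⟨by rw [inv_mul_apply, inv_mul_apply, a1, b1], ?_⟩
    rw [c_mul, c_mul, rp, sp, a1, a2, b2]
    group
  | inv a ha ia =>
    intro z hz
    have hz' := CUSP_zp hz ((FS d.S).inv_mem ha)
    obtain ⟨a1, a2⟩ := ia _ hz'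
    have e : ((d.md C).a1 a)⁻¹ (((d.md C).a1 a⁻¹)⁻¹ z) = z := by
      rw [← inv_mul_apply, inv_mul_cancel, map_one, inv_one, Perm.one_apply]
    rw [e] at a1
    have f1 := c_inv d.rho a (d.nu g (((d.md C).a1 a⁻¹)⁻¹ z))
    have f2 := c_inv (d.md C).st a (((d.md C).a1 a⁻¹)⁻¹ z)
    rw [rp, a1] at f1
    rw [sp, e] at f2
    refine ⟨?_, ?_⟩
    · rw [← a1, ← inv_mul_apply, mul_inv_cancel, map_one, inv_one, Perm.one_apply]
    · rw [f1, f2, a2]
      group

end Pool.Agent.P.MP_67c9d4_al.FR
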