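import Pool.Agent.P.MP_67c9d4_al.FR.Iface

/-! Step CUSP1. -/

set_option autoImplicit false
set_option linter.unusedSectionVars false

namespace Pool.Agent.P.MP_67c9d4_al.FR

open Equiv Wr Multiplicative FC

section
variable {X H W : Type} [Group H] [Group W] {d : AD X H W}

lemma CUSP1_tg {E E' : Type} {p p' : Prop} {e f : E} {e' f' : E'}
    (h : p ∧ f = e ↔ p' ∧ f' = e') : tg p e f = tg p' e' f' := by
  unfold tg
  by_cases h1 : p ∧ f = e
  · rw [if_pos h1, if_pos (h.1 h1)]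
  · rw [if_neg h1, if_neg (mt h.2 h1)]

lemma CUSP1_pt (hN : d.N.Normal) (g v : FreeGroup X) : d.tr g (pt d.N v) = pt d.N (g * v) :=
  pt_left hN (pt_out d.N (pt d.N v)) g

lemma CUSP1_inv (hN : d.N.Normal) (g : FreeGroup X) (x : FreeGroup X ⧸ d.N) :
    d.tr g⁻¹ (d.tr g x) = x := by
  obtain ⟨v, rfl⟩ := pt_surj d.N x
  rw [CUSP1_pt hN, CUSP1_pt hN, inv_mul_cancel_left]

lemma CUSP1_inv' (hN : d.N.Normal) (g : FreeGroup X) (x : FreeGroup X ⧸ d.N) :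
    d.tr g (d.tr g⁻¹ x) = x := by
  simpa using CUSP1_inv hN g⁻¹ x

lemma CUSP1_qa (hN : d.N.Normal) (g h : FreeGroup X) (x : FreeGroup X ⧸ d.N) :
    d.tr g ((qa d.N h)⁻¹ x) = (qa d.N h)⁻¹ (d.tr g x) := by
  obtain ⟨v, rfl⟩ := pt_surj d.N x
  rw [qa_pt, CUSP1_pt hN, CUSP1_pt hN, qa_pt, mul_assoc]

lemma CUSP1_ins (hN : d.N.Normal) {g : FreeGroup X} {C : Set (FreeGroup X)}
    (hC : ∀ a ∈ C, a ∈ d.A) (hR : ∀ a ∈ d.A, d.Rg (g * a) ↔ a ∈ C) {x : FreeGroup X ⧸ d.N} {y : X}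
    (h : (d.md C).Ins (x, y)) : d.Ins (d.tr g x, y) := by
  obtain ⟨-, a, ha, ha', e⟩ := h
  refine ⟨g * a, (hR a (hC a ha)).2 ha, ?_, ?_⟩
  · rw [mul_assoc]
    exact (hR _ (hC _ ha')).2 ha'
  · change pt d.N a = x at e
    change pt d.N (g * a) = d.tr g x
    rw [← e, CUSP1_pt hN]

lemma CUSP1_of (hN : d.N.Normal) {g : FreeGroup X} {C : Set (FreeGroup X)}
    (hC : ∀ a ∈ C, a ∈ d.A) (hR : ∀ a ∈ d.A, d.Rg (g * a) ↔ a ∈ C) (y : X)
    (x : FreeGroup X ⧸ d.N) (β : MB d.N) :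
    (d.a1 (FreeGroup.of y))⁻¹ (d.nu g (x, β)).1 =
      (d.nu g (((d.md C).a1 (FreeGroup.of y))⁻¹ (x, β))).1 := by
  have e1 : ((d.md C).a1 (FreeGroup.of y))⁻¹ (x, β) =
      ((qa d.N (FreeGroup.of y))⁻¹ x, β * tg (¬(d.md C).Ins (x, y)) (x, y)) := by
    refine (cov_inv _ _).trans ?_
    rw [lab_p, lab_of]
    rfl
  have e2 : (d.a1 (FreeGroup.of y))⁻¹ (d.nu g (x, β)).1 =
      ((qa d.N (FreeGroup.of y))⁻¹ (d.tr g x),
        (d.nu g (x, β)).1.2 * tg (¬d.Ins (d.tr g x, y)) (d.tr g x, y)) := by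
    refine (cov_inv _ _).trans ?_
    rw [lab_p, lab_of]
    rfl
  rw [e1, e2]
  refine Prod.ext (CUSP1_qa hN g _ x).symm (funext fun e => ?_)
  simp only [AD.nu, Pi.mul_apply]
  by_cases hi : d.Ins e
  · rw [if_pos hi, if_pos hi, one_mul, tg, if_neg]
    rintro ⟨h1, rfl⟩
    exact h1 hi
  · rw [if_neg hi, if_neg hi]
    congr 1
    refine CUSP1_tg ⟨?_, ?_⟩
    · rintro ⟨h1, rfl⟩
      exact ⟨fun h => h1 (CUSP1_ins hN hC hR h), Prod.ext (CUSP1_inv hN g x) rfl⟩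
    · rintro ⟨-, h2⟩
      have h3 : e = (d.tr g x, y) := by
        have h4 : d.tr g⁻¹ e.1 = x := congrArg Prod.fst h2
        have h5 : e.2 = y := (Prod.ext_iff.1 h2).2
        refine Prod.ext ?_ h5
        rw [← h4, CUSP1_inv' hN]
      exact ⟨h3 ▸ hi, h3⟩

end

theorem p_CUSP1 (hLIFT : S_LIFT) (hPIECE : S_PIECE) (hINS : S_INS) :
    S_CUSP1 := by
  intro X H W _ _ _ d ok g C hC hR
  have hN : d.N.Normal := ok.fn.1
  have h2 : ∀ p, d.nu g (pt d.N p, 1) = d.z0 (g * p) := fun p => by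
    refine Prod.ext (Prod.ext (CUSP1_pt hN g p) (funext fun e => ?_)) rfl
    simp [AD.nu, AD.z0]
  have h3 : ∀ a ∈ d.A, ∀ z, (d.a1 a)⁻¹ (d.nu g z).1 = (d.nu g (((d.md C).a1 a)⁻¹ z)).1 := by
    intro a ha
    induction ha using Subgroup.closure_induction with
    | mem a ha =>
      obtain ⟨y, -, rfl⟩ := ha
      exact fun z => CUSP1_of hN hC hR y z.1 z.2
    | one => intro z; rw [map_one, map_one]; rfl
    | mul a b _ _ iha ihb =>
      intro z
      rw [inv_mul_apply, iha]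
      exact (ihb _).trans (congrArg (fun w => (d.nu g w).1) (inv_mul_apply (d.md C).a1 a b z).symm)
    | inv a _ ih =>
      intro z
      have h := ih ((d.md C).a1 a z)
      have h' : ((d.md C).a1 a)⁻¹ ((d.md C).a1 a z) = z := Equiv.symm_apply_apply _ _
      rw [h', Perm.inv_eq_iff_eq] at h
      rw [map_inv, map_inv, inv_inv, inv_inv, h]
  refine ⟨fun z z' e => ?_, h2, fun z a ha => h3 a ha z, ?_⟩
  · refine Prod.ext ?_ (funext fun q => ?_)
    · have h : d.tr g z.1 = d.tr g z'.1 := congrArg (fun w : d.Y => w.1.1) e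
      rw [← CUSP1_inv hN g z.1, h, CUSP1_inv hN]
    · have h : z.2 (d.tr g⁻¹ (d.tr g q.1), q.2) = z'.2 (d.tr g⁻¹ (d.tr g q.1), q.2) :=
        congrArg (fun w : d.Y => w.2 (d.tr g q.1, q.2)) e
      rwa [CUSP1_inv hN] at h
  · rintro z ⟨a₀, ha₀, p, hp, hz⟩ y hy
    have hz' : (d.nu g z).1 = (d.a1 a₀)⁻¹ (pt d.N (g * p), 1) := by
      rw [← hz]
      exact (h3 a₀ ha₀ _).symm.trans (congrArg _ (congrArg Prod.fst (h2 p)))
    have hyA : FreeGroup.of y ∈ d.A := Subgroup.subset_closure ⟨y, hy, rfl⟩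
    have hpA := hC p hp
    constructor
    · rintro ⟨a, ha, v, hv, e, a', ha', r1, r2, e'⟩
      rw [hz', ← inv_mul_apply] at e
      obtain ⟨n, hn, hnB, a'', ha'', rfl⟩ :=
        hPIECE X H W d ok _ (d.A.mul_mem ha₀ ha) _ _ ((hR p hpA).2 hp) hv e
      have hA : p * a'' * a' ∈ d.A := d.A.mul_mem (d.A.mul_mem hpA ha'') ha'
      have l1 := (hLIFT X H W d ok).1 n hnB
      have q1 : n * (g * p) * a'' * a' = n * (g * (p * a'' * a')) := by simp only [mul_assoc]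
      rw [q1] at r1 r2 e'
      rw [mul_assoc, l1, mul_assoc] at r2
      rw [l1] at r1
      refine ⟨hy, _, (hR _ hA).1 r1, (hR _ (d.A.mul_mem hA hyA)).1 r2, ?_⟩
      change pt d.N (p * a'' * a') = z.1
      have e3 : pt d.N (g * (p * a'' * a')) = d.tr g z.1 := by
        refine Eq.trans ?_ e'
        rw [pt_eq]
        simpa [mul_assoc] using hn
      rw [← CUSP1_inv hN g z.1, ← e3, CUSP1_pt hN, inv_mul_cancel_left]
    · rintro ⟨-, a, ha, ha', e⟩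
      change pt d.N a = z.1 at e
      change a * FreeGroup.of y ∈ C at ha'
      have q1 : g * p * (p⁻¹ * a) = g * a := by group
      refine ⟨a₀⁻¹, d.A.inv_mem ha₀, g * p, (hR p hpA).2 hp, ?_, p⁻¹ * a,
        d.A.mul_mem (d.A.inv_mem hpA) (hC a ha), ?_, ?_, ?_⟩
      · rw [hz', map_inv, inv_inv]
        exact Equiv.apply_symm_apply _ _
      · rw [q1]; exact (hR a (hC a ha)).2 ha
      · rw [q1, mul_assoc]; exact (hR _ (hC _ ha')).2 ha'
      · rw [q1, ← CUSP1_pt hN, e]; rfl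

end Pool.Agent.P.MP_67c9d4_al.FR
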