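import Pool.Agent.P.MP_67c9d4_al.FR.Iface

/-! Step DCS. -/

set_option autoImplicit false
set_option linter.unusedSectionVars false

namespace Pool.Agent.P.MP_67c9d4_al.FR

open Equiv Wr Multiplicative FC

section
variable {T : Type} {Γ : SimpleGraph T} {S : Set T} {ρ : ℕ}

lemma DCS_left {p x : RAAG Γ} (hp : p ∈ PS Γ S) (h : Nr Γ S ρ x) : Nr Γ S ρ (p * x) := by
  intro W hW
  obtain ⟨c, hc, v, hv, e⟩ := h (p⁻¹ • W) fun c hc => by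
    rw [← smul_mem_Sp p, smul_inv_smul]
    exact hW _ ((PS Γ S).mul_mem hp hc)
  refine ⟨p * c, (PS Γ S).mul_mem hp hc, v, hv, ?_⟩
  rw [← smul_mem_Sp p, smul_inv_smul, ← mul_assoc] at e
  exact e

lemma DCS_pt {x w : RAAG Γ} (h : Nr Γ S ρ x) (e : pt (PS Γ S) w = pt (PS Γ S) x) :
    Nr Γ S ρ w := by
  simpa using DCS_left (pt_eq.1 e) h

lemma DCS_sq {w : RAAG Γ} {a b : T × Bool} (hab : Γ.Adj a.1 b.1) (h1 : Nr Γ S ρ (w * wd Γ [a]))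
    (h2 : Nr Γ S ρ (w * wd Γ [b])) : Nr Γ S ρ (w * wd Γ [a] * wd Γ [b]) := by
  intro W hW
  by_cases e : W = ew Γ (w * wd Γ [a]) b
  · refine h2 W fun c hc => ?_
    have h3 := hW c hc
    rw [mul_assoc, (wd_comm hab).eq, ← mul_assoc] at h3
    refine (Sp_tri c (w * wd Γ [b]) _ h3).resolve_right fun h4 => ?_
    rw [Sp_step, Set.mem_singleton_iff, e] at h4
    exact hab.ne (congrArg Sigma.fst h4).symm
  · refine h1 W fun c hc => (Sp_tri c (w * wd Γ [a]) _ (hW c hc)).resolve_right fun h4 => ?_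
    rw [Sp_step] at h4
    exact e h4

lemma DCS_sh {x : RAAG Γ} (h : Sh Γ ρ x) : Nr Γ S ρ x := fun W hW =>
  ⟨1, (PS Γ S).one_mem, x, h, by simpa using hW 1 (PS Γ S).one_mem⟩

lemma DCS_mem {x : RAAG Γ} (h : x ∈ PS Γ S) : Nr Γ S ρ x := fun W hW => by
  have := hW x h
  rw [Sp_self] at this
  exact this.elim

variable (Γ S ρ)

/-- The cosets of near elements. -/
def DCS_Y : Type := {y : RAAG Γ ⧸ PS Γ S // ∃ x, Nr Γ S ρ x ∧ pt (PS Γ S) x = y}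

/-- The moves between them. -/
def DCS_Mv (x : T × Bool) (y y' : DCS_Y Γ S ρ) : Prop := (qa (PS Γ S) (wd Γ [x]))⁻¹ y.1 = y'.1

lemma DCS_cx : Cx Γ (DCS_Mv Γ S ρ) where
  det := fun _ _ _ _ h1 h2 => Subtype.ext (h1.symm.trans h2)
  inv := fun x y y' h => by
    rw [DCS_Mv] at h ⊢
    rw [wd_not, map_inv, inv_inv, ← h]
    simp
  sq := fun a b y y₁ y₂ hab h1 h2 => by
    obtain ⟨w, -, e⟩ := y.2
    obtain ⟨w₁, n1, e1⟩ := y₁.2
    obtain ⟨w₂, n2, e2⟩ := y₂.2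
    rw [DCS_Mv, ← e, qa_pt] at h1 h2
    refine ⟨⟨_, _, DCS_sq hab (DCS_pt n1 (h1.trans e1.symm)) (DCS_pt n2 (h2.trans e2.symm)), rfl⟩,
      ?_, ?_⟩
    · exact (congrArg _ h1.symm).trans (qa_pt _ _ _)
    · refine (congrArg _ h2.symm).trans ((qa_pt _ _ _).trans ?_)
      rw [mul_assoc, ← (wd_comm hab).eq, ← mul_assoc]

variable {Γ S ρ}

lemma DCS_walk (L : List (T × Bool)) : ∀ (w : RAAG Γ) (y y' : DCS_Y Γ S ρ),
    (∀ L₁ L₂, L = L₁ ++ L₂ → Nr Γ S ρ (w * wd Γ L₁)) → pt (PS Γ S) w = y.1 →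
    pt (PS Γ S) (w * wd Γ L) = y'.1 → Walk (DCS_Mv Γ S ρ) L y y' := by
  induction L with
  | nil =>
    intro w y y' _ e e'
    rw [wd_nil, mul_one] at e'
    obtain rfl : y = y' := Subtype.ext (e.symm.trans e')
    exact Walk.nil y
  | cons x L ih =>
    intro w y y' h e e'
    refine Walk.cons (y' := ⟨_, _, h [x] L rfl, rfl⟩) ((congrArg _ e.symm).trans (qa_pt _ _ _))
      (ih (w * wd Γ [x]) _ _ (fun L₁ L₂ e₁ => ?_) rfl (by rw [mul_assoc, ← wd_cons, e']))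
    rw [mul_assoc, ← wd_cons]
    exact h _ L₂ (by rw [e₁]; rfl)

lemma DCS_end {L : List (T × Bool)} {y y' : DCS_Y Γ S ρ} (h : Walk (DCS_Mv Γ S ρ) L y y') :
    (qa (PS Γ S) (wd Γ L))⁻¹ y.1 = y'.1 := by
  induction h with
  | nil => simp [wd_nil]
  | cons hm _ ih => rw [wd_cons, inv_mul_apply, hm, ih]

end

theorem p_DCS (hG2 : S_G2) (hG1 : S_G1) (hCNT : S_CNT) (hACT : S_ACT) :
    S_DCS := by
  intro T _ Γ S S' g h hn
  obtain ⟨r1, h1⟩ := sh_exists g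
  obtain ⟨r2, h2⟩ := sh_exists h
  replace h1 := h1.mono (Nat.le_add_right r1 r2)
  replace h2 := h2.mono (Nat.le_add_left r2 r1)
  generalize r1 + r2 = ρ at h1 h2
  obtain ⟨r, hr⟩ := hCNT T Γ ρ
  have : Finite (DCS_Y Γ S' ρ) := by
    refine (((sh_finite (Γ := Γ) r).image (pt (PS Γ S'))).subset ?_).to_subtype
    rintro _ ⟨x, hx, rfl⟩
    obtain ⟨z, hz, e⟩ := hr S' x hx
    exact ⟨_, e, pt_eq.2 (by simpa using hz)⟩
  obtain ⟨a, a1, a2⟩ := hACT T _ Γ _ (DCS_cx Γ S' ρ)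
  let y0 : DCS_Y Γ S' ρ := ⟨_, 1, DCS_mem (PS Γ S').one_mem, rfl⟩
  have k1 : ∀ u (hu : Sh Γ ρ u), (a u)⁻¹ (y0, fun _ => false) =
      (⟨_, u, DCS_sh hu, rfl⟩, fun _ => false) := by
    rintro _ ⟨L, rfl, hL⟩
    refine a1 L _ _ (DCS_walk L 1 _ _ (fun L₁ L₂ e => DCS_sh ⟨L₁, (one_mul _).symm, ?_⟩) rfl
      (by rw [one_mul]))
    rw [e, List.length_append] at hL
    omega
  have k2 : ∀ p ∈ PS Γ S', (a p)⁻¹ (y0, fun _ => false) = (y0, fun _ => false) := by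
    intro p hp
    obtain ⟨L, hL, rfl⟩ := (hG2 T Γ).1 p
    have hl := (hG2 T Γ).2.1 S' L hL hp
    refine a1 L _ _ (DCS_walk L 1 _ _ (fun L₁ L₂ e => DCS_mem ?_) rfl
      (pt_eq.2 (by simpa using hp)))
    rw [one_mul]
    exact wd_mem fun x hx => hl x (e ▸ List.mem_append_left _ hx)
  refine ⟨a.ker, FN.ker a, ?_⟩
  rintro n hN ⟨p', hp', p, hp, e⟩
  have k3 := k1 h h2
  rw [show a h = a (h * n) by rw [map_mul, MonoidHom.mem_ker.1 hN, mul_one], e, inv_mul_apply,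
    inv_mul_apply, k2 p' hp', k1 g h1] at k3
  obtain ⟨L, hL, hw⟩ := a2 S p hp (⟨_, g, DCS_sh h1, rfl⟩, fun _ => false)
  have k4 := DCS_end hw
  rw [k3, qa_pt] at k4
  exact hn ⟨h * (g * wd Γ L)⁻¹, pt_eq.1 k4.symm, wd Γ L, wd_mem hL, by group⟩

end Pool.Agent.P.MP_67c9d4_al.FR
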