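import Pool.Agent.P.MP_67c9d4_al.FR.Iface

/-! Step DUAL. -/

set_option autoImplicit false
set_option linter.unusedSectionVars false

namespace Pool.Agent.P.MP_67c9d4_al.FR

open Equiv Wr Multiplicative FC

section
variable {F : Type} [Group F] {A : Subgroup F} {Θ : MulAut F}

lemma DUAL_mem (g d : F) :
    d ∈ Dv A (im Θ⁻¹ A) (Θ⁻¹ g⁻¹) ↔ g⁻¹ * Θ d * g ∈ Dv A (im Θ A) g := by
  rw [mem_Dv, mem_Dv, mem_im, mem_im, and_comm]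
  simp [mul_assoc]

lemma DUAL_dc (v g : F) :
    Dc (im Θ⁻¹ A) (Θ⁻¹ v⁻¹) A (Θ⁻¹ g⁻¹) ↔ Dc (im Θ A) v A g := by
  constructor
  · rintro ⟨b, hb, a, ha, e⟩
    refine ⟨Θ a⁻¹, apply_mem_im.2 (A.inv_mem ha), (Θ b)⁻¹, A.inv_mem (by simpa [mem_im] using hb), ?_⟩
    have := congrArg (fun x => (Θ x)⁻¹) e
    simpa [mul_assoc] using this
  · rintro ⟨b, hb, a, ha, rfl⟩
    exact ⟨Θ⁻¹ a⁻¹, apply_mem_im.2 (A.inv_mem ha), (Θ⁻¹ b)⁻¹, A.inv_mem (mem_im.1 hb),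
      by simp [mul_assoc]⟩

lemma DUAL_rel (Φ : MulAut F) (X Y : Subgroup F) : (im Φ X).relIndex (im Φ Y) = X.relIndex Y :=
  Subgroup.relIndex_map_map_of_injective X Y Φ.injective

lemma DUAL_ful {N : Subgroup F} (h : Ful N) (Φ : MulAut F) : im Φ N = N := by
  ext x
  rw [mem_im, ← h.iff]

lemma DUAL_sup {N : Subgroup F} (h : Ful N) (Φ : MulAut F) (X Y : Subgroup F) :
    (im Φ X ⊔ N).relIndex (im Φ Y) = (X ⊔ N).relIndex Y := by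
  rw [← DUAL_rel Φ (X ⊔ N) Y, im_sup, DUAL_ful h]

end

theorem p_DUAL :
    S_DUAL := by
  intro F J H _ _ A Θ v f hc ht
  have h2 : ∀ j, Dv A (im Θ⁻¹ A) (Θ⁻¹ (v j)⁻¹) = Dv A (im Θ A) (v j) := fun j => by
    ext d
    rw [DUAL_mem, ← hc.inv]
  have hcov : ∀ g, Dv A (im Θ⁻¹ A) g ≠ ⊥ → ∃ j, Dc (im Θ⁻¹ A) (Θ⁻¹ (v j)⁻¹) A g := by
    intro g hg
    have eg : g = Θ⁻¹ ((Θ g)⁻¹)⁻¹ := by simp
    obtain ⟨j, hj⟩ := hc.rep.cover (Θ g)⁻¹ trivial (fun h => hg (by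
      rw [eq_bot_iff]
      intro d hd
      rw [eg, DUAL_mem, h, Subgroup.mem_bot] at hd
      rw [Subgroup.mem_bot]
      have : Θ d = 1 := by
        rw [show Θ d = (Θ g)⁻¹ * ((Θ g)⁻¹⁻¹ * Θ d * (Θ g)⁻¹) * (Θ g)⁻¹⁻¹ by group, hd]
        group
      exact Θ.injective (by rw [this, map_one])))
    exact ⟨j, by rw [eg]; exact (DUAL_dc _ _).2 hj⟩
  have hback : ∀ j s, (∀ x ∈ Dv A (im Θ A) (v j), s⁻¹ * f x * s = f ((v j)⁻¹ * Θ x * v j)) →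
      ∀ x ∈ Dv A (im Θ A) (v j), f (Θ⁻¹ (v j * x * (v j)⁻¹)) = s * f x * s⁻¹ := by
    intro j s hs x hx
    have e : (v j)⁻¹ * Θ (Θ⁻¹ (v j * x * (v j)⁻¹)) * v j = x := by
      rw [MulAut.apply_inv_self]
      group
    have := hs _ ((hc.inv j _).2 (by rw [e]; exact hx))
    rw [e] at this
    rw [← this]
    group
  refine ⟨⟨fun _ => trivial, fun j => by rw [h2]; exact hc.rep.ne j,
    fun j j' h => hc.rep.dist j j' ((DUAL_dc _ _).1 h), fun g _ hg => hcov g hg⟩, h2,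
    fun N hN j => ?_, fun N hN => ?_, fun u => ?_, fun u => ?_, fun j => ?_⟩
  · have e1 : cj (v j) (Dv A (im Θ A) (v j)) = im Θ (Dv A (im Θ A) (v j)) := by
      ext x
      rw [mem_cj, mem_im (Φ := Θ) (x := x), hc.inv j (Θ⁻¹ x), MulAut.apply_inv_self]
    have e2 : cj (Θ⁻¹ (v j)⁻¹) (Dv A (im Θ A) (v j)) = im Θ⁻¹ (Dv A (im Θ A) (v j)) := by
      ext x
      rw [mem_cj, mem_im (Φ := Θ⁻¹) (x := x), hc.inv j]
      simp [mul_assoc]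
    rw [e1, e2, DUAL_sup hN, DUAL_sup hN]
  · constructor
    · rw [← DUAL_rel Θ N A, DUAL_ful hN]
    · rw [← DUAL_rel Θ⁻¹ N A, DUAL_ful hN]
  · by_cases h : Dv A (im Θ A) u = ⊥
    · refine ⟨u, 1, Dc.refl u, fun x hx => ?_⟩
      rw [h, Subgroup.mem_bot] at hx
      simp [hx]
    · obtain ⟨j, hj⟩ := hc.rep.cover u trivial h
      obtain ⟨s, hs⟩ := ht j
      exact ⟨v j, s, hj, hback j s hs⟩
  · by_cases h : Dv A (im Θ⁻¹ A) u = ⊥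
    · refine ⟨u, 1, Dc.refl u, fun x hx => ?_⟩
      rw [h, Subgroup.mem_bot] at hx
      simp [hx]
    · obtain ⟨j, hj⟩ := hcov u h
      obtain ⟨s, hs⟩ := ht j
      refine ⟨Θ⁻¹ (v j)⁻¹, f (v j) * s⁻¹ * s⁻¹, hj, fun x hx => ?_⟩
      rw [h2] at hx
      have e : Θ (Θ⁻¹ (v j)⁻¹ * x * (Θ⁻¹ (v j)⁻¹)⁻¹) = (v j)⁻¹ * Θ x * v j := by
        simp
      have h1 := hs x hx
      have h3 := hs _ ((hc.inv j x).1 hx)
      rw [e]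
      generalize (v j)⁻¹ * Θ x * v j = y at h1 h3
      rw [show Θ y = v j * ((v j)⁻¹ * Θ y * v j) * (v j)⁻¹ by group, map_mul, map_mul, ← h3, ← h1,
        map_inv]
      simp only [mul_inv_rev, inv_inv, mul_assoc]
  · obtain ⟨s, hs⟩ := ht j
    refine ⟨(f (Θ⁻¹ (v j)))⁻¹ * s * f (Θ⁻¹ (v j)), fun x hx => ?_⟩
    have h1 := hback j s hs x hx
    change _ * f (Θ⁻¹ x) * _ = f (Θ⁻¹ ((v j)⁻¹ * Θ x * v j))
    simp only [map_mul, map_inv, MulAut.inv_apply_self] at h1 ⊢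
    rw [show f (Θ⁻¹ x) = (f (Θ⁻¹ (v j)))⁻¹ * (f (Θ⁻¹ (v j)) * f (Θ⁻¹ x) * (f (Θ⁻¹ (v j)))⁻¹) *
      f (Θ⁻¹ (v j)) by group, h1]
    group

end Pool.Agent.P.MP_67c9d4_al.FR
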