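import Pool.Agent.P.MP_67c9d4_al.FR.Iface

/-! Step EDGE. -/

set_option autoImplicit false
set_option linter.unusedSectionVars false

namespace Pool.Agent.P.MP_67c9d4_al.FR

open Equiv Wr Multiplicative FC

section
variable {X Y W : Type} [Group W]

/-- The origin of the edge read by the letter `x` after the word `L`, as a word. -/
def EDGE_ow (L : List (X × Bool)) (x : X × Bool) : List (X × Bool) := bif x.2 then L else L ++ [x]

lemma EDGE_ow_append (L L' : List (X × Bool)) (x : X × Bool) :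
    FreeGroup.mk (EDGE_ow (L ++ L') x) = FreeGroup.mk L * FreeGroup.mk (EDGE_ow L' x) := by
  obtain ⟨a, _ | _⟩ := x <;> simp [EDGE_ow, FreeGroup.mul_mk]

lemma EDGE_letter (α : FreeGroup X →* Perm Y) (l : Y → X → W) (x : X × Bool) (y : Y) :
    (lab α l (lt x)).c y = 1 ↔ l ((α (FreeGroup.mk (EDGE_ow [] x)))⁻¹ y) x.1 = 1 := by
  obtain ⟨a, _ | _⟩ := x
  · rw [lt_false, lab_inv, inv_eq_one]
    change _ ↔ l ((α (FreeGroup.of a)⁻¹)⁻¹ y) a = 1
    rw [map_inv, inv_inv]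
  · rw [lt_true, lab_of]
    change _ ↔ l ((α 1)⁻¹ y) a = 1
    rw [map_one, inv_one, Perm.one_apply]

lemma EDGE_word (α : FreeGroup X →* Perm Y) (l : Y → X → W) (L : List (X × Bool)) (y : Y)
    (h : (lab α l (FreeGroup.mk L)).c y ≠ 1) : ∃ A x B, L = A ++ x :: B ∧
      l ((α (FreeGroup.mk (EDGE_ow A x)))⁻¹ y) x.1 ≠ 1 := by
  induction L generalizing y with
  | nil => exact (h (by rw [mk_nil, map_one, one_c])).elim
  | cons x L ih =>
    rw [mk_cons, c_mul, lab_p] at h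
    by_cases h1 : (lab α l (lt x)).c y = 1
    · rw [h1, one_mul] at h
      obtain ⟨A, x', B, e, h'⟩ := ih _ h
      refine ⟨[x] ++ A, x', B, by rw [e]; rfl, ?_⟩
      rwa [EDGE_ow_append, inv_mul_apply]
    · exact ⟨[], x, L, rfl, mt (EDGE_letter α l x y).2 h1⟩

open Classical in
lemma EDGE_pre {g : FreeGroup X} {A B : List (X × Bool)} {x : X × Bool}
    (h : g.toWord = A ++ x :: B) : FreeGroup.mk (EDGE_ow A x) ∈ Pre g := by
  obtain ⟨a, _ | _⟩ := x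
  · exact ⟨A ++ [(a, false)], B, by simpa using h, rfl⟩
  · exact ⟨A, _, h, rfl⟩

lemma EDGE_red {A B : List (X × Bool)} {x : X × Bool} (h : FreeGroup.IsReduced (A ++ x :: B)) :
    FreeGroup.IsReduced (EDGE_ow A x) := by
  obtain ⟨a, _ | _⟩ := x
  · have h' : FreeGroup.IsReduced (A ++ [(a, false)] ++ B) := by simpa using h
    exact List.IsChain.left_of_append h'
  · exact List.IsChain.left_of_append h

lemma EDGE_mixed {A B A' : List (X × Bool)} {a : X}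
    (h : FreeGroup.IsReduced (A ++ (a, true) :: B)) : A ≠ A' ++ [(a, false)] := by
  rintro rfl
  have h' : FreeGroup.IsReduced (A' ++ (a, false) :: (a, true) :: B) := by simpa using h
  have := (List.isChain_cons_cons.1 (List.IsChain.right_of_append h')).1 rfl
  simp at this

lemma EDGE_uniq {A B A' B' : List (X × Bool)} {x x' : X × Bool}
    (h : FreeGroup.IsReduced (A ++ x :: B)) (e : A ++ x :: B = A' ++ x' :: B') (e1 : x.1 = x'.1)
    (e2 : FreeGroup.mk (EDGE_ow A x) = FreeGroup.mk (EDGE_ow A' x')) : A = A' := by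
  classical
  have h' : FreeGroup.IsReduced (A' ++ x' :: B') := e ▸ h
  have e3 := FreeGroup.reduce.sound e2
  rw [(EDGE_red h).reduce_eq, (EDGE_red h').reduce_eq] at e3
  obtain ⟨a, b⟩ := x
  obtain ⟨a', b'⟩ := x'
  obtain rfl : a = a' := e1
  cases b <;> cases b'
  · exact List.append_cancel_right e3
  · exact (EDGE_mixed h' e3.symm).elim
  · exact (EDGE_mixed h e3).elim
  · exact e3

end

theorem p_EDGE :
    S_EDGE := by
  classical
  intro X S Θ g hg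
  rw [mem_im] at hg
  obtain ⟨x₀, hx₀, hS⟩ : ∃ x₀ ∈ (Θ⁻¹ g).toWord, x₀.1 ∉ S := by
    by_contra hc
    push Not at hc
    apply hg
    rw [← FreeGroup.mk_toWord (x := Θ⁻¹ g), mk_eq_prod]
    refine Subgroup.list_prod_mem _ fun r hr => ?_
    obtain ⟨x, hx, rfl⟩ := List.mem_map.1 hr
    exact lt_mem (hc x hx)
  obtain ⟨L₁, L₂, hL⟩ := List.append_of_mem hx₀
  have hfin := (pre_finite (Θ⁻¹ g)).image Θ
  refine ⟨Θ '' Pre (Θ⁻¹ g) ∪ Set.image2 (fun r r' => r * r'⁻¹) (Θ '' Pre (Θ⁻¹ g))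
    (Θ '' Pre (Θ⁻¹ g)), hfin.union (hfin.image2 _ hfin), fun N hN hR x => ?_⟩
  obtain ⟨α, hα⟩ : ∃ α : FreeGroup X →* Perm (FreeGroup X ⧸ N), ∀ h, α h = qa N (Θ h) :=
    ⟨(qa N).comp Θ.toMonoidHom, fun _ => rfl⟩
  obtain ⟨o, ho⟩ : ∃ o, o = FreeGroup.mk (EDGE_ow L₁ x₀) := ⟨_, rfl⟩
  obtain ⟨l, hl⟩ : ∃ l : FreeGroup X ⧸ N → X → Z2,
      ∀ y a, l y a ≠ 1 ↔ y = (α o)⁻¹ x ∧ a = x₀.1 :=
    ⟨fun y a => if y = (α o)⁻¹ x ∧ a = x₀.1 then ofAdd 1 else 1, fun y a => by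
      by_cases h : y = (α o)⁻¹ x ∧ a = x₀.1
      · simp only [if_pos h]
        exact iff_of_true (by decide) h
      · simp only [if_neg h]
        exact iff_of_false (by decide) h⟩
  have hoP : Θ o ∈ Θ '' Pre (Θ⁻¹ g) := ⟨o, ho ▸ EDGE_pre hL, rfl⟩
  have hred : FreeGroup.IsReduced (L₁ ++ x₀ :: L₂) := hL ▸ FreeGroup.isReduced_toWord
  have key : ∀ A x' B, L₁ ++ x₀ :: L₂ = A ++ x' :: B →
      l ((α (FreeGroup.mk (EDGE_ow A x')))⁻¹ x) x'.1 ≠ 1 → L₁ = A := by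
    intro A x' B e h
    obtain ⟨h1, h2⟩ := (hl _ _).1 h
    have hm : Θ o * (Θ (FreeGroup.mk (EDGE_ow A x')))⁻¹ ∈ N := by
      rw [← qa_fix hN x, map_mul, map_inv, Perm.mul_apply, ← hα, ← hα, h1]
      simp
    have := hR _ (Or.inr ⟨_, hoP, _, ⟨_, EDGE_pre (hL.trans e), rfl⟩, rfl⟩) hm
    exact EDGE_uniq hred e h2.symm (ho ▸ Θ.injective (mul_inv_eq_one.1 this))
  refine ⟨(lab α l).comp (Θ⁻¹ : MulAut (FreeGroup X)).toMonoidHom, Θ o, Or.inl hoP,
    fun h => ?_, fun b hb y => ?_, ?_, fun h y hy => ?_⟩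
  · change (lab α l (Θ⁻¹ h)).p = _
    rw [lab_p, hα]
    simp
  · change (lab α l (Θ⁻¹ b)).c y = 1
    by_contra hc
    rw [mem_im, ← FreeGroup.mk_toWord (x := Θ⁻¹ b)] at hb
    rw [← FreeGroup.mk_toWord (x := Θ⁻¹ b)] at hc
    obtain ⟨A, x', B, e, h⟩ := EDGE_word α l _ _ hc
    have := letters_of_mem FreeGroup.isReduced_toWord hb x' (by rw [e]; simp)
    exact hS (((hl _ _).1 h).2 ▸ this)
  · change (lab α l (Θ⁻¹ g)).c x ≠ 1
    have e0 : Θ⁻¹ g = FreeGroup.mk L₁ * (lt x₀ * FreeGroup.mk L₂) := by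
      rw [← mk_cons, FreeGroup.mul_mk, ← hL, FreeGroup.mk_toWord]
    have a1 : (lab α l (FreeGroup.mk L₁)).c x = 1 := by
      by_contra hc
      obtain ⟨A, x', B, e, h⟩ := EDGE_word α l _ _ hc
      have := key A x' (B ++ x₀ :: L₂) (by rw [e]; simp) h
      simpa using congrArg List.length (this.symm.trans e)
    have a2 : (lab α l (FreeGroup.mk L₂)).c ((α (lt x₀))⁻¹ ((α (FreeGroup.mk L₁))⁻¹ x)) = 1 := by
      by_contra hc
      obtain ⟨A, x', B, e, h⟩ := EDGE_word α l _ _ hc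
      have := key (L₁ ++ ([x₀] ++ A)) x' B (by rw [e]; simp) (by
        rw [EDGE_ow_append, EDGE_ow_append, inv_mul_apply, inv_mul_apply]; exact h)
      simpa using congrArg List.length this
    rw [e0, c_mul, c_mul, lab_p, lab_p, a1, a2, one_mul, mul_one, Ne, EDGE_letter,
      ← inv_mul_apply, ← EDGE_ow_append, List.append_nil, ← ho]
    exact (hl _ _).2 ⟨rfl, rfl⟩
  · change (lab α l (Θ⁻¹ h)).c y ≠ 1 at hy
    rw [← FreeGroup.mk_toWord (x := Θ⁻¹ h)] at hy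
    obtain ⟨A, x', B, e, h'⟩ := EDGE_word α l _ _ hy
    refine ⟨_, ⟨_, EDGE_pre e, rfl⟩, ?_⟩
    rw [← hα, ← hα]
    exact ((hl _ _).1 h').1

end Pool.Agent.P.MP_67c9d4_al.FR
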