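import Pool.Agent.P.MP_67c9d4_al.FR.Iface

/-! Step FFL. -/

set_option autoImplicit false
set_option linter.unusedSectionVars false

namespace Pool.Agent.P.MP_67c9d4_al.FR

open Equiv Wr Multiplicative FC

lemma FFL_fix {F : Type} [Group F] {A : Subgroup F} {a : F} (ha : a ∈ A) :
    a • ((1 : F) : F ⧸ A) = ((1 : F) : F ⧸ A) := by
  change (((a * 1 : F)) : F ⧸ A) = _
  rw [QuotientGroup.eq]
  simpa using ha

theorem p_FFL :
    S_FFL := by
  intro F I _ A V U c h le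
  refine ⟨rfl, fun W _ f y hf => ?_⟩
  have ho : (((1 : F) : F ⧸ A)).out ∈ A := by
    have := QuotientGroup.out_eq' (((1 : F) : F ⧸ A))
    rw [QuotientGroup.eq] at this
    simpa using this
  obtain ⟨G, hG, h1, h2⟩ := h.2 (Wr (F ⧸ A) W) (ind A hf.hom)
    (fun i => base fun _ => (f (((1 : F) : F ⧸ A)).out)⁻¹ * y i * f (((1 : F) : F ⧸ A)).out)
    (hm_hom _ _)
  have le' : A ⊔ Subgroup.closure (Set.range c) ≤ U := by
    rw [h.1]
    exact sup_le_sup_right le _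
  have fix : ∀ u ∈ A ⊔ Subgroup.closure (Set.range c),
      G u ∈ stb (MonoidHom.id (Wr (F ⧸ A) W)) ((1 : F) : F ⧸ A) := by
    refine hG.mem_sup le' (fun a ha => ?_) ?_
    · rw [mem_stb, MonoidHom.id_apply, h1 a (le ha), ind_p, FFL_fix ha]
    · rintro _ ⟨i, rfl⟩
      rw [mem_stb, MonoidHom.id_apply, h2 i]
      rfl
  refine ⟨fun u => f (((1 : F) : F ⧸ A)).out * (G u).c ((1 : F) : F ⧸ A) *
    (f (((1 : F) : F ⧸ A)).out)⁻¹, fun a ha b hb => ?_, fun a ha => ?_, fun i => ?_⟩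
  · have e : (G a).p⁻¹ ((1 : F) : F ⧸ A) = ((1 : F) : F ⧸ A) :=
      Perm.inv_eq_iff_eq.2 (mem_stb.1 (fix a ha)).symm
    simp only [hG a (le' ha) b (le' hb), mul_c, e]
    group
  · have e : (ind A hf.hom a).c ((1 : F) : F ⧸ A) =
        f ((((1 : F) : F ⧸ A)).out⁻¹ * a * (a⁻¹ • ((1 : F) : F ⧸ A)).out) := rfl
    simp only [h1 a (le ha)]
    rw [e, FFL_fix (A.inv_mem ha), hf _ (A.mul_mem (A.inv_mem ho) ha) _ ho,
      hf _ (A.inv_mem ho) _ ha, hf.inv ho]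
    group
  · simp only [h2 i, base_c]
    group

end Pool.Agent.P.MP_67c9d4_al.FR
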