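import Pool.Agent.P.MP_67c9d4_al.FR.Iface

/-! Step FINIM. -/

set_option autoImplicit false
set_option linter.unusedSectionVars false

namespace Pool.Agent.P.MP_67c9d4_al.FR

open Equiv Wr Multiplicative FC

lemma FINIM_ker {F W : Type} [Group F] [Group W] (K : Subgroup F) [K.FiniteIndex] (f : K →* W)
    (E : Subgroup W) [Finite E] (c : W) (h : ∀ x, f x ∈ cj c E) :
    ∃ N, FN N ∧ ∀ g ∈ N, ∀ hg : g ∈ K, f ⟨g, hg⟩ = 1 := by
  let φ : K →* E := (((MulAut.conj c⁻¹).toMonoidHom).comp f).codRestrict E fun x => h x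
  have h1 : φ.ker.FiniteIndex := inferInstance
  have h2 : (φ.ker.map K.subtype).FiniteIndex := ⟨by
    rw [Subgroup.index_map_subtype]
    exact mul_ne_zero h1.index_ne_zero Subgroup.FiniteIndex.index_ne_zero⟩
  refine ⟨(φ.ker.map K.subtype).normalCore, FN.core _, fun g hg hgK => ?_⟩
  obtain ⟨x, hx, e⟩ := Subgroup.normalCore_le _ hg
  have e' : x = ⟨g, hgK⟩ := Subtype.ext e
  rw [← e']
  have h3 : (MulAut.conj c⁻¹) (f x) = 1 := congrArg Subtype.val (MonoidHom.mem_ker.1 hx)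
  exact (map_eq_one_iff _ (MulAut.conj c⁻¹).injective).1 h3

theorem p_FINIM :
    S_FINIM := by
  intro F Y W _ _ _ σ A r E P hE hr hrA hP
  have key : ∀ y : Y, ∃ N : Subgroup F, FN N ∧ (P y → ∀ n ∈ N, n ∈ A → (σ n).p y = y →
      (σ n).c y = 1) := by
    intro y
    by_cases hy : P y
    · obtain ⟨c, hc⟩ := hP y hy
      have := stb_fi (σ.comp r) y
      obtain ⟨N, hN, hN1⟩ := FINIM_ker (stb (σ.comp r) y) (stH (σ.comp r) y) E c
        fun x => hc _ (hrA x)
      refine ⟨N, hN, fun _ n hn hnA hp => ?_⟩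
      have h1 : n ∈ stb (σ.comp r) y := by
        rw [mem_stb, MonoidHom.comp_apply, hr n hnA]; exact hp
      have h2 := hN1 n hn h1
      rw [stH_apply, MonoidHom.comp_apply] at h2
      rwa [show r ((⟨n, h1⟩ : stb (σ.comp r) y) : F) = n from hr n hnA] at h2
    · exact ⟨⊤, FN.top, fun h => absurd h hy⟩
  choose N hN hN1 using key
  refine ⟨(⨅ y, N y) ⊓ (pHom.comp σ).ker, (FN.iInf hN).inf (FN.ker _), fun n hn => hn.2,
    fun y hy n hn hnA => hN1 y hy n (Subgroup.mem_iInf.1 hn.1 y) hnA ?_⟩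
  have : (σ n).p = 1 := hn.2
  rw [this]; rfl

end Pool.Agent.P.MP_67c9d4_al.FR
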