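import Pool.Agent.P.MP_67c9d4_al.FR.Iface

/-! Step FOLD. -/

set_option autoImplicit false
set_option linter.unusedSectionVars false

namespace Pool.Agent.P.MP_67c9d4_al.FR

open Equiv Wr Multiplicative FC

theorem p_FOLD (hBOUND : S_BOUND) (hINIT : S_INIT) (hTERM : S_TERM) (hFSTEP : S_FSTEP) :
    S_FOLD := by
  intro X S A V m hS hC hL hG hn
  have hAV : A ≤ V := hG.le
  have main : ∀ (k : ℕ) (E : List (Ed (FreeGroup X))) (N : Finset ℕ), E.length = k → Let S E →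
      Spans A V E → Fits V E → Conn E N → E.length ≤ m + N.card →
      ∃ p ∈ S, ∃ q ∈ S, p * q⁻¹ ∈ V ∧ p * q⁻¹ ∉ A ∧ ∃ m', m = m' + 1 ∧
        Gn (A ⊔ Subgroup.zpowers (p * q⁻¹)) V m' := by
    intro k
    induction k using Nat.strong_induction_on with
    | _ k ih =>
      intro E N hk h1 h2 h3 h4 h5
      by_cases hd : ∀ x y y₁ y₂, Arr S A E x y y₁ → Arr S A E x y y₂ → y₁ = y₂
      · exact absurd (hTERM X S A V E N hS hC hL h1 h2 h4 hd) hn
      · simp only [not_forall] at hd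
        obtain ⟨x, y, y₁, y₂, a₁, a₂, hne⟩ := hd
        rcases hFSTEP X S A V E N hAV h1 h2 h3 h4 x y y₁ y₂ a₁ a₂ hne with
          ⟨E', N', g1, g2, g3, g4, g5, g6⟩ | ⟨p, hp, q, hq, hV, hA, E', g2, g3, g4, g5⟩
        · exact ih E'.length (by omega) E' N' rfl g1 g2 g3 g4 (by omega)
        · have hle : A ⊔ Subgroup.zpowers (p * q⁻¹) ≤ V :=
            sup_le hAV ((Subgroup.zpowers_le).2 hV)
          obtain ⟨b1, b2⟩ := hBOUND _ _ V E' N hle g2 g3 g4
          exact ⟨p, hp, q, hq, hV, hA, m - 1, by omega, b2.mono (by omega)⟩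
  obtain ⟨E, N, h1, h2, h3, h4, h5⟩ := hINIT X A V m hG
  refine main _ E N rfl (fun e he => ?_) h2 h3 h4 h5
  obtain ⟨a, b, c⟩ := h1 e he
  exact ⟨a, fun p hp => (show p = 1 from b p hp) ▸ hC.1,
    fun p hp => (show p = 1 from c p hp) ▸ hC.1⟩

end Pool.Agent.P.MP_67c9d4_al.FR
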