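import Pool.Agent.P.MP_67c9d4_al.FR.Iface

/-! Step FP. -/

set_option autoImplicit false
set_option linter.unusedSectionVars false

namespace Pool.Agent.P.MP_67c9d4_al.FR

open Equiv Wr Multiplicative FC

/-- The graph of groups of a free product. -/
def FP_td (H₁ H₂ : Type) [Group H₁] [Group H₂] : TD (Monoid.Coprod H₁ H₂) Bool Unit where
  vt k := k.2
  G v := bif v then (Monoid.Coprod.inl : H₁ →* Monoid.Coprod H₁ H₂).range
    else (Monoid.Coprod.inr : H₂ →* Monoid.Coprod H₁ H₂).range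
  P _ := ⊥
  ε _ := 1
  le _ := bot_le
  inv _ := inv_one.symm
  conj _ g := by simp

lemma FP_one (H₁ H₂ : Type) [Group H₁] [Group H₂] (u v : Bool) : (FP_td H₁ H₂).Pth u v 1 := by
  cases u <;> cases v
  · exact .vtx (one_mem _)
  · exact .edge ((), false)
  · exact .edge ((), true)
  · exact .vtx (one_mem _)

lemma FP_vtx (H₁ H₂ : Type) [Group H₁] [Group H₂] (u v w : Bool) (g : Monoid.Coprod H₁ H₂)
    (hg : g ∈ (FP_td H₁ H₂).G w) : (FP_td H₁ H₂).Pth u v g := by
  have := ((FP_one H₁ H₂ u w).mul (.vtx hg)).mul (FP_one H₁ H₂ w v)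
  rwa [one_mul, mul_one] at this

lemma FP_tree (H₁ H₂ : Type) [Group H₁] [Group H₂] : (FP_td H₁ H₂).Tree := by
  refine ⟨fun u v h => ?_, fun W _ σ γ h1 h2 _ => ?_⟩
  · induction h using Monoid.Coprod.induction_on generalizing u v with
    | inl m => exact FP_vtx H₁ H₂ u v true _ ⟨m, rfl⟩
    | inr m => exact FP_vtx H₁ H₂ u v false _ ⟨m, rfl⟩
    | mul x y hx hy => exact (hx u u).mul (hy u v)
  · let f₁ : H₁ →* W := MonoidHom.mk' (fun x => σ true (Monoid.Coprod.inl x)) fun x y => by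
      rw [map_mul]
      exact h1 true _ ⟨x, rfl⟩ _ ⟨y, rfl⟩
    let f₂ : H₂ →* W := MonoidHom.mk'
      (fun x => γ ((), true) * σ false (Monoid.Coprod.inr x) * (γ ((), true))⁻¹) fun x y => by
      rw [map_mul, h1 false _ ⟨x, rfl⟩ _ ⟨y, rfl⟩]
      group
    let F : Monoid.Coprod H₁ H₂ →* W := Monoid.Coprod.lift f₁ f₂
    let c : Bool → W := fun u => bif u then 1 else γ ((), true)
    refine ⟨fun u v h => (c u)⁻¹ * F h * c v, fun u v w x y => ?_, ?_, ?_⟩
    · simp only [map_mul]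
      group
    · rintro (_ | _) _ ⟨x, rfl⟩
      · change (γ ((), true))⁻¹ * F (Monoid.Coprod.inr x) * γ ((), true) = _
        rw [Monoid.Coprod.lift_apply_inr]
        change _ * (γ ((), true) * σ false (Monoid.Coprod.inr x) * (γ ((), true))⁻¹) * _ = _
        group
      · change (1 : W)⁻¹ * F (Monoid.Coprod.inl x) * 1 = _
        rw [Monoid.Coprod.lift_apply_inl, inv_one, one_mul, mul_one]
        rfl
    · rintro ⟨e, _ | _⟩
      · change (γ ((), true))⁻¹ * F 1 * 1 = γ (bar ((), true))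
        rw [h2, map_one, mul_one, mul_one]
      · change (1 : W)⁻¹ * F 1 * γ ((), true) = γ ((), true)
        rw [map_one, inv_one, one_mul, one_mul]

lemma FP_vs {H G : Type} [Group H] [Group G] (i : H →* G) (r : G →* H) (e : ∀ x, r (i x) = x)
    (h : VS (⊤ : Subgroup H) ⊥) : VS i.range ⊥ := by
  obtain ⟨T, hT, Γ, X, hX, σ, hσ⟩ := h
  have hi : Function.Injective i := Function.LeftInverse.injective e
  have e' : (σ.comp r).comp i = σ := by
    ext1 x
    simp [e]
  have := SepOn.map hi (σ := σ.comp r) (Λ := ⊥) (by rw [e']; exact hσ)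
  rw [Subgroup.map_bot] at this
  exact ⟨T, hT, Γ, X, hX, _, this⟩

theorem p_FP (hT3 : S_T3) (hVPS : S_VPS) :
    S_FP := by
  intro H₁ H₂ _ _ h₁ h₂
  have v : ∀ b, VS ((FP_td H₁ H₂).G b) ⊥ := by
    rintro (_ | _)
    · exact FP_vs (G := Monoid.Coprod H₁ H₂) Monoid.Coprod.inr Monoid.Coprod.snd
        (fun x => by simp) (hVPS _ _ h₂)
    · exact FP_vs (G := Monoid.Coprod H₁ H₂) Monoid.Coprod.inl Monoid.Coprod.fst
        (fun x => by simp) (hVPS _ _ h₁)
  have t := hT3 _ _ _ (FP_td H₁ H₂) (FP_tree H₁ H₂) (fun k => v k.2) true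
  exact ⟨t ⊥ bot_le (v true), t _ le_rfl (VS.of_le le_rfl)⟩

end Pool.Agent.P.MP_67c9d4_al.FR
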