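import Pool.Agent.P.MP_67c9d4_al.FR.Iface

/-! Step FSTEP. -/

set_option autoImplicit false
set_option linter.unusedSectionVars false

namespace Pool.Agent.P.MP_67c9d4_al.FR

open Equiv Wr Multiplicative FC

section
variable {F : Type} [Group F]

/-- the position of a vertex -/
abbrev FSTEP_v (π : ℕ → F) : F ⊕ ℕ → F := Sum.elim id π

/-- an edge in one of the two orientations -/
def FSTEP_e (e : Ed F) (g : F) (o τ : F ⊕ ℕ) : Prop := e = (o, g, τ) ∨ e = (τ, g⁻¹, o)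

/-- substitution of the ends -/
def FSTEP_s (σ : F ⊕ ℕ → F ⊕ ℕ) (e : Ed F) : Ed F := (σ e.1, e.2.1, σ e.2.2)

/-- joined to a known point -/
def FSTEP_r (E : List (Ed F)) (a : F ⊕ ℕ) : Prop := ∃ p, Relation.ReflTransGen
  (fun a b => ∃ e ∈ E, e.1 = a ∧ e.2.2 = b ∨ e.1 = b ∧ e.2.2 = a) (Sum.inl p) a

lemma FSTEP_el {e : Ed F} {g : F} {o τ : F ⊕ ℕ} (h : FSTEP_e e g o τ) (π : ℕ → F)
    (H : Subgroup F) : el π e ∈ H ↔ FSTEP_v π o * g * (FSTEP_v π τ)⁻¹ ∈ H := by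
  rcases h with rfl | rfl
  · rfl
  · rw [← inv_mem_iff]
    simp [el, mul_assoc]

lemma FSTEP_inl (E : List (Ed F)) (p : F) : FSTEP_r E (Sum.inl p) := ⟨p, .refl⟩

lemma FSTEP_adj {E : List (Ed F)} {e : Ed F} (he : e ∈ E) :
    FSTEP_r E e.1 ↔ FSTEP_r E e.2.2 :=
  ⟨fun ⟨p, h⟩ => ⟨p, h.tail ⟨e, he, Or.inl ⟨rfl, rfl⟩⟩⟩,
    fun ⟨p, h⟩ => ⟨p, h.tail ⟨e, he, Or.inr ⟨rfl, rfl⟩⟩⟩⟩

lemma FSTEP_reach {E R : List (Ed F)} {σ : F ⊕ ℕ → F ⊕ ℕ} (hσ : ∀ p, σ (Sum.inl p) = Sum.inl p)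
    (h : ∀ e ∈ E, FSTEP_r R (σ e.1) ↔ FSTEP_r R (σ e.2.2)) {a : F ⊕ ℕ} (ha : FSTEP_r E a) :
    FSTEP_r R (σ a) := by
  obtain ⟨p, ha⟩ := ha
  induction ha with
  | refl => rw [hσ]; exact FSTEP_inl _ _
  | tail _ k ih =>
    obtain ⟨e, he, ⟨rfl, rfl⟩ | ⟨rfl, rfl⟩⟩ := k
    exacts [(h e he).1 ih, (h e he).2 ih]

end

lemma FSTEP_main {X : Type} {S : Set (FreeGroup X)} {A V : Subgroup (FreeGroup X)}
    {E₁ E₂ : List (Ed (FreeGroup X))} {e' : Ed (FreeGroup X)} {N : Finset ℕ} (hAV : A ≤ V)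
    (hL : Let S (E₁ ++ e' :: E₂)) (hS : Spans A V (E₁ ++ e' :: E₂))
    (hF : Fits V (E₁ ++ e' :: E₂)) (hC : Conn (E₁ ++ e' :: E₂) N) {g : FreeGroup X}
    {o τ o' τ' : FreeGroup X ⊕ ℕ} (he' : FSTEP_e e' g o' τ')
    (ha : (∃ r, r * g ∈ S ∧ o = Sum.inl r ∧ τ = Sum.inl (r * g)) ∨
      ∃ e ∈ E₁ ++ E₂, FSTEP_e e g o τ)
    (ho : o.map (pt A) id = o'.map (pt A) id) (hτ : τ.map (pt A) id ≠ τ'.map (pt A) id)
    (hk : (∃ ν, τ' = Sum.inr ν) ∨ ∃ p q, τ = Sum.inl p ∧ τ' = Sum.inl q) :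
    (∃ E' N', Let S E' ∧ Spans A V E' ∧ Fits V E' ∧ Conn E' N' ∧
      E'.length + 1 = (E₁ ++ e' :: E₂).length ∧ N'.card + 1 = N.card) ∨
    ∃ p ∈ S, ∃ q ∈ S, p * q⁻¹ ∈ V ∧ p * q⁻¹ ∉ A ∧ ∃ E', Spans (A ⊔ Subgroup.zpowers (p * q⁻¹)) V E' ∧
      Fits V E' ∧ Conn E' N ∧ E'.length + 1 = (E₁ ++ e' :: E₂).length := by
  have mem : ∀ e, e ∈ E₁ ++ e' :: E₂ ↔ e = e' ∨ e ∈ E₁ ++ E₂ := fun e => by
    simp only [List.mem_append, List.mem_cons]; tauto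
  have len : ∀ σ, ((E₁ ++ E₂).map (FSTEP_s σ)).length + 1 = (E₁ ++ e' :: E₂).length := fun σ => by
    simp only [List.length_map, List.length_append, List.length_cons]; omega
  have oo : o = o' ∨ ∃ p p', o = Sum.inl p ∧ o' = Sum.inl p' ∧ p' * p⁻¹ ∈ A := by
    rcases o with p | a <;> rcases o' with p' | a'
    · exact Or.inr ⟨p, p', rfl, rfl, pt_eq.1 (Sum.inl.inj ho).symm⟩
    · cases ho
    · cases ho
    · exact Or.inl (congrArg _ (Sum.inr.inj ho))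
  have oA : ∀ π, FSTEP_v π o' * (FSTEP_v π o)⁻¹ ∈ A := fun π => by
    rcases oo with rfl | ⟨p, p', rfl, rfl, h⟩
    · rw [mul_inv_cancel]; exact A.one_mem
    · exact h
  have kA : ∀ π (H : Subgroup (FreeGroup X)), (∀ e ∈ E₁ ++ E₂, el π e ∈ H) →
      FSTEP_v π o * g * (FSTEP_v π τ)⁻¹ ∈ H := fun π H h => by
    rcases ha with ⟨r, -, rfl, rfl⟩ | ⟨e, he, k⟩
    · show r * g * (r * g)⁻¹ ∈ H
      rw [mul_inv_cancel]; exact H.one_mem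
    · exact (FSTEP_el k π H).1 (h e he)
  have ends : ∀ {e : Ed (FreeGroup X)} {a b}, e ∈ E₁ ++ e' :: E₂ → FSTEP_e e g a b →
      (∀ p, b = Sum.inl p → p ∈ S) ∧ ∀ ν, b = Sum.inr ν → ν ∈ N := by
    rintro e a b he (rfl | rfl)
    · exact ⟨(hL _ he).2.2, fun ν h => hC.1 _ he ν (Or.inr h)⟩
    · exact ⟨(hL _ he).2.1, fun ν h => hC.1 _ he ν (Or.inl h)⟩
  have kC : (∀ p, τ = Sum.inl p → p ∈ S) ∧ ∀ ν, τ = Sum.inr ν → ν ∈ N := by
    rcases ha with ⟨r, h, -, rfl⟩ | ⟨e, he, k⟩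
    · exact ⟨fun p e => Sum.inl.inj e ▸ h, fun ν e => by cases e⟩
    · exact ends ((mem e).2 (Or.inr he)) k
  have kC' := ends ((mem e').2 (Or.inl rfl)) he'
  have sp : ∀ (H : Subgroup (FreeGroup X)) π, A ≤ H → (∀ e ∈ E₁ ++ E₂, el π e ∈ H) →
      FSTEP_v π τ * (FSTEP_v π τ')⁻¹ ∈ H → V ≤ H := fun H π hA h k => by
    refine hS H hA π fun e he => ?_
    rcases (mem e).1 he with rfl | he
    · rw [FSTEP_el he']
      have := H.mul_mem (H.mul_mem (hA (oA π)) (kA π H h)) k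
      simpa [mul_assoc] using this
    · exact h e he
  have cn : ∀ σ : FreeGroup X ⊕ ℕ → FreeGroup X ⊕ ℕ, (∀ p, σ (Sum.inl p) = Sum.inl p) →
      (FSTEP_r ((E₁ ++ E₂).map (FSTEP_s σ)) (σ τ) ↔
        FSTEP_r ((E₁ ++ E₂).map (FSTEP_s σ)) (σ τ')) →
      ∀ ν ∈ N, FSTEP_r ((E₁ ++ E₂).map (FSTEP_s σ)) (σ (Sum.inr ν)) := fun σ hσ k ν hν => by
    have ad : ∀ e ∈ E₁ ++ E₂, FSTEP_r ((E₁ ++ E₂).map (FSTEP_s σ)) (σ e.1) ↔
        FSTEP_r ((E₁ ++ E₂).map (FSTEP_s σ)) (σ e.2.2) := fun e he =>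
      FSTEP_adj (List.mem_map_of_mem (f := FSTEP_s σ) he)
    have k1 : FSTEP_r ((E₁ ++ E₂).map (FSTEP_s σ)) (σ o) ↔
        FSTEP_r ((E₁ ++ E₂).map (FSTEP_s σ)) (σ τ) := by
      rcases ha with ⟨r, -, rfl, rfl⟩ | ⟨e, he, rfl | rfl⟩
      · rw [hσ, hσ]; exact iff_of_true (FSTEP_inl _ _) (FSTEP_inl _ _)
      · exact ad _ he
      · exact (ad _ he).symm
    have k2 : FSTEP_r ((E₁ ++ E₂).map (FSTEP_s σ)) (σ o') ↔
        FSTEP_r ((E₁ ++ E₂).map (FSTEP_s σ)) (σ o) := by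
      rcases oo with rfl | ⟨p, p', rfl, rfl, -⟩
      · rfl
      · rw [hσ, hσ]; exact iff_of_true (FSTEP_inl _ _) (FSTEP_inl _ _)
    refine FSTEP_reach hσ (fun e he => ?_) (hC.2 ν hν)
    rcases (mem e).1 he with rfl | he
    · rcases he' with rfl | rfl
      exacts [k2.trans (k1.trans k), (k2.trans (k1.trans k)).symm]
    · exact ad e he
  obtain ⟨π₀, h₀⟩ := hF
  have h₁ : ∀ e ∈ E₁ ++ E₂, el π₀ e ∈ V := fun e he => h₀ e ((mem e).2 (Or.inr he))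
  have fV : FSTEP_v π₀ τ * (FSTEP_v π₀ τ')⁻¹ ∈ V := by
    have := V.mul_mem (V.mul_mem (V.inv_mem (kA π₀ V h₁)) (V.inv_mem (hAV (oA π₀))))
      ((FSTEP_el he' π₀ V).1 (h₀ e' ((mem e').2 (Or.inl rfl))))
    simpa [mul_assoc] using this
  rcases hk with ⟨ν, rfl⟩ | ⟨p, q, rfl, rfl⟩
  · classical
    have tn : τ ≠ Sum.inr ν := fun e => hτ (by rw [e])
    obtain ⟨σ, hσ, s1⟩ : ∃ σ : FreeGroup X ⊕ ℕ → FreeGroup X ⊕ ℕ, σ (Sum.inr ν) = τ ∧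
        ∀ a, a ≠ Sum.inr ν → σ a = a :=
      ⟨fun a => if a = Sum.inr ν then τ else a, if_pos rfl, fun a h => if_neg h⟩
    have s2 : ∀ p, σ (Sum.inl p) = Sum.inl p := fun p => s1 _ Sum.inl_ne_inr
    have s3 : ∀ a, σ a = τ ∧ a = Sum.inr ν ∨ σ a = a ∧ a ≠ Sum.inr ν := fun a => by
      by_cases h : a = Sum.inr ν
      exacts [Or.inl ⟨h ▸ hσ, h⟩, Or.inr ⟨s1 a h, h⟩]
    refine Or.inl ⟨(E₁ ++ E₂).map (FSTEP_s σ), N.erase ν, fun e he => ?_, fun H hA π h => ?_,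
      ⟨π₀, fun e he => ?_⟩, ⟨fun e he μ h => ?_, fun μ hμ => ?_⟩, len σ,
      Finset.card_erase_add_one (kC'.2 ν rfl)⟩
    · replace he := List.mem_map.1 he
      obtain ⟨e, he, rfl⟩ := he
      have := hL e ((mem e).2 (Or.inr he))
      refine ⟨this.1, fun p h => ?_, fun p h => ?_⟩
      · rcases s3 e.1 with k | k
        exacts [kC.1 p (k.1.symm.trans h), this.2.1 p (k.1.symm.trans h)]
      · rcases s3 e.2.2 with k | k
        exacts [kC.1 p (k.1.symm.trans h), this.2.2 p (k.1.symm.trans h)]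
    · have v : ∀ a, FSTEP_v (fun μ => FSTEP_v π (σ (Sum.inr μ))) a = FSTEP_v π (σ a) := fun a => by
        rcases a with p | μ
        · rw [s2]; rfl
        · rfl
      refine sp H (fun μ => FSTEP_v π (σ (Sum.inr μ))) hA (fun e he => ?_) ?_
      · have := h _ (List.mem_map_of_mem (f := FSTEP_s σ) he)
        show FSTEP_v _ e.1 * e.2.1 * (FSTEP_v _ e.2.2)⁻¹ ∈ H
        rw [v, v]
        exact this
      · rw [v, v, hσ, s1 τ tn, mul_inv_cancel]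
        exact H.one_mem
    · replace he := List.mem_map.1 he
      obtain ⟨e, he, rfl⟩ := he
      have v : ∀ a, FSTEP_v π₀ (σ a) * (FSTEP_v π₀ a)⁻¹ ∈ V := fun a => by
        rcases s3 a with k | k
        · rw [k.1, k.2]; exact fV
        · rw [k.1, mul_inv_cancel]; exact V.one_mem
      have := V.mul_mem (V.mul_mem (v e.1) (h₁ e he)) (V.inv_mem (v e.2.2))
      simpa [el, FSTEP_s, mul_assoc] using this
    · replace he := List.mem_map.1 he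
      obtain ⟨e, he, rfl⟩ := he
      have k : ∀ a, (∀ μ, a = Sum.inr μ → μ ∈ N) → σ a = Sum.inr μ → μ ∈ N.erase ν := by
        intro a h1 h2
        rcases s3 a with k | k
        · have e := k.1.symm.trans h2
          exact Finset.mem_erase.2 ⟨fun z => tn (z ▸ e), kC.2 μ e⟩
        · have e := k.1.symm.trans h2
          exact Finset.mem_erase.2 ⟨fun z => k.2 (z ▸ e), h1 μ e⟩
      have := hC.1 e ((mem e).2 (Or.inr he))
      rcases h with h | h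
      exacts [k _ (fun μ z => this μ (Or.inl z)) h, k _ (fun μ z => this μ (Or.inr z)) h]
    · have := cn σ s2 (by rw [hσ, s1 τ tn]) μ (Finset.mem_of_mem_erase hμ)
      rwa [s1 _ fun z => (Finset.mem_erase.1 hμ).1 (Sum.inr.inj z)] at this
  · refine Or.inr ⟨p, kC.1 p rfl, q, kC'.1 q rfl, fV, fun h => hτ (congrArg Sum.inl (pt_eq.2 h)),
      (E₁ ++ E₂).map (FSTEP_s id), fun H hA π h => ?_, ⟨π₀, fun e he => ?_⟩,
      ⟨fun e he μ h => ?_, fun μ hμ => ?_⟩, len id⟩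
    · exact sp H π (le_sup_left.trans hA)
        (fun e he => h _ (List.mem_map_of_mem (f := FSTEP_s id) he))
        (hA (Subgroup.mem_sup_right (Subgroup.mem_zpowers _)))
    · replace he := List.mem_map.1 he
      obtain ⟨e, he, rfl⟩ := he
      exact h₁ e he
    · replace he := List.mem_map.1 he
      obtain ⟨e, he, rfl⟩ := he
      exact hC.1 e ((mem e).2 (Or.inr he)) μ h
    · exact cn id (fun _ => rfl) (iff_of_true (FSTEP_inl _ _) (FSTEP_inl _ _)) μ hμ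

lemma FSTEP_lt {X : Type} (x : X × Bool) : lt x ≠ (lt x)⁻¹ := fun h => by
  have := congrArg (FreeGroup.lift fun _ => (ofAdd 1 : Multiplicative ℤ)) h
  obtain ⟨a, b⟩ := x
  cases b
  · rw [lt_false, inv_inv, map_inv, FreeGroup.lift_apply_of] at this
    exact absurd this (by decide)
  · rw [lt_true, map_inv, FreeGroup.lift_apply_of] at this
    exact absurd this (by decide)

lemma FSTEP_arr {X : Type} {S : Set (FreeGroup X)} {A : Subgroup (FreeGroup X)}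
    {E : List (Ed (FreeGroup X))} {x : X × Bool} {y y' : (FreeGroup X ⧸ A) ⊕ ℕ}
    (h : Arr S A E x y y') : ∃ o τ : FreeGroup X ⊕ ℕ, y = o.map (pt A) id ∧ y' = τ.map (pt A) id ∧
      ((∃ r, r * lt x ∈ S ∧ o = Sum.inl r ∧ τ = Sum.inl (r * lt x)) ∨
        ∃ e ∈ E, FSTEP_e e (lt x) o τ) := by
  rcases h with ⟨r, -, h, rfl, rfl⟩ | ⟨e, he, ⟨h, rfl, rfl⟩ | ⟨h, rfl, rfl⟩⟩
  · exact ⟨Sum.inl r, Sum.inl (r * lt x), rfl, rfl, Or.inl ⟨r, h, rfl, rfl⟩⟩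
  · exact ⟨_, _, rfl, rfl, Or.inr ⟨e, he, Or.inl (by rw [← h])⟩⟩
  · exact ⟨_, _, rfl, rfl, Or.inr ⟨e, he, Or.inr (by rw [← h])⟩⟩

theorem p_FSTEP :
    S_FSTEP := by
  intro X S A V E N hAV hL hS hF hC x y y₁ y₂ h₁ h₂ hne
  have key : ∀ o τ o' τ' : FreeGroup X ⊕ ℕ, (∃ e ∈ E, FSTEP_e e (lt x) o' τ') →
      ((∃ r, r * lt x ∈ S ∧ o = Sum.inl r ∧ τ = Sum.inl (r * lt x)) ∨
        ∃ e ∈ E, FSTEP_e e (lt x) o τ) →
      o.map (pt A) id = o'.map (pt A) id → τ.map (pt A) id ≠ τ'.map (pt A) id →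
      ((∃ ν, τ' = Sum.inr ν) ∨ ∃ p q, τ = Sum.inl p ∧ τ' = Sum.inl q) →
      (∃ E' N', Let S E' ∧ Spans A V E' ∧ Fits V E' ∧ Conn E' N' ∧ E'.length + 1 = E.length ∧
        N'.card + 1 = N.card) ∨
      ∃ p ∈ S, ∃ q ∈ S, p * q⁻¹ ∈ V ∧ p * q⁻¹ ∉ A ∧ ∃ E',
        Spans (A ⊔ Subgroup.zpowers (p * q⁻¹)) V E' ∧ Fits V E' ∧ Conn E' N ∧
        E'.length + 1 = E.length := by
    rintro o τ o' τ' ⟨e', he', k'⟩ ha ho hτ hk
    obtain ⟨E₁, E₂, rfl⟩ := List.append_of_mem he'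
    refine FSTEP_main hAV hL hS hF hC k' (ha.imp id ?_) ho hτ hk
    rintro ⟨e, he, k⟩
    refine ⟨e, ?_, k⟩
    have : e ≠ e' := by
      rintro rfl
      rcases k with rfl | rfl <;> rcases k' with k' | k'
      · exact hτ (by rw [show τ = τ' from congrArg (·.2.2) k'])
      · exact FSTEP_lt x (congrArg (·.2.1) k')
      · exact FSTEP_lt x (congrArg (·.2.1) k').symm
      · exact hτ (by rw [show τ = τ' from congrArg (·.1) k'])
    simpa only [List.mem_append, List.mem_cons, this, false_or] using he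
  obtain ⟨o₁, τ₁, rfl, rfl, k₁⟩ := FSTEP_arr h₁
  obtain ⟨o₂, τ₂, ho, rfl, k₂⟩ := FSTEP_arr h₂
  rcases τ₂ with q | ν
  · rcases τ₁ with p | ν
    · rcases k₂ with ⟨r₂, m₂, rfl, e₂⟩ | k₂
      · rcases k₁ with ⟨r₁, -, rfl, e₁⟩ | k₁
        · refine (hne ?_).elim
          rw [e₁, e₂]
          refine congrArg Sum.inl (pt_eq.2 ?_)
          simpa [mul_assoc] using pt_eq.1 (Sum.inl.inj ho)
        · exact key _ _ _ _ k₁ (Or.inl ⟨r₂, m₂, rfl, e₂⟩) ho.symm hne.symm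
            (Or.inr ⟨q, p, rfl, rfl⟩)
      · exact key _ _ _ _ k₂ k₁ ho hne (Or.inr ⟨p, q, rfl, rfl⟩)
    · exact key _ _ _ _ (k₁.resolve_left fun ⟨_, _, _, e⟩ => by cases e) k₂ ho.symm hne.symm
        (Or.inl ⟨ν, rfl⟩)
  · exact key _ _ _ _ (k₂.resolve_left fun ⟨_, _, _, e⟩ => by cases e) k₁ ho hne
      (Or.inl ⟨ν, rfl⟩)

end Pool.Agent.P.MP_67c9d4_al.FR
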