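import Pool.Agent.P.MP_67c9d4_al.FR.Iface

/-! Step FUL. -/

set_option autoImplicit false
set_option linter.unusedSectionVars false

namespace Pool.Agent.P.MP_67c9d4_al.FR

open Equiv Wr Multiplicative FC

theorem p_FUL :
    S_FUL := by
  intro F _ N hF hN
  have := hN.1
  have := hN.2
  obtain ⟨s, hs, hfin⟩ := Group.fg_iff.1 hF
  have := hfin.to_subtype
  have : Finite (F →* F ⧸ N) :=
    Finite.of_injective (fun φ : F →* F ⧸ N => fun x : s => φ x) fun φ ψ e =>
      MonoidHom.eq_of_eqOn_dense hs fun x hx => congrFun e ⟨x, hx⟩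
  refine ⟨⨅ φ : F →* F ⧸ N, φ.ker, FN.iInf fun φ => FN.ker φ, ?_, fun φ n hn => ?_⟩
  · exact (iInf_le _ (QuotientGroup.mk' N)).trans (QuotientGroup.ker_mk' N).le
  · rw [Subgroup.mem_iInf] at hn ⊢
    exact fun ψ => hn (ψ.comp φ)

end Pool.Agent.P.MP_67c9d4_al.FR
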