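import Pool.Agent.P.MP_67c9d4_al.FR.Iface

/-! Step FULL. -/

set_option autoImplicit false
set_option linter.unusedSectionVars false

namespace Pool.Agent.P.MP_67c9d4_al.FR

open Equiv Wr Multiplicative FC

open Classical in
lemma FULL_reach {X : Type} (g : FreeGroup X) (S : Set (FreeGroup X)) (hS : Pre g ⊆ S)
    (L : List (X × Bool)) : ∀ L', g.toWord = L ++ L' →
      Relation.ReflTransGen (fun a b => b ∈ S ∧ ∃ x, b = a * lt x) 1 (FreeGroup.mk L) := by
  induction L using List.reverseRecOn with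
  | nil => exact fun _ _ => Relation.ReflTransGen.refl
  | append_singleton L x ih =>
    intro L' e
    refine (ih (x :: L') (by simpa using e)).tail ⟨hS ⟨L ++ [x], L', e, rfl⟩, x, ?_⟩
    exact FreeGroup.mul_mk.symm

open Classical in
lemma FULL_self {X : Type} (g : FreeGroup X) : g ∈ Pre g :=
  ⟨g.toWord, [], by simp, FreeGroup.mk_toWord.symm⟩

theorem p_FULL :
    S_FULL := by
  intro X S U hS hC hU
  obtain ⟨s, rfl, hs⟩ := (Subgroup.fg_iff _).1 hU
  refine ⟨S ∪ ⋃ g ∈ s, Pre g, Set.subset_union_left,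
    hS.union (hs.biUnion fun g _ => pre_finite g), ⟨Or.inl hC.1, ?_⟩, le_antisymm (LS_le _ _) ?_⟩
  · rintro p (hp | hp)
    · have := hC.2 p hp
      clear hp
      induction this with
      | refl => exact Relation.ReflTransGen.refl
      | tail _ h ih => exact ih.tail ⟨Or.inl h.1, h.2⟩
    · obtain ⟨g, hg, L, L', e, rfl⟩ := Set.mem_iUnion₂.1 hp
      exact FULL_reach g _ (fun r hr => Or.inr (Set.mem_iUnion₂.2 ⟨g, hg, hr⟩)) L L' e
  · refine (Subgroup.closure_le _).2 fun g hg => ?_
    have := mem_LS (S := S ∪ ⋃ g ∈ s, Pre g) (U := Subgroup.closure s) (p := g) (q := 1)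
      (Or.inr (Set.mem_iUnion₂.2 ⟨g, hg, FULL_self g⟩)) (Or.inl hC.1)
      (by simpa using Subgroup.subset_closure hg)
    simpa using this

end Pool.Agent.P.MP_67c9d4_al.FR
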