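import Pool.Agent.P.MP_67c9d4_al.FR.Iface

/-! Step G1. -/

set_option autoImplicit false
set_option linter.unusedSectionVars false

namespace Pool.Agent.P.MP_67c9d4_al.FR

open Equiv Wr Multiplicative FC

section
variable {T : Type} {Γ : SimpleGraph T}

lemma G1_sub (L : List (T × Bool)) : Sp Γ 1 (wd Γ L) ⊆ {W | W ∈ walls Γ 1 L} := fun W h =>
  Sp_sub 1 L W (by rwa [one_mul])

lemma G1_le (L : List (T × Bool)) : (Sp Γ 1 (wd Γ L)).ncard ≤ L.length := by
  classical
  rw [← walls_length (Γ := Γ) 1 L]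
  refine le_trans (Set.ncard_le_ncard (G1_sub L) (List.finite_toSet _)) ?_
  rw [← List.coe_toFinset, Set.ncard_coe_finset]
  exact List.toFinset_card_le _

lemma G1_eq {L : List (T × Bool)} (h : (walls Γ 1 L).Nodup) :
    (Sp Γ 1 (wd Γ L)).ncard = L.length := by
  classical
  have e : Sp Γ 1 (wd Γ L) = {W | W ∈ walls Γ 1 L} := Set.ext fun W => by
    have := Sp_of_nodup h W
    rwa [one_mul] at this
  rw [e, ← List.coe_toFinset, Set.ncard_coe_finset, List.toFinset_card_of_nodup h, walls_length]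

lemma G1_geo {L : List (T × Bool)} (h : (walls Γ 1 L).Nodup) : Geo Γ L := fun L' e => by
  rw [← G1_eq h, ← e]
  exact G1_le L'

lemma G1_conj {a : T} {h : RAAG Γ} (hh : h ∈ PS Γ (Γ.neighborSet a)) :
    (PresentedGroup.of a)⁻¹ * h * PresentedGroup.of a ∈ PS Γ (Γ.neighborSet a) := by
  have c : Commute (PresentedGroup.of a : RAAG Γ) h :=
    commute_PS (MonoidHom.id _) (fun b hb => of_comm hb) hh
  rwa [mul_assoc, ← c.eq, inv_mul_cancel_left]

lemma G1_nodup (hG2 : S_G2) (L : List (T × Bool)) (h : Red Γ L) (g : RAAG Γ) :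
    (walls Γ g L).Nodup := by
  obtain ⟨-, g2, -, g4, g5, -⟩ := hG2 T Γ
  induction L generalizing g with
  | nil => exact List.nodup_nil
  | cons x L ih =>
    have hL : Red Γ L := (g5 [x] L h).2
    rw [walls, List.nodup_cons]
    refine ⟨fun hm => ?_, ih hL _⟩
    obtain ⟨l₁, l₂, e⟩ := List.append_of_mem hm
    obtain ⟨u, y, L₃, rfl, -, e2, -⟩ := walls_split e
    have geo := G1_geo (ih hL 1)
    have gu : Geo Γ u := (g4 _ _ geo).1
    have gy : Geo Γ (u ++ [y]) := (g4 (u ++ [y]) L₃ (by simpa using geo)).1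
    have c1 : wd Γ (u ++ [y]) ∉ PS Γ (Γ.neighborSet y.1) := fun k =>
      Γ.irrefl (g2 _ _ gy k y (by simp))
    have c2 : y = (x.1, !x.2) → wd Γ u ∉ PS Γ (Γ.neighborSet x.1) := fun k k' => by
      obtain ⟨z, hz, hn⟩ := h [] x u L₃ (by rw [k]; rfl)
      exact hn (g2 _ _ gu k' z hz).symm
    rw [wd_append] at c1
    obtain ⟨a, s⟩ := x
    obtain ⟨b, s'⟩ := y
    obtain ⟨rfl, e3⟩ := wl_eq.1 e2
    cases s <;> cases s' <;>
      simp only [cond_true, cond_false, wd_true, wd_false] at e3 c1 c2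
    · exact c1 (by simpa [mul_assoc] using e3)
    · exact c2 rfl (by simpa [mul_assoc] using e3)
    · exact c2 rfl (by simpa [mul_assoc] using G1_conj e3)
    · exact c1 (by simpa [mul_assoc] using G1_conj e3)

end

theorem p_G1 (hG2 : S_G2) :
    S_G1 := by
  intro T Γ
  refine ⟨fun L h => ⟨G1_geo (G1_nodup hG2 L h 1), G1_nodup hG2 L h⟩, fun g => ?_⟩
  obtain ⟨L, hL, rfl⟩ := (hG2 T Γ).1 g
  refine ⟨(List.finite_toSet _).subset (G1_sub L), fun r => ⟨?_, fun h => ⟨L, rfl, ?_⟩⟩⟩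
  · rintro ⟨L', e, l⟩
    rw [← e]
    exact (G1_le L').trans l
  · rwa [G1_eq (G1_nodup hG2 L ((hG2 T Γ).2.2.1 L hL) 1)] at h

end Pool.Agent.P.MP_67c9d4_al.FR
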