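import Pool.Agent.P.MP_67c9d4_al.FR.Iface

/-! Step G2. -/

set_option autoImplicit false
set_option linter.unusedSectionVars false

namespace Pool.Agent.P.MP_67c9d4_al.FR

open Equiv Wr Multiplicative FC

open Classical in
lemma G2_ret {T : Type} (Γ : SimpleGraph T) (S : Set T) (L : List (T × Bool))
    (h : wd Γ L ∈ PS Γ S) : wd Γ (L.filter fun x => x.1 ∈ S) = wd Γ L := by
  obtain ⟨π, hπ⟩ := raag_lift (Γ := Γ)
    (fun a => if a ∈ S then (PresentedGroup.of a : RAAG Γ) else 1) fun a b hab => by
      split_ifs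
      exacts [of_comm hab, Commute.one_right _, Commute.one_left _, Commute.one_left _]
  have a : ∀ g ∈ PS Γ S, π g = g := fun g hg =>
    MonoidHom.eqOn_closure (f := π) (g := MonoidHom.id _) (by
      rintro _ ⟨a, ha, rfl⟩
      exact (hπ a).trans (if_pos ha)) hg
  rw [← a _ h]
  clear h
  induction L with
  | nil => exact (map_one π).symm
  | cons x L ih =>
    rw [wd_cons x L, map_mul, ← ih]
    by_cases c : x.1 ∈ S
    · rw [List.filter_cons_of_pos (by simpa using c), wd_cons x,
        a _ (wd_mem (L := [x]) (by simpa using c))]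
    · rw [List.filter_cons_of_neg (by simpa using c)]
      obtain ⟨b, _ | _⟩ := x <;> simp only [wd_true, wd_false, map_inv, hπ, if_neg c, inv_one,
        one_mul]

lemma G2_comm {T : Type} (Γ : SimpleGraph T) (x : T × Bool) (L : List (T × Bool))
    (h : ∀ y ∈ L, Γ.Adj y.1 x.1) : Commute (wd Γ L) (wd Γ [x]) := by
  induction L with
  | nil => exact Commute.one_left _
  | cons y L ih =>
    rw [wd_cons]
    exact (wd_comm (h y List.mem_cons_self)).mul_left
      (ih fun z hz => h z (List.mem_cons_of_mem _ hz))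

theorem p_G2 :
    S_G2 := by
  classical
  refine fun T Γ => ⟨fun g => ?_, fun S L hL h => ?_, fun L hL L₁ x L₂ L₃ e => ?_,
    fun L L' h => ⟨fun M e => ?_, fun M e => ?_⟩,
    fun L L' h => ⟨fun L₁ x L₂ L₃ e => h L₁ x L₂ (L₃ ++ L') (by simp [e]),
      fun L₁ x L₂ L₃ e => h (L ++ L₁) x L₂ L₃ (by simp [e])⟩, fun L hL M e => ?_⟩
  · obtain ⟨L, e, l⟩ := Nat.find_spec (sh_exists (Γ := Γ) g)
    exact ⟨L, fun M e' => l.trans (Nat.find_min' _ ⟨M, e'.trans e, le_rfl⟩), e⟩
  · have a := List.length_filter_eq_length_iff.1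
      (le_antisymm (List.length_filter_le _ L) (hL _ (G2_ret Γ S L h)))
    exact fun x hx => by simpa using a x hx
  · by_contra c
    push Not at c
    have a := hL (L₁ ++ (L₂ ++ L₃)) (by
      rw [e, wd_append, wd_append, wd_append, wd_cons x, wd_append, wd_cons (x.1, !x.2), wd_not,
        ← mul_assoc (wd Γ [x]), ← (G2_comm Γ x L₂ c).eq, mul_assoc, mul_inv_cancel_left])
    simp only [e, List.length_append, List.length_cons] at a
    omega
  · have a := h (M ++ L') (by rw [wd_append, wd_append, e])
    simp only [List.length_append] at a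
    omega
  · have a := h (L ++ M) (by rw [wd_append, wd_append, e])
    simp only [List.length_append] at a
    omega
  · have a := hL (FreeGroup.invRev M) (by rw [wd_invRev, e, wd_invRev, inv_inv])
    simpa only [FreeGroup.invRev_length] using a

end Pool.Agent.P.MP_67c9d4_al.FR
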