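import Pool.Agent.P.MP_67c9d4_al.FR.Iface

/-! Step GLU. -/

set_option autoImplicit false
set_option linter.unusedSectionVars false

namespace Pool.Agent.P.MP_67c9d4_al.FR

open Equiv Wr Multiplicative FC

lemma GLU_cj {F W : Type} [Group F] [Group W] {M M' : Subgroup F} {f g : F → W} (h : Cj M f g)
    (φ : F → F) (m : ∀ n ∈ M', φ n ∈ M) : Cj M' (fun n => f (φ n)) fun n => g (φ n) :=
  let ⟨w, h⟩ := h; ⟨w, fun n hn => h _ (m n hn)⟩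

lemma GLU_ker {F W : Type} [Group F] [Group W] (s : F →* W) (h : Finite s.range) : FN s.ker := by
  rw [← s.ker_rangeRestrict]
  exact FN.ker _

theorem p_GLU (hPOS : S_POS) (hABS : S_ABS) (hTL : S_TL) (hTENS : S_TENS) (hVSL : S_VSL) (hFUL : S_FUL) (hDUAL : S_DUAL) (hBIJ : S_BIJ) :
    S_GLU := by
  intro X J G H _ _ _ _ S Θ v i t f Λ hHN hC hTw hVP
  obtain ⟨d1, d2, d3, d4, d5, d6, -⟩ := hDUAL _ J H (FS S) Θ v f hC hTw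
  obtain ⟨pos₁, p1⟩ := hPOS _ H (FS S) (im Θ (FS S))
    (f.comp (Θ⁻¹ : MulAut (FreeGroup X)).toMonoidHom) f d5
  obtain ⟨pos₂, p2⟩ := hPOS _ H (FS S) (im Θ⁻¹ (FS S))
    (f.comp (Θ.toMonoidHom.comp Θ.toMonoidHom)) f d6
  obtain ⟨T₁, f1, a1, h1⟩ := hABS X J H S Θ v _ _ f pos₁ hC.rep (fun _ => rfl) p1
  obtain ⟨T₂, f2, a2, h2⟩ := hABS X J H S Θ⁻¹ _ _ _ f pos₂ d1 d2 p2
  have aT : ∀ u ∈ T₁ ∪ T₂, u ∈ FS S := fun u hu => hu.elim (a1 u) (a2 u)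
  obtain ⟨Q₁, q1, h1⟩ := h1 _ (f1.union f2) Set.subset_union_left aT
  obtain ⟨Q₂, q2, h2⟩ := h2 _ (f1.union f2) Set.subset_union_right aT
  obtain ⟨W, _, l, s, K, _, T, _, Γ, f', S', th, hΛ⟩ := hTL H Λ _ hVP (q1.union q2)
  obtain ⟨N₁, n1, h1⟩ := h1 W l s (th.mono Set.subset_union_left)
  obtain ⟨N₂, n2, h2⟩ := h2 W l s (th.mono Set.subset_union_right)
  obtain ⟨N₀, n0, le0, fu0⟩ := hFUL _ _ inferInstance (n1.inf n2)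
  have h1 := h1 N₀ n0 (le0.trans inf_le_left)
  have h2 := h2 N₀ n0 (le0.trans inf_le_right)
  rw [funext (d3 N₀ fu0)] at h2
  obtain ⟨Y₁, _, ρ₁, K₁, M₁, C₁, ν₁, k1, b1, c1, m1, m1', u1, u1'⟩ := h1
  obtain ⟨Y₂, _, ρ₂, K₂, M₂, C₂, ν₂, k2, b2, c2, m2, m2', u2, u2'⟩ := h2
  have := n0.2
  obtain ⟨β, β1, β2, β3, β4⟩ := hBIJ (FS S ⧸ N₀.subgroupOf (FS S)) Y₁ Y₂ M₁ C₁ M₂ C₂
    (ν₁.trans ν₂.symm) (c1.trans (d4 N₀ fu0).1) (c2.trans (d4 N₀ fu0).2)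
  obtain ⟨N, n, le, fu⟩ := hFUL _ _ inferInstance
    ((k1.inf k2).inf ((GLU_ker s th.fs).comap f))
  have l1 : N ≤ K₁ := le.trans (inf_le_left.trans inf_le_left)
  have l2 : N ≤ K₂ := le.trans (inf_le_left.trans inf_le_right)
  have e1 : ∀ x ∈ N ⊓ FS S, Θ x ∈ K₁ ⊓ im Θ (FS S) := fun x hx =>
    ⟨l1 ((fu.iff Θ x).1 hx.1), apply_mem_im.2 hx.2⟩
  have e2 : ∀ x ∈ N ⊓ FS S, Θ⁻¹ x ∈ K₂ ⊓ im Θ⁻¹ (FS S) := fun x hx =>
    ⟨l2 ((fu.iff Θ⁻¹ x).1 hx.1), apply_mem_im.2 hx.2⟩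
  have e3 : N ⊓ FS S ≤ K₁ ⊓ FS S := inf_le_inf_right _ l1
  have e4 : N ⊓ FS S ≤ K₂ ⊓ FS S := inf_le_inf_right _ l2
  let ρ : FreeGroup X →* Wr ((FS S ⧸ N₀.subgroupOf (FS S)) ⊕ Y₁ ⊕ Y₂) W :=
    Wr.sum (cst 1 (l.comp f)) (Wr.sum ρ₁ (ρ₂.comp (Θ⁻¹ : MulAut (FreeGroup X)).toMonoidHom))
  have r1 : ∀ x p, (ρ x).c (Sum.inl p) = l (f x) := fun _ _ => rfl
  have r2 : ∀ x y, (ρ x).c (Sum.inr (Sum.inl y)) = (ρ₁ x).c y := fun _ _ => rfl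
  have r3 : ∀ x y, (ρ x).c (Sum.inr (Sum.inr y)) = (ρ₂ (Θ⁻¹ x)).c y := fun _ _ => rfl
  have j1 : ∀ q, (∃ y ∉ C₁, q = Sum.inr (Sum.inl y)) ∨ (∃ y ∉ M₂, q = Sum.inr (Sum.inr y)) →
      Cj (N ⊓ FS S) (fun n => (ρ n).c q) fun n => (ρ (Θ n)).c (β q) := fun q hq => by
    refine Cj.of_eq fun x hx => ?_
    have z1 : (ρ x).c q = 1 := by
      rcases hq with ⟨y, hy, rfl⟩ | ⟨y, hy, rfl⟩
      · exact u1' y hy x (e3 hx)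
      · exact m2' y hy _ (e2 x hx)
    have z2 : (ρ (Θ x)).c (β q) = 1 := by
      rcases β4 q hq with ⟨y, hy, e⟩ | ⟨y, hy, e⟩
      · rw [e]; exact m1' y hy _ (e1 x hx)
      · rw [e, r3, MulAut.inv_apply_self]; exact u2' y hy x (e4 hx)
    rw [z1, z2]
  obtain ⟨ρ', hρ'⟩ := hTENS _ G _ W i (FS S) Θ t ρ N β hHN n (fu.iff Θ) (fun x hx => by
      have z1 := b1 x (l1 hx)
      have z2 := b2 _ (l2 ((fu.iff Θ⁻¹ x).1 hx))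
      change Equiv.sumCongr (Equiv.refl _) (Equiv.sumCongr (ρ₁ x).p (ρ₂ (Θ⁻¹ x)).p) = 1
      rw [z1, z2]
      ext1 q
      rcases q with q | q | q <;> rfl) (by
      rintro (p | y | y)
      · obtain ⟨y, hy, e⟩ := β1 p
        rw [e]
        refine Cj.symm ((GLU_cj (m1 y hy) Θ e1).trans (Cj.of_eq fun x _ => ?_))
        simp [r1]
      · by_cases hy : y ∈ C₁
        · have e := β2 ⟨y, hy⟩
          rw [show β (Sum.inr (Sum.inl y)) = _ from e]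
          simp only [r2, r3, MulAut.inv_apply_self]
          refine ((u1 ⟨y, hy⟩).mono e3).trans (Cj.symm ?_)
          have := (u2 ((ν₁.trans ν₂.symm) ⟨y, hy⟩)).mono e4
          rwa [show ν₂ ((ν₁.trans ν₂.symm) ⟨y, hy⟩) = ν₁ ⟨y, hy⟩ from ν₂.apply_symm_apply _] at this
        · exact j1 _ (Or.inl ⟨y, hy, rfl⟩)
      · by_cases hy : y ∈ M₂
        · obtain ⟨p, e⟩ := β3 y hy
          rw [e]
          refine (GLU_cj (m2 y hy) (Θ⁻¹ : MulAut (FreeGroup X)) e2).trans (Cj.of_eq fun x _ => ?_)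
          simp [r1]
        · exact j1 _ (Or.inr ⟨y, hy, rfl⟩))
  have := n.2
  refine hVSL _ G _ W T i ρ' (Sum.inl ((1 : FS S) : FS S ⧸ N₀.subgroupOf (FS S)),
    ((1 : FreeGroup X) : FreeGroup X ⧸ N)) (Λ.comap f) K Γ f' S' hHN.inj fun x hx hK => ?_
  rw [(hρ' x _).1] at hx
  have hN : x ∈ N := (qa_fix n.1 _).1 (congrArg Prod.snd hx)
  have e : (ρ' (i x)).c (Sum.inl ((1 : FS S) : FS S ⧸ N₀.subgroupOf (FS S)),
    ((1 : FreeGroup X) : FreeGroup X ⧸ N)) = l (f x) := (hρ' x _).2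
  have := hΛ (f x) (le hN).2 (e ▸ hK)
  rw [Subgroup.mem_comap, ← this]
  exact iff_of_eq (congrArg (fun k => f' k ∈ PS Γ S') (Subtype.ext e))

end Pool.Agent.P.MP_67c9d4_al.FR
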