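import Pool.Agent.P.MP_67c9d4_al.FR.Iface

/-! Step HOL. -/

set_option autoImplicit false
set_option linter.unusedSectionVars false

namespace Pool.Agent.P.MP_67c9d4_al.FR

open Equiv Wr Multiplicative FC

section
variable {T : Type} {Γ : SimpleGraph T}

lemma HOL_ext {α β : MulAut (RAAG Γ)}
    (h : ∀ y, α (PresentedGroup.of y) = β (PresentedGroup.of y)) : α = β :=
  MulEquiv.toMonoidHom_injective (raag_ext h)

/-- Automorphisms that permute the signed generators. -/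
def HOL_Psi (Γ : SimpleGraph T) : Subgroup (MulAut (RAAG Γ)) where
  carrier := {α | (∀ x, ∃ y, α (wd Γ [x]) = wd Γ [y]) ∧ ∀ x, ∃ y, α⁻¹ (wd Γ [x]) = wd Γ [y]}
  one_mem' := ⟨fun x => ⟨x, rfl⟩, fun x => ⟨x, rfl⟩⟩
  mul_mem' := fun {α β} h h' => ⟨fun x => by
      obtain ⟨y, e⟩ := h'.1 x
      obtain ⟨z, e'⟩ := h.1 y
      exact ⟨z, by rw [MulAut.mul_apply, e, e']⟩, fun x => by
      obtain ⟨y, e⟩ := h.2 x
      obtain ⟨z, e'⟩ := h'.2 y
      exact ⟨z, by rw [mul_inv_rev, MulAut.mul_apply, e, e']⟩⟩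
  inv_mem' := fun h => ⟨h.2, h.1⟩

lemma HOL_fin [Finite T] : Finite (HOL_Psi Γ) := by
  choose c hc using fun (α : HOL_Psi Γ) (x : T) => α.2.1 (x, true)
  refine Finite.of_injective c fun α β e => Subtype.ext (HOL_ext fun y => ?_)
  rw [← wd_true, hc, hc, e]

lemma HOL_sg {α : MulAut (RAAG Γ)} {π : T → T}
    (h : ∀ x, ∃ b, α (PresentedGroup.of x) = wd Γ [(π x, b)]) (x : T × Bool) :
    ∃ b, α (wd Γ [x]) = wd Γ [(π x.1, b)] := by
  obtain ⟨x, _ | _⟩ := x
  · obtain ⟨b, e⟩ := h x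
    exact ⟨!b, by rw [wd_false, map_inv, e]; exact (wd_not (π x, b)).symm⟩
  · exact h x

open Classical in
lemma HOL_eps (Γ : SimpleGraph T) : ∃ e : T → MulAut (RAAG Γ), ∀ x y,
    e x (PresentedGroup.of y) = if y = x then (PresentedGroup.of y)⁻¹ else PresentedGroup.of y := by
  have h : ∀ x, ∃ F : RAAG Γ →* RAAG Γ, ∀ y, F (PresentedGroup.of y) =
      if y = x then (PresentedGroup.of y)⁻¹ else PresentedGroup.of y := fun x =>
    raag_lift _ fun a b h => by
      split_ifs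
      exacts [(of_comm h).inv_inv, (of_comm h).inv_left, (of_comm h).inv_right, of_comm h]
  choose F hF using h
  have h2 : ∀ x, (F x).comp (F x) = MonoidHom.id _ := fun x => raag_ext fun y => by
    by_cases e : y = x <;> simp [hF, e]
  exact ⟨fun x => (F x).toMulEquiv (F x) (h2 x) (h2 x), hF⟩

lemma HOL_per {R : Type} [Group R] (a : R →* Perm T)
    (ha : ∀ h x y, Γ.Adj x y → Γ.Adj (a h x) (a h y)) : ∃ p : R →* MulAut (RAAG Γ), ∀ h y,
    p h (PresentedGroup.of y) = PresentedGroup.of (a h y) := by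
  choose F hF using fun h : R => raag_lift (Γ := Γ)
    (fun y => (PresentedGroup.of (a h y) : RAAG Γ)) fun x y e => of_comm (ha h x y e)
  have h1 : ∀ h, (F h⁻¹).comp (F h) = MonoidHom.id _ := fun h => raag_ext fun y => by simp [hF]
  have h2 : ∀ h, (F h).comp (F h⁻¹) = MonoidHom.id _ := fun h => raag_ext fun y => by simp [hF]
  exact ⟨MonoidHom.mk' (fun h => (F h).toMulEquiv (F h⁻¹) (h1 h) (h2 h)) fun h h' =>
    HOL_ext fun y => by simp [hF], hF⟩

lemma HOL_wd {α : MulAut (RAAG Γ)} (h : ∀ x, ∃ b, α (wd Γ [x]) = wd Γ [(x.1, b)])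
    (L : List (T × Bool)) : ∃ L' : List (T × Bool), L'.map Prod.fst = L.map Prod.fst ∧
      α (wd Γ L) = wd Γ L' := by
  induction L with
  | nil => exact ⟨[], rfl, map_one α⟩
  | cons x L ih =>
    obtain ⟨L', e1, e2⟩ := ih
    obtain ⟨b, e⟩ := h x
    exact ⟨(x.1, b) :: L', by simp [e1], by rw [wd_cons, map_mul, e, e2, ← wd_cons]⟩

end

theorem p_HOL :
    S_HOL := by
  classical
  intro T R _ _ Γ a ha
  have := HOL_fin (Γ := Γ)
  obtain ⟨e, he⟩ := HOL_eps Γ
  obtain ⟨p, hp⟩ := HOL_per a ha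
  have e1 : ∀ x y, ∃ b, e x (wd Γ [y]) = wd Γ [(y.1, b)] := fun x =>
    HOL_sg (π := id) fun y => by
      rw [he]
      split_ifs
      exacts [⟨false, (wd_false y).symm⟩, ⟨true, rfl⟩]
  have e2 : ∀ x, e x * e x = 1 := fun x => HOL_ext fun y => by
    by_cases c : y = x <;> simp [he, c]
  have e3 : ∀ x, e x ∈ HOL_Psi Γ := fun x =>
    ⟨fun y => let ⟨_, h⟩ := e1 x y; ⟨_, h⟩, fun y => by
      rw [inv_eq_of_mul_eq_one_right (e2 x)]
      exact let ⟨_, h⟩ := e1 x y; ⟨_, h⟩⟩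
  have p1 : ∀ h y, ∃ z, p h (wd Γ [y]) = wd Γ [z] := fun h y =>
    let ⟨_, k⟩ := HOL_sg (π := a h) (fun y => ⟨true, hp h y⟩) y; ⟨_, k⟩
  have p2 : ∀ h, p h ∈ HOL_Psi Γ := fun h => ⟨p1 h, fun y => by rw [← map_inv]; exact p1 _ y⟩
  refine ⟨RAAG Γ ⋊[(HOL_Psi Γ).subtype] HOL_Psi Γ, inferInstance,
    SemidirectProduct.rightHom.ker, inferInstance,
    MonoidHom.mk' (fun k => k.1.left) fun k k' => ?_,
    fun x => ⟨PresentedGroup.of x, e x, e3 x⟩,
    SemidirectProduct.inr.comp (p.codRestrict _ p2), ?_, fun x => ?_, fun x y h => ?_,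
    fun h x => ?_, fun L hK => ?_⟩
  · have : k.1.right = 1 := k.2
    simp [this]
  · refine Set.Finite.subset (Set.finite_range SemidirectProduct.inr) ?_
    rintro _ ⟨h, rfl⟩
    exact ⟨_, rfl⟩
  · refine SemidirectProduct.ext ?_ (Subtype.ext (e2 x))
    simp [he]
  · refine SemidirectProduct.ext ?_ (Subtype.ext (HOL_ext fun z => ?_))
    · simpa [he, h.ne, h.ne'] using (of_comm h).eq
    · by_cases c : z = x <;> by_cases c' : z = y <;> simp [he, c, c', h.ne, h.ne']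
  · rw [mul_inv_eq_iff_eq_mul]
    refine SemidirectProduct.ext ?_ (Subtype.ext (HOL_ext fun z => ?_))
    · simp [hp]
    · by_cases c : z = x <;> simp [he, hp, c]
  · change ∃ L' : List (T × Bool), _ ∧ SemidirectProduct.left (List.prod _) = _
    clear hK
    induction L with
    | nil => exact ⟨[], rfl, rfl⟩
    | cons x L ih =>
      obtain ⟨L', k1, k2⟩ := ih
      obtain ⟨L'', k3, k4⟩ := HOL_wd (e1 x) L'
      refine ⟨(x, true) :: L'', by simp [k1, k3], ?_⟩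
      rw [List.map_cons, List.prod_cons, SemidirectProduct.mul_left, k2, wd_cons, ← k4]
      rfl

end Pool.Agent.P.MP_67c9d4_al.FR
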