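import Pool.Agent.P.MP_67c9d4_al.FR.Iface

/-! Step HOPF. -/

set_option autoImplicit false
set_option linter.unusedSectionVars false

namespace Pool.Agent.P.MP_67c9d4_al.FR

open Equiv Wr Multiplicative FC

lemma HOPF_fin {H Q : Type} [Group H] [Group Q] [Finite Q] (h : Group.FG H) :
    Finite (H →* Q) := by
  obtain ⟨S, hS, hf⟩ := Group.fg_iff.1 h
  have : Finite S := hf
  refine Finite.of_injective (fun (φ : H →* Q) (s : S) => φ s) fun φ ψ e => ?_
  exact MonoidHom.eq_of_eqOn_dense hS fun s hs => congrFun e ⟨s, hs⟩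

open Classical in
/-- The retraction to the free group on a subset of the letters. -/
noncomputable def HOPF_r {X : Type} (T : Set X) : FreeGroup X →* FreeGroup T :=
  FreeGroup.lift fun x => if h : x ∈ T then FreeGroup.of ⟨x, h⟩ else 1

lemma HOPF_ex {X : Type} (g : FreeGroup X) : ∃ S : Set X, S.Finite ∧ ∀ T : Set X, S ⊆ T →
    FreeGroup.map (Subtype.val : T → X) (HOPF_r T g) = g := by
  induction g using FreeGroup.induction_on with
  | C1 => exact ⟨∅, Set.finite_empty, fun T _ => by simp⟩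
  | of x =>
    refine ⟨{x}, Set.finite_singleton x, fun T hT => ?_⟩
    have hx : x ∈ T := hT rfl
    simp [HOPF_r, hx]
  | inv_of x ih =>
    obtain ⟨S, a, b⟩ := ih
    exact ⟨S, a, fun T hT => by rw [map_inv, map_inv, b T hT]⟩
  | mul x y ihx ihy =>
    obtain ⟨S, a, b⟩ := ihx
    obtain ⟨S', a', b'⟩ := ihy
    exact ⟨S ∪ S', a.union a', fun T hT => by
      rw [map_mul, map_mul, b T (Set.subset_union_left.trans hT),
        b' T (Set.subset_union_right.trans hT)]⟩

lemma HOPF_rf (hRFF : S_RFF) (X : Type) : RF (FreeGroup X) := by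
  intro g hg
  obtain ⟨S, a, b⟩ := HOPF_ex g
  have : Finite S := a
  have c : HOPF_r S g ≠ 1 := fun e => hg (by rw [← b S subset_rfl, e, map_one])
  obtain ⟨N, hN, d⟩ := (hRFF S).1 _ c
  exact ⟨N.comap (HOPF_r S), hN.comap _, d⟩

theorem p_HOPF (hRFF : S_RFF) :
    S_HOPF := by
  refine ⟨fun H _ hH hR f hf => ?_, fun X U g hg => ?_⟩
  · rw [injective_iff_map_eq_one]
    intro x hx
    by_contra c
    obtain ⟨N, ⟨n1, n2⟩, d⟩ := hR x c
    have : Finite (H →* H ⧸ N) := HOPF_fin hH
    have a : Function.Injective fun φ : H →* H ⧸ N => φ.comp f := fun φ ψ e =>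
      MonoidHom.ext fun y => by
        obtain ⟨z, rfl⟩ := hf y
        exact DFunLike.congr_fun e z
    obtain ⟨φ, e⟩ := Finite.injective_iff_surjective.1 a (QuotientGroup.mk' N)
    have b := DFunLike.congr_fun e x
    simp only [MonoidHom.comp_apply, hx, map_one, QuotientGroup.mk'_apply] at b
    exact d ((QuotientGroup.eq_one_iff x).1 b.symm)
  · obtain ⟨N, hN, d⟩ := HOPF_rf hRFF X g.1 fun e => hg (Subtype.ext e)
    exact ⟨N.comap U.subtype, hN.comap _, d⟩

end Pool.Agent.P.MP_67c9d4_al.FR
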