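import Pool.Agent.P.MP_67c9d4_al.FR.Iface

/-! Step HT. -/

set_option autoImplicit false
set_option linter.unusedSectionVars false

namespace Pool.Agent.P.MP_67c9d4_al.FR

open Equiv Wr Multiplicative FC TD

lemma HT_key {F G : Type} [Group F] [Group G] {i : F →* G} {A : Subgroup F} {Θ : MulAut F} {t : G}
    (h : ∀ a ∈ A, t⁻¹ * i a * t = i (Θ a)) (g : G) :
    g ∈ A.map i ↔ t⁻¹ * g * t ∈ (im Θ A).map i := by
  constructor
  · rintro ⟨a, ha, rfl⟩
    exact ⟨Θ a, apply_mem_im.2 ha, (h a ha).symm⟩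
  · rintro ⟨_, ⟨a, ha, rfl⟩, e⟩
    refine ⟨a, ha, ?_⟩
    have e' : t⁻¹ * i a * t = t⁻¹ * g * t := (h a ha).trans e
    exact mul_left_cancel (mul_right_cancel e')

/-- The graph of groups with one vertex and one edge. -/
def HT_td {F G : Type} [Group F] [Group G] (i : F →* G) (A : Subgroup F) (Θ : MulAut F) (t : G)
    (h : ∀ a ∈ A, t⁻¹ * i a * t = i (Θ a)) : TD G Unit Unit where
  vt _ := ()
  G _ := i.range
  P k := bif k.2 then A.map i else (im Θ A).map i
  ε k := bif k.2 then t else t⁻¹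
  le k := by
    obtain ⟨e, _ | _⟩ := k
    · exact Subgroup.map_le_range _ _
    · exact Subgroup.map_le_range _ _
  inv k := by
    obtain ⟨e, _ | _⟩ := k
    · exact (inv_inv t).symm
    · rfl
  conj k g := by
    obtain ⟨e, _ | _⟩ := k
    · change g ∈ A.map i ↔ t⁻¹ * g * t⁻¹⁻¹ ∈ (im Θ A).map i
      rw [inv_inv, HT_key h]
    · change g ∈ (im Θ A).map i ↔ t * g * t⁻¹ ∈ A.map i
      rw [HT_key h, show t⁻¹ * (t * g * t⁻¹) * t = g by group]

theorem p_HT (hT3 : S_T3) :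
    S_HT := by
  intro F G _ _ i A Θ t h v1 v2 v3
  refine hT3 G Unit Unit (HT_td i A Θ t h.rel) ⟨fun u v g => ?_, fun W _ σ γ h1 h2 h3 => ?_⟩ ?_
    () ⊥ bot_le v3
  · have hg : g ∈ Subgroup.closure (Set.range i ∪ {t}) := by rw [h.gen]; trivial
    have key : (HT_td i A Θ t h.rel).Pth () () g ∧ (HT_td i A Θ t h.rel).Pth () () g⁻¹ := by
      induction hg using Subgroup.closure_induction with
      | mem x hx =>
        rcases hx with ⟨y, rfl⟩ | hx
        · exact ⟨.vtx ⟨y, rfl⟩, .vtx ⟨y⁻¹, map_inv i y⟩⟩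
        · rw [show x = t from hx]
          exact ⟨.edge ((), true), .edge ((), false)⟩
      | one => exact ⟨.vtx (one_mem _), .vtx (inv_mem (one_mem _))⟩
      | mul x y _ _ hx hy => exact ⟨hx.1.mul hy.1, by rw [mul_inv_rev]; exact hy.2.mul hx.2⟩
      | inv x _ hx => exact ⟨hx.2, by rw [inv_inv]; exact hx.1⟩
    exact key.1
  · let f : F →* W := MonoidHom.mk' (fun x => σ () (i x)) fun x y => by
      rw [map_mul]
      exact h1 () _ ⟨x, rfl⟩ _ ⟨y, rfl⟩
    obtain ⟨φ, f1, f2⟩ := h.up W f (γ ((), true)) (fun a ha => by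
      have h4 : σ () (t * i (Θ a) * t⁻¹) =
          γ ((), true) * σ () (i (Θ a)) * (γ ((), true))⁻¹ :=
        h3 ((), true) (i (Θ a)) ⟨Θ a, apply_mem_im.2 ha, rfl⟩
      have h5 : t * i (Θ a) * t⁻¹ = i a := by rw [← h.rel a ha]; group
      change _ * σ () (i a) * _ = σ () (i (Θ a))
      rw [← h5, h4]; group)
    refine ⟨fun _ _ => φ, fun _ _ _ x y => (map_mul φ x y).symm, ?_, ?_⟩
    · rintro v _ ⟨x, rfl⟩
      exact f1 x
    · rintro ⟨e, _ | _⟩
      · change φ t⁻¹ = γ (bar ((), true))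
        rw [h2, map_inv, f2]
      · exact f2
  · rintro ⟨e, _ | _⟩
    · exact v2
    · exact v1

end Pool.Agent.P.MP_67c9d4_al.FR
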