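import Pool.Agent.P.MP_67c9d4_al.FR.Iface

/-! Step INS. -/

set_option autoImplicit false
set_option linter.unusedSectionVars false

namespace Pool.Agent.P.MP_67c9d4_al.FR

open Equiv Wr Multiplicative FC

section
variable {X H W : Type} [Group H] [Group W] (d : AD X H W)

lemma INS_rho_p (h : FreeGroup X) : (d.rho h).p = d.a2 h := lab_p _ _ h

lemma INS_a2_fst (h : FreeGroup X) (z : d.Y) : ((d.a2 h)⁻¹ z).1 = (d.a1 h)⁻¹ z.1 := by
  rw [AD.a2, MonoidHom.comp_apply, cov_inv, lab_p]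

lemma INS_a1_fst (h : FreeGroup X) (q : (FreeGroup X ⧸ d.N) × MB d.N) :
    ((d.a1 h)⁻¹ q).1 = (qa d.N h)⁻¹ q.1 := by
  rw [AD.a1, MonoidHom.comp_apply, cov_inv, lab_p]

lemma INS_a1_of {v : FreeGroup X} {y : X} (h1 : d.Rg v) (h2 : d.Rg (v * FreeGroup.of y))
    (β : MB d.N) : (d.a1 (FreeGroup.of y))⁻¹ (pt d.N v, β) = (pt d.N (v * FreeGroup.of y), β) := by
  have hI : d.Ins (pt d.N v, y) := ⟨v, h1, h2, rfl⟩
  rw [AD.a1, MonoidHom.comp_apply, cov_inv, lab_p, lab_of, tg_neg (not_not.2 hI), mul_one, qa_pt]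

lemma INS_a2_of {v : FreeGroup X} {y : X} (h1 : d.Rg v) (h2 : d.Rg (v * FreeGroup.of y))
    (β : MB d.N) : (d.a2 (FreeGroup.of y))⁻¹ ((pt d.N v, 1), β) =
      ((pt d.N (v * FreeGroup.of y), 1), β) := by
  have hP : d.Pc (pt d.N v, 1) y :=
    ⟨1, d.A.one_mem, v, h1, by simp, 1, d.A.one_mem, by rwa [mul_one], by rwa [mul_one],
      by rw [mul_one]⟩
  rw [AD.a2, MonoidHom.comp_apply, cov_inv, lab_p, lab_of, tg_neg (fun h => h.2 hP), mul_one,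
    INS_a1_of d h1 h2]

lemma INS_rho_z0 (v : FreeGroup X) (y : X) :
    (d.rho (FreeGroup.of y)).c (d.z0 v) = d.wt (pt d.N v, y) := by
  rw [AD.rho, lab_of, if_pos ⟨rfl, rfl⟩]
  rfl

lemma INS_ne {z : d.Y} {y : X} (h : (d.rho (FreeGroup.of y)).c z ≠ 1) :
    ∃ v, d.Rg v ∧ d.Rg (v * FreeGroup.of y) ∧ z = d.z0 v := by
  rw [AD.rho, lab_of] at h
  by_cases hb : z.1.2 = 1 ∧ z.2 = 1
  · rw [if_pos hb] at h
    have hI : d.Ins (z.1.1, y) := by
      by_contra hI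
      exact h (by rw [AD.wt, dif_neg hI])
    obtain ⟨v, h1, h2, e⟩ := hI
    exact ⟨v, h1, h2, Prod.ext (Prod.ext e.symm hb.1) hb.2⟩
  · exact absurd (if_neg hb) h

lemma INS_w_inv (v v' : FreeGroup X) : (d.w v v')⁻¹ = d.w v' v := by
  rw [AD.w, AD.w, mul_inv_rev, inv_inv]

end

theorem p_INS (hLIFT : S_LIFT) :
    S_INS := by
  intro X H W _ _ _ d hd
  have h4 := (hLIFT X H W d hd).2.2.2.1
  refine ⟨?_, ?_, INS_rho_p d, INS_a2_fst d, INS_a1_fst d⟩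
  · rintro v ⟨y, _ | _⟩ h1 h2
    · rw [lt_false] at h2 ⊢
      have e : v * (FreeGroup.of y)⁻¹ * FreeGroup.of y = v := inv_mul_cancel_right _ _
      have h3 : d.Rg (v * (FreeGroup.of y)⁻¹ * FreeGroup.of y) := by rwa [e]
      refine ⟨fun β₁ β₂ => ?_, fun β₂ => ?_, ?_⟩
      · have := INS_a1_of d h2 h3 β₁
        rw [e, Perm.inv_eq_iff_eq] at this
        rw [INS_a2_fst, map_inv, inv_inv, ← this]
      · have := INS_a2_of d h2 h3 β₂
        rw [e, Perm.inv_eq_iff_eq] at this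
        rw [map_inv, inv_inv, ← this]
      · have h5 : (d.rho (FreeGroup.of y)).p⁻¹ (d.z0 (v * (FreeGroup.of y)⁻¹)) = d.z0 v := by
          rw [INS_rho_p, AD.z0, INS_a2_of d h2 h3, e, AD.z0]
        rw [← h5, c_inv, INS_rho_z0, h4 _ _ h2 h3, e, INS_w_inv]
    · rw [lt_true] at h2 ⊢
      refine ⟨fun β₁ β₂ => ?_, INS_a2_of d h1 h2, ?_⟩
      · rw [INS_a2_fst, INS_a1_of d h1 h2]
      · rw [INS_rho_z0, h4 _ _ h1 h2]
  · rintro z ⟨y, _ | _⟩ h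
    · rw [lt_false] at h ⊢
      rw [map_inv, inv_c, ne_eq, inv_eq_one] at h
      obtain ⟨v, h1, h2, e⟩ := INS_ne d h
      refine ⟨v * FreeGroup.of y, h2, by rwa [mul_inv_cancel_right], ?_⟩
      rw [INS_rho_p, ← Perm.eq_inv_iff_eq, AD.z0, INS_a2_of d h1 h2] at e
      exact e
    · rw [lt_true] at h ⊢
      exact INS_ne d h

end Pool.Agent.P.MP_67c9d4_al.FR
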