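import Pool.Agent.P.MP_67c9d4_al.FR.Iface

/-! Step KEMB. -/

set_option autoImplicit false
set_option linter.unusedSectionVars false

namespace Pool.Agent.P.MP_67c9d4_al.FR

open Equiv Wr Multiplicative FC Monoid

lemma KEMB_fin {K X G : Type} [Group K] [Group G] (φ : Coprod K (FreeGroup X) →* G)
    (z : Coprod K (FreeGroup X)) : ∃ E : Set X, E.Finite ∧ ∀ φ' : Coprod K (FreeGroup X) →* G,
      (∀ k, φ' (Coprod.inl k) = φ (Coprod.inl k)) →
      (∀ x ∈ E, φ' (Coprod.inr (FreeGroup.of x)) = φ (Coprod.inr (FreeGroup.of x))) →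
      φ' z = φ z := by
  induction z using Coprod.induction_on with
  | inl k => exact ⟨∅, Set.finite_empty, fun φ' h _ => h k⟩
  | inr w =>
    induction w using FreeGroup.induction_on with
    | C1 => exact ⟨∅, Set.finite_empty, fun φ' _ _ => by simp only [map_one]⟩
    | of x => exact ⟨{x}, Set.finite_singleton x, fun φ' _ h => h x rfl⟩
    | inv_of x ih =>
      obtain ⟨E, hE, h⟩ := ih
      exact ⟨E, hE, fun φ' a b => by rw [map_inv, map_inv, map_inv, h φ' a b]⟩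
    | mul x y ix iy =>
      obtain ⟨E, hE, h⟩ := ix
      obtain ⟨E', hE', h'⟩ := iy
      exact ⟨E ∪ E', hE.union hE', fun φ' a b => by
        rw [map_mul, map_mul, map_mul, h φ' a fun x e => b x (Or.inl e),
          h' φ' a fun x e => b x (Or.inr e)]⟩
  | mul x y ix iy =>
    obtain ⟨E, hE, h⟩ := ix
    obtain ⟨E', hE', h'⟩ := iy
    exact ⟨E ∪ E', hE.union hE', fun φ' a b => by
      rw [map_mul, map_mul, h φ' a fun x e => b x (Or.inl e), h' φ' a fun x e => b x (Or.inr e)]⟩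

lemma KEMB_red {F K X G : Type} [Group F] [Group K] [Group G] {A : Subgroup F} (hA : A.FG)
    (φ : Coprod K (FreeGroup X) →* G) {f : F → Coprod K (FreeGroup X)} (hf : Hm A f) :
    ∃ (E : Type) (_ : Finite E) (r : Coprod K (FreeGroup X) →* Coprod K (FreeGroup E))
      (ψ' : Coprod K (FreeGroup E) →* G), (∀ k, r (Coprod.inl k) = Coprod.inl k) ∧
      ∀ a ∈ A, ψ' (r (f a)) = φ (f a) := by
  classical
  obtain ⟨s, rfl, hs⟩ := (Subgroup.fg_iff _).1 hA
  choose E hE h using KEMB_fin φ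
  have fin : (⋃ a ∈ s, E (f a)).Finite := hs.biUnion fun a _ => hE _
  let r : Coprod K (FreeGroup X) →* Coprod K (FreeGroup (⋃ a ∈ s, E (f a) : Set X)) :=
    Coprod.map (MonoidHom.id K) (FreeGroup.lift fun x =>
      if e : x ∈ ⋃ a ∈ s, E (f a) then FreeGroup.of ⟨x, e⟩ else 1)
  let ψ' : Coprod K (FreeGroup (⋃ a ∈ s, E (f a) : Set X)) →* G :=
    Coprod.lift (φ.comp Coprod.inl) (FreeGroup.lift fun x => φ (Coprod.inr (FreeGroup.of x.1)))
  refine ⟨_, fin.to_subtype, r, ψ', fun k => rfl, ?_⟩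
  refine (hf.comp (ψ'.comp r)).ext_closure (hf.comp φ) le_rfl fun a ha => ?_
  refine h _ _ (fun k => by simp [r, ψ']) fun x hx => ?_
  have e : x ∈ ⋃ a ∈ s, E (f a) := Set.mem_biUnion ha hx
  simp only [r, ψ', MonoidHom.comp_apply, Coprod.map_apply_inr, FreeGroup.lift_apply_of, dif_pos e,
    Coprod.lift_apply_inr]

theorem p_KEMB (hTRV : S_TRV) :
    S_KEMB := by
  intro F I J K G _ _ _ A B c v ι ψ i hFF hA hR hι hψ
  classical
  obtain ⟨g, o, g1, g2, g3, g4, g5⟩ := hTRV F J A B v hR.dist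
  let s : F ⧸ A → F → F := fun y u => g y * u * (g ((qa A u)⁻¹ y))⁻¹
  have sm : ∀ y u u', s y (u * u') = s y u * s ((qa A u)⁻¹ y) u' := fun y u u' => by
    simp only [s, inv_mul_apply]; group
  have sD : ∀ y, ∀ b ∈ B, s y b ∈ Dv A B (o y) := fun y b hb => by
    refine mem_Dv.2 ⟨pt_eq.1 (by rw [← qa_pt, g1, g1]), ?_⟩
    have := B.mul_mem (B.mul_mem (g2 y) hb) (B.inv_mem (g2 ((qa A b)⁻¹ y)))
    rw [g3 y b hb] at this
    convert this using 1
    simp only [s]; group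
  let χ : F → F → K := fun w x => if h : ∃ j, w = v j then ι h.choose x else 1
  have χv : ∀ j, χ (v j) = ι j := fun j => funext fun x => by
    have h : ∃ j', v j = v j' := ⟨j, rfl⟩
    simp only [χ, dif_pos h]
    rw [← hR.dist j h.choose (h.choose_spec ▸ Dc.refl _)]
  have χn : ∀ w x, (¬∃ j, w = v j) → χ w x = 1 := fun w x h => dif_neg h
  have χm : ∀ w, Hm (Dv A B w) (χ w) := fun w => by
    by_cases h : ∃ j, w = v j
    · obtain ⟨j, rfl⟩ := h
      rw [χv]; exact hι j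
    · intro a _ b _
      rw [χn _ _ h, χn _ _ h, χn _ _ h, mul_one]
  have χi : ∀ y, ∀ x ∈ Dv A B (o y), ψ (χ (o y) x) = i x := fun y x hx => by
    by_cases h : ∃ j, o y = v j
    · obtain ⟨j, e⟩ := h
      rw [e] at hx
      rw [e, χv, hψ j x hx]
    · have : Dv A B (o y) = ⊥ := by
        by_contra n
        obtain ⟨j, hj⟩ := hR.cover _ trivial n
        exact h ⟨j, g5 y j hj⟩
      rw [this, Subgroup.mem_bot] at hx
      rw [χn _ _ h, hx, map_one, map_one]
  obtain ⟨Γ, hΓ, hB, hc⟩ := hFF.2 (Wr (F ⧸ A) (Coprod K (FreeGroup ((F ⧸ A) × I))))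
    (fun b => ⟨qa A b, fun y => Coprod.inl (χ (o y) (s y b))⟩)
    (fun j => ⟨qa A (c j), fun y => Coprod.inr (FreeGroup.of (y, j))⟩)
    (fun a ha b hb => Wr.ext (map_mul _ a b) (funext fun y => by
      have := sD ((qa A a)⁻¹ y) b hb
      rw [g3 y a ha] at this
      simp only [mul_c]
      rw [sm, χm _ _ (sD y a ha) _ this, map_mul, g3 y a ha]))
  let φ : Coprod K (FreeGroup ((F ⧸ A) × I)) →* G :=
    Coprod.lift ψ (FreeGroup.lift fun e => i (s e.1 (c e.2)))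
  have key : ∀ u, push φ (Γ u) = ⟨qa A u, fun y => i (s y u)⟩ := fun u =>
    hFF.ext (g' := fun u => ⟨qa A u, fun y => i (s y u)⟩) (hΓ.comp (push φ))
      (fun a _ b _ => Wr.ext (map_mul _ a b) (funext fun y => by
        simp only [mul_c]; rw [sm, map_mul]))
      (fun b hb => by
        rw [hB b hb]
        exact Wr.ext rfl (funext fun y => χi y _ (sD y b hb)))
      (fun j => by
        rw [hc j]
        exact Wr.ext rfl (funext fun y => by simp [φ])) u trivial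
  have hp : ∀ u, (Γ u).p = qa A u := fun u => congrArg Wr.p (key u)
  have hk : ∀ u y, φ ((Γ u).c y) = i (s y u) := fun u y => congrFun (congrArg Wr.c (key u)) y
  have fix : ∀ a ∈ A, (qa A a)⁻¹ (pt A 1) = pt A 1 := fun a ha => by
    rw [qa_pt, pt_eq]; simpa using ha
  have cm : ∀ u u' y, (Γ (u * u')).c y = (Γ u).c y * (Γ u').c ((qa A u)⁻¹ y) := fun u u' y => by
    rw [hΓ u trivial u' trivial, mul_c, hp]
  have f0 : Hm A fun a => (Γ a).c (pt A 1) := fun a ha b _ => by simp only [cm, fix a ha]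
  have g0 : g (pt A 1) ∈ A := by simpa using pt_eq.1 (g1 (pt A 1))
  obtain ⟨E, fin, r, ψ', r1, r2⟩ := KEMB_red hA φ (f0.conj ((Γ (g (pt A 1))).c (pt A 1))⁻¹)
  refine ⟨E, fin, _, ψ', (f0.conj ((Γ (g (pt A 1))).c (pt A 1))⁻¹).comp r, fun a ha => ?_,
    fun j => ⟨r (((Γ (g (pt A 1))).c (pt A 1))⁻¹ * (Γ (v j)⁻¹).c (pt A 1)), fun x hx => ?_⟩⟩
  · rw [r2 a ha]
    simp only [map_mul, map_inv, hk, s, fix a ha, fix _ g0]
    group
  · obtain ⟨x1, x2⟩ := mem_Dv.1 hx
    have e1 : (qa A (v j * x * (v j)⁻¹))⁻¹ (pt A (v j)⁻¹) = pt A (v j)⁻¹ := by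
      rw [qa_pt, pt_eq]; simpa [mul_assoc] using x1
    have e2 : (Γ (v j)⁻¹).c (pt A 1) * (Γ (v j)).c (pt A (v j)⁻¹) = 1 := by
      have := cm (v j)⁻¹ (v j) (pt A 1)
      rw [inv_mul_cancel, hΓ.one, qa_pt, one_mul] at this
      exact this.symm
    have e3 : (Γ x).c (pt A 1) =
        (Γ (v j)⁻¹).c (pt A 1) * Coprod.inl (ι j x) * ((Γ (v j)⁻¹).c (pt A 1))⁻¹ := by
      conv_lhs => rw [show x = (v j)⁻¹ * (v j * x * (v j)⁻¹ * v j) by group]
      rw [cm, cm, qa_pt, one_mul, e1, hB _ x2, eq_inv_of_mul_eq_one_right e2]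
      simp only [s, e1, (g4 j).1, (g4 j).2, χv]
      rw [show (v j)⁻¹ * (v j * x * (v j)⁻¹) * (v j)⁻¹⁻¹ = x by group, mul_assoc]
    rw [← r1, ← map_inv, ← map_mul, ← map_mul, e3]
    congr 1
    group

end Pool.Agent.P.MP_67c9d4_al.FR
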