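import Pool.Agent.P.MP_67c9d4_al.FR.Iface

/-! Step KJ. -/

set_option autoImplicit false
set_option linter.unusedSectionVars false

namespace Pool.Agent.P.MP_67c9d4_al.FR

open Equiv Wr Multiplicative FC

lemma KJ_free (Y : Type) [Finite Y] : VP (⊥ : Subgroup (FreeGroup Y)) := by
  obtain ⟨r, hr⟩ := raag_lift (Γ := (⊥ : SimpleGraph Y)) (FreeGroup.of : Y → FreeGroup Y)
    fun _ _ hab => hab.elim
  let e : FreeGroup Y →* RAAG (⊥ : SimpleGraph Y) := FreeGroup.lift PresentedGroup.of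
  have e1 : r.comp e = MonoidHom.id _ := FreeGroup.ext_hom _ _ fun a => by simp [e, hr]
  refine ⟨⊤, inferInstance, Y, ‹_›, ⊥, e.comp (Subgroup.subtype _), ∅, fun g => ?_⟩
  rw [PS, Set.image_empty, Subgroup.closure_empty, Subgroup.mem_bot, Subgroup.mem_bot]
  exact map_eq_one_iff e (Function.LeftInverse.injective (DFunLike.congr_fun e1))

theorem p_KJ (hFP : S_FP) :
    S_KJ := by
  refine ⟨KJ_free, fun G J _ _ => ?_⟩
  refine Finite.induction_empty_option (P := fun J => ∀ P : J → Subgroup G,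
    (∀ j, VP (⊥ : Subgroup (P j))) → ∃ (K : Type) (_ : Group K) (ι : J → G → K) (ψ : K →* G),
      VP (⊥ : Subgroup K) ∧ (∀ j, Hm (P j) (ι j)) ∧ ∀ j, ∀ x ∈ P j, ψ (ι j x) = x)
    (fun e ih P h => ?_) (fun P _ => ?_) (fun ih P h => ?_) J
  · obtain ⟨K, _, ι, ψ, h1, h2, h3⟩ := ih (P ∘ e) fun j => h (e j)
    exact ⟨K, _, fun j => ι (e.symm j), ψ, h1, fun j => by simpa using h2 (e.symm j),
      fun j => by simpa using h3 (e.symm j)⟩
  · exact ⟨FreeGroup Empty, inferInstance, fun _ _ => 1, 1, KJ_free _,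
      fun j => j.elim, fun j => j.elim⟩
  · obtain ⟨K, _, ι, ψ, h1, h2, h3⟩ := ih (fun j => P (some j)) fun j => h (some j)
    obtain ⟨g, g1, g2⟩ := exists_hm (Monoid.Coprod.inr : P none →* Monoid.Coprod K (P none))
    refine ⟨Monoid.Coprod K (P none), inferInstance,
      fun j => j.elim g fun j x => Monoid.Coprod.inl (ι j x),
      Monoid.Coprod.lift ψ (P none).subtype, (hFP _ _ h1 (h none)).1, ?_, ?_⟩
    · rintro (_ | j)
      exacts [g1, (h2 j).comp _]
    · rintro (_ | j) x hx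
      · exact congrArg _ (g2 ⟨x, hx⟩)
      · exact h3 j x hx

end Pool.Agent.P.MP_67c9d4_al.FR
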