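import Pool.Agent.P.MP_67c9d4_al.FR.Iface

/-! Step KUR. -/

set_option autoImplicit false
set_option linter.unusedSectionVars false

namespace Pool.Agent.P.MP_67c9d4_al.FR

open Equiv Wr Multiplicative FC

theorem p_KUR (hTRV : S_TRV) :
    S_KUR := by
  intro F I E _ A B U c v hF hA hv hd K _ χ hχ
  classical
  obtain ⟨g, o, t1, t2, t3, t4, -⟩ := hTRV F E A B v hd
  let L : F → F → K := fun w a => if h : ∃ e, w = v e then χ h.choose a else 1
  have L1 : ∀ w, Hm (Dv A B w) (L w) := fun w => by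
    by_cases h : ∃ e, w = v e
    · have := hχ h.choose
      rw [← h.choose_spec] at this
      simpa only [L, dif_pos h] using this
    · simpa only [L, dif_neg h] using hm_const (W := K) (Dv A B w)
  have L2 : ∀ e a, L (v e) a = χ e a := fun e a => by
    have h : ∃ e', v e = v e' := ⟨e, rfl⟩
    have : h.choose = e := hd _ _ ⟨1, B.one_mem, 1, A.one_mem, by
      rw [one_mul, mul_one]; exact h.choose_spec⟩
    simp only [L, dif_pos h, this]
  have m : ∀ y, ∀ b ∈ B, g y * b * (g ((qa A b)⁻¹ y))⁻¹ ∈ Dv A B (o y) := fun y b hb => by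
    refine mem_Dv.2 ⟨pt_eq.1 ?_, ?_⟩
    · rw [← qa_pt, t1, t1]
    · have := B.mul_mem (B.mul_mem (t2 y) hb) (B.inv_mem (t2 ((qa A b)⁻¹ y)))
      rw [t3 y b hb] at this
      simpa only [mul_inv_rev, mul_assoc] using this
  let σ : F → Wr (F ⧸ A) K := fun b =>
    ⟨qa A b, fun y => L (o y) (g y * b * (g ((qa A b)⁻¹ y))⁻¹)⟩
  have hσ : Hm B σ := fun b hb b' hb' => by
    refine Wr.ext (map_mul (qa A) b b') (funext fun y => ?_)
    have a1 := m ((qa A b)⁻¹ y) b' hb'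
    rw [t3 y b hb] at a1
    change L (o y) _ = L (o y) _ * L (o ((qa A b)⁻¹ y)) _
    rw [t3 y b hb, ← L1 _ _ (m y b hb) _ a1, inv_mul_apply]
    congr 1
    group
  obtain ⟨G, g1, g2, g3⟩ := hF.2 (Wr (F ⧸ A) K) σ (fun i => ⟨qa A (c i), 1⟩) hσ
  have gp : ∀ x ∈ U, (G x).p = qa A x :=
    hF.ext (g1.comp pHom) (hm_hom U (qa A)) (fun a ha => congrArg Wr.p (g2 a ha))
      fun i => congrArg Wr.p (g3 i)
  refine ⟨fun a => (G a).c (pt A 1), fun a ha a' ha' => ?_, fun e =>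
    ⟨(G (v e)⁻¹).c (pt A 1), fun d hd' => ?_⟩⟩
  · have : pt A (1 * a) = pt A 1 := pt_eq.2 (by simpa using ha)
    change (G (a * a')).c _ = _
    rw [g1 a (hA ha) a' (hA ha'), mul_c, gp a (hA ha), qa_pt, this]
  · obtain ⟨d1, d2⟩ := mem_Dv.1 hd'
    have hi := U.inv_mem (hv e)
    have e1 : G d = G (v e)⁻¹ * (σ (v e * d * (v e)⁻¹) * (G (v e)⁻¹)⁻¹) := by
      rw [← g2 _ d2, ← g1.inv hi, ← g1 _ (hF.le d2) _ (U.inv_mem hi),
        ← g1 _ hi _ (U.mul_mem (hF.le d2) (U.inv_mem hi))]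
      congr 1
      group
    have e2 : (qa A (v e * d * (v e)⁻¹))⁻¹ (pt A (v e)⁻¹) = pt A (v e)⁻¹ := by
      rw [qa_pt, pt_eq]
      simpa [mul_assoc] using d1
    change (G d).c _ = _
    rw [e1, mul_c, mul_c, gp _ hi, qa_pt, one_mul, inv_c, gp _ hi, mul_assoc _ (χ e d)]
    change _ * (L (o _) (g _ * _ * (g ((qa A _)⁻¹ _))⁻¹) * ((G _).c (qa A _ ((qa A _)⁻¹ _)))⁻¹) = _
    rw [e2, (t4 e).1, (t4 e).2, L2, qa_pt', inv_inv, inv_mul_cancel]
    congr 3
    group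

end Pool.Agent.P.MP_67c9d4_al.FR
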