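import Pool.Agent.P.MP_67c9d4_al.FR.Iface

/-! Step LINE. -/

set_option autoImplicit false
set_option linter.unusedSectionVars false

namespace Pool.Agent.P.MP_67c9d4_al.FR

open Equiv Wr Multiplicative FC

section
variable {F : Type} [Group F] {Φ : MulAut F} {A : Subgroup F} {n : ℕ} {b : Fin n → F}

lemma LINE_one (h : Line Φ A b) (k m : ℕ) : Fc (Vk Φ A k) (Vk Φ A (k + m)) := by
  induction m with
  | zero => exact Fc.refl _
  | succ m ih => exact ih.trans (h.up (k + m)).fc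

lemma LINE_step (h : Line Φ A b) (m : ℕ) : Fc (im Φ (Vk Φ A m)) (Vk Φ A (m + 1)) := by
  obtain ⟨r, u, hu⟩ := h.dn
  refine ⟨r, u, ?_⟩
  induction m with
  | zero => rw [Vk_zero]; exact hu
  | succ m ih =>
    have h1 := (ih.trans (h.up (m + 1))).swap.right
    have h2 := ((h.up m).im Φ).1
    have e : (fun i => Φ ((Φ ^ m) (b i))) = fun i => (Φ ^ (m + 1)) (b i) := by
      funext i
      rw [pow_succ', MulAut.mul_apply]
    rw [e] at h2
    rw [h2]
    exact h1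

lemma LINE_two (h : Line Φ A b) (k : ℕ) :
    ∀ m, Fc (im (Φ ^ k) (Vk Φ A m)) (Vk Φ A (k + m)) := by
  induction k with
  | zero => intro m; rw [pow_zero, im_one, zero_add]; exact Fc.refl _
  | succ k ih =>
    intro m
    have h1 := ((LINE_step h m).im (Φ ^ k)).trans (ih (m + 1))
    rw [im_im, ← pow_succ] at h1
    rwa [show k + 1 + m = k + (m + 1) by omega]

lemma LINE_three (h : Line Φ A b) (x : F) :
    ∃ m : ℕ, ∀ l, m ≤ l → (Φ ^ l) x ∈ Vk Φ A (2 * l) := by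
  have hx : x ∈ ⨆ i : ℤ, im (Φ ^ i) A := by
    have := h.gt
    unfold Gt at this
    rw [this]
    trivial
  refine Subgroup.iSup_induction (C := fun x => ∃ m : ℕ, ∀ l, m ≤ l → (Φ ^ l) x ∈ Vk Φ A (2 * l))
    _ hx ?_ ?_ ?_
  · intro i y hy
    refine ⟨i.natAbs, fun l hl => ?_⟩
    have h1 : (Φ ^ l) y ∈ im (Φ ^ l) (im (Φ ^ i) A) := apply_mem_im.2 hy
    rw [im_im] at h1
    have h2 : Φ ^ l * Φ ^ i = Φ ^ ((l : ℤ) + i).toNat := by
      rw [← zpow_natCast, ← zpow_natCast, ← zpow_add, Int.toNat_of_nonneg (by omega)]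
    rw [h2] at h1
    exact im_le_Vk (by omega) h1
  · exact ⟨0, fun l _ => by rw [map_one]; exact Subgroup.one_mem _⟩
  · rintro y z ⟨m, hm⟩ ⟨m', hm'⟩
    refine ⟨max m m', fun l hl => ?_⟩
    rw [map_mul]
    exact Subgroup.mul_mem _ (hm l ((le_max_left _ _).trans hl))
      (hm' l ((le_max_right _ _).trans hl))

lemma LINE_four (h : Line Φ A b) (k : ℕ) :
    ∃ ρ : F → F, Hm (Vk Φ A (k + 1)) ρ ∧ (∀ x ∈ Vk Φ A k, ρ x = x) ∧
    (∀ x ∈ Vk Φ A (k + 1), ρ x ∈ Vk Φ A k) ∧ ∀ x ∈ im (Φ ^ (k + 1)) A, ρ x ∈ im (Φ ^ k) A := by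
  obtain ⟨ρ, h1, h2, h3, h4⟩ := (h.up k).retr
  refine ⟨ρ, h1, h2, h4, fun x hx => ?_⟩
  have h5 := (h.up 0).im (Φ ^ k)
  rw [Vk_zero] at h5
  have hx' : x ∈ im (Φ ^ k) (Vk Φ A (0 + 1)) := by
    rw [pow_succ, ← im_im] at hx
    refine im_mono ?_ hx
    have := im_le_Vk (Φ := Φ) (A := A) (i := 1) (k := 0 + 1) le_rfl
    rwa [pow_one] at this
  refine h5.maps (h1.mono (im_Vk_le k (0 + 1))) (fun a ha => ?_) (fun i => ?_) x hx'
  · rw [h2 a (im_le_Vk le_rfl ha)]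
    exact ha
  · rw [pow_zero, MulAut.one_apply, h3 i]
    exact Subgroup.one_mem _

end

theorem p_LINE (hMALF : S_MALF) :
    S_LINE := by
  intro F _ Φ A n b h
  refine ⟨LINE_one h, LINE_two h, LINE_three h, LINE_four h, fun g a ha h1 hg => ?_⟩
  obtain ⟨l, hl⟩ := LINE_three h g
  have h2 := LINE_two h l 0
  rw [Vk_zero, add_zero] at h2
  have h3 := h2.trans (LINE_one h l l)
  rw [← two_mul] at h3
  refine (apply_mem_im (Φ := Φ ^ l)).1 (hMALF F _ _ h3 _ (hl l le_rfl) ((Φ ^ l) a)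
    (apply_mem_im.2 ha) (fun e => h1 ((Φ ^ l).injective (by rw [e, map_one]))) ?_)
  rw [← map_inv, ← map_mul, ← map_mul]
  exact apply_mem_im.2 hg

end Pool.Agent.P.MP_67c9d4_al.FR
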