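import Pool.Agent.P.MP_67c9d4_al.FR.Iface

/-! Step MALF. -/

set_option autoImplicit false
set_option linter.unusedSectionVars false

namespace Pool.Agent.P.MP_67c9d4_al.FR

open Equiv Wr Multiplicative FC

theorem p_MALF (hKUR : S_KUR) :
    S_MALF := by
  intro F _ A U ⟨n, c, h⟩ g hg a ha h1 h2
  by_contra d
  have key : ¬ Dc A 1 A g⁻¹ := by
    rintro ⟨b, hb, b', hb', e⟩
    refine d (A.inv_mem_iff.1 ?_)
    rw [e, mul_one]
    exact A.mul_mem hb hb'
  obtain ⟨ψ, -, hψ⟩ := hKUR F (Fin n) Bool A A U c (fun e => bif e then g⁻¹ else 1) h h.le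
    (fun e => by
      cases e
      · exact U.one_mem
      · exact U.inv_mem hg)
    (fun e e' x => by
      cases e <;> cases e'
      · rfl
      · exact (key x).elim
      · exact (key x.symm).elim
      · rfl)
    F (fun e => bif e then id else fun _ => 1)
    (fun e => by
      cases e
      · exact hm_const _
      · exact hm_id _)
  obtain ⟨k, hk⟩ := hψ false
  obtain ⟨k', hk'⟩ := hψ true
  have e1 := hk a (mem_Dv.2 ⟨ha, by simpa using ha⟩)
  have e2 := hk' a (mem_Dv.2 ⟨ha, by simpa using h2⟩)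
  rw [e1] at e2
  simp only [cond_false, cond_true, mul_one, mul_inv_cancel, id] at e2
  refine h1 ?_
  have : a = k'⁻¹ * (k' * a * k'⁻¹) * k' := by group
  rw [this, ← e2]
  group

end Pool.Agent.P.MP_67c9d4_al.FR
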