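import Pool.Agent.P.MP_67c9d4_al.FR.Iface

/-! Step MATCH. -/

set_option autoImplicit false
set_option linter.unusedSectionVars false

namespace Pool.Agent.P.MP_67c9d4_al.FR

open Equiv Wr Multiplicative FC

section
variable {A Y W : Type} [Group A] [Group W] (ρ₁ ρ₂ : A →* Wr Y W)

/-- The action on triples. -/
def MATCH_act (a : A) (t : Y × Y × W) : Y × Y × W :=
  ((ρ₁ a).p t.1, (ρ₂ a).p t.2.1,
    (ρ₁ a).c ((ρ₁ a).p t.1) * t.2.2 * ((ρ₂ a).c ((ρ₂ a).p t.2.1))⁻¹)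

lemma MATCH_one (t : Y × Y × W) : MATCH_act ρ₁ ρ₂ 1 t = t := by
  simp [MATCH_act]

lemma MATCH_mul (a b : A) (t : Y × Y × W) :
    MATCH_act ρ₁ ρ₂ (a * b) t = MATCH_act ρ₁ ρ₂ a (MATCH_act ρ₁ ρ₂ b t) := by
  simp [MATCH_act, mul_assoc]

/-- Invariant sets of triples with injective projections. -/
def MATCH_good (R : Set (Y × Y × W)) : Prop :=
  (∀ a, ∀ t ∈ R, MATCH_act ρ₁ ρ₂ a t ∈ R) ∧ (∀ t ∈ R, ∀ t' ∈ R, t.1 = t'.1 → t = t') ∧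
    ∀ t ∈ R, ∀ t' ∈ R, t.2.1 = t'.2.1 → t = t'

variable {ρ₁ ρ₂} {M : Subgroup A}

lemma MATCH_cj (h1 : ∀ a y, (ρ₁ a).p y = y ↔ a ∈ M) (h2 : ∀ a y, (ρ₂ a).p y = y ↔ a ∈ M)
    {R : Set (Y × Y × W)} (hR : MATCH_good ρ₁ ρ₂ R) {t : Y × Y × W} (ht : t ∈ R) :
    Cj M (fun n => (ρ₁ n).c t.1) fun n => (ρ₂ n).c t.2.1 := by
  refine ⟨t.2.2, fun n hn => ?_⟩
  have e := hR.2.1 _ (hR.1 n t ht) t ht ((h1 n t.1).2 hn)
  have e2 := congrArg (fun s => s.2.2) e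
  simp only [MATCH_act, (h1 n t.1).2 hn, (h2 n t.2.1).2 hn] at e2
  rw [mul_inv_eq_iff_eq_mul] at e2
  rw [← e2]
  simp

lemma MATCH_ext (h1 : ∀ a y, (ρ₁ a).p y = y ↔ a ∈ M) (h2 : ∀ a y, (ρ₂ a).p y = y ↔ a ∈ M)
    {R : Set (Y × Y × W)} (hR : MATCH_good ρ₁ ρ₂ R) {y y' : Y} (hy : ∀ t ∈ R, t.1 ≠ y)
    (hy' : ∀ t ∈ R, t.2.1 ≠ y')
    (hc : Cj M (fun n => (ρ₁ n).c y) fun n => (ρ₂ n).c y') :
    ∃ R', MATCH_good ρ₁ ρ₂ R' ∧ R ⊆ R' ∧ ∃ t ∈ R', t.1 = y := by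
  obtain ⟨w, hw⟩ := hc
  have fx : ∀ n ∈ M, MATCH_act ρ₁ ρ₂ n (y, y', w) = (y, y', w) := by
    intro n hn
    have := hw n hn
    simp only at this
    simp [MATCH_act, (h1 n y).2 hn, (h2 n y').2 hn, this]
  have same : ∀ a b : A, b⁻¹ * a ∈ M →
      MATCH_act ρ₁ ρ₂ a (y, y', w) = MATCH_act ρ₁ ρ₂ b (y, y', w) := by
    intro a b h
    rw [← fx _ h, ← MATCH_mul, ← MATCH_mul, mul_inv_cancel_left, MATCH_mul, fx _ h]
  have c1 : ∀ t ∈ R, ∀ a, t.1 ≠ (MATCH_act ρ₁ ρ₂ a (y, y', w)).1 := by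
    intro t ht a e
    refine hy _ (hR.1 a⁻¹ t ht) ?_
    simp only [MATCH_act] at e ⊢
    rw [e]
    simp
  have c2 : ∀ t ∈ R, ∀ a, t.2.1 ≠ (MATCH_act ρ₁ ρ₂ a (y, y', w)).2.1 := by
    intro t ht a e
    refine hy' _ (hR.1 a⁻¹ t ht) ?_
    simp only [MATCH_act] at e ⊢
    rw [e]
    simp
  refine ⟨R ∪ Set.range fun a => MATCH_act ρ₁ ρ₂ a (y, y', w), ⟨?_, ?_, ?_⟩,
    Set.subset_union_left, (y, y', w), Or.inr ⟨1, MATCH_one _ _ _⟩, rfl⟩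
  · rintro a t (ht | ⟨b, rfl⟩)
    · exact Or.inl (hR.1 a t ht)
    · exact Or.inr ⟨a * b, MATCH_mul _ _ _ _ _⟩
  · rintro t (ht | ⟨a, rfl⟩) t' (ht' | ⟨b, rfl⟩) e
    · exact hR.2.1 t ht t' ht' e
    · exact absurd e (c1 t ht b)
    · exact absurd e.symm (c1 t' ht' a)
    · refine same a b ((h1 _ y).1 ?_)
      simp only [MATCH_act] at e
      rw [map_mul, mul_p, Perm.mul_apply, e]
      simp
  · rintro t (ht | ⟨a, rfl⟩) t' (ht' | ⟨b, rfl⟩) e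
    · exact hR.2.2 t ht t' ht' e
    · exact absurd e (c2 t ht b)
    · exact absurd e.symm (c2 t' ht' a)
    · refine same a b ((h2 _ y').1 ?_)
      simp only [MATCH_act] at e
      rw [map_mul, mul_p, Perm.mul_apply, e]
      simp

lemma MATCH_free [Finite Y] (h1 : ∀ a y, (ρ₁ a).p y = y ↔ a ∈ M)
    (h2 : ∀ a y, (ρ₂ a).p y = y ↔ a ∈ M) (β : Y ≃ Y)
    (hβ : ∀ y, Cj M (fun n => (ρ₁ n).c y) fun n => (ρ₂ n).c (β y))
    {R : Set (Y × Y × W)} (hR : MATCH_good ρ₁ ρ₂ R) {y : Y} (hy : ∀ t ∈ R, t.1 ≠ y) :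
    ∃ y', (∀ t ∈ R, t.2.1 ≠ y') ∧ Cj M (fun n => (ρ₁ n).c y) fun n => (ρ₂ n).c y' := by
  by_contra hn
  have ex : ∀ z : {z : Y // Cj M (fun n => (ρ₁ n).c y) fun n => (ρ₁ n).c z},
      ∃ t ∈ R, t.2.1 = β z.1 := by
    intro z
    by_contra h
    exact hn ⟨β z.1, fun t ht e => h ⟨t, ht, e⟩, z.2.trans (hβ z.1)⟩
  choose t ht e using ex
  let h : {z : Y // Cj M (fun n => (ρ₁ n).c y) fun n => (ρ₁ n).c z} →
      {z : Y // Cj M (fun n => (ρ₁ n).c y) fun n => (ρ₁ n).c z} := fun z =>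
    ⟨(t z).1, (z.2.trans (hβ z.1)).trans (by
      have := (MATCH_cj h1 h2 hR (ht z)).symm
      rwa [e z] at this)⟩
  have inj : Function.Injective h := by
    intro z z' ez
    have e1 : t z = t z' := hR.2.1 _ (ht z) _ (ht z') (congrArg Subtype.val ez)
    have e2 : β z.1 = β z'.1 := by rw [← e z, ← e z', e1]
    exact Subtype.ext (β.injective e2)
  obtain ⟨z, hz⟩ := Finite.injective_iff_surjective.1 inj ⟨y, Cj.refl _ _⟩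
  exact hy _ (ht z) (congrArg Subtype.val hz)

end

theorem p_MATCH :
    S_MATCH := by
  intro A Y W _ _ _ M ρ₁ ρ₂ β h1 h2 hβ
  obtain ⟨D, ⟨R, hR, rfl⟩, hmax⟩ := (wellFounded_gt (α := Set Y)).has_min
    {D | ∃ R, MATCH_good ρ₁ ρ₂ R ∧ D = Prod.fst '' R}
    ⟨_, ∅, ⟨by simp, by simp, by simp⟩, rfl⟩
  have all : ∀ y, ∃ t ∈ R, t.1 = y := by
    intro y
    by_contra hy
    have hy' : ∀ t ∈ R, t.1 ≠ y := fun t ht e => hy ⟨t, ht, e⟩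
    obtain ⟨y', f1, f2⟩ := MATCH_free h1 h2 β hβ hR hy'
    obtain ⟨R', hR', sub, t, ht, e⟩ := MATCH_ext h1 h2 hR hy' f1 f2
    refine hmax _ ⟨R', hR', rfl⟩ ⟨Set.image_mono sub, fun h => ?_⟩
    obtain ⟨s, hs, es⟩ := h ⟨t, ht, e⟩
    exact hy ⟨s, hs, es⟩
  choose t ht e using all
  have inj : Function.Injective fun y => (t y).2.1 := by
    intro y y' h
    rw [← e y, ← e y', hR.2.2 _ (ht y) _ (ht y') h]
  let b : Y ≃ Y := Equiv.ofBijective _ (Finite.injective_iff_bijective.1 inj)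
  have hb : ∀ y, b y = (t y).2.1 := fun _ => rfl
  have key : ∀ a y, t ((ρ₁ a).p y) = MATCH_act ρ₁ ρ₂ a (t y) := by
    intro a y
    refine hR.2.1 _ (ht _) _ (hR.1 a _ (ht y)) ?_
    simp only [MATCH_act, e]
  have kb : ∀ a y, b ((ρ₁ a).p y) = (ρ₂ a).p (b y) := by
    intro a y
    rw [hb, hb, key]
    rfl
  refine ⟨⟨b.symm, fun y => (t y).2.2⟩, fun a => ?_⟩
  rw [mul_assoc, inv_mul_eq_iff_eq_mul]
  refine Wr.ext ?_ (funext fun z => ?_)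
  · ext y'
    obtain ⟨y, rfl⟩ := b.surjective y'
    change (ρ₁ a).p (b.symm (b y)) = b.symm ((ρ₂ a).p (b y))
    rw [← kb, b.symm_apply_apply, b.symm_apply_apply]
  · obtain ⟨y, rfl⟩ := (ρ₁ a).p.surjective z
    change (ρ₁ a).c ((ρ₁ a).p y) * (t ((ρ₁ a).p⁻¹ ((ρ₁ a).p y))).2.2 =
      (t ((ρ₁ a).p y)).2.2 * (ρ₂ a).c (b ((ρ₁ a).p y))
    rw [kb, key, hb]
    simp [MATCH_act, e]

end Pool.Agent.P.MP_67c9d4_al.FR
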