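import Pool.Agent.P.MP_67c9d4_al.FR.Iface

/-! Step MED. -/

set_option autoImplicit false
set_option linter.unusedSectionVars false

namespace Pool.Agent.P.MP_67c9d4_al.FR

open Equiv Wr Multiplicative FC

lemma MED_step {T : Type} {Γ : SimpleGraph T} (x : T × Bool) (k : RAAG Γ) (W : Wall Γ) :
    W ∈ Sp Γ 1 (wd Γ [x] * k) ↔ ¬(W = ew Γ 1 x ↔ (wd Γ [x])⁻¹ • W ∈ Sp Γ 1 k) := by
  have h := Sp_step (Γ := Γ) 1 x
  rw [one_mul] at h
  rw [Sp_xor 1 (wd Γ [x]), h, Set.mem_singleton_iff, ← smul_mem_Sp (wd Γ [x])⁻¹, inv_mul_cancel,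
    inv_mul_cancel_left]

lemma MED_geo {T : Type} {Γ : SimpleGraph T} {L L' : List (T × Bool)} (h : Geo Γ L)
    (e : wd Γ L = wd Γ L') (l : L'.length = L.length) : Geo Γ L' :=
  fun M hM => l.trans_le (h M (hM.trans e.symm))

theorem p_MED (hG2 : S_G2) (hG1 : S_G1) (hCAN : S_CAN) :
    S_MED := by
  classical
  intro T Γ
  obtain ⟨g1, g2, g3, g4, -⟩ := hG2 T Γ
  refine ⟨fun S x => ?_, fun g h => ?_⟩
  · have hex : ∃ n, ∃ z ∈ PS Γ S, Sh Γ n (z⁻¹ * x) :=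
      let ⟨r, h⟩ := sh_exists (1⁻¹ * x); ⟨r, 1, one_mem _, h⟩
    obtain ⟨z, hz, L₀, e₀, l₀⟩ := Nat.find_spec hex
    refine ⟨z, hz, fun c hc => Set.disjoint_left.2 fun W h1 h2 => ?_⟩
    obtain ⟨L, hL, eL⟩ := g1 (z⁻¹ * x)
    obtain ⟨M, hM, eM⟩ := g1 (z⁻¹ * c)
    rw [← smul_mem_Sp z⁻¹, inv_mul_cancel] at h1 h2
    obtain ⟨y, L', M', -, hy, e1, -, l1, -⟩ := hCAN T Γ L M _ hL hM (eL ▸ h1) (eM ▸ h2)
    have := hL L₀ (e₀.trans eL.symm)
    refine Nat.find_min hex (m := L'.length) (by omega) ⟨z * wd Γ [y], mul_mem hz (wd_mem ?_),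
      L', ?_, le_rfl⟩
    · simpa using g2 S M hM (eM ▸ mul_mem (inv_mem hz) hc) y hy
    · rw [mul_inv_rev, mul_assoc, ← eL, e1, wd_cons y L', inv_mul_cancel_left]
  · obtain ⟨L, hL, rfl⟩ := g1 g
    obtain ⟨M, hM, rfl⟩ := g1 h
    induction hn : L.length generalizing L M with
    | zero =>
      obtain rfl := List.length_eq_zero_iff.1 hn
      exact ⟨1, by rw [wd_nil, Sp_self, Set.empty_inter]⟩
    | succ n ih =>
      rcases (Sp Γ 1 (wd Γ L) ∩ Sp Γ 1 (wd Γ M)).eq_empty_or_nonempty with h | ⟨W, h1, h2⟩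
      · exact ⟨1, by rw [h, Sp_self]⟩
      obtain ⟨x, L', M', -, -, e1, e2, l1, l2⟩ := hCAN T Γ L M W hL hM h1 h2
      have a1 : Geo Γ (x :: L') := MED_geo hL e1 l1
      have a2 : Geo Γ (x :: M') := MED_geo hM e2 l2
      obtain ⟨μ, hμ⟩ := ih L' (g4 [x] L' a1).2 M' (g4 [x] M' a2).2 (by omega)
      have hd : ∀ K, Geo Γ (x :: K) → ew Γ 1 x ∈ Sp Γ 1 (wd Γ [x] * wd Γ K) := fun K hK => by
        have := (Sp_of_nodup (((hG1 T Γ).1 _ (g3 _ hK)).2 1) (ew Γ 1 x)).2 List.mem_cons_self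
        rwa [one_mul, wd_cons] at this
      have b1 := hd L' a1
      have b2 := hd M' a2
      rw [MED_step] at b1 b2
      refine ⟨wd Γ [x] * μ, Set.ext fun Z => ?_⟩
      rw [e1, e2, wd_cons x L', wd_cons x M', Set.mem_inter_iff, MED_step, MED_step, MED_step, hμ,
        Set.mem_inter_iff]
      by_cases e : Z = ew Γ 1 x
      · subst e; tauto
      · simp [e]

end Pool.Agent.P.MP_67c9d4_al.FR
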