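import Pool.Agent.P.MP_67c9d4_al.FR.Iface

/-! Step MINI. -/

set_option autoImplicit false
set_option linter.unusedSectionVars false

namespace Pool.Agent.P.MP_67c9d4_al.FR

open Equiv Wr Multiplicative FC

lemma MINI_card {F : Type} [Group F] {S : Set F} (hS : S.Finite) {A A' : Subgroup F} (le : A ≤ A')
    {p q : F} (hp : p ∈ S) (hq : q ∈ S) (h : p * q⁻¹ ∈ A') (n : p * q⁻¹ ∉ A) :
    (pt A' '' S).ncard < (pt A '' S).ncard := by
  let f : F ⧸ A → F ⧸ A' := fun x => pt A' x.out⁻¹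
  have hf : ∀ g, f (pt A g) = pt A' g := fun g => pt_eq.2 (le (pt_eq.1 (pt_out A _)))
  have e : pt A' '' S = f '' (pt A '' S) := by rw [Set.image_image]; simp only [hf]
  rw [e]
  refine lt_of_le_of_ne (Set.ncard_image_le (hS.image _)) fun k => n (pt_eq.1 ?_)
  exact Set.injOn_of_ncard_image_eq k (hS.image _) ⟨p, hp, rfl⟩ ⟨q, hq, rfl⟩
    (by rw [hf, hf]; exact pt_eq.2 h)

theorem p_MINI (hTREE : S_TREE) (hFULL : S_FULL) (hFOLD : S_FOLD) (hRH : S_RH) (hFFL : S_FFL) :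
    S_MINI := by
  intro X Φ n hmin A₀ fg₀ gt₀
  obtain ⟨S, -, fin, cn, e₀⟩ := hFULL X {1} A₀ (Set.finite_singleton 1) cn_one fg₀
  suffices H : ∀ (k : ℕ) (A : Subgroup (FreeGroup X)), (pt A '' S).ncard = k → A.FG → Gt Φ A →
      LS S A = A → ∀ b : Fin n → FreeGroup X, Vk Φ A 1 = A ⊔ Subgroup.closure (Set.range b) →
      FF A b (Vk Φ A 1) from H _ A₀ rfl fg₀ gt₀ e₀
  intro k
  induction k using Nat.strong_induction_on with
  | _ k ih =>
  intro A hk fg gt e b hb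
  by_cases c : LS S (Vk Φ A 1) ≤ A
  · obtain ⟨m, c', h⟩ := hTREE X S _ fin cn (Vk_fg (Φ := Φ) fg 1)
    rw [le_antisymm c (e.ge.trans (LS_mono subset_rfl (le_Vk 1)))] at h
    obtain ⟨h1, h2⟩ := hRH X A _ m n c' b fg h hb
    exact h2 (le_antisymm h1 (hmin A m fg gt ⟨c', h.1⟩))
  obtain ⟨p, hp, q, hq, gV, gA, m, rfl, c', hc⟩ := hFOLD X S A _ n fin cn e ⟨b, hb⟩ c
  have zp : ∀ x : FreeGroup X, Subgroup.closure (Set.range fun _ : Unit => x) =
      Subgroup.zpowers x := fun x => by rw [Set.range_const, Subgroup.zpowers_eq_closure]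
  have hz : im Φ (Subgroup.zpowers (p * q⁻¹)) = Subgroup.zpowers (Φ (p * q⁻¹)) :=
    MonoidHom.map_zpowers _ _
  have gA' : p * q⁻¹ ∈ A ⊔ Subgroup.zpowers (p * q⁻¹) :=
    Subgroup.mem_sup_right (Subgroup.mem_zpowers _)
  have e' : LS S (A ⊔ Subgroup.zpowers (p * q⁻¹)) = A ⊔ Subgroup.zpowers (p * q⁻¹) :=
    le_antisymm (LS_le _ _) (sup_le (e.ge.trans (LS_mono subset_rfl le_sup_left))
      (Subgroup.zpowers_le.2 (mem_LS hp hq gA')))
  have hV : Vk Φ (A ⊔ Subgroup.zpowers (p * q⁻¹)) 1 = A ⊔ Subgroup.zpowers (p * q⁻¹) ⊔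
      Subgroup.closure (Set.range (Sum.elim c' fun _ : Unit => Φ (p * q⁻¹))) := by
    rw [Set.Sum.elim_range, Subgroup.closure_union, ← sup_assoc, ← hc, zp, Vk_one, im_sup, hz,
      ← sup_assoc, sup_right_comm A, ← Vk_one, sup_eq_left.2 (Subgroup.zpowers_le.2 gV)]
  let ε : Fin (m + 1) ≃ Fin m ⊕ Unit := Fintype.equivOfCardEq (by simp)
  have f2 := (ih _ (hk ▸ MINI_card fin le_sup_left hp hq gA' gA) _ rfl
    (zp (p * q⁻¹) ▸ fg_sup_range fg _) (gt.mono le_sup_left) e'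
    (Sum.elim c' (fun _ => Φ (p * q⁻¹)) ∘ ε)
    (by rw [ε.surjective.range_comp]; exact hV)).reindex ε.symm
  rw [Function.comp_assoc, Equiv.self_comp_symm, Function.comp_id] at f2
  have f3 := f2.left
  have f4 := f2.right
  rw [← hc] at f3 f4
  have f5 := (hFFL _ _ (im Φ A) _ _ _ f4 (by rw [Vk_one]; exact le_sup_right)).im Φ⁻¹
  rw [zp, ← hz, ← im_sup, im_im, im_im, inv_mul_cancel, im_one, im_one] at f5
  exact (hRH X A _ _ _ _ b fg ((f5.trans f3).swap.reindex ε) hb).2 rfl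

end Pool.Agent.P.MP_67c9d4_al.FR
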