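import Pool.Agent.P.MP_67c9d4_al.FR.Iface

/-! Step MODEL. -/

set_option autoImplicit false
set_option linter.unusedSectionVars false

namespace Pool.Agent.P.MP_67c9d4_al.FR

open Equiv Wr Multiplicative FC

theorem p_MODEL (hFP : S_FP) (hKJ : S_KJ) (hKEMB : S_KEMB) :
    S_MODEL := by
  intro Y G J _ _ _ S Θ i t v hHN hC hVP
  classical
  obtain ⟨K, _, ι, ψ, hK, hι, hψ⟩ := hKJ.2 G J (fun j => Tor i (FS S) Θ t (v j)) hVP
  have hB : FF (im Θ (FS S)) (fun x : {x // x ∉ S} => Θ (FreeGroup.of x.1)) ⊤ := by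
    have := (ff_FS S).im Θ
    rwa [show im Θ (⊤ : Subgroup (FreeGroup Y)) = ⊤ from
      eq_top_iff.2 fun x _ => mem_im.2 trivial] at this
  have hA : (FS S).FG := (Subgroup.fg_iff _).2 ⟨_, rfl, S.toFinite.image _⟩
  have mT : ∀ j, ∀ x ∈ Dv (FS S) (im Θ (FS S)) (v j), i x ∈ Tor i (FS S) Θ t (v j) :=
    fun j x hx => Subgroup.mem_sup_left ⟨x, hx, rfl⟩
  obtain ⟨E, _, fA, ψ', hfA, hψ', hκ⟩ := hKEMB (FreeGroup Y) _ J K G (FS S) (im Θ (FS S)) _ v
    (fun j x => ι j (i x)) ψ i hB hA hC.rep (fun j => (hι j).comp' (hm_hom _ i) (mT j))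
    fun j x hx => hψ j _ (mT j x hx)
  have hK' := (hFP K (FreeGroup E) hK (hKJ.1 E)).1
  obtain ⟨hH, hΛ⟩ := hFP _ (FreeGroup {x // x ∉ S}) hK' (hKJ.1 _)
  obtain ⟨g, hg, hgA, hgc⟩ := (ff_FS S).2
    (Monoid.Coprod (Monoid.Coprod K (FreeGroup E)) (FreeGroup {x // x ∉ S}))
    (fun a => Monoid.Coprod.inl (fA a)) (fun x => Monoid.Coprod.inr (FreeGroup.of x))
    (fun a ha b hb => by simp only [hfA a ha b hb, map_mul])
  have hΨ : ∀ x, Monoid.Coprod.lift ψ'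
      (FreeGroup.lift fun x : {x // x ∉ S} => i (FreeGroup.of x.1)) (g x) = i x := fun x =>
    (ff_FS S).ext (hg.comp _) (hm_hom _ i) (fun a ha => by rw [hgA a ha]; simp [hψ' a ha])
      (fun x => by rw [hgc]; simp) x trivial
  have inj : Function.Injective g := fun x y e => hHN.inj (by rw [← hΨ, ← hΨ, e])
  have hπ : ∀ x, (Monoid.Coprod.inl.comp (Monoid.Coprod.lift (MonoidHom.id _) 1)) (g x) =
      g (retr S x) := fun x =>
    (ff_FS S).ext (hg.comp _) (hg.comp' (hm_hom ⊤ (retr S)) fun _ _ => trivial)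
      (fun a ha => by rw [retr_eq ha, hgA a ha]; simp)
      (fun x => by
        have : retr S (FreeGroup.of x.1) = 1 := by simp [retr, x.2]
        rw [hgc, this, hg.one]; simp) x trivial
  refine ⟨_, inferInstance, hg.top, Monoid.Coprod.inl.range, inj,
    fun x => ⟨?_, fun hx => ⟨fA x, (hgA x hx).symm⟩⟩, hΛ, hH, fun j => ?_⟩
  · rintro ⟨k, hk⟩
    have h1 := hπ x
    rw [Hm.top_apply] at hk
    rw [← hk] at h1
    have h2 : g (retr S x) = g x := by rw [← h1, ← hk]; simp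
    exact inj h2 ▸ retr_mem S x
  · obtain ⟨κ, hκ⟩ := hκ j
    have hu : t * i (v j) ∈ Tor i (FS S) Θ t (v j) :=
      Subgroup.mem_sup_right (Subgroup.mem_zpowers _)
    refine ⟨Monoid.Coprod.inl (κ * Monoid.Coprod.inl (ι j (t * i (v j))) * κ⁻¹), fun x hx => ?_⟩
    have hx' := (hC.inv j x).1 hx
    have e : i ((v j)⁻¹ * Θ x * v j) = (t * i (v j))⁻¹ * i x * (t * i (v j)) := by
      rw [map_mul, map_mul, map_inv, ← hHN.rel x (Dv_le _ hx)]; group
    have e' : ι j (i ((v j)⁻¹ * Θ x * v j)) =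
        (ι j (t * i (v j)))⁻¹ * ι j (i x) * ι j (t * i (v j)) := by
      rw [e, hι j _ (mul_mem (inv_mem hu) (mT j x hx)) _ hu, hι j _ (inv_mem hu) _ (mT j x hx),
        (hι j).inv hu]
    rw [Hm.top_apply, Hm.top_apply, hgA x (Dv_le _ hx), hgA _ (Dv_le _ hx'), hκ x hx, hκ _ hx', e']
    simp only [map_mul, map_inv]
    group

end Pool.Agent.P.MP_67c9d4_al.FR
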