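import Pool.Agent.P.MP_67c9d4_al.FR.Iface

/-! Step PIECE. -/

set_option autoImplicit false
set_option linter.unusedSectionVars false

namespace Pool.Agent.P.MP_67c9d4_al.FR

open Equiv Wr Multiplicative FC

theorem p_PIECE (hLIFT : S_LIFT) (hPOT : S_POT) :
    S_PIECE := by
  classical
  intro X H W _ _ _ d ok a ha v v' hv hv' e
  obtain ⟨l1, l2, -⟩ := hLIFT X H W d ok
  let P : FreeGroup X ⧸ d.N → Prop := fun x => ∃ a' ∈ d.A, d.Rg (v * a') ∧ pt d.N (v * a') = x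
  let ψ : FreeGroup X ⧸ d.N → Z2 := fun x => if P x then ofAdd 1 else 1
  have k : ∀ u, ∀ g ∈ d.A, d.Rg u → d.Rg (u * g) → P (pt d.N u) → P (pt d.N (u * g)) := by
    rintro u g hg hu hug ⟨a', ha', r, e⟩
    obtain ⟨n, hn, hb, e'⟩ := l2 u _ hu r e.symm
    refine ⟨a' * g, d.A.mul_mem ha' hg, ?_⟩
    rw [← mul_assoc, e', mul_assoc, l1 n hb, pt_eq, mul_inv_cancel_right]
    exact ⟨hug, hn⟩
  let η := lab (qa d.N) fun x y =>
    if y ∈ d.S then 1 else ψ x * ψ ((qa d.N (FreeGroup.of y))⁻¹ x)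
  have h1 : ∀ x, (η a).c x = 1 := by
    refine Subgroup.closure_induction (p := fun a _ => ∀ x, (η a).c x = 1) ?_ ?_ ?_ ?_ ha
    · rintro _ ⟨y, hy, rfl⟩ x
      rw [lab_of, if_pos hy]
    · intro x
      rw [map_one, one_c]
    · intro g h _ _ hg hh x
      rw [c_mul, hg, hh, one_mul]
    · intro g _ hg x
      rw [map_inv, inv_c, hg, inv_one]
  have h2 := hPOT X d.N d.Ins η ψ ok.fn (lab_p _ _) (fun x y h => by
    rw [lab_of]
    split_ifs with hy
    · obtain ⟨u, hu, hu', rfl⟩ : ∃ u, d.Rg u ∧ d.Rg (u * FreeGroup.of y) ∧ pt d.N u = x := h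
      have m : FreeGroup.of y ∈ d.A := Subgroup.subset_closure ⟨y, hy, rfl⟩
      have := k (u * FreeGroup.of y) _ (d.A.inv_mem m) hu'
      rw [mul_inv_cancel_right] at this
      have : ψ (pt d.N (u * FreeGroup.of y)) = ψ (pt d.N u) :=
        if_congr ⟨this hu, k u _ m hu hu'⟩ rfl rfl
      rw [qa_pt, this, z2_mul_self]
    · rfl) a _ _ e
  have h3 : P (pt d.N v) := ⟨1, d.A.one_mem, by rwa [mul_one], by rw [mul_one]⟩
  by_cases h4 : P (pt d.N v')
  · obtain ⟨a', ha', r, e'⟩ := h4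
    obtain ⟨n, hn, hb, e''⟩ := l2 _ _ r hv' e'
    exact ⟨n, hn, hb, a', ha', by rw [e'', mul_assoc]⟩
  · simp only [h1, ψ, if_pos h3, if_neg h4] at h2
    exact absurd h2 (by decide)

end Pool.Agent.P.MP_67c9d4_al.FR
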