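import Pool.Agent.P.MP_67c9d4_al.FR.Iface

/-! Step POS. -/

set_option autoImplicit false
set_option linter.unusedSectionVars false

namespace Pool.Agent.P.MP_67c9d4_al.FR

open Equiv Wr Multiplicative FC

theorem p_POS :
    S_POS := by
  intro F H _ _ A B τ α h
  choose V c hV hc using h
  let s : Setoid F := ⟨fun g g' => Dc B g A g', Dc.refl, Dc.symm, Dc.trans⟩
  have key : ∀ u, ∀ b ∈ B, ∀ a ∈ A, ∀ b' ∈ B, ∀ a' ∈ A, b * V u * a = b' * V u * a' →
      τ b * c u * α a = τ b' * c u * α a' := fun u b hb a ha b' hb' a' ha' e => by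
    have e1 : V u * (a' * a⁻¹) * (V u)⁻¹ = b'⁻¹ * b := by
      rw [show b = b' * V u * a' * a⁻¹ * (V u)⁻¹ by rw [← e]; group]; group
    have e2 := hc u (a' * a⁻¹) (mem_Dv.2 ⟨A.mul_mem ha' (A.inv_mem ha),
      e1 ▸ B.mul_mem (B.inv_mem hb') hb⟩)
    rw [e1, map_mul, map_mul, map_inv, map_inv, inv_mul_eq_iff_eq_mul] at e2
    rw [e2]
    group
  have d : ∀ g, Dc B (V (Quotient.mk s g).out) A g := fun g =>
    (hV _).trans (Quotient.mk_out (s := s) g)
  choose β hβ γ hγ e using d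
  refine ⟨fun g => τ (β g) * c (Quotient.mk s g).out * α (γ g), fun b hb a ha g => ?_⟩
  have q : Quotient.mk s g = Quotient.mk s (b * g * a) := Quotient.sound ⟨b, hb, a, ha, rfl⟩
  have e1 := e (b * g * a)
  beta_reduce
  rw [← q] at e1 ⊢
  rw [key _ _ (hβ _) _ (hγ _) _ (B.mul_mem hb (hβ g)) _ (A.mul_mem (hγ g) ha)
    (by rw [← e1]; conv_lhs => rw [e g]
        group), map_mul, map_mul]
  group

end Pool.Agent.P.MP_67c9d4_al.FR
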