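import Pool.Agent.P.MP_67c9d4_al.FR.Iface

/-! Step POT. -/

set_option autoImplicit false
set_option linter.unusedSectionVars false

namespace Pool.Agent.P.MP_67c9d4_al.FR

open Equiv Wr Multiplicative FC

open Classical in
/-- The character of the group of bits given by a function on the edges. -/
noncomputable def POT_Xi {E : Type} [Fintype E] (ζ : E → Z2) : (E → Z2) →* Z2 where
  toFun β := ∏ e, if ζ e = 1 then 1 else β e
  map_one' := by simp
  map_mul' a b := by
    rw [← Finset.prod_mul_distrib]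
    refine Finset.prod_congr rfl fun e _ => ?_
    split_ifs <;> simp

lemma POT_z (a : Z2) : (if a = 1 then 1 else ofAdd 1) = a := by revert a; decide

lemma POT_tg {E : Type} [Fintype E] (ζ : E → Z2) (p : Prop) (e : E) (h : ¬p → ζ e = 1) :
    POT_Xi ζ (tg p e) = ζ e := by
  classical
  by_cases hp : p
  · change (∏ e', if ζ e' = 1 then 1 else tg p e e') = ζ e
    rw [Finset.prod_eq_single e]
    · have : tg p e e = ofAdd 1 := by simp [tg, hp]
      rw [this]
      convert POT_z (ζ e)
    · intro e' _ he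
      simp [tg, he]
    · simp
  · rw [tg_neg hp, map_one, h hp]

lemma POT_main {X Y B : Type} [Group B] (α : FreeGroup X →* Perm Y)
    (la : FreeGroup X →* Wr Y B) (η : FreeGroup X →* Wr Y Z2) (Ξ : B →* Z2) (ψ : Y → Z2)
    (h1 : ∀ h, (la h).p = α h) (h2 : ∀ h, (η h).p = α h)
    (h3 : ∀ y x, Ξ ((la (FreeGroup.of y)).c x) =
      (η (FreeGroup.of y)).c x * ψ x * ψ ((α (FreeGroup.of y))⁻¹ x)) (h : FreeGroup X) :
    ∀ x, Ξ ((la h).c x) = (η h).c x * ψ x * ψ ((α h)⁻¹ x) := by
  induction h using FreeGroup.induction_on with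
  | C1 => intro x; simp [z2_mul_self]
  | of y => exact h3 y
  | inv_of y ih =>
    intro x
    have := ih (α (FreeGroup.of y) x)
    rw [map_inv la, map_inv η, inv_c, inv_c, h1, h2, map_inv Ξ, this, z2_inv, z2_inv, map_inv α,
      inv_inv, Perm.inv_eq_iff_eq.2 rfl, mul_right_comm]
  | mul g h ig ih =>
    intro x
    rw [c_mul, c_mul, map_mul Ξ, ig, ih, h1, h2, inv_mul_apply]
    generalize (η g).c x = a
    generalize (η h).c _ = b
    generalize ψ ((α h)⁻¹ _) = c
    generalize ψ ((α g)⁻¹ x) = d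
    generalize ψ x = e
    revert a b c d e; decide

lemma POT_fin (a b c : Z2) (h : 1 = a * b * c) : a = b * c := by revert a b c; decide

lemma POT_one (a b c : Z2) (h : a = b * c) : a * b * c = 1 := by revert a b c; decide

theorem p_POT :
    S_POT := by
  intro X _ N P η ψ hN hp hP h x x' e
  have := hN.2
  have : Fintype ((FreeGroup X ⧸ N) × X) := Fintype.ofFinite _
  rw [cov_inv, lab_p, Prod.mk.injEq, one_mul] at e
  have k := POT_main (qa N) (lab (qa N) fun x y => tg (¬P (x, y)) (x, y)) η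
    (POT_Xi fun e => (η (FreeGroup.of e.2)).c e.1 * ψ e.1 * ψ ((qa N (FreeGroup.of e.2))⁻¹ e.1))
    ψ (lab_p _ _) hp (fun y x => by
      rw [lab_of, POT_tg]
      exact fun c => POT_one _ _ _ (hP x y (not_not.1 c))) h x
  rw [e.2, map_one, e.1] at k
  exact POT_fin _ _ _ k

end Pool.Agent.P.MP_67c9d4_al.FR
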