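import Pool.Agent.P.MP_67c9d4_al.FR.Iface
import Pool.Agent.P.MP_67c9d4_al.PG.FinPow

/-! Step REDN. -/

set_option autoImplicit false
set_option linter.unusedSectionVars false

namespace Pool.Agent.P.MP_67c9d4_al.FR

open Equiv Wr Multiplicative FC

theorem p_REDN (hSTRUCT : S_STRUCT) (hTOP : S_TOP) (hSPV : S_SPV) :
    S_REDN := by
  intro X φ hG h
  obtain ⟨k, Y, _, S, Θ, i, t, J, _, v, hk, hHN, hC, hi, ht⟩ := hSTRUCT X φ hG
  have inj := PG.FINh.pw_inj φ hk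
  have fi : (PG.FINh.pw φ k).range.FiniteIndex := ⟨by
    rw [PG.FINh.pw_range,
      Subgroup.index_comap_of_surjective _ SemidirectProduct.rightHom_surjective]
    have : (Subgroup.zpowers (Multiplicative.ofAdd (k : ℤ))).index = (k : ℤ).natAbs :=
      Int.index_zmultiples (k : ℤ)
    rw [this]
    simpa using hk.ne'⟩
  refine (hSPV.2.1 _ _ _ inj).2.2 fi (hSPV.2.2 _ (hTOP Y _ J S Θ i t v hHN hC fun j => ?_))
  set D := Dv (FS S) (im Θ (FS S)) (v j) with hD
  have fg : (D.map i).FG := map_fg (hC.fg j) i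
  have cj : ∀ x ∈ D, (t * i (v j))⁻¹ * i x * (t * i (v j)) = i ((v j)⁻¹ * Θ x * v j) :=
    fun x hx => by rw [map_mul, map_mul, map_inv, ← hHN.rel x (Dv_le _ hx)]; group
  have vs := h ((D.map i).map (PG.FINh.pw φ k)) (PG.FINh.pw φ k (t * i (v j))) (map_fg fg _)
    (by
      rintro _ ⟨_, ⟨x, -, rfl⟩, rfl⟩
      change (i x).right ^ k = 1
      rw [hi, one_pow])
    (by
      change (t * i (v j)).right ^ k ≠ 1
      rw [SemidirectProduct.mul_right, hi, mul_one]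
      exact fun e => ht ((pow_eq_one_iff_left hk.ne').1 e))
    (fun m => by
      constructor
      · rintro ⟨_, ⟨x, hx, rfl⟩, rfl⟩
        refine ⟨_, ⟨_, (hC.inv j x).1 hx, rfl⟩, ?_⟩
        rw [← cj x hx, map_mul, map_mul, map_inv]
      · rintro ⟨_, ⟨x, hx, rfl⟩, e⟩
        have e1 : (v j)⁻¹ * Θ (Θ⁻¹ (v j * x * (v j)⁻¹)) * v j = x := by
          rw [MulAut.apply_inv_self]; group
        have hx' : Θ⁻¹ (v j * x * (v j)⁻¹) ∈ D := (hC.inv j _).2 (e1.symm ▸ hx)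
        refine ⟨_, ⟨_, hx', rfl⟩, ?_⟩
        rw [← e1, ← cj _ hx', map_mul, map_mul, map_inv] at e
        exact mul_left_cancel (mul_right_cancel e))
  have e : (D.map i).map (PG.FINh.pw φ k) ⊔ Subgroup.zpowers (PG.FINh.pw φ k (t * i (v j))) =
      (Tor i (FS S) Θ t (v j)).map (PG.FINh.pw φ k) := by
    rw [Tor, Subgroup.map_sup, MonoidHom.map_zpowers]
  rw [e] at vs
  have fg' : (Tor i (FS S) Θ t (v j)).FG := fg.sup ((Subgroup.fg_iff _).2
    ⟨_, (Subgroup.zpowers_eq_closure _).symm, Set.finite_singleton _⟩)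
  let ε := (Tor i (FS S) Θ t (v j)).equivMapOfInjective _ inj
  exact hSPV.1 _ ((Group.fg_iff_subgroup_fg _).2 fg')
    ((hSPV.2.1 _ _ ε.toMonoidHom ε.injective).1 vs)

end Pool.Agent.P.MP_67c9d4_al.FR
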