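import Pool.Agent.P.MP_67c9d4_al.FR.Iface

/-! Step RH. -/

set_option autoImplicit false
set_option linter.unusedSectionVars false

namespace Pool.Agent.P.MP_67c9d4_al.FR

open Equiv Wr Multiplicative FC

lemma RH_le {F : Type} [Group F] {A V : Subgroup F} {m n : ℕ} {c : Fin m → F} {b : Fin n → F}
    (h : FF A c V) (hb : V = A ⊔ Subgroup.closure (Set.range b)) : m ≤ n := by
  choose g h1 h2 h3 using fun y : Fin m → Z2 => h.2 Z2 (fun _ => 1) y (hm_const A)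
  have inj : Function.Injective fun (y : Fin m → Z2) (j : Fin n) => g y (b j) := by
    intro y y' e
    funext i
    rw [← h3 y i, ← h3 y' i]
    refine (h1 y).ext_sup (h1 y') hb.ge (fun a ha => (h2 y a ha).trans (h2 y' a ha).symm) ?_ _
      (hb ▸ h.mem i)
    rintro _ ⟨j, rfl⟩
    exact congrFun e j
  have hc := Fintype.card_le_of_injective _ inj
  simp only [Fintype.card_pi, Finset.prod_const, Finset.card_univ, Fintype.card_fin,
    Fintype.card_multiplicative, ZMod.card] at hc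
  exact (Nat.pow_le_pow_iff_right (by norm_num)).1 hc

theorem p_RH (hHOPF : S_HOPF) :
    S_RH := by
  intro X A V m n c b hA h hb
  refine ⟨RH_le h hb, ?_⟩
  rintro rfl
  have mb : ∀ i, b i ∈ V := fun i =>
    hb ▸ Subgroup.mem_sup_right (Subgroup.subset_closure ⟨i, rfl⟩)
  obtain ⟨ε, e1, e2, e3⟩ := h.2 (FreeGroup X) id b (hm_id A)
  have mp : ∀ x ∈ V, ε x ∈ V := h.maps e1 (fun a ha => (e2 a ha).symm ▸ h.le ha)
    fun i => (e3 i).symm ▸ mb i
  let e : V →* V := e1.hom.codRestrict V fun x => mp x x.2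
  have ea : ∀ a (ha : a ∈ A), e ⟨a, h.le ha⟩ = ⟨a, h.le ha⟩ := fun a ha => Subtype.ext (e2 a ha)
  have ec : ∀ i, e ⟨c i, h.mem i⟩ = ⟨b i, mb i⟩ := fun i => Subtype.ext (e3 i)
  have surj : Function.Surjective e := by
    have le : A ⊔ Subgroup.closure (Set.range b) ≤ e.range.map V.subtype := sup_le
      (fun a ha => ⟨_, ⟨_, ea a ha⟩, rfl⟩)
      ((Subgroup.closure_le _).2 (by rintro _ ⟨i, rfl⟩; exact ⟨_, ⟨_, ec i⟩, rfl⟩))
    intro x
    obtain ⟨_, ⟨z, rfl⟩, hz⟩ := le (hb.le x.2)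
    exact ⟨z, Subtype.ext hz⟩
  have fg : Group.FG V := (Group.fg_iff_subgroup_fg V).2 (hb ▸ fg_sup_range hA b)
  let E : V ≃* V := MulEquiv.ofBijective e ⟨hHOPF.1 V fg (hHOPF.2 X V) e surj, surj⟩
  refine ⟨hb, fun W _ f y hf => ?_⟩
  obtain ⟨g', g1, g2, g3⟩ := h.2 W f y hf
  obtain ⟨g, k1, k2⟩ := exists_hm (g1.hom.comp E.symm.toMonoidHom)
  refine ⟨g, k1, fun a ha => ?_, fun i => ?_⟩
  · have : E.symm ⟨a, h.le ha⟩ = ⟨a, h.le ha⟩ := E.symm_apply_eq.2 (ea a ha).symm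
    rw [← g2 a ha]
    exact (k2 ⟨a, h.le ha⟩).trans (congrArg (fun z : V => g' z) this)
  · have : E.symm ⟨b i, mb i⟩ = ⟨c i, h.mem i⟩ := E.symm_apply_eq.2 (ec i).symm
    rw [← g3 i]
    exact (k2 ⟨b i, mb i⟩).trans (congrArg (fun z : V => g' z) this)

end Pool.Agent.P.MP_67c9d4_al.FR
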