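import Pool.Agent.P.MP_67c9d4_al.FR.Iface

/-! Step STAB. -/

set_option autoImplicit false
set_option linter.unusedSectionVars false

namespace Pool.Agent.P.MP_67c9d4_al.FR

open Equiv Wr Multiplicative FC

section
variable {F E : Type} [Group F] {Φ : MulAut F} {D : E → Subgroup F}

/-- `D e'` is moved onto a conjugate of `D e` by the power `m`. -/
def STAB_Rel (Φ : MulAut F) (D : E → Subgroup F) (m : ℕ) (e e' : E) : Prop :=
  ∃ w, ∀ d, d ∈ D e' ↔ w⁻¹ * (Φ ^ m) d * w ∈ D e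

lemma STAB_comp {m m' : ℕ} {e e' e'' : E} (h : STAB_Rel Φ D m e e') (h' : STAB_Rel Φ D m' e' e'') :
    STAB_Rel Φ D (m + m') e e'' := by
  obtain ⟨w, h⟩ := h
  obtain ⟨w', h'⟩ := h'
  refine ⟨(Φ ^ m) w' * w, fun d => ?_⟩
  rw [h', h, pow_add]
  simp only [map_mul, map_inv, MulAut.mul_apply, mul_inv_rev, mul_assoc]

lemma STAB_pow {m : ℕ} {e : E} (h : STAB_Rel Φ D m e e) (j : ℕ) : STAB_Rel Φ D (m * j) e e := by
  induction j with
  | zero => exact ⟨1, fun d => by simp⟩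
  | succ j ih => exact STAB_comp ih h

lemma STAB_cancel {m j : ℕ} {e e' : E} (h : STAB_Rel Φ D m e e') (h' : STAB_Rel Φ D (j + m) e e') :
    STAB_Rel Φ D j e e := by
  obtain ⟨w, h⟩ := h
  obtain ⟨w', h'⟩ := h'
  refine ⟨((Φ ^ j) w)⁻¹ * w', fun d => ?_⟩
  have h1 := (h ((Φ ^ m)⁻¹ (w * d * w⁻¹))).symm.trans (h' _)
  rw [pow_add] at h1
  simpa only [MulAut.mul_apply, MulAut.apply_inv_self, map_mul, map_inv, mul_inv_rev, inv_inv,
    mul_assoc, inv_mul_cancel, mul_one, inv_mul_cancel_left] using h1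

lemma STAB_per [Finite E] {k₀ : ℕ} (h : ∀ k, k₀ ≤ k → ∀ e, ∃ e', STAB_Rel Φ D k e e') (e : E) :
    ∃ m, 0 < m ∧ STAB_Rel Φ D m e e := by
  choose g hg using fun k : ℕ => h (k₀ + k) (Nat.le_add_right _ _) e
  have key : ∀ a b, a < b → g a = g b → ∃ m, 0 < m ∧ STAB_Rel Φ D m e e := fun a b hab e1 => by
    refine ⟨b - a, by omega, STAB_cancel (hg a) ?_⟩
    rw [show b - a + (k₀ + a) = k₀ + b by omega, e1]
    exact hg b
  obtain ⟨a, b, hab, e1⟩ := Finite.exists_ne_map_eq_of_infinite g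
  rcases lt_or_gt_of_ne hab with h1 | h1
  exacts [key a b h1 e1, key b a h1 e1.symm]

end

theorem p_STAB (hSTAB1 : S_STAB1) (hSTAB2 : S_STAB2) (hLINE : S_LINE) (hKUR : S_KUR) (hCMPA : S_CMPA) :
    S_STAB := by
  intro X Φ A n b hA hL
  obtain ⟨k₀, E, _, D, hS⟩ := hSTAB1 X Φ A n b hA hL
  have := Fintype.ofFinite E
  choose m hm0 hm using STAB_per (Φ := Φ) (D := D) (hSTAB2 X Φ A n b k₀ E D hA hL hS)
  have hp : 0 < ∏ e, m e := Finset.prod_pos fun e _ => hm0 e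
  obtain ⟨k, hk0, hk1, hk2⟩ : ∃ k, 0 < k ∧ k₀ ≤ k ∧ ∀ e, m e ∣ k :=
    ⟨(k₀ + 1) * ∏ e, m e, by positivity, by nlinarith, fun e =>
      (Finset.dvd_prod_of_mem m (Finset.mem_univ e)).mul_left _⟩
  have hr : ∀ e, STAB_Rel Φ D k e e := fun e => by
    obtain ⟨j, hj⟩ := hk2 e
    rw [hj]
    exact STAB_pow (hm e) j
  choose w hw using hr
  obtain ⟨v, hv, hD⟩ := hS k hk1
  obtain ⟨-, h2, -, -, h5⟩ := hLINE _ Φ A n b hL
  have hβ : ∀ e, w e * (v e)⁻¹ ∈ im (Φ ^ k) A := fun e => by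
    obtain ⟨⟨d, hd⟩, hd1⟩ := Subgroup.ne_bot_iff_exists_ne_one.1 (hv.ne e)
    have h1 : (w e)⁻¹ * (Φ ^ k) d * w e ∈ Dv A (im (Φ ^ k) A) (v e) := by
      rw [hD] at hd ⊢
      exact (hw e d).1 hd
    have h3 := mem_im.1 (mem_Dv.1 h1).2
    refine mem_im.2 (h5 _ d (mem_Dv.1 hd).1 (fun h => hd1 (Subtype.ext h)) ?_)
    simpa only [map_mul, map_inv, MulAut.inv_apply_self, mul_inv_rev, inv_inv, mul_assoc] using h3
  have hc : ∀ e, Dc (im (Φ ^ k) A) (v e) A (w e) := fun e =>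
    ⟨_, hβ e, 1, A.one_mem, by simp⟩
  have hDw : ∀ e, Dv A (im (Φ ^ k) A) (w e) = D e := fun e => by
    have h1 := Dv_mul (v := v e) (hβ e) A.one_mem
    rw [inv_one, cj_one, hD] at h1
    simpa using h1
  have hR : Rp (Vk Φ A k) A (im (Φ ^ k) A) w := by
    refine ⟨fun e => ?_, fun e => ?_, fun e e' h => hv.dist e e' (((hc e).trans h).trans (hc e').symm),
      fun g hg hne => ?_⟩
    · simpa using (Vk Φ A k).mul_mem (im_le_Vk le_rfl (hβ e)) (hv.mem e)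
    · rw [hDw, ← hD]; exact hv.ne e
    · obtain ⟨j, hj⟩ := hv.cover g hg hne
      exact ⟨j, (hc j).symm.trans hj⟩
  refine ⟨k, E, inferInstance, w, hk0, hR, ?_, fun e d => by rw [hDw]; exact hw e d⟩
  obtain ⟨n', c, hc'⟩ := h2 k 0
  rw [Vk_zero, add_zero] at hc'
  exact (hCMPA X E A _ hA ⟨fun e => Dv_le _, hR.ne,
    hKUR _ _ E A _ _ c w hc' (le_Vk k) hR.mem hR.dist⟩).2.2.2.1

end Pool.Agent.P.MP_67c9d4_al.FR
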