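import Pool.Agent.P.MP_67c9d4_al.FR.Iface

/-! Step STAB2. -/

set_option autoImplicit false
set_option linter.unusedSectionVars false

namespace Pool.Agent.P.MP_67c9d4_al.FR

open Equiv Wr Multiplicative FC

lemma STAB2_fam (hKUR : S_KUR) {F E : Type} [Group F] {A B U : Subgroup F} {v : E → F}
    (h : Fc B U) (hA : A ≤ U) (hm : ∀ e, v e ∈ U) (hn : ∀ e, Dv A B (v e) ≠ ⊥)
    (hd : ∀ e e', Dc B (v e) A (v e') → e = e') : Fam A fun e => Dv A B (v e) := by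
  obtain ⟨n, c, h⟩ := h
  exact ⟨fun e => Dv_le _, hn, fun K _ χ hχ => hKUR F (Fin n) E A B U c v h hA hm hd K χ hχ⟩

lemma STAB2_iso {F : Type} [Group F] {P Q : Subgroup F} (σ : MulAut F)
    (h : ∀ x, x ∈ P ↔ σ x ∈ Q) : Nonempty ((P →* Z2) ≃ (Q →* Z2)) := by
  let e : P ≃* Q :=
    { toFun := fun x => ⟨σ x, (h x).1 x.2⟩
      invFun := fun y => ⟨σ⁻¹ y, (h _).2 (by simp)⟩
      left_inv := fun x => by simp
      right_inv := fun x => by simp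
      map_mul' := fun x y => by simp }
  exact ⟨{ toFun := fun f => f.comp e.symm.toMonoidHom
           invFun := fun f => f.comp e.toMonoidHom
           left_inv := fun f => by ext x; simp
           right_inv := fun f => by ext x; simp }⟩

lemma STAB2_mem {F : Type} [Group F] (A : Subgroup F) (Θ : MulAut F) (v x : F) :
    x ∈ Dv A (im Θ⁻¹ A) (Θ⁻¹ v⁻¹) ↔ v⁻¹ * Θ x * v ∈ Dv A (im Θ A) v := by
  rw [mem_Dv, mem_Dv, mem_im, mem_im]
  have e1 : Θ⁻¹⁻¹ (Θ⁻¹ v⁻¹ * x * (Θ⁻¹ v⁻¹)⁻¹) = v⁻¹ * Θ x * v := by simp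
  have e2 : Θ⁻¹ (v * (v⁻¹ * Θ x * v) * v⁻¹) = x := by
    rw [show v * (v⁻¹ * Θ x * v) * v⁻¹ = Θ x by group]
    simp
  rw [e1, e2, and_comm]

theorem p_STAB2 (hLINE : S_LINE) (hKUR : S_KUR) (hCMPA : S_CMPA) (hCMPB : S_CMPB) :
    S_STAB2 := by
  intro X Φ A n b k₀ E D hA hL hS k hk
  obtain ⟨L1, L2, -⟩ := hLINE _ Φ A n b hL
  obtain ⟨v, hv, hD⟩ := hS k hk
  obtain ⟨v0, hv0, hD0⟩ := hS k₀ le_rfl
  obtain ⟨v2, hv2, hD2⟩ := hS (k + k₀) (Nat.le_add_left _ _)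
  have hF : Fam A D := by
    have h := L2 k 0
    rw [Vk_zero, add_zero] at h
    have := STAB2_fam hKUR h (le_Vk k) hv.mem hv.ne hv.dist
    rwa [funext hD] at this
  let D' : E → Subgroup (FreeGroup X) := fun e => Dv A (im (Φ ^ k)⁻¹ A) ((Φ ^ k)⁻¹ (v e)⁻¹)
  have hm : ∀ e x, x ∈ D' e ↔ (v e)⁻¹ * (Φ ^ k) x * v e ∈ D e := fun e x => by
    rw [← hD e]; exact STAB2_mem A (Φ ^ k) (v e) x
  have hne : ∀ e, D' e ≠ ⊥ := by
    intro e h
    refine hF.ne e ((Subgroup.eq_bot_iff_forall _).2 fun d hd => ?_)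
    have h1 : (Φ ^ k)⁻¹ (v e * d * (v e)⁻¹) ∈ D' e := by
      rw [hm]
      simpa [mul_assoc] using hd
    rw [h, Subgroup.mem_bot, MulEquiv.map_eq_one_iff] at h1
    simpa using h1
  have hF' : Fam A D' := by
    have h := (L1 0 k).im (Φ ^ k)⁻¹
    rw [Vk_zero, zero_add] at h
    refine STAB2_fam hKUR h (fun x hx => ?_) (fun e => apply_mem_im.2 (inv_mem (hv.mem e))) hne
      fun e e' h => hv.dist e e' ?_
    · rw [mem_im, inv_inv]
      exact im_le_Vk le_rfl (apply_mem_im.2 hx)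
    · obtain ⟨c, hc, a, ha, h⟩ := h
      rw [mem_im, inv_inv] at hc
      refine ⟨((Φ ^ k) a)⁻¹, inv_mem (apply_mem_im.2 ha), ((Φ ^ k) c)⁻¹, inv_mem hc, ?_⟩
      have h1 := congrArg (Φ ^ k) h
      simp only [map_mul, MulAut.apply_inv_self] at h1
      rw [← inv_inv (v e'), h1]
      group
  obtain ⟨ρ, r1, r2, r3⟩ := (L2 k k₀).retr
  have key : ∀ e, ∃ j, ∃ a ∈ A, D' e ≤ cj a (D j) := by
    intro e
    have m1 : v2 e * (v e)⁻¹ ∈ Vk Φ A (k + k₀) :=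
      mul_mem (hv2.mem e) (inv_mem (Vk_mono (Nat.le_add_right _ _) (hv.mem e)))
    have m2 := r3 _ m1
    have le : D' e ≤ Dv A (im (Φ ^ k₀) A) ((Φ ^ k)⁻¹ (ρ (v2 e * (v e)⁻¹))) := by
      intro x hx
      have hxA : x ∈ A := hF'.le e hx
      have y1 : (Φ ^ k) x ∈ im (Φ ^ k) (Vk Φ A k₀) := apply_mem_im.2 (le_Vk _ hxA)
      have y2 := im_Vk_le k k₀ y1
      have d1 := (hm e x).1 hx
      rw [← hD2 e, mem_Dv, pow_add, ← im_im] at d1
      have d2 := d1.2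
      rw [show v2 e * ((v e)⁻¹ * (Φ ^ k) x * v e) * (v2 e)⁻¹ =
        (v2 e * (v e)⁻¹) * (Φ ^ k) x * (v2 e * (v e)⁻¹)⁻¹ by group] at d2
      have d3 := r2 _ (im_mono (im_le_Vk le_rfl) d2)
      rw [r1 _ (mul_mem m1 y2) _ (inv_mem m1), r1 _ m1 _ y2, r1.inv m1, r2 _ y1] at d3
      rw [← d3, mem_im] at d2
      refine mem_Dv.2 ⟨hxA, ?_⟩
      simpa using d2
    obtain ⟨j, c, hc, a, ha, h⟩ := hv0.cover _ (mem_im.1 m2) fun h => hne e (le_bot_iff.1 (h ▸ le))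
    rw [h, Dv_mul hc ha, hD0] at le
    exact ⟨j, a⁻¹, inv_mem ha, le⟩
  choose π a ha hle using key
  obtain ⟨f1, f2, -, -, c1⟩ := hCMPA X E A D hA hF
  obtain ⟨-, -, -, -, c2⟩ := hCMPA X E A D' hA hF'
  have c3 : Nat.card (∀ e, D' e →* Z2) = Nat.card (∀ e, D e →* Z2) :=
    Nat.card_congr (Equiv.piCongrRight fun e =>
      (STAB2_iso (MulAut.conj (v e)⁻¹ * Φ ^ k) fun x => by simpa using hm e x).some)
  have c4 : Nat.card (A →* Z2) ≠ 0 := Nat.card_pos.ne'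
  have c5 : (Zs A D).ncard = (Zs A D').ncard := by
    rw [c3, c1] at c2
    rw [c1] at c4
    exact Nat.eq_of_mul_eq_mul_right (Nat.pos_of_ne_zero (right_ne_zero_of_mul c4)) c2
  obtain ⟨z1, z2⟩ := hCMPB X E E A D D' π a hA hF hF' ha hle
  obtain ⟨s1, s2⟩ := z2 (Set.eq_of_subset_of_ncard_le z1 c5.ge (Set.toFinite _)).ge
  have s3 := s2 (Finite.injective_iff_surjective.2 s1)
  intro e
  refine ⟨π e, ((Φ ^ k) (a e))⁻¹ * v e, fun d => ?_⟩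
  rw [← conj_mem_cj (c := a e), ← s3 e, hm]
  simp [mul_assoc]

end Pool.Agent.P.MP_67c9d4_al.FR
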