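import Pool.Agent.P.MP_67c9d4_al.FR.Iface

/-! Step STRUCT. -/

set_option autoImplicit false
set_option linter.unusedSectionVars false

namespace Pool.Agent.P.MP_67c9d4_al.FR

open Equiv Wr Multiplicative FC

section aux
variable {F : Type} [Group F]

lemma STRUCT_zim (Φ : MulAut F) (A : Subgroup F) (j : ℤ) {x : F}
    (hx : x ∈ ⨆ i : ℤ, im (Φ ^ i) A) : (Φ ^ j) x ∈ ⨆ i : ℤ, im (Φ ^ i) A := by
  have : im (Φ ^ j) (⨆ i : ℤ, im (Φ ^ i) A) ≤ ⨆ i : ℤ, im (Φ ^ i) A := by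
    rw [im, Subgroup.map_iSup]
    refine iSup_le fun i => le_iSup_of_le (j + i) ?_
    change im _ (im _ _) ≤ _
    rw [im_im, zpow_add]
  exact this (apply_mem_im.2 hx)

lemma STRUCT_gt (Φ : MulAut F) (h : Group.FG (MT Φ)) : ∃ A : Subgroup F, A.FG ∧ Gt Φ A := by
  obtain ⟨s, hs, hf⟩ := Group.fg_iff.1 h
  refine ⟨Subgroup.closure (SemidirectProduct.left '' s),
    (Subgroup.fg_iff _).2 ⟨_, rfl, hf.image _⟩, ?_⟩
  have key : ∀ x ∈ Subgroup.closure s,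
      x.left ∈ ⨆ i : ℤ, im (Φ ^ i) (Subgroup.closure (SemidirectProduct.left '' s)) := by
    intro x hx
    induction hx using Subgroup.closure_induction with
    | mem x hx =>
      refine (le_iSup (fun i : ℤ => im (Φ ^ i) _) 0) ?_
      rw [zpow_zero, im_one]
      exact Subgroup.subset_closure ⟨x, hx, rfl⟩
    | one => exact one_mem _
    | mul x y _ _ hx hy =>
      rw [SemidirectProduct.mul_left]
      exact mul_mem hx (STRUCT_zim Φ _ _ hy)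
    | inv x _ hx =>
      rw [SemidirectProduct.inv_left]
      exact STRUCT_zim Φ _ _ (inv_mem hx)
  exact eq_top_iff.2 fun x _ => key (SemidirectProduct.inl x) (hs ▸ trivial)

lemma STRUCT_gen (Φ : MulAut F) (A : Subgroup F) (hG : Gt Φ A) {k : ℕ} (hk : 0 < k)
    (K : Subgroup (MT (Φ ^ k))) (h1 : ∀ x ∈ Vk Φ A k, SemidirectProduct.inl x ∈ K)
    (h2 : SemidirectProduct.inr (ofAdd 1) ∈ K) : K = ⊤ := by
  have hr : ∀ m : Multiplicative ℤ, (SemidirectProduct.inr m : MT (Φ ^ k)) ∈ K := by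
    intro m
    have : m = ofAdd (1 : ℤ) ^ m.toAdd := by rw [← ofAdd_zsmul]; simp
    rw [this, map_zpow]
    exact zpow_mem h2 _
  have hl : ∀ x, (SemidirectProduct.inl x : MT (Φ ^ k)) ∈ K := by
    have : (⊤ : Subgroup F) ≤ K.comap SemidirectProduct.inl := by
      rw [← hG]
      refine iSup_le fun i => ?_
      rintro _ ⟨a, ha, rfl⟩
      have hk' : (0 : ℤ) < k := by exact_mod_cast hk
      obtain ⟨r, hr'⟩ := Int.eq_ofNat_of_zero_le (Int.emod_nonneg i hk'.ne')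
      have hlt : r ≤ k := by have := Int.emod_lt_of_pos i hk'; omega
      have e : Φ ^ i = (Φ ^ k) ^ (i / k) * Φ ^ r := by
        rw [← zpow_natCast, ← zpow_natCast, ← zpow_mul, ← zpow_add, ← hr', Int.mul_ediv_add_emod]
      have e2 := SemidirectProduct.inl_aut (φ := zpowersHom (MulAut F) (Φ ^ k)) (ofAdd (i / k))
        ((Φ ^ r) a)
      rw [Subgroup.mem_comap]
      change (SemidirectProduct.inl ((Φ ^ i) a) : MT (Φ ^ k)) ∈ K
      rw [e, MulAut.mul_apply]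
      refine (e2 : (SemidirectProduct.inl (((Φ ^ k) ^ (i / k)) ((Φ ^ r) a)) : MT (Φ ^ k)) = _) ▸ ?_
      exact mul_mem (mul_mem (hr _) (h1 _ (im_le_Vk hlt (apply_mem_im.2 ha)))) (hr _)
    exact fun x => this (Subgroup.mem_top x)
  refine eq_top_iff.2 fun x _ => ?_
  rw [← SemidirectProduct.inl_left_mul_inr_right x]
  exact mul_mem (hl _) (hr _)

lemma STRUCT_fg {F' : Type} [Group F'] {j : F →* F'} (hj : Function.Injective j) {A : Subgroup F}
    (h : (A.map j).FG) : A.FG := by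
  rw [← Group.fg_iff_subgroup_fg] at h ⊢
  exact Group.fg_of_surjective (f := (A.equivMapOfInjective j hj).symm.toMonoidHom)
    (A.equivMapOfInjective j hj).symm.surjective

lemma STRUCT_cusp {F' : Type} [Group F'] {ι : F →* F'} (hι : Function.Injective ι)
    {A : Subgroup F} {Θ : MulAut F} {Ψ : MulAut F'} (hΘ : ∀ a ∈ A, ι (Θ a) = Ψ (ι a)) {J : Type}
    {v : J → F} (hC : Cusp ι.range (A.map ι) Ψ fun j => ι (v j)) : Cusp ⊤ A Θ v := by
  have mA : ∀ y, ι y ∈ A.map ι ↔ y ∈ A := fun y => Subgroup.mem_map_iff_mem hι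
  have eB : im Ψ (A.map ι) = (im Θ A).map ι := by
    ext x
    constructor
    · rintro ⟨_, ⟨a, ha, rfl⟩, rfl⟩
      exact ⟨Θ a, apply_mem_im.2 ha, hΘ a ha⟩
    · rintro ⟨_, ⟨a, ha, rfl⟩, rfl⟩
      exact ⟨ι a, ⟨a, ha, rfl⟩, (hΘ a ha).symm⟩
  have mB : ∀ y, ι y ∈ im Ψ (A.map ι) ↔ y ∈ im Θ A := fun y => by
    rw [eB]; exact Subgroup.mem_map_iff_mem hι
  have mD : ∀ x d, ι d ∈ Dv (A.map ι) (im Ψ (A.map ι)) (ι x) ↔ d ∈ Dv A (im Θ A) x := by
    intro x d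
    rw [mem_Dv, mem_Dv, mA, ← mB, map_mul, map_mul, map_inv]
  have eD : ∀ x, Dv (A.map ι) (im Ψ (A.map ι)) (ι x) = (Dv A (im Θ A) x).map ι := by
    intro x
    ext d
    constructor
    · intro hd
      obtain ⟨a, -, rfl⟩ := Dv_le _ hd
      exact ⟨a, (mD x a).1 hd, rfl⟩
    · rintro ⟨a, ha, rfl⟩
      exact (mD x a).2 ha
  have bD : ∀ x, Dv (A.map ι) (im Ψ (A.map ι)) (ι x) = ⊥ ↔ Dv A (im Θ A) x = ⊥ := fun x => by
    rw [eD, Subgroup.map_eq_bot_iff_of_injective _ hι]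
  have dc : ∀ x y, Dc (im Ψ (A.map ι)) (ι x) (A.map ι) (ι y) ↔ Dc (im Θ A) x A y := by
    intro x y
    rw [eB]
    constructor
    · rintro ⟨_, ⟨b, hb, rfl⟩, _, ⟨a, ha, rfl⟩, e⟩
      exact ⟨b, hb, a, ha, hι (by rw [e, map_mul, map_mul])⟩
    · rintro ⟨b, hb, a, ha, rfl⟩
      exact ⟨ι b, ⟨b, hb, rfl⟩, ι a, ⟨a, ha, rfl⟩, by rw [map_mul, map_mul]⟩
  refine ⟨⟨fun _ => trivial, fun j => mt (bD _).2 (hC.rep.ne j),
    fun j j' h => hC.rep.dist j j' ((dc _ _).2 h), fun g _ h => ?_⟩,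
    fun j => STRUCT_fg hι (eD _ ▸ hC.fg j), fun j d => ?_⟩
  · obtain ⟨j, hj⟩ := hC.rep.cover (ι g) ⟨g, rfl⟩ (mt (bD _).1 h)
    exact ⟨j, (dc _ _).1 hj⟩
  · have key : d ∈ A → (d ∈ Dv A (im Θ A) (v j) ↔ (v j)⁻¹ * Θ d * v j ∈ Dv A (im Θ A) (v j)) := by
      intro hd
      rw [← mD, ← mD, hC.inv j, map_mul, map_mul, map_inv, hΘ d hd]
    refine ⟨fun h => (key (Dv_le _ h)).1 h, fun h => (key ?_).2 h⟩
    have := (mem_Dv.1 h).2
    rw [show v j * ((v j)⁻¹ * Θ d * v j) * (v j)⁻¹ = Θ d by group] at this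
    exact apply_mem_im.1 this

end aux

theorem p_STRUCT (hBOTH : S_BOTH) (hLINE : S_LINE) (hUP : S_UP) (hSTAB : S_STAB) (hBAS : S_BAS) :
    S_STRUCT := by
  intro X φ hfg
  obtain ⟨A0, hA0, hG0⟩ := STRUCT_gt φ hfg
  obtain ⟨A, n, b, hA, hL⟩ := hBOTH X φ A0 hA0 hG0
  obtain ⟨k, J, hJ, v, hk, hC⟩ := hSTAB X φ A n b hA hL
  obtain ⟨l1, l2, -⟩ := hLINE _ φ A n b hL
  have f1 : Fc A (Vk φ A k) := by simpa [Vk_zero] using l1 0 k
  have f2 : Fc (im (φ ^ k) A) (Vk φ A k) := by simpa [Vk_zero] using l2 k 0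
  obtain ⟨Y, hY, S, ι, Θ, hι, hr, hS, hΘ⟩ := hBAS X (φ ^ k) A (Vk φ A k) hA f1 f2
  have hv : ∀ j, ∃ y, ι y = v j := fun j => (hr.ge (hC.rep.mem j) : v j ∈ ι.range)
  choose v' hv' using hv
  obtain rfl : v = fun j => ι (v' j) := funext fun j => (hv' j).symm
  refine ⟨k, Y, hY, S, Θ, SemidirectProduct.inl.comp ι, (SemidirectProduct.inr (ofAdd 1))⁻¹, J, hJ,
    v', hk, ⟨SemidirectProduct.inl_injective.comp hι, fun a ha => ?_, ?_, fun W _ f w hw => ?_⟩,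
    STRUCT_cusp hι hΘ (by rw [hr, hS]; exact hC), fun x => rfl, ?_⟩
  · have e2 := SemidirectProduct.inl_aut (φ := zpowersHom _ (φ ^ k)) (ofAdd 1) (ι a)
    rw [inv_inv, MonoidHom.comp_apply, MonoidHom.comp_apply, hΘ a ha, ← map_inv, ← e2]
    simp
  · refine STRUCT_gen φ A hL.gt hk _ (fun x hx => ?_) ?_
    · obtain ⟨y, rfl⟩ := hr.ge hx
      exact Subgroup.subset_closure (Or.inl ⟨y, rfl⟩)
    · exact (Subgroup.inv_mem_iff _).1 (Subgroup.subset_closure (Or.inr rfl))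
  · have li := Function.leftInverse_invFun hι
    obtain ⟨g, g1, g2⟩ := hUP _ φ A n b hL k hk W (fun x => f (Function.invFun ι x)) w (by
      intro x hx y hy
      obtain ⟨x, rfl⟩ := hr.ge hx
      obtain ⟨y, rfl⟩ := hr.ge hy
      simp only [← map_mul ι, li _, map_mul f]) (by
      intro a ha
      obtain ⟨a', ha', rfl⟩ := hS.ge ha
      simp only [← hΘ a' ha', li _, hw a' ha'])
    refine ⟨slift g w⁻¹ fun x => by rw [g2, inv_inv], fun x => ?_, ?_⟩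
    · simp [slift_apply, g1 _ (hr.le ⟨x, rfl⟩), li _]
    · rw [map_inv]
      simp [slift_apply]
  · intro h
    have := congrArg toAdd h
    simp at this

end Pool.Agent.P.MP_67c9d4_al.FR
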