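import Pool.Agent.P.MP_67c9d4_al.FR.Iface

/-! Step TENS. -/

set_option autoImplicit false
set_option linter.unusedSectionVars false

namespace Pool.Agent.P.MP_67c9d4_al.FR

open Equiv Wr Multiplicative FC

/-- The product action. -/
def TENS_act {F Y W : Type} [Group F] [Group W] (ρ : F →* Wr Y W) (N : Subgroup F) :
    F →* Perm (Y × F ⧸ N) where
  toFun x := Equiv.prodCongr (ρ x).p (qa N x)
  map_one' := by ext q <;> simp
  map_mul' a b := by ext q <;> simp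

lemma TENS_act_apply {F Y W : Type} [Group F] [Group W] (ρ : F →* Wr Y W) (N : Subgroup F)
    (x : F) (q : Y × F ⧸ N) : TENS_act ρ N x q = ((ρ x).p q.1, qa N x q.2) := rfl

/-- The pulled back representation. -/
def TENS_rho {F Y W : Type} [Group F] [Group W] (ρ : F →* Wr Y W) (N : Subgroup F) :
    F →* Wr (Y × F ⧸ N) W :=
  pull (TENS_act ρ N) ρ Prod.fst fun _ _ => rfl

lemma TENS_fix {F Y W : Type} [Group F] [Group W] (ρ : F →* Wr Y W) {N : Subgroup F}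
    (hN : N.Normal) (h : ∀ n ∈ N, (ρ n).p = 1) (x : F) (q : Y × F ⧸ N) :
    (TENS_rho ρ N x).p q = q ↔ x ∈ N := by
  change ((ρ x).p q.1, qa N x q.2) = q ↔ _
  constructor
  · intro e
    exact (qa_fix hN q.2).1 (congrArg Prod.snd e)
  · intro hx
    rw [h x hx, (qa_fix hN q.2).2 hx]
    rfl

theorem p_TENS (hMATCH : S_MATCH) :
    S_TENS := by
  intro F G Y W _ _ _ _ i A Θ t ρ N β h hN hΘ hp hc
  have := hN.2
  obtain ⟨γ, hγ⟩ := hMATCH A (Y × F ⧸ N) W (N.subgroupOf A)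
    ((TENS_rho ρ N).comp A.subtype) (((TENS_rho ρ N).comp Θ.toMonoidHom).comp A.subtype)
    (Equiv.prodCongr β (Equiv.refl _))
    (fun a y => TENS_fix ρ hN.1 hp a y)
    (fun a y => (TENS_fix ρ hN.1 hp (Θ a) y).trans (hΘ a).symm)
    (fun y => by
      obtain ⟨w, hw⟩ := hc y.1
      exact ⟨w, fun n hn => hw n ⟨hn, n.2⟩⟩)
  obtain ⟨g, hg, -⟩ := h.up _ (TENS_rho ρ N) γ fun a ha => hγ ⟨a, ha⟩
  exact ⟨g, fun x q => by rw [hg x]; exact ⟨rfl, rfl⟩⟩

end Pool.Agent.P.MP_67c9d4_al.FR
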