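import Pool.Agent.P.MP_67c9d4_al.FR.Iface

/-! Step TERM. -/

set_option autoImplicit false
set_option linter.unusedSectionVars false

namespace Pool.Agent.P.MP_67c9d4_al.FR

open Equiv Wr Multiplicative FC

lemma TERM_symm {X : Type} {S : Set (FreeGroup X)} {A : Subgroup (FreeGroup X)}
    {E : List (Ed (FreeGroup X))} {x : X × Bool} {y y' : (FreeGroup X ⧸ A) ⊕ ℕ}
    (h : Arr S A E x y y') : Arr S A E (x.1, !x.2) y' y := by
  have e0 : lt (x.1, !x.2) = (lt x)⁻¹ := rfl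
  rcases h with ⟨r, h1, h2, h3, h4⟩ | ⟨e, he, ⟨h1, h2, h3⟩ | ⟨h1, h2, h3⟩⟩
  · refine Or.inl ⟨r * lt x, h2, ?_, h4, ?_⟩
    · rwa [e0, mul_inv_cancel_right]
    · rwa [e0, mul_inv_cancel_right]
  · exact Or.inr ⟨e, he, Or.inr ⟨by rw [e0, inv_inv, h1], h3, h2⟩⟩
  · exact Or.inr ⟨e, he, Or.inl ⟨by rw [e0, h1], h3, h2⟩⟩

lemma TERM_fin {X : Type} {S : Set (FreeGroup X)} (A : Subgroup (FreeGroup X))
    (E : List (Ed (FreeGroup X))) (hS : S.Finite) (x : X × Bool) :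
    {q : ((FreeGroup X ⧸ A) ⊕ ℕ) × ((FreeGroup X ⧸ A) ⊕ ℕ) | Arr S A E x q.1 q.2}.Finite := by
  have hZ := ((hS.image fun r => (Sum.inl (pt A r) : (FreeGroup X ⧸ A) ⊕ ℕ)).union
    (E.finite_toSet.image fun e => e.1.map (pt A) id)).union
    (E.finite_toSet.image fun e => e.2.2.map (pt A) id)
  refine (hZ.prod hZ).subset ?_
  rintro ⟨y, y'⟩ (⟨r, h1, h2, h3, h4⟩ | ⟨e, he, ⟨-, h2, h3⟩ | ⟨-, h2, h3⟩⟩)
  · exact ⟨Or.inl (Or.inl ⟨_, h1, h3.symm⟩), Or.inl (Or.inl ⟨_, h2, h4.symm⟩)⟩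
  · exact ⟨Or.inl (Or.inr ⟨e, he, h2.symm⟩), Or.inr ⟨e, he, h3.symm⟩⟩
  · exact ⟨Or.inr ⟨e, he, h2.symm⟩, Or.inl (Or.inr ⟨e, he, h3.symm⟩)⟩

lemma TERM_key {F Y : Type} [Group F] (α : F →* Perm Y) (y : Y) (g g' : F) :
    g * g'⁻¹ ∈ (MulAction.stabilizer (Perm Y) y).comap α ↔ (α g)⁻¹ y = (α g')⁻¹ y := by
  rw [Subgroup.mem_comap, MulAction.mem_stabilizer_iff, map_mul, map_inv, Perm.smul_def,
    Perm.mul_apply, Perm.inv_eq_iff_eq, eq_comm]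

theorem p_TERM :
    S_TERM := by
  intro X S A V E N hS hC hA hL hSp hN hf
  have hP : ∀ a : X, ∃ P : Perm ((FreeGroup X ⧸ A) ⊕ ℕ),
      ∀ y y', Arr S A E (a, true) y y' → P y = y' := by
    intro a
    have := (TERM_fin A E hS (a, true)).to_subtype
    obtain ⟨P, hP⟩ := Perm.exists_extending_pair
      (fun q : {q : ((FreeGroup X ⧸ A) ⊕ ℕ) × ((FreeGroup X ⧸ A) ⊕ ℕ) |
        Arr S A E (a, true) q.1 q.2} => q.1.1) (fun q => q.1.2)
      (fun q q' (e : q.1.1 = q'.1.1) =>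
        Subtype.ext (Prod.ext e (hf _ _ _ _ (e ▸ q.2) q'.2)))
      (fun q q' (e : q.1.2 = q'.1.2) =>
        Subtype.ext (Prod.ext (hf _ _ _ _ (e ▸ TERM_symm q.2) (TERM_symm q'.2)) e))
    exact ⟨P, fun y y' h => hP ⟨(y, y'), h⟩⟩
  choose P hP using hP
  let α : FreeGroup X →* Perm ((FreeGroup X ⧸ A) ⊕ ℕ) := FreeGroup.lift fun a => (P a)⁻¹
  have αof : ∀ a, α (FreeGroup.of a) = (P a)⁻¹ := fun a => FreeGroup.lift_apply_of
  have step : ∀ x y y', Arr S A E x y y' → (α (lt x))⁻¹ y = y' := by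
    rintro ⟨a, _ | _⟩ y y' h
    · change (α (FreeGroup.of a)⁻¹)⁻¹ y = y'
      rw [map_inv, inv_inv, αof, Perm.inv_eq_iff_eq]
      exact (hP a _ _ (TERM_symm h)).symm
    · change (α (FreeGroup.of a))⁻¹ y = y'
      rw [αof, inv_inv]
      exact hP a _ _ h
  have h1 : ∀ p ∈ S, (α p)⁻¹ (Sum.inl (pt A 1)) = Sum.inl (pt A p) := by
    intro p hp
    have : p ∈ S ∧ (α p)⁻¹ (Sum.inl (pt A 1)) = Sum.inl (pt A p) := by
      have h := hC.2 p hp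
      clear hp
      induction h with
      | refl => exact ⟨hC.1, by rw [map_one, inv_one, Perm.one_apply]⟩
      | tail _ h ih =>
        obtain ⟨hb, x, rfl⟩ := h
        exact ⟨hb, by rw [inv_mul_apply, ih.2]; exact step x _ _ (Or.inl ⟨_, ih.1, hb, rfl, rfl⟩)⟩
    exact this.2
  have he : ∀ e ∈ E, (α e.2.1)⁻¹ (e.1.map (pt A) id) = e.2.2.map (pt A) id := by
    intro e he
    obtain ⟨x, hx⟩ := (hL e he).1
    rw [hx]
    exact step x _ _ (Or.inr ⟨e, he, Or.inl ⟨hx, rfl, rfl⟩⟩)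
  have hπ : ∀ ν, ∃ w, ν ∈ N → (α w)⁻¹ (Sum.inl (pt A 1)) = Sum.inr ν := by
    intro ν
    by_cases hν : ν ∈ N
    · obtain ⟨p, hp⟩ := hN.2 ν hν
      have : ∀ b, Relation.ReflTransGen
          (fun a b => ∃ e ∈ E, e.1 = a ∧ e.2.2 = b ∨ e.1 = b ∧ e.2.2 = a) (Sum.inl p) b →
          (∀ q, b = Sum.inl q → q ∈ S) →
          ∃ w, (α w)⁻¹ (Sum.inl (pt A 1)) = b.map (pt A) id := by
        intro b h
        induction h with
        | refl => exact fun h => ⟨p, h1 p (h p rfl)⟩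
        | tail _ h ih =>
          intro _
          obtain ⟨e, m, ⟨rfl, rfl⟩ | ⟨rfl, rfl⟩⟩ := h
          · obtain ⟨w, hw⟩ := ih (hL e m).2.1
            exact ⟨w * e.2.1, by rw [inv_mul_apply, hw, he e m]⟩
          · obtain ⟨w, hw⟩ := ih (hL e m).2.2
            refine ⟨w * e.2.1⁻¹, ?_⟩
            rw [inv_mul_apply, hw, ← he e m, map_inv, inv_inv]
            exact (α e.2.1).apply_symm_apply _
      obtain ⟨w, hw⟩ := this _ hp fun q h => nomatch h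
      exact ⟨w, fun _ => hw⟩
    · exact ⟨1, fun h => absurd h hν⟩
  choose π hπ using hπ
  have hb : ∀ b : FreeGroup X ⊕ ℕ, (∀ p, b = Sum.inl p → p ∈ S) → (∀ ν, b = Sum.inr ν → ν ∈ N) →
      (α (Sum.elim id π b))⁻¹ (Sum.inl (pt A 1)) = b.map (pt A) id := by
    rintro (p | ν) a b
    · exact h1 p (a p rfl)
    · exact hπ ν (b ν rfl)
  have hV := hSp ((MulAction.stabilizer _ (Sum.inl (pt A 1))).comap α) (by
    refine hA.ge.trans ((Subgroup.closure_le _).2 ?_)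
    rintro _ ⟨m, p, hp, q, hq, rfl⟩
    exact (TERM_key α _ p q).2 (by rw [h1 p hp, h1 q hq, pt_eq.2 m])) π (fun e m => by
      rw [el, TERM_key, inv_mul_apply, hb _ (hL e m).2.1 fun ν h => hN.1 e m ν (Or.inl h),
        hb _ (hL e m).2.2 fun ν h => hN.1 e m ν (Or.inr h), he e m])
  refine (Subgroup.closure_le _).2 ?_
  rintro _ ⟨m, p, hp, q, hq, rfl⟩
  have := (TERM_key α _ p q).1 (hV m)
  rw [h1 p hp, h1 q hq] at this
  exact pt_eq.1 (Sum.inl.inj this)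

end Pool.Agent.P.MP_67c9d4_al.FR
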