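import Pool.Agent.P.MP_67c9d4_al.FR.Iface

/-! Step TL. -/

set_option autoImplicit false
set_option linter.unusedSectionVars false

namespace Pool.Agent.P.MP_67c9d4_al.FR

open Equiv Wr Multiplicative FC

lemma TL_ind {H B : Type} [Group H] [Group B] (K : Subgroup H) (f : K →* B) :
    ∃ (ρ : H →* Wr (H ⧸ K) B) (x₀ : H ⧸ K), ∀ g, (ρ g).p x₀ = x₀ →
      ∃ h : g ∈ K, (ρ g).c x₀ = f ⟨g, h⟩ := by
  have h1 : (((1 : H) : H ⧸ K)).out ∈ K := by
    have := QuotientGroup.out_eq' (((1 : H) : H ⧸ K))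
    rw [QuotientGroup.eq] at this
    simpa using this
  refine ⟨ind K (f.comp (MulAut.conj (⟨_, h1⟩ : K)).toMonoidHom), ((1 : H) : H ⧸ K),
    fun g hg => ?_⟩
  have h2 : g⁻¹ • ((1 : H) : H ⧸ K) = ((1 : H) : H ⧸ K) := by
    rw [inv_smul_eq_iff]; exact hg.symm
  have h3 : g ∈ K := by
    have : ((g⁻¹ * 1 : H) : H ⧸ K) = ((1 : H) : H ⧸ K) := h2
    simpa using QuotientGroup.eq.1 this
  refine ⟨h3, ?_⟩
  change f _ = _
  congr 1
  ext
  simp [h2, mul_assoc]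

lemma TL_sub {X W : Type} [Finite X] [Group W] (x₀ : X) (K : Subgroup W) [K.FiniteIndex] :
    ∃ (K' : Subgroup (Wr X W)) (_ : K'.FiniteIndex) (e : K' →* K),
      ∀ g : K', (e g : W) = (g : Wr X W).c x₀ := by
  let σ : Wr X W →* Wr X W := MonoidHom.id _
  have := stb_fi σ x₀
  have h0 : (K.comap (stH σ x₀)).FiniteIndex := fi_comap _ _
  let K' : Subgroup (Wr X W) := (K.comap (stH σ x₀)).map (stb σ x₀).subtype
  have h1 : ∀ g ∈ K', g.p x₀ = x₀ ∧ g.c x₀ ∈ K := by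
    rintro _ ⟨k, hk, rfl⟩
    exact ⟨mem_stb.1 k.2, hk⟩
  refine ⟨K', ⟨?_⟩, MonoidHom.mk' (fun g => ⟨(g : Wr X W).c x₀, (h1 _ g.2).2⟩) fun a b => ?_,
    fun _ => rfl⟩
  · rw [Subgroup.index_map_subtype]
    exact mul_ne_zero Subgroup.FiniteIndex.index_ne_zero Subgroup.FiniteIndex.index_ne_zero
  · have h : (a : Wr X W).p⁻¹ x₀ = x₀ := Perm.inv_eq_iff_eq.2 (h1 _ a.2).1.symm
    apply Subtype.ext
    show ((a : Wr X W) * b).c x₀ = (a : Wr X W).c x₀ * (b : Wr X W).c x₀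
    rw [mul_c, h]

lemma TL_thick {H X B W : Type} [Group H] [Finite X] [Group B] [Group W] (ρ : H →* Wr X B)
    (l s : B →* W) (Q : Set H) (h : Thick l s {b | ∃ q ∈ Q, ∃ x, b = (ρ q).c x}) :
    Thick ((push l).comp ρ) ((push s).comp ρ) Q := by
  obtain ⟨fs, fe⟩ := h
  constructor
  · have hm : ∀ (g : ((push s).comp ρ).range) (x : X), (g : Wr X W).c x ∈ s.range := by
      rintro ⟨_, q, rfl⟩ x
      exact ⟨_, rfl⟩
    refine Finite.of_injective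
      (fun g => ((g : Wr X W).p, fun x => (⟨_, hm g x⟩ : s.range)) :
        ((push s).comp ρ).range → Perm X × (X → s.range)) fun a b e => ?_
    obtain ⟨e1, e2⟩ := Prod.mk.inj e
    exact Subtype.ext (Wr.ext e1 (funext fun x => congrArg Subtype.val (congrFun e2 x)))
  · set E := Subgroup.closure (dd l s '' {b | ∃ q ∈ Q, ∃ x, b = (ρ q).c x}) with hE
    let j : (X → E) →* Wr X W := (push E.subtype).comp base
    have hle : Subgroup.closure (dd ((push l).comp ρ) ((push s).comp ρ) '' Q) ≤ j.range := by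
      rw [Subgroup.closure_le]
      rintro _ ⟨q, hq, rfl⟩
      refine ⟨fun x => ⟨dd l s ((ρ q).c x), Subgroup.subset_closure ⟨_, ⟨q, hq, x, rfl⟩, rfl⟩⟩, ?_⟩
      ext x
      · simp [j, dd]
      · simp [j, dd]
    have : Finite j.range := Finite.of_surjective _ j.rangeRestrict_surjective
    exact Finite.of_injective _ (Subgroup.inclusion_injective hle)

theorem p_TL (hTLR : S_TLR) :
    S_TL := by
  rintro H _ Λ Q ⟨K, hK, T, hT, Γ, f, S, hf⟩ hQ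
  obtain ⟨ρ, x₀, hρ⟩ := TL_ind K f
  have : Finite (H ⧸ K) := Subgroup.finite_quotient_of_finiteIndex
  have hfin : {b | ∃ q ∈ Q, ∃ x, b = (ρ q).c x}.Finite := by
    refine ((hQ.prod (Set.finite_univ (α := H ⧸ K))).image fun z => (ρ z.1).c z.2).subset ?_
    rintro _ ⟨q, hq, x, rfl⟩
    exact ⟨(q, x), ⟨hq, trivial⟩, rfl⟩
  obtain ⟨W, _, l, s, K', hK', T', hT', Γ', f', S', ht, hs⟩ := hTLR T Γ S _ hfin
  obtain ⟨K'', hK'', e, he⟩ := TL_sub x₀ K'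
  refine ⟨Wr (H ⧸ K) W, inferInstance, (push l).comp ρ, (push s).comp ρ, K'', hK'', T', hT', Γ',
    f'.comp e, S', TL_thick ρ l s Q ht, fun h h1 h2 => ?_⟩
  have h3 : (ρ h).p = 1 := congrArg Wr.p h1
  have h4 : s ((ρ h).c x₀) = 1 := congrFun (congrArg Wr.c h1) x₀
  obtain ⟨h5, h6⟩ := hρ h (by rw [h3]; rfl)
  have h7 : (e ⟨_, h2⟩ : W) = l ((ρ h).c x₀) := he _
  have h8 : l ((ρ h).c x₀) ∈ K' := h7 ▸ (e ⟨_, h2⟩).2
  have h9 : e ⟨_, h2⟩ = ⟨_, h8⟩ := Subtype.ext h7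
  rw [MonoidHom.comp_apply, h9, hs _ h4 h8, h6]
  exact hf ⟨h, h5⟩

end Pool.Agent.P.MP_67c9d4_al.FR
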