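import Pool.Agent.P.MP_67c9d4_al.FR.Iface

/-! Step TLR. -/

set_option autoImplicit false
set_option linter.unusedSectionVars false

namespace Pool.Agent.P.MP_67c9d4_al.FR

open Equiv Wr Multiplicative FC

/-- The letter of a label. -/
def TLR_lt {T : Type} (Γ : SimpleGraph T) (N : Subgroup (RAAG Γ)) (l : Lb Γ N) : T :=
  Quotient.lift (s := MulAction.orbitRel N (Wall Γ)) (fun W : Wall Γ => W.1)
    (fun _ _ ⟨_, e⟩ => (congrArg Sigma.fst e).symm) l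

lemma TLR_lt_lb {T : Type} (Γ : SimpleGraph T) (N : Subgroup (RAAG Γ)) (W : Wall Γ) :
    TLR_lt Γ N (lb Γ N W) = W.1 := rfl

lemma TLR_letters {T : Type} {Γ : SimpleGraph T} {N : Subgroup (RAAG Γ)} {L : List (T × Bool)}
    {L' : List (Lb Γ N × Bool)} (e : L'.map Prod.fst = (walls Γ 1 L).map (lb Γ N)) (S : Set T) :
    (∀ x ∈ L', x.1 ∈ {l | TLR_lt Γ N l ∈ S}) ↔ ∀ x ∈ L, x.1 ∈ S := by
  have h : (L'.map Prod.fst).map (TLR_lt Γ N) = L.map Prod.fst := by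
    rw [e, List.map_map, ← walls_fst (Γ := Γ) 1 L]
    rfl
  constructor
  · intro H x hx
    have : x.1 ∈ (L'.map Prod.fst).map (TLR_lt Γ N) := h ▸ List.mem_map_of_mem hx
    obtain ⟨_, hl, e'⟩ := List.mem_map.1 this
    obtain ⟨y, hy, rfl⟩ := List.mem_map.1 hl
    exact e' ▸ H y hy
  · intro H x hx
    have : TLR_lt Γ N x.1 ∈ L.map Prod.fst :=
      h ▸ List.mem_map_of_mem (List.mem_map_of_mem hx)
    obtain ⟨y, hy, e'⟩ := List.mem_map.1 this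
    exact show TLR_lt Γ N x.1 ∈ S from e' ▸ H y hy

theorem p_TLR (hG2 : S_G2) (hG1 : S_G1) (hTRED : S_TRED) (hTLW : S_TLW) :
    S_TLR := by
  intro T _ Γ S Q hQ
  have hB : (Set.range (fun a => wl Γ a 1) ∪ ⋃ q ∈ Q, Sp Γ 1 q).Finite :=
    (Set.finite_range _).union (hQ.biUnion fun q _ => ((hG1 T Γ).2 q).1)
  obtain ⟨N, hN, hred⟩ := hTRED T Γ _ hB
  obtain ⟨hfin, W, _, l, s, K, hK, f, hth, hw⟩ :=
    hTLW T Γ N _ hN hB fun a => Or.inl ⟨a, rfl⟩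
  refine ⟨W, inferInstance, l, s, K, hK, Lb Γ N, hfin, _, f, {l | TLR_lt Γ N l ∈ S},
    hth.mono fun q hq W hW => Or.inr (Set.mem_biUnion hq hW), fun h hs hK' => ?_⟩
  obtain ⟨L, hL, rfl⟩ := (hG2 T Γ).1 h
  obtain ⟨L', e, ef⟩ := hw L hs hK'
  rw [ef]
  constructor
  · intro hm
    refine wd_mem ((TLR_letters e S).1 ((hG2 _ _).2.1 _ L' ((hG1 _ _).1 L' ?_).1 hm))
    rintro L₁ x L₂ L₃ rfl
    rw [List.map_append, List.map_cons, List.map_append, List.map_cons, eq_comm,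
      List.map_eq_append_iff] at e
    obtain ⟨l₁, m, e1, -, e2⟩ := e
    obtain ⟨Z, m', rfl, e3, e4⟩ := List.map_eq_cons_iff.1 e2
    obtain ⟨l₂, m, rfl, e5, e6⟩ := List.map_eq_append_iff.1 e4
    obtain ⟨Z', l₃, rfl, e7, -⟩ := List.map_eq_cons_iff.1 e6
    obtain ⟨Y, hY, hadj⟩ := hred L hL l₁ Z l₂ Z' l₃ e1 (e3.trans e7.symm)
    have : lb Γ N Y ∈ L₂.map Prod.fst := e5 ▸ List.mem_map_of_mem hY
    obtain ⟨y, hy, e8⟩ := List.mem_map.1 this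
    exact ⟨y, hy, by rw [e8, ← e3]; exact hadj⟩
  · intro hm
    exact wd_mem ((TLR_letters e S).2 ((hG2 _ _).2.1 _ L hL hm))

end Pool.Agent.P.MP_67c9d4_al.FR
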