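import Pool.Agent.P.MP_67c9d4_al.FR.Iface

/-! Step TLW. -/

set_option autoImplicit false
set_option linter.unusedSectionVars false

namespace Pool.Agent.P.MP_67c9d4_al.FR

open Equiv Wr Multiplicative FC

lemma TLW_act {T : Type} {Γ : SimpleGraph T} {N : Subgroup (RAAG Γ)} (hN : N.Normal) :
    ∃ a : RAAG Γ →* Perm (Lb Γ N), ∀ h W, a h (lb Γ N W) = lb Γ N (h • W) := by
  have hm : ∀ h : RAAG Γ, ∃ m : Lb Γ N → Lb Γ N, ∀ W, m (lb Γ N W) = lb Γ N (h • W) := fun h =>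
    ⟨Quotient.lift (fun W => lb Γ N (h • W)) (fun W W' e => by
      obtain ⟨n, hn, rfl⟩ := lb_eq.1 (Quotient.sound e : lb Γ N W = lb Γ N W')
      exact lb_eq.2 ⟨h * n * h⁻¹, hN.conj_mem n hn h, by simp [mul_smul]⟩), fun _ => rfl⟩
  choose m hm using hm
  have sj : ∀ x : Lb Γ N, ∃ W, lb Γ N W = x := fun x => Quotient.exists_rep x
  have h1 : ∀ g h x, m g (m h x) = m (g * h) x := fun g h x => by
    obtain ⟨W, rfl⟩ := sj x
    rw [hm, hm, hm, mul_smul]
  have h0 : ∀ x, m 1 x = x := fun x => by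
    obtain ⟨W, rfl⟩ := sj x
    rw [hm, one_smul]
  refine ⟨MonoidHom.mk' (fun h => ⟨m h, m h⁻¹, fun x => by rw [h1, inv_mul_cancel, h0],
    fun x => by rw [h1, mul_inv_cancel, h0]⟩) fun g h => Equiv.ext fun x => (h1 g h x).symm, hm⟩

lemma TLW_finite {T : Type} [Finite T] {Γ : SimpleGraph T} {N : Subgroup (RAAG Γ)} (hN : FN N) :
    Finite (Lb Γ N) := by
  have := hN.2
  refine Finite.of_surjective (fun p : T × (RAAG Γ ⧸ N) => lb Γ N (wl Γ p.1 p.2.out)) fun x => ?_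
  obtain ⟨W, rfl⟩ : ∃ W, lb Γ N W = x := Quotient.exists_rep x
  obtain ⟨g, e⟩ := wl_surj W
  obtain ⟨n, hn⟩ := QuotientGroup.mk_out_eq_mul N g
  refine ⟨(W.1, (g : RAAG Γ ⧸ N)), lb_eq.2 ⟨g * n * g⁻¹, hN.1.conj_mem n n.2 g, ?_⟩⟩
  conv_rhs => rw [e, smul_wl]
  rw [hn, inv_mul_cancel_right]

open scoped IsMulCommutative in
lemma TLW_fin {W : Type} [Group W] {S : Set W} (hS : S.Finite) (h2 : ∀ x ∈ S, x * x = 1)
    (hc : ∀ x ∈ S, ∀ y ∈ S, x * y = y * x) : Finite (Subgroup.closure S) := by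
  have hm := Subgroup.isMulCommutative_closure hc
  have : Group.FG (Subgroup.closure S) :=
    (Group.fg_iff_subgroup_fg _).2 ((Subgroup.fg_iff _).2 ⟨S, rfl, hS⟩)
  have sq : ∀ x ∈ Subgroup.closure S, x * x = 1 := by
    intro x hx
    induction hx using Subgroup.closure_induction with
    | mem x hx => exact h2 x hx
    | one => exact one_mul 1
    | mul x y hx hy ix iy =>
      have e : x * y = y * x := setLike_mul_comm hx hy
      calc x * y * (x * y) = x * y * (y * x) := by rw [← e]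
        _ = x * (y * y) * x := by simp only [mul_assoc]
        _ = 1 := by rw [iy, mul_one, ix]
    | inv x hx ix => rw [← mul_inv_rev, ix, inv_one]
  refine CommGroup.finite_of_fg_isMulTorsion _ fun x => ?_
  exact isOfFinOrder_iff_pow_eq_one.2 ⟨2, two_pos, Subtype.ext (by
    rw [pow_two]; exact sq x x.2)⟩

theorem p_TLW (hG2 : S_G2) (hG1 : S_G1) (hHOL : S_HOL) :
    S_TLW := by
  intro T _ Γ N B hN hB hw
  have fin := TLW_finite hN
  refine ⟨fin, ?_⟩
  obtain ⟨a, ha⟩ := TLW_act hN.1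
  obtain ⟨W, _, K, _, f, r, s, hs, hr, hc, hsr, hf⟩ := hHOL (Lb Γ N) (RAAG Γ) (LG Γ N B) a (by
    rintro h _ _ ⟨ne, y, Z, hZ, Z', hZ', rfl, rfl⟩
    exact ⟨(a h).injective.ne ne, h * y, Z, hZ, Z', hZ', by rw [ha, mul_smul],
      by rw [ha, mul_smul]⟩)
  have cB : ∀ Z ∈ B, ∀ Z' ∈ B, r (lb Γ N Z) * r (lb Γ N Z') = r (lb Γ N Z') * r (lb Γ N Z) := by
    intro Z hZ Z' hZ'
    by_cases e : lb Γ N Z = lb Γ N Z'
    · rw [e]
    · exact hc _ _ ⟨e, 1, Z, hZ, Z', hZ', by rw [one_smul], by rw [one_smul]⟩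
  have sr : ∀ h Z, s h * r (lb Γ N Z) * (s h)⁻¹ = r (lb Γ N (h • Z)) := fun h Z => by
    rw [hsr, ha]
  obtain ⟨l, hl⟩ := raag_lift (Γ := Γ)
    (fun x => r (lb Γ N (wl Γ x 1)) * s (PresentedGroup.of x)) (fun x y h => by
      have e1 := sr (PresentedGroup.of x) (wl Γ y 1)
      have e2 := sr (PresentedGroup.of y) (wl Γ x 1)
      rw [of_smul_wl Γ h, mul_inv_eq_iff_eq_mul] at e1
      rw [of_smul_wl Γ h.symm, mul_inv_eq_iff_eq_mul] at e2
      have e3 := ((of_comm h).map s).eq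
      have e4 := cB _ (hw x) _ (hw y)
      change _ * _ = _ * _
      calc r (lb Γ N (wl Γ x 1)) * s (PresentedGroup.of x) *
            (r (lb Γ N (wl Γ y 1)) * s (PresentedGroup.of y))
          = r (lb Γ N (wl Γ x 1)) * (s (PresentedGroup.of x) * r (lb Γ N (wl Γ y 1))) *
            s (PresentedGroup.of y) := by simp only [mul_assoc]
        _ = r (lb Γ N (wl Γ x 1)) * r (lb Γ N (wl Γ y 1)) *
            (s (PresentedGroup.of x) * s (PresentedGroup.of y)) := by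
              rw [e1]; simp only [mul_assoc]
        _ = r (lb Γ N (wl Γ y 1)) * (r (lb Γ N (wl Γ x 1)) * s (PresentedGroup.of y)) *
            s (PresentedGroup.of x) := by rw [e3, e4]; simp only [mul_assoc]
        _ = _ := by rw [← e2]; simp only [mul_assoc])
  have ri : ∀ x, (r x)⁻¹ = r x := fun x => inv_eq_of_mul_eq_one_right (hr x)
  have d1 : ∀ x : T × Bool, dd l s (wd Γ [x]) = r (lb Γ N (ew Γ 1 x)) := by
    rintro ⟨x, _ | _⟩
    · have := sr (PresentedGroup.of x)⁻¹ (wl Γ x 1)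
      rw [smul_wl, mul_one] at this
      rw [wd_false, dd, map_inv, hl, mul_inv_rev, ri, ← map_inv, this]
      simp [ew, wd_false]
    · rw [wd_true, dd, hl, mul_inv_cancel_right]
      rfl
  have key : ∀ (L : List (T × Bool)) (g : RAAG Γ), s g * dd l s (wd Γ L) * (s g)⁻¹ =
      (((walls Γ g L).map (lb Γ N)).map r).prod := by
    intro L
    induction L with
    | nil => intro g; simp [wd_nil, dd, walls]
    | cons x L ih =>
      intro g
      have e := sr g (ew Γ 1 x)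
      rw [smul_ew, mul_one] at e
      rw [walls, List.map_cons, List.map_cons, List.prod_cons, ← ih, wd_cons, dd_mul, d1, ← e,
        map_mul]
      group
  have key1 : ∀ L : List (T × Bool), dd l s (wd Γ L) =
      (((walls Γ 1 L).map (lb Γ N)).map r).prod := fun L => by
    rw [← key, map_one, one_mul, inv_one, mul_one]
  refine ⟨W, inferInstance, l, s, K, inferInstance, f, ⟨hs, ?_⟩, fun L h1 hK => ?_⟩
  · have := TLW_fin (hB.image fun Z => r (lb Γ N Z)) (by rintro _ ⟨Z, _, rfl⟩; exact hr _)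
      (by rintro _ ⟨Z, hZ, rfl⟩ _ ⟨Z', hZ', rfl⟩; exact cB Z hZ Z' hZ')
    refine Finite.of_injective _ (Subgroup.inclusion_injective
      (K := Subgroup.closure ((fun Z => r (lb Γ N Z)) '' B)) ((Subgroup.closure_le _).2 ?_))
    rintro _ ⟨q, hq, rfl⟩
    obtain ⟨L, hL, rfl⟩ := (hG2 T Γ).1 q
    have nd := ((hG1 T Γ).1 L ((hG2 T Γ).2.2.1 L hL)).2 1
    rw [key1]
    refine Subgroup.list_prod_mem _ fun w hw' => ?_
    rw [List.map_map] at hw'
    obtain ⟨Z, hZ, rfl⟩ := List.mem_map.1 hw'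
    refine Subgroup.subset_closure ⟨Z, hq ?_, rfl⟩
    have := (Sp_of_nodup nd Z).2 hZ
    rwa [one_mul] at this
  · have e : l (wd Γ L) = (((walls Γ 1 L).map (lb Γ N)).map r).prod := by
      rw [← key1, dd, h1, inv_one, mul_one]
    obtain ⟨L', e1, e2⟩ := hf _ (e ▸ hK)
    exact ⟨L', e1, (congrArg f (Subtype.ext e)).trans e2⟩

end Pool.Agent.P.MP_67c9d4_al.FR
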