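import Pool.Agent.P.MP_67c9d4_al.FR.Iface

/-! Step TOP. -/

set_option autoImplicit false
set_option linter.unusedSectionVars false

namespace Pool.Agent.P.MP_67c9d4_al.FR

open Equiv Wr Multiplicative FC

theorem p_TOP (hMODEL : S_MODEL) (hGLU : S_GLU) (hHT : S_HT) (hDUAL : S_DUAL) :
    S_TOP := by
  intro Y G J _ _ _ S Θ i t v hH hC hV
  obtain ⟨H, _, f, Λ, inj, mem, vΛ, vb, tw⟩ := hMODEL Y G J S Θ i t v hH hC hV
  have tw' := (hDUAL _ J H (FS S) Θ v f hC tw).2.2.2.2.2.2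
  have a1 := hGLU Y J G H S Θ v i t f Λ hH hC tw vΛ
  have a2 := hGLU Y J G H S Θ v i t _ Λ hH hC tw' vΛ
  have a3 := hGLU Y J G H S Θ v i t f ⊥ hH hC tw vb
  have e1 : Λ.comap f = FS S := Subgroup.ext fun x => mem x
  have e2 : Λ.comap (f.comp (Θ⁻¹ : MulAut (FreeGroup Y)).toMonoidHom) = im Θ (FS S) :=
    Subgroup.ext fun x => (mem (Θ⁻¹ x)).trans mem_im.symm
  have e3 : (⊥ : Subgroup H).comap f = ⊥ := (MonoidHom.ker_eq_bot_iff f).2 inj
  rw [e1] at a1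
  rw [e2] at a2
  rw [e3, Subgroup.map_bot] at a3
  exact hHT _ G i (FS S) Θ t hH a1 a2 a3

end Pool.Agent.P.MP_67c9d4_al.FR
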