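import Pool.Agent.P.MP_67c9d4_al.FR.Iface

/-! Step TRED. -/

set_option autoImplicit false
set_option linter.unusedSectionVars false

namespace Pool.Agent.P.MP_67c9d4_al.FR

open Equiv Wr Multiplicative FC

section
variable {T : Type} {Γ : SimpleGraph T}

lemma TRED_ew (g : RAAG Γ) (x : T × Bool) : ∃ u, Sh Γ 1 u ∧ ew Γ g x = wl Γ x.1 (g * u) ∧
    ∀ Z ∈ Sp Γ (g * u) (g * wd Γ [x]), Z = ew Γ g x := by
  obtain ⟨a, _ | _⟩ := x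
  · exact ⟨_, sh_letter (a, false), rfl, fun Z hZ => by simp [Sp_self] at hZ⟩
  · refine ⟨1, sh_one 1, by rw [mul_one]; rfl, fun Z hZ => ?_⟩
    rwa [mul_one, Sp_step] at hZ

lemma TRED_wl (a : T) (g : RAAG Γ) : wl Γ a g ∈ Sp Γ g (g * wd Γ [(a, true)]) := by
  rw [Sp_step]
  rfl

lemma TRED_bd {B : Set (Wall Γ)} (hB : B.Finite) :
    ∃ ρ, ∀ W ∈ B, ∃ p, Sh Γ ρ p ∧ W = wl Γ W.1 p := by
  induction B, hB using Set.Finite.induction_on with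
  | empty => exact ⟨0, fun _ h => h.elim⟩
  | @insert W B _ _ ih =>
    obtain ⟨ρ, ih⟩ := ih
    obtain ⟨p, hp⟩ := wl_surj W
    obtain ⟨s, hs⟩ := sh_exists p
    refine ⟨ρ + s, fun Z hZ => ?_⟩
    rcases hZ with rfl | hZ
    · exact ⟨p, hs.mono (by omega), hp⟩
    · obtain ⟨q, h1, h2⟩ := ih Z hZ
      exact ⟨q, h1.mono (by omega), h2⟩

lemma TRED_sep [Finite T] (hDCS : S_DCS) (R : ℕ) : ∃ N, FN N ∧ ∀ (a b : T) (q u : RAAG Γ),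
    Sh Γ R q → Sh Γ R u → ∀ n ∈ N,
      Dc (PS Γ (Γ.neighborSet a)) u (PS Γ (Γ.neighborSet b)) (q * n) →
      Dc (PS Γ (Γ.neighborSet a)) u (PS Γ (Γ.neighborSet b)) q := by
  have : Finite {g : RAAG Γ | Sh Γ R g} := sh_finite R
  obtain ⟨N, h1, h2⟩ := FN.exists_forall
    (J := T × T × {g : RAAG Γ | Sh Γ R g} × {g : RAAG Γ | Sh Γ R g})
    (p := fun j N => ∀ n ∈ N,
      Dc (PS Γ (Γ.neighborSet j.1)) j.2.2.2.1 (PS Γ (Γ.neighborSet j.2.1)) (j.2.2.1.1 * n) →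
      Dc (PS Γ (Γ.neighborSet j.1)) j.2.2.2.1 (PS Γ (Γ.neighborSet j.2.1)) j.2.2.1.1)
    (fun j N N' le h n hn => h n (le hn)) (fun j => by
      by_cases c : Dc (PS Γ (Γ.neighborSet j.1)) j.2.2.2.1 (PS Γ (Γ.neighborSet j.2.1)) j.2.2.1.1
      · exact ⟨⊤, FN.top, fun _ _ _ => c⟩
      · obtain ⟨N, h1, h2⟩ := hDCS T Γ _ _ _ _ c
        exact ⟨N, h1, fun n hn e => absurd e (h2 n hn)⟩)
  exact ⟨N, h1, fun a b q u hq hu => h2 (a, b, ⟨q, hq⟩, ⟨u, hu⟩)⟩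

/-- The wall is close to the carrier of the wall of `b` at `g`. -/
def TRED_cl (ρ : ℕ) (b : T) (g : RAAG Γ) (Z : Wall Γ) : Prop :=
  ∃ c ∈ PS Γ (Γ.neighborSet b), ∃ v, Sh Γ ρ v ∧ Z ∈ Sp Γ (g * c) (g * (c * v))

lemma TRED_near {ρ r : ℕ} (hr : ∀ S x, Nr Γ S ρ x → ∃ z ∈ PS Γ S, Sh Γ r (z⁻¹ * x)) {b : T}
    {g g₁ : RAAG Γ} (h1 : ∀ Z ∈ Sp Γ g g₁, TRED_cl ρ b g Z) {M : List (T × Bool)}
    (h2 : ∀ Z ∈ walls Γ g₁ M, TRED_cl ρ b g Z) :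
    ∃ z ∈ PS Γ (Γ.neighborSet b), ∃ u, Sh Γ r u ∧ g₁ * wd Γ M = g * z * u := by
  obtain ⟨z, hz, hu⟩ := hr (Γ.neighborSet b) (g⁻¹ * (g₁ * wd Γ M)) fun W hW => by
    have a1 := (smul_mem_Sp g _ _ W).2 (hW 1 (Subgroup.one_mem _))
    rw [mul_one, mul_inv_cancel_left] at a1
    have a2 : TRED_cl ρ b g (g • W) := by
      rcases Sp_tri _ g₁ _ a1 with a | a
      · exact h1 _ a
      · exact h2 _ (Sp_sub _ _ _ a)
    obtain ⟨c, hc, v, hv, a3⟩ := a2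
    exact ⟨c, hc, v, hv, (smul_mem_Sp g _ _ W).1 a3⟩
  exact ⟨z, hz, _, hu, by group⟩

lemma TRED_step {B : Set (Wall Γ)} {N : Subgroup (RAAG Γ)} (hN : N.Normal) {ρ r : ℕ}
    (hB : ∀ W ∈ B, ∃ p, Sh Γ ρ p ∧ W = wl Γ W.1 p)
    (hs : ∀ (a b : T) (q u : RAAG Γ), Sh Γ (ρ + ρ + r + 1) q → Sh Γ (ρ + ρ + r + 1) u → ∀ n ∈ N,
      Dc (PS Γ (Γ.neighborSet a)) u (PS Γ (Γ.neighborSet b)) (q * n) →
      Dc (PS Γ (Γ.neighborSet a)) u (PS Γ (Γ.neighborSet b)) q)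
    {a b : T} {g z u u₀ : RAAG Γ} (hz : z ∈ PS Γ (Γ.neighborSet b)) (hu : Sh Γ r u)
    (hu₀ : Sh Γ 1 u₀)
    (h : (LG Γ N B).Adj (lb Γ N (wl Γ a (g * z * u * u₀))) (lb Γ N (wl Γ b g))) :
    TRED_cl (ρ + ρ + 1) b g (wl Γ a (g * z * u * u₀)) := by
  obtain ⟨-, y, W₁, h1, W₂, h2, e1, e2⟩ := h
  obtain ⟨p, hp, f1⟩ := hB W₁ h1
  obtain ⟨p', hp', f2⟩ := hB W₂ h2
  obtain ⟨n, hn, e1⟩ := lb_eq.1 e1
  obtain ⟨n', hn', e2⟩ := lb_eq.1 e2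
  rw [f1, smul_wl, smul_wl, wl_eq] at e1
  rw [f2, smul_wl, smul_wl, wl_eq] at e2
  obtain ⟨k1, e1⟩ := e1
  obtain ⟨k2, e2⟩ := e2
  rw [k1] at e1
  rw [k2] at e2
  have hq : Sh Γ (ρ + ρ) (p⁻¹ * p') := hp.inv.mul hp'
  have hm : (y * p')⁻¹ * (n * n'⁻¹) * (y * p')⁻¹⁻¹ ∈ N :=
    hN.conj_mem _ (N.mul_mem hn (N.inv_mem hn')) _
  obtain ⟨l₁, hl₁, l₂, hl₂, e⟩ := hs a b (p⁻¹ * p') (u₀⁻¹ * u⁻¹) (hq.mono (by omega))
    ((hu₀.inv.mul hu.inv).mono (by omega)) _ hm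
    ⟨_, e1, z⁻¹ * ((y * p')⁻¹ * (n' * g))⁻¹, Subgroup.mul_mem _ (Subgroup.inv_mem _ hz)
      (Subgroup.inv_mem _ e2), by group⟩
  have a1 : wl Γ a (g * z * u * u₀) = wl Γ a (g * (z * l₂ * (p⁻¹ * p')⁻¹)) := by
    rw [wl_eq, e]
    refine ⟨rfl, ?_⟩
    convert Subgroup.inv_mem _ hl₁ using 1
    group
  have a2 := TRED_wl a (g * (z * l₂ * (p⁻¹ * p')⁻¹))
  rw [← a1] at a2
  refine ⟨z * l₂, Subgroup.mul_mem _ hz hl₂, ?_⟩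
  rcases Sp_tri _ (g * (z * l₂)) _ a2 with a3 | a3
  · exact ⟨_, hq.inv.mono (by omega), by rwa [Sp_comm]⟩
  · refine ⟨_, hq.inv.mul (sh_letter (a, true)), ?_⟩
    rwa [← mul_assoc (z * l₂), ← mul_assoc g (z * l₂ * _)]

end

theorem p_TRED (hG2 : S_G2) (hG1 : S_G1) (hCNT : S_CNT) (hDCS : S_DCS) :
    S_TRED := by
  intro T _ Γ B hB
  obtain ⟨ρ, hρ⟩ := TRED_bd hB
  obtain ⟨r, hr⟩ := hCNT T Γ (ρ + ρ + 1)
  obtain ⟨N, hN, hs⟩ := TRED_sep (Γ := Γ) hDCS (ρ + ρ + r + 1)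
  refine ⟨N, hN, fun L hL l₁ W l₂ W' l₃ e el => ?_⟩
  have nd := ((hG1 T Γ).1 L ((hG2 T Γ).2.2.1 L hL)).2 1
  rw [e] at nd
  have ne : W ≠ W' := by
    rintro rfl
    exact (List.nodup_cons.1 (List.nodup_append.1 nd).2.1).1 (by simp)
  obtain ⟨L₁, x, L₂, -, -, e1, e2⟩ := walls_split e
  obtain ⟨M, x', M', -, e3, e4, -⟩ := walls_split e2.symm
  obtain ⟨u₁, -, f1, f2⟩ := TRED_ew (1 * wd Γ L₁) x
  rw [← e1] at f1 f2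
  generalize 1 * wd Γ L₁ * u₁ = g at f1 f2
  generalize 1 * wd Γ L₁ * wd Γ [x] = g₁ at f2 e3 e4
  generalize x.1 = b at f1
  have c0 : ∀ Z ∈ Sp Γ g g₁, TRED_cl (ρ + ρ + 1) b g Z := by
    intro Z hZ
    rw [f2 Z hZ, f1]
    refine ⟨1, Subgroup.one_mem _, _, (sh_letter (b, true)).mono (by omega), ?_⟩
    rw [mul_one, one_mul]
    exact TRED_wl b g
  by_contra hc
  push Not at hc
  have key : ∀ M : List (T × Bool),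
      (∀ Z ∈ walls Γ g₁ M, (LG Γ N B).Adj (lb Γ N Z) (lb Γ N W)) →
      ∀ Z ∈ walls Γ g₁ M, TRED_cl (ρ + ρ + 1) b g Z := by
    intro M
    induction M using List.reverseRecOn with
    | nil => exact fun _ Z hZ => by simp [walls] at hZ
    | append_singleton M y ih =>
      intro h Z hZ
      rw [walls_append] at h hZ
      have ih' := ih fun Z hZ => h Z (List.mem_append_left _ hZ)
      rcases List.mem_append.1 hZ with a | a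
      · exact ih' Z a
      · obtain ⟨z, hz, u, hu, k⟩ := TRED_near hr c0 ih'
        obtain ⟨u₀, hu₀, k1, -⟩ := TRED_ew (g₁ * wd Γ M) y
        have k2 : Z = wl Γ y.1 (g * z * u * u₀) := by
          rw [← k, ← k1]
          simpa [walls] using a
        have k3 := h Z hZ
        rw [k2, f1] at k3
        rw [k2]
        exact TRED_step hN.1 hρ hs hz hu hu₀ k3
  obtain ⟨z, hz, u, hu, k⟩ := TRED_near hr c0 (key M (e3 ▸ hc))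
  obtain ⟨u₀, hu₀, k1, -⟩ := TRED_ew (g₁ * wd Γ M) x'
  rw [← e4, k] at k1
  obtain ⟨n, hn, k2⟩ := lb_eq.1 el
  rw [f1, k1, smul_wl, wl_eq] at k2
  obtain ⟨rfl, k2⟩ := k2
  have hm : (g * z * u * u₀)⁻¹ * n * (g * z * u * u₀)⁻¹⁻¹ ∈ N := hN.1.conj_mem _ hn _
  obtain ⟨l₁, hl₁, l₂, hl₂, k3⟩ := hs _ _ (u * u₀) 1 ((hu.mul hu₀).mono (by omega)) (sh_one _) _ hm
    ⟨z⁻¹, Subgroup.inv_mem _ hz, _, k2, by group⟩
  apply ne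
  rw [f1, k1, wl_eq]
  refine ⟨rfl, ?_⟩
  convert Subgroup.mul_mem _ hz (Subgroup.mul_mem _ hl₁ hl₂) using 1
  rw [mul_one] at k3
  rw [← k3]
  group

end Pool.Agent.P.MP_67c9d4_al.FR
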