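import Pool.Agent.P.MP_67c9d4_al.FR.Iface

/-! Step TREE. -/

set_option autoImplicit false
set_option linter.unusedSectionVars false

namespace Pool.Agent.P.MP_67c9d4_al.FR

open Equiv Wr Multiplicative FC

lemma TREE_exit {X : Type} {S S' : Set (FreeGroup X)} (h1 : (1 : FreeGroup X) ∈ S)
    {q : FreeGroup X}
    (hq : Relation.ReflTransGen (fun a b => b ∈ S' ∧ ∃ x, b = a * lt x) 1 q) (hn : q ∉ S) :
    ∃ p ∈ S, ∃ x, p * lt x ∈ S' ∧ p * lt x ∉ S := by
  induction hq with
  | refl => exact (hn h1).elim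
  | @tail b c _ hbc ih =>
    by_cases hb : b ∈ S
    · obtain ⟨hc, x, rfl⟩ := hbc
      exact ⟨b, hb, x, hc, hn⟩
    · exact ih hb

lemma TREE_ins {X : Type} {S : Set (FreeGroup X)} (h : Cn S) {p : FreeGroup X} (hp : p ∈ S)
    (x : X × Bool) : Cn (insert (p * lt x) S) := by
  have e : ∀ q ∈ S, Relation.ReflTransGen
      (fun a b => b ∈ insert (p * lt x) S ∧ ∃ y, b = a * lt y) 1 q := fun q hq =>
    Relation.ReflTransGen.mono (fun a b hab => ⟨Set.mem_insert_of_mem _ hab.1, hab.2⟩) _ _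
      (h.2 q hq)
  refine ⟨Set.mem_insert_of_mem _ h.1, fun q hq => ?_⟩
  rcases hq with rfl | hq
  · exact (e p hp).tail ⟨Set.mem_insert _ _, x, rfl⟩
  · exact e q hq

theorem p_TREE (hTREE1 : S_TREE1) (hFULL : S_FULL) :
    S_TREE := by
  intro X S U hS hC hU
  obtain ⟨S', hle, hf, hC', hL⟩ := hFULL X S U hS hC hU
  have key : ∀ (n : ℕ) (S : Set (FreeGroup X)), (S' \ S).ncard = n → S ⊆ S' → Cn S →
      Fc (LS S U) (LS S' U) := by
    intro n
    induction n using Nat.strong_induction_on with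
    | _ n ih =>
      intro S hn hle hC
      by_cases he : S' ⊆ S
      · rw [Set.Subset.antisymm hle he]
        exact Fc.refl _
      · obtain ⟨q, hq, hqn⟩ := Set.not_subset.1 he
        obtain ⟨p, hp, x, h1, h2⟩ := TREE_exit hC.1 (hC'.2 q hq) hqn
        refine (hTREE1 X S U p x hC hp).trans
          (ih _ ?_ (insert (p * lt x) S) rfl (Set.insert_subset h1 hle) (TREE_ins hC hp x))
        rw [← hn]
        refine Set.ncard_lt_ncard ?_ (hf.subset Set.sdiff_subset)
        refine ⟨Set.sdiff_subset_sdiff_right (Set.subset_insert _ _), fun hs => ?_⟩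
        exact (hs ⟨h1, h2⟩).2 (Set.mem_insert _ _)
  have := key _ S rfl hle hC
  rwa [hL] at this

end Pool.Agent.P.MP_67c9d4_al.FR
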