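import Pool.Agent.P.MP_67c9d4_al.FR.Iface

/-! Step TREE1. -/

set_option autoImplicit false
set_option linter.unusedSectionVars false

namespace Pool.Agent.P.MP_67c9d4_al.FR

open Equiv Wr Multiplicative FC

lemma TREE1_gen {X : Type} {S : Set (FreeGroup X)} {U K : Subgroup (FreeGroup X)}
    {p : FreeGroup X} (h1 : LS S U ≤ K) (h2 : ∀ q ∈ S, p * q⁻¹ ∈ U → p * q⁻¹ ∈ K) :
    LS (insert p S) U ≤ K := by
  refine (Subgroup.closure_le _).2 ?_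
  rintro _ ⟨hU, r, hr | hr, r', hr' | hr', rfl⟩
  · rw [hr, hr', mul_inv_cancel]
    exact K.one_mem
  · rw [hr] at hU ⊢
    exact h2 r' hr' hU
  · rw [hr'] at hU ⊢
    have := K.inv_mem (h2 r hr (by simpa using U.inv_mem hU))
    simpa using this
  · exact h1 (mem_LS hr hr' hU)

lemma TREE1_ext {X W : Type} [Group W] {S : Set (FreeGroup X)} {U : Subgroup (FreeGroup X)}
    {p q : FreeGroup X} {x : X × Bool} (hS : Cn S) (hp : p ∈ S) (hq : q ∈ S)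
    (hU : p * lt x * q⁻¹ ∈ U) (hL : p * lt x * q⁻¹ ∉ LS S U) (f : FreeGroup X → W) (y : W)
    (hf : Hm (LS S U) f) :
    ∃ G : FreeGroup X → W, Hm U G ∧ (∀ a ∈ LS S U, G a = f a) ∧ G (p * lt x * q⁻¹) = y := by
  classical
  obtain ⟨g, hg⟩ : ∃ g : FreeGroup X ⧸ U → FreeGroup X, ∀ r ∈ S, r * (g (pt U r))⁻¹ ∈ LS S U := by
    refine ⟨fun z => if h : ∃ r ∈ S, pt U r = z then h.choose else 1, fun r hr => ?_⟩
    have h : ∃ r' ∈ S, pt U r' = pt U r := ⟨r, hr, rfl⟩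
    simp only [dif_pos h]
    exact mem_LS hr h.choose_spec.1 (pt_eq.1 h.choose_spec.2.symm)
  obtain ⟨φ, hφ⟩ : ∃ φ : FreeGroup X → W, ∀ r, φ r = f (r * (g (pt U r))⁻¹) := ⟨_, fun _ => rfl⟩
  obtain ⟨lam, hlam⟩ : ∃ lam, lam = (φ p)⁻¹ * y * φ q := ⟨_, rfl⟩
  obtain ⟨l, l1, l2⟩ : ∃ l : FreeGroup X ⧸ U → X → W,
      (∀ r a, r ∈ S → r * FreeGroup.of a ∈ S →
        l (pt U r) a = (φ r)⁻¹ * φ (r * FreeGroup.of a)) ∧
      ∀ z a, (¬∃ r ∈ S, r * FreeGroup.of a ∈ S ∧ pt U r = z) →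
        l z a = bif x.2 then lam else lam⁻¹ := by
    refine ⟨fun z a => if ∃ r ∈ S, r * FreeGroup.of a ∈ S ∧ pt U r = z then
      f (g z * FreeGroup.of a * (g ((qa U (FreeGroup.of a))⁻¹ z))⁻¹)
      else bif x.2 then lam else lam⁻¹, fun r a h1 h2 => ?_, fun z a h => if_neg h⟩
    have h : ∃ r' ∈ S, r' * FreeGroup.of a ∈ S ∧ pt U r' = pt U r := ⟨r, h1, h2, rfl⟩
    simp only [if_pos h]
    rw [qa_pt, hφ, hφ, ← hf.inv (hg r h1), ← hf _ (inv_mem (hg r h1)) _ (hg _ h2)]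
    congr 1
    group
  obtain ⟨C, hC⟩ : ∃ C : FreeGroup X → W, ∀ u, C u = (lab (qa U) l u).c (pt U 1) :=
    ⟨_, fun _ => rfl⟩
  have c1 : ∀ u v, C (u * v) = C u * (lab (qa U) l v).c (pt U u) := fun u v => by
    rw [hC, hC, c_mul, lab_p, qa_pt, one_mul]
  have c2 : ∀ u v, u * v⁻¹ ∈ U → C (u * v⁻¹) = C u * (C v)⁻¹ := fun u v h => by
    rw [c1, pt_eq.2 h, hC v, ← c_inv, lab_p, qa_pt, one_mul]
  have eA : ∀ r (z : X × Bool), r ∈ S → r * lt z ∈ S →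
      (lab (qa U) l (lt z)).c (pt U r) = (φ r)⁻¹ * φ (r * lt z) := by
    rintro r ⟨a, _ | _⟩ h1 h2
    · rw [lt_false] at h2 ⊢
      rw [lab_inv, qa_pt', l1 _ a h2 (by rwa [inv_mul_cancel_right]), inv_mul_cancel_right,
        mul_inv_rev, inv_inv]
    · rw [lt_true] at h2 ⊢
      rw [lab_of, l1 r a h1 h2]
  have eB : (lab (qa U) l (lt x)).c (pt U p) = lam := by
    obtain ⟨a, _ | _⟩ := x
    · rw [lt_false] at hU hL ⊢
      rw [lab_inv, qa_pt', l2]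
      · exact inv_inv lam
      rintro ⟨r, h1, h2, h3⟩
      have e : p * (FreeGroup.of a)⁻¹ * q⁻¹ = (r * FreeGroup.of a * p⁻¹)⁻¹ * (r * q⁻¹) := by group
      have m : r * FreeGroup.of a * p⁻¹ ∈ U := by simpa [mul_assoc] using pt_eq.1 h3
      rw [e] at hU hL
      exact hL (mul_mem (inv_mem (mem_LS h2 hp m))
        (mem_LS h1 hq ((U.mul_mem_cancel_left (inv_mem m)).1 hU)))
    · rw [lt_true] at hU hL ⊢
      rw [lab_of, l2]
      · rfl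
      rintro ⟨r, h1, h2, h3⟩
      have e : p * FreeGroup.of a * q⁻¹ = p * r⁻¹ * (r * FreeGroup.of a * q⁻¹) := by group
      have m : p * r⁻¹ ∈ U := pt_eq.1 h3.symm
      rw [e] at hU hL
      exact hL (mul_mem (mem_LS hp h1 m) (mem_LS h2 hq ((U.mul_mem_cancel_left m).1 hU)))
  have c3 : ∀ r ∈ S, C r = (φ 1)⁻¹ * φ r := fun r hr => by
    suffices H : r ∈ S ∧ C r = (φ 1)⁻¹ * φ r from H.2
    have := hS.2 r hr
    clear hr
    induction this with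
    | refl => exact ⟨hS.1, by rw [hC, map_one, one_c, inv_mul_cancel]⟩
    | tail _ h ih =>
      obtain ⟨h1, z, rfl⟩ := h
      exact ⟨h1, by rw [c1, ih.2, eA _ z ih.1 h1]; group⟩
  have hH : Hm U fun u => φ 1 * C u * (φ 1)⁻¹ := Hm.conj (fun u hu v _ => by
    rw [c1, hC v, (pt_eq (g := u) (g' := 1)).2 (by simpa using hu)]) _
  refine ⟨_, hH, (hH.mono (LS_le S U)).ext_closure hf le_rfl ?_, ?_⟩
  · rintro _ ⟨m, r, hr, r', hr', rfl⟩
    have e : r * r'⁻¹ = r * (g (pt U r))⁻¹ * (r' * (g (pt U r'))⁻¹)⁻¹ := by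
      rw [pt_eq.2 m]; group
    change φ 1 * C (r * r'⁻¹) * (φ 1)⁻¹ = _
    rw [c2 _ _ m, c3 r hr, c3 r' hr', e, hf _ (hg r hr) _ (inv_mem (hg r' hr')),
      hf.inv (hg r' hr'), ← hφ, ← hφ]
    group
  · rw [c2 _ _ hU, c1, eB, c3 p hp, c3 q hq, hlam]
    group

theorem p_TREE1 :
    S_TREE1 := by
  intro X S U p x hS hp
  by_cases h : ∃ q ∈ S, p * lt x * q⁻¹ ∈ U ∧ p * lt x * q⁻¹ ∉ LS S U
  · obtain ⟨q, hq, hU, hL⟩ := h
    refine ⟨1, fun _ => p * lt x * q⁻¹, le_antisymm (TREE1_gen le_sup_left fun r hr m => ?_)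
      (sup_le (LS_mono (Set.subset_insert _ _) le_rfl) ((Subgroup.closure_le _).2 ?_)),
      fun W _ f y hf => ?_⟩
    · have e : p * lt x * r⁻¹ = p * lt x * q⁻¹ * (q * r⁻¹) := by group
      rw [e] at m ⊢
      exact mul_mem (Subgroup.mem_sup_right (Subgroup.subset_closure ⟨0, rfl⟩))
        (Subgroup.mem_sup_left (mem_LS hq hr ((U.mul_mem_cancel_left hU).1 m)))
    · rintro _ ⟨_, rfl⟩
      exact mem_LS (Set.mem_insert _ _) (Set.mem_insert_of_mem _ hq) hU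
    · obtain ⟨G, h1, h2, h3⟩ := TREE1_ext hS hp hq hU hL f (y 0) hf
      exact ⟨G, h1.mono (LS_le _ _), h2, fun i => by rw [h3, Subsingleton.elim i 0]⟩
  · have e : LS (insert (p * lt x) S) U = LS S U :=
      le_antisymm (TREE1_gen le_rfl fun q hq m => by_contra fun n => h ⟨q, hq, m, n⟩)
        (LS_mono (Set.subset_insert _ _) le_rfl)
    rw [e]
    exact ⟨0, Fin.elim0, ff_refl _ _⟩

end Pool.Agent.P.MP_67c9d4_al.FR
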