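import Pool.Agent.P.MP_67c9d4_al.FR.Iface

/-! Step UP. -/

set_option autoImplicit false
set_option linter.unusedSectionVars false

namespace Pool.Agent.P.MP_67c9d4_al.FR

open Equiv Wr Multiplicative FC

section
variable {F W : Type} [Group F] [Group W] {Φ : MulAut F} {A : Subgroup F} {n k : ℕ}
  {b : Fin n → F} {f : F → W} {w : W}

lemma UP_mem (k : ℕ) {j : ℕ} {x : F} (hx : x ∈ Vk Φ A j) : (Φ ^ k) x ∈ Vk Φ A (k + j) :=
  im_Vk_le k j ⟨x, hx, rfl⟩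

lemma UP_step (h : Line Φ A b) (hk : 0 < k) (j : ℕ) (g : F → W) (h1 : Hm (Vk Φ A (k + j)) g)
    (h2 : ∀ x ∈ Vk Φ A j, g ((Φ ^ k) x) = w⁻¹ * g x * w) :
    ∃ g' : F → W, (Hm (Vk Φ A (k + (j + 1))) g' ∧
      ∀ x ∈ Vk Φ A (j + 1), g' ((Φ ^ k) x) = w⁻¹ * g' x * w) ∧
      ∀ x ∈ Vk Φ A (k + j), g' x = g x := by
  obtain ⟨g', a1, a2, a3⟩ := (h.up (k + j)).2 W g (fun i => w⁻¹ * g ((Φ ^ j) (b i)) * w) h1
  have le : j + 1 ≤ k + j + 1 := by omega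
  have le' : j ≤ k + j := by omega
  have le'' : j + 1 ≤ k + j := by omega
  have b1 : Hm (Vk Φ A (j + 1)) fun x => g' ((Φ ^ k) x) := fun x hx y hy => by
    simp only [map_mul]
    have m := UP_mem k hx
    have m' := UP_mem k hy
    rw [← add_assoc] at m m'
    exact a1 _ m _ m'
  have b2 : Hm (Vk Φ A (j + 1)) fun x => w⁻¹ * g' x * w := fun x hx y hy => by
    have e := a1 x (Vk_mono le hx) y (Vk_mono le hy)
    simp only [e]
    group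
  have b3 : ∀ x ∈ Vk Φ A j, g' ((Φ ^ k) x) = w⁻¹ * g' x * w := fun x hx => by
    rw [a2 _ (UP_mem k hx), h2 x hx, a2 x (Vk_mono le' hx)]
  have b4 : ∀ i, g' ((Φ ^ k) ((Φ ^ j) (b i))) = w⁻¹ * g' ((Φ ^ j) (b i)) * w := fun i => by
    have e : g' ((Φ ^ (k + j)) (b i)) = w⁻¹ * g ((Φ ^ j) (b i)) * w := a3 i
    rw [pow_add, MulAut.mul_apply] at e
    have m : (Φ ^ j) (b i) ∈ Vk Φ A (k + j) := Vk_mono le'' ((h.up j).mem i)
    rw [e, a2 _ m]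
  exact ⟨g', ⟨by rw [← add_assoc]; exact a1, (h.up j).ext b1 b2 b3 b4⟩, a2⟩

lemma UP_plus (h : Line Φ A b) (hk : 0 < k) (h1 : Hm (Vk Φ A k) f)
    (h2 : ∀ a ∈ A, w⁻¹ * f a * w = f ((Φ ^ k) a)) :
    ∃ p : F → W, (∀ j, Hm (Vk Φ A j) p) ∧ (∀ x ∈ Vk Φ A k, p x = f x) ∧
      ∀ j, ∀ x ∈ Vk Φ A j, p ((Φ ^ k) x) = w⁻¹ * p x * w := by
  classical
  choose st s1 s2 using UP_step (w := w) h hk
  let s : ∀ j, {g : F → W // Hm (Vk Φ A (k + j)) g ∧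
      ∀ x ∈ Vk Φ A j, g ((Φ ^ k) x) = w⁻¹ * g x * w} := fun j =>
    Nat.rec ⟨f, h1, fun x hx => (h2 x (Vk_zero (Φ := Φ) (A := A) ▸ hx)).symm⟩
      (fun j g => ⟨st j g.1 g.2.1 g.2.2, s1 j g.1 g.2.1 g.2.2⟩) j
  have c1 : ∀ j j', j ≤ j' → ∀ x ∈ Vk Φ A (k + j), (s j').1 x = (s j).1 x := by
    intro j j' le x hx
    induction le with
    | refl => rfl
    | @step m le ih =>
      exact (s2 m _ (s m).2.1 (s m).2.2 x (Vk_mono (Nat.add_le_add_left le k) hx)).trans ih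
  let p : F → W := fun x => if e : ∃ j, x ∈ Vk Φ A (k + j) then (s e.choose).1 x else 1
  have c2 : ∀ j, ∀ x ∈ Vk Φ A (k + j), p x = (s j).1 x := fun j x hx => by
    have e : ∃ j, x ∈ Vk Φ A (k + j) := ⟨j, hx⟩
    simp only [p, dif_pos e]
    rw [← c1 _ _ (le_max_left e.choose j) x e.choose_spec, c1 _ _ (le_max_right _ j) x hx]
  refine ⟨p, fun j x hx y hy => ?_, c2 0, fun j x hx => ?_⟩
  · have hx' := Vk_mono (Nat.le_add_left j k) hx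
    have hy' := Vk_mono (Nat.le_add_left j k) hy
    rw [c2 j x hx', c2 j y hy', c2 j _ (Subgroup.mul_mem _ hx' hy'), (s j).2.1 x hx' y hy']
  · rw [c2 j _ (UP_mem k hx), c2 j x (Vk_mono (Nat.le_add_left j k) hx), (s j).2.2 x hx]

end

theorem p_UP (hLINE : S_LINE) :
    S_UP := by
  intro F _ Φ A n b h k hk W _ f w h1 h2
  obtain ⟨p, p1, p2, p3⟩ := UP_plus h hk h1 h2
  let T : ℕ → F → W := fun l x => w ^ l * p (((Φ ^ k) ^ l) x) * (w ^ l)⁻¹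
  let I : ℕ → F → Prop := fun l x => ∃ j, ((Φ ^ k) ^ l) x ∈ Vk Φ A j
  have c1 : ∀ l l' x, l ≤ l' → I l x → I l' x ∧ T l' x = T l x := by
    intro l l' x le hx
    induction le with
    | refl => exact ⟨hx, rfl⟩
    | @step m _ ih =>
      obtain ⟨⟨j, hj⟩, e⟩ := ih
      refine ⟨⟨k + j, by rw [pow_succ', MulAut.mul_apply]; exact UP_mem k hj⟩, Eq.trans ?_ e⟩
      simp only [T]
      rw [pow_succ' (Φ ^ k), MulAut.mul_apply, p3 j _ hj, pow_succ]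
      group
  have c2 : ∀ x, ∃ l, I l x := fun x => by
    obtain ⟨m, hm⟩ := (hLINE F Φ A n b h).2.2.1 x
    exact ⟨m, _, by rw [← pow_mul]; exact hm _ (Nat.le_mul_of_pos_left m hk)⟩
  choose m hm using c2
  have c3 : ∀ l x, I l x → T (m x) x = T l x := fun l x hx => by
    rw [← (c1 _ _ x (le_max_left (m x) l) (hm x)).2, (c1 _ _ x (le_max_right _ l) hx).2]
  refine ⟨MonoidHom.mk' (fun x => T (m x) x) fun x y => ?_, fun x hx => ?_, fun x => ?_⟩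
  · obtain ⟨⟨j, hj⟩, e⟩ := c1 _ _ x (le_max_left (m x) (m y)) (hm x)
    obtain ⟨⟨j', hj'⟩, e'⟩ := c1 _ _ y (le_max_right (m x) (m y)) (hm y)
    have a := Vk_mono (le_max_left j j') hj
    have a' := Vk_mono (le_max_right j j') hj'
    rw [← e, ← e', c3 (max (m x) (m y)) _ ⟨_, by rw [map_mul]; exact Subgroup.mul_mem _ a a'⟩]
    simp only [T]
    rw [map_mul, p1 _ _ a _ a']
    group
  · change T (m x) x = f x
    rw [c3 0 x ⟨k, hx⟩, ← p2 x hx]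
    simp [T]
  · change T (m _) _ = w⁻¹ * T (m x) x * w
    obtain ⟨⟨j, hj⟩, e⟩ := c1 _ _ x (Nat.le_add_right (m x) 1) (hm x)
    have e1 : ((Φ ^ k) ^ m x) ((Φ ^ k) x) = ((Φ ^ k) ^ (m x + 1)) x := by
      rw [pow_succ, MulAut.mul_apply]
    rw [c3 (m x) _ ⟨j, by rw [e1]; exact hj⟩, ← e]
    simp only [T]
    rw [e1, pow_succ' w]
    generalize p _ = z
    group

end Pool.Agent.P.MP_67c9d4_al.FR
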