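import Pool.Agent.P.MP_67c9d4_al.FR.Iface
import Pool.Agent.P.MP_67c9d4_al.FC.VPS

/-! Step VSL. -/

set_option autoImplicit false
set_option linter.unusedSectionVars false

namespace Pool.Agent.P.MP_67c9d4_al.FR

open Equiv Wr Multiplicative FC

theorem p_VSL :
    S_VSL := by
  intro F G Y W T _ _ _ _ hT i ρ y₀ Λ K hK Γ f S hi hf
  have h1 : (((1 : W) : W ⧸ K)).out ∈ K := by
    have := QuotientGroup.out_eq' (((1 : W) : W ⧸ K))
    rw [QuotientGroup.eq] at this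
    simpa using this
  obtain ⟨ω, hω⟩ := VPSx.exists_sec ((flat.comp ((push (ind K f)).comp ρ)).comp i) Λ
    (y₀, ((1 : W) : W ⧸ K)) (rfb Γ (true, S) (f ⟨_, h1⟩)⁻¹)
    (rfb Γ (false, Set.univ) 1) (fun x hx => by
      have hx1 : (ρ (i x)).p y₀ = y₀ := congrArg Prod.fst hx
      have hx2 : (ρ (i x)).c ((ρ (i x)).p y₀) • ((1 : W) : W ⧸ K) = ((1 : W) : W ⧸ K) :=
        congrArg Prod.snd hx
      rw [hx1] at hx2
      have h2 : ((ρ (i x)).c y₀)⁻¹ • ((1 : W) : W ⧸ K) = ((1 : W) : W ⧸ K) := by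
        rw [inv_smul_eq_iff]; exact hx2.symm
      have h3 : (ρ (i x)).c y₀ ∈ K := by
        have : ((((ρ (i x)).c y₀)⁻¹ * 1 : W) : W ⧸ K) = ((1 : W) : W ⧸ K) := h2
        simpa using QuotientGroup.eq.1 this
      have : (((flat.comp ((push (ind K f)).comp ρ)).comp i) x).c (y₀, ((1 : W) : W ⧸ K)) =
          f (⟨_, h1⟩⁻¹ * ⟨_, h3⟩ * ⟨_, h1⟩) := by
        change f _ = _
        congr 1; ext; simp [h2]
      rw [this, smul_rfb, rfb_eq, ← hf x hx1 h3, map_mul, map_mul, map_inv]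
      simp) (fun b => smul_rfb_univ b false) (fun h => by simpa using (rfb_eq.1 h).1)
  have : Finite (W ⧸ K) := Subgroup.finite_quotient_of_finiteIndex
  exact ⟨T, hT, Γ, Y × (W ⧸ K), Fintype.ofFinite _, flat.comp ((push (ind K f)).comp ρ),
    SepOn.map hi ⟨ω, fun g _ => hω g⟩⟩

end Pool.Agent.P.MP_67c9d4_al.FR
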