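import Pool.Agent.P.MP_67c9d4_al.FR.TTRV
import Pool.Agent.P.MP_67c9d4_al.FR.TFFL
import Pool.Agent.P.MP_67c9d4_al.FR.TKUR
import Pool.Agent.P.MP_67c9d4_al.FR.TMALF
import Pool.Agent.P.MP_67c9d4_al.FR.THOPF
import Pool.Agent.P.MP_67c9d4_al.FR.TRH
import Pool.Agent.P.MP_67c9d4_al.FR.TTREE1
import Pool.Agent.P.MP_67c9d4_al.FR.TFULL
import Pool.Agent.P.MP_67c9d4_al.FR.TTREE
import Pool.Agent.P.MP_67c9d4_al.FR.TBOUND
import Pool.Agent.P.MP_67c9d4_al.FR.TINIT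
import Pool.Agent.P.MP_67c9d4_al.FR.TTERM
import Pool.Agent.P.MP_67c9d4_al.FR.TFSTEP
import Pool.Agent.P.MP_67c9d4_al.FR.TFOLD
import Pool.Agent.P.MP_67c9d4_al.FR.TMINI
import Pool.Agent.P.MP_67c9d4_al.FR.TBOTH
import Pool.Agent.P.MP_67c9d4_al.FR.TLINE
import Pool.Agent.P.MP_67c9d4_al.FR.TUP
import Pool.Agent.P.MP_67c9d4_al.FR.TCMPA
import Pool.Agent.P.MP_67c9d4_al.FR.TCMPB
import Pool.Agent.P.MP_67c9d4_al.FR.TSTAB1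
import Pool.Agent.P.MP_67c9d4_al.FR.TSTAB2
import Pool.Agent.P.MP_67c9d4_al.FR.TSTAB
import Pool.Agent.P.MP_67c9d4_al.FR.TBAS
import Pool.Agent.P.MP_67c9d4_al.FR.TSTRUCT
import Pool.Agent.P.MP_67c9d4_al.FR.TFP
import Pool.Agent.P.MP_67c9d4_al.FR.TKJ
import Pool.Agent.P.MP_67c9d4_al.FR.TKEMB
import Pool.Agent.P.MP_67c9d4_al.FR.TMODEL
import Pool.Agent.P.MP_67c9d4_al.FR.TG2
import Pool.Agent.P.MP_67c9d4_al.FR.TG1
import Pool.Agent.P.MP_67c9d4_al.FR.TCAN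
import Pool.Agent.P.MP_67c9d4_al.FR.TMED
import Pool.Agent.P.MP_67c9d4_al.FR.TCNT
import Pool.Agent.P.MP_67c9d4_al.FR.TACT
import Pool.Agent.P.MP_67c9d4_al.FR.TDCS
import Pool.Agent.P.MP_67c9d4_al.FR.TTRED
import Pool.Agent.P.MP_67c9d4_al.FR.THOL
import Pool.Agent.P.MP_67c9d4_al.FR.TTLW
import Pool.Agent.P.MP_67c9d4_al.FR.TTLR
import Pool.Agent.P.MP_67c9d4_al.FR.TTL
import Pool.Agent.P.MP_67c9d4_al.FR.TPOS
import Pool.Agent.P.MP_67c9d4_al.FR.TLIFT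
import Pool.Agent.P.MP_67c9d4_al.FR.TPOT
import Pool.Agent.P.MP_67c9d4_al.FR.TPIECE
import Pool.Agent.P.MP_67c9d4_al.FR.TINS
import Pool.Agent.P.MP_67c9d4_al.FR.TBM
import Pool.Agent.P.MP_67c9d4_al.FR.TEDGE
import Pool.Agent.P.MP_67c9d4_al.FR.TBJ
import Pool.Agent.P.MP_67c9d4_al.FR.TAJ
import Pool.Agent.P.MP_67c9d4_al.FR.TCUSP1
import Pool.Agent.P.MP_67c9d4_al.FR.TCUSP
import Pool.Agent.P.MP_67c9d4_al.FR.TFINIM
import Pool.Agent.P.MP_67c9d4_al.FR.TCSET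
import Pool.Agent.P.MP_67c9d4_al.FR.TABS
import Pool.Agent.P.MP_67c9d4_al.FR.TMATCH
import Pool.Agent.P.MP_67c9d4_al.FR.TTENS
import Pool.Agent.P.MP_67c9d4_al.FR.TVSL
import Pool.Agent.P.MP_67c9d4_al.FR.TFUL
import Pool.Agent.P.MP_67c9d4_al.FR.TDUAL
import Pool.Agent.P.MP_67c9d4_al.FR.TBIJ
import Pool.Agent.P.MP_67c9d4_al.FR.TGLU
import Pool.Agent.P.MP_67c9d4_al.FR.THT
import Pool.Agent.P.MP_67c9d4_al.FR.TTOP
import Pool.Agent.P.MP_67c9d4_al.FR.TSPV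
import Pool.Agent.P.MP_67c9d4_al.FR.TREDN
import Pool.Agent.P.MP_67c9d4_al.PG.All

/-! All steps put together. -/

set_option autoImplicit false

namespace Pool.Agent.P.MP_67c9d4_al.FR

theorem a_TRV : S_TRV := p_TRV
theorem a_FFL : S_FFL := p_FFL
theorem a_KUR : S_KUR := p_KUR a_TRV
theorem a_MALF : S_MALF := p_MALF a_KUR
theorem a_HOPF : S_HOPF := p_HOPF FC.t_RFF
theorem a_RH : S_RH := p_RH a_HOPF
theorem a_TREE1 : S_TREE1 := p_TREE1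
theorem a_FULL : S_FULL := p_FULL
theorem a_TREE : S_TREE := p_TREE a_TREE1 a_FULL
theorem a_BOUND : S_BOUND := p_BOUND
theorem a_INIT : S_INIT := p_INIT
theorem a_TERM : S_TERM := p_TERM
theorem a_FSTEP : S_FSTEP := p_FSTEP
theorem a_FOLD : S_FOLD := p_FOLD a_BOUND a_INIT a_TERM a_FSTEP
theorem a_MINI : S_MINI := p_MINI a_TREE a_FULL a_FOLD a_RH a_FFL
theorem a_BOTH : S_BOTH := p_BOTH a_MINI a_TREE a_FULL
theorem a_LINE : S_LINE := p_LINE a_MALF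
theorem a_UP : S_UP := p_UP a_LINE
theorem a_CMPA : S_CMPA := p_CMPA
theorem a_CMPB : S_CMPB := p_CMPB a_HOPF a_CMPA
theorem a_STAB1 : S_STAB1 := p_STAB1 a_LINE a_KUR a_CMPA a_CMPB
theorem a_STAB2 : S_STAB2 := p_STAB2 a_LINE a_KUR a_CMPA a_CMPB
theorem a_STAB : S_STAB := p_STAB a_STAB1 a_STAB2 a_LINE a_KUR a_CMPA
theorem a_BAS : S_BAS := p_BAS
theorem a_STRUCT : S_STRUCT := p_STRUCT a_BOTH a_LINE a_UP a_STAB a_BAS
theorem a_FP : S_FP := p_FP FC.t_T3 FC.t_VPS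
theorem a_KJ : S_KJ := p_KJ a_FP
theorem a_KEMB : S_KEMB := p_KEMB a_TRV
theorem a_MODEL : S_MODEL := p_MODEL a_FP a_KJ a_KEMB
theorem a_G2 : S_G2 := p_G2
theorem a_G1 : S_G1 := p_G1 a_G2
theorem a_CAN : S_CAN := p_CAN a_G2 a_G1
theorem a_MED : S_MED := p_MED a_G2 a_G1 a_CAN
theorem a_CNT : S_CNT := p_CNT a_G1 a_MED
theorem a_ACT : S_ACT := p_ACT
theorem a_DCS : S_DCS := p_DCS a_G2 a_G1 a_CNT a_ACT
theorem a_TRED : S_TRED := p_TRED a_G2 a_G1 a_CNT a_DCS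
theorem a_HOL : S_HOL := p_HOL
theorem a_TLW : S_TLW := p_TLW a_G2 a_G1 a_HOL
theorem a_TLR : S_TLR := p_TLR a_G2 a_G1 a_TRED a_TLW
theorem a_TL : S_TL := p_TL a_TLR
theorem a_POS : S_POS := p_POS
theorem a_LIFT : S_LIFT := p_LIFT
theorem a_POT : S_POT := p_POT
theorem a_PIECE : S_PIECE := p_PIECE a_LIFT a_POT
theorem a_INS : S_INS := p_INS a_LIFT
theorem a_BM : S_BM := p_BM a_LIFT a_INS
theorem a_EDGE : S_EDGE := p_EDGE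
theorem a_BJ : S_BJ := p_BJ a_LIFT a_POT a_INS a_EDGE
theorem a_AJ : S_AJ := p_AJ a_LIFT a_PIECE a_INS
theorem a_CUSP1 : S_CUSP1 := p_CUSP1 a_LIFT a_PIECE a_INS
theorem a_CUSP : S_CUSP := p_CUSP a_LIFT a_INS a_CUSP1
theorem a_FINIM : S_FINIM := p_FINIM
theorem a_CSET : S_CSET := p_CSET a_LIFT a_PIECE a_INS a_CUSP1 a_CUSP
theorem a_ABS : S_ABS := p_ABS FC.t_RFF a_LIFT a_BM a_BJ a_AJ a_FINIM a_CSET
theorem a_MATCH : S_MATCH := p_MATCH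
theorem a_TENS : S_TENS := p_TENS a_MATCH
theorem a_VSL : S_VSL := p_VSL
theorem a_FUL : S_FUL := p_FUL
theorem a_DUAL : S_DUAL := p_DUAL
theorem a_BIJ : S_BIJ := p_BIJ
theorem a_GLU : S_GLU := p_GLU a_POS a_ABS a_TL a_TENS a_VSL a_FUL a_DUAL a_BIJ
theorem a_HT : S_HT := p_HT FC.t_T3
theorem a_TOP : S_TOP := p_TOP a_MODEL a_GLU a_HT a_DUAL
theorem a_SPV : S_SPV := p_SPV
theorem a_REDN : S_REDN := p_REDN a_STRUCT a_TOP a_SPV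

end Pool.Agent.P.MP_67c9d4_al.FR
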