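import Pool.Agent.P.MP_67c9d4_al.FR.Defs

/-! Basic lemmas. -/

set_option autoImplicit false

namespace Pool.Agent.P.MP_67c9d4_al.FR

open Equiv Wr Multiplicative FC

section hm
variable {F W : Type} [Group F] [Group W] {U A : Subgroup F} {g g' : F → W}

lemma Hm.one (h : Hm U g) : g 1 = 1 := by
  have := h 1 U.one_mem 1 U.one_mem
  rw [mul_one] at this
  exact left_eq_mul.1 this

lemma Hm.inv (h : Hm U g) {a : F} (ha : a ∈ U) : g a⁻¹ = (g a)⁻¹ := by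
  have := h a ha a⁻¹ (U.inv_mem ha)
  rw [mul_inv_cancel, h.one] at this
  exact (eq_inv_of_mul_eq_one_right this.symm)

lemma Hm.mono (h : Hm U g) (le : A ≤ U) : Hm A g := fun a ha b hb => h a (le ha) b (le hb)

lemma hm_hom (U : Subgroup F) (f : F →* W) : Hm U f := fun a _ b _ => map_mul f a b

lemma hm_id (U : Subgroup F) : Hm U (id : F → F) := fun _ _ _ _ => rfl

lemma hm_const (U : Subgroup F) : Hm U (fun _ => (1 : W)) := fun _ _ _ _ => (mul_one _).symm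

lemma Hm.comp {W' : Type} [Group W'] (h : Hm U g) (f : W →* W') : Hm U fun a => f (g a) :=
  fun a ha b hb => by simp only [h a ha b hb, map_mul]

lemma Hm.comp' {W' : Type} [Group W'] {U' : Subgroup W} {f : W → W'} (hf : Hm U' f) (h : Hm U g)
    (m : ∀ a ∈ U, g a ∈ U') : Hm U fun a => f (g a) :=
  fun a ha b hb => by simp only [h a ha b hb, hf _ (m a ha) _ (m b hb)]

lemma Hm.conj (h : Hm U g) (k : W) : Hm U fun a => k * g a * k⁻¹ :=
  fun a ha b hb => by simp only [h a ha b hb]; group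

/-- The homomorphism on the subgroup. -/
def Hm.hom (h : Hm U g) : U →* W := MonoidHom.mk' (fun a => g a) fun a b => h a a.2 b b.2

@[simp] lemma Hm.hom_apply (h : Hm U g) (a : U) : h.hom a = g a := rfl

/-- The homomorphism on the whole group. -/
def Hm.top (h : Hm ⊤ g) : F →* W := MonoidHom.mk' g fun a b => h a trivial b trivial

@[simp] lemma Hm.top_apply (h : Hm ⊤ g) (a : F) : h.top a = g a := rfl

lemma exists_hm (f : U →* W) : ∃ g : F → W, Hm U g ∧ ∀ a : U, g a = f a := by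
  classical
  refine ⟨fun a => if h : a ∈ U then f ⟨a, h⟩ else 1, fun a ha b hb => ?_, fun a => dif_pos a.2⟩
  simp only [dif_pos ha, dif_pos hb, dif_pos (U.mul_mem ha hb)]
  exact map_mul f ⟨a, ha⟩ ⟨b, hb⟩

/-- The part of `U` that is mapped into `B`. -/
def Hm.pre (h : Hm U g) (B : Subgroup W) : Subgroup F := (B.comap h.hom).map U.subtype

lemma Hm.mem_pre (h : Hm U g) {B : Subgroup W} {a : F} : a ∈ h.pre B ↔ a ∈ U ∧ g a ∈ B :=
  ⟨fun ⟨x, hx, e⟩ => e ▸ ⟨x.2, hx⟩, fun ⟨h1, h2⟩ => ⟨⟨a, h1⟩, h2, rfl⟩⟩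

lemma Hm.ext_closure {s : Set F} (h : Hm U g) (h' : Hm U g') (le : Subgroup.closure s ≤ U)
    (e : ∀ x ∈ s, g x = g' x) : ∀ x ∈ Subgroup.closure s, g x = g' x := by
  intro x hx
  induction hx using Subgroup.closure_induction with
  | mem x hx => exact e x hx
  | one => rw [h.one, h'.one]
  | mul x y hx hy ix iy => rw [h x (le hx) y (le hy), h' x (le hx) y (le hy), ix, iy]
  | inv x hx ix => rw [h.inv (le hx), h'.inv (le hx), ix]

lemma sup_closure_eq (A : Subgroup F) (s : Set F) :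
    A ⊔ Subgroup.closure s = Subgroup.closure ((A : Set F) ∪ s) := by
  rw [Subgroup.closure_union, Subgroup.closure_eq]

lemma Hm.ext_sup {s : Set F} (h : Hm U g) (h' : Hm U g') (le : A ⊔ Subgroup.closure s ≤ U)
    (e : ∀ x ∈ A, g x = g' x) (e' : ∀ x ∈ s, g x = g' x) :
    ∀ x ∈ A ⊔ Subgroup.closure s, g x = g' x := by
  rw [sup_closure_eq] at le ⊢
  exact h.ext_closure h' le fun x hx => hx.elim (e x) (e' x)

lemma Hm.mem_sup {s : Set F} {B : Subgroup W} (h : Hm U g) (le : A ⊔ Subgroup.closure s ≤ U)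
    (e : ∀ x ∈ A, g x ∈ B) (e' : ∀ x ∈ s, g x ∈ B) : ∀ x ∈ A ⊔ Subgroup.closure s, g x ∈ B := by
  have : A ⊔ Subgroup.closure s ≤ h.pre B := sup_le
    (fun x hx => h.mem_pre.2 ⟨le (Subgroup.mem_sup_left hx), e x hx⟩)
    ((Subgroup.closure_le _).2 fun x hx => h.mem_pre.2
      ⟨le (Subgroup.mem_sup_right (Subgroup.subset_closure hx)), e' x hx⟩)
  exact fun x hx => (h.mem_pre.1 (this hx)).2

end hm

section ff
variable {F I I' : Type} [Group F] {A U U' : Subgroup F} {c : I → F} {c' : I' → F}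

lemma FF.le (h : FF A c U) : A ≤ U := h.1 ▸ le_sup_left

lemma FF.mem (h : FF A c U) (i : I) : c i ∈ U :=
  h.1 ▸ Subgroup.mem_sup_right (Subgroup.subset_closure ⟨i, rfl⟩)

lemma FF.ext {W : Type} [Group W] {g g' : F → W} (h : FF A c U) (h1 : Hm U g) (h2 : Hm U g')
    (e : ∀ a ∈ A, g a = g' a) (e' : ∀ i, g (c i) = g' (c i)) : ∀ x ∈ U, g x = g' x := by
  intro x hx
  rw [h.1] at hx
  exact h1.ext_sup h2 h.1.ge e (by rintro _ ⟨i, rfl⟩; exact e' i) x hx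

lemma FF.maps {W : Type} [Group W] {g : F → W} {B : Subgroup W} (h : FF A c U) (h1 : Hm U g)
    (e : ∀ a ∈ A, g a ∈ B) (e' : ∀ i, g (c i) ∈ B) : ∀ x ∈ U, g x ∈ B := by
  intro x hx
  rw [h.1] at hx
  exact h1.mem_sup h.1.ge e (by rintro _ ⟨i, rfl⟩; exact e' i) x hx

lemma FF.retr (h : FF A c U) : ∃ ρ : F → F, Hm U ρ ∧ (∀ a ∈ A, ρ a = a) ∧ (∀ i, ρ (c i) = 1) ∧
    ∀ x ∈ U, ρ x ∈ A := by
  obtain ⟨ρ, h1, h2, h3⟩ := h.2 F id (fun _ => 1) (hm_id A)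
  exact ⟨ρ, h1, h2, h3, h.maps h1 (fun a ha => (h2 a ha).symm ▸ ha) fun i => (h3 i).symm ▸ A.one_mem⟩

lemma FF.reindex (h : FF A c U) (e : I' ≃ I) : FF A (c ∘ e) U := by
  refine ⟨by rw [e.surjective.range_comp]; exact h.1, fun W _ f y hf => ?_⟩
  obtain ⟨g, h1, h2, h3⟩ := h.2 W f (y ∘ e.symm) hf
  exact ⟨g, h1, h2, fun i => by simp [h3]⟩

lemma FF.fc [Finite I] (h : FF A c U) : Fc A U := by
  obtain ⟨n, ⟨e⟩⟩ := Finite.exists_equiv_fin I
  exact ⟨n, _, h.reindex e.symm⟩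

lemma ff_refl (A : Subgroup F) (c : I → F) [IsEmpty I] : FF A c A :=
  ⟨by simp [Set.range_eq_empty], fun _ _ f _ hf => ⟨f, hf, fun _ _ => rfl, fun i => isEmptyElim i⟩⟩

lemma FF.trans (h : FF A c U) (h' : FF U c' U') : FF A (Sum.elim c c') U' := by
  refine ⟨by rw [Set.Sum.elim_range, Subgroup.closure_union, ← sup_assoc, ← h.1]; exact h'.1,
    fun W _ f y hf => ?_⟩
  obtain ⟨g, h1, h2, h3⟩ := h.2 W f (y ∘ Sum.inl) hf
  obtain ⟨g', h4, h5, h6⟩ := h'.2 W g (y ∘ Sum.inr) h1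
  refine ⟨g', h4, fun a ha => (h5 a (h.le ha)).trans (h2 a ha), ?_⟩
  rintro (i | i)
  · exact (h5 _ (h.mem i)).trans (h3 i)
  · exact h6 i

lemma FF.left (h : FF A (Sum.elim c c') U) : FF A c (A ⊔ Subgroup.closure (Set.range c)) := by
  refine ⟨rfl, fun W _ f y hf => ?_⟩
  obtain ⟨g, h1, h2, h3⟩ := h.2 W f (Sum.elim y fun _ => 1) hf
  exact ⟨g, h1.mono (sup_le h.le ((Subgroup.closure_le _).2 (by
    rintro _ ⟨i, rfl⟩; exact h.mem (Sum.inl i)))), h2, fun i => h3 (Sum.inl i)⟩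

lemma FF.right (h : FF A (Sum.elim c c') U) : FF (A ⊔ Subgroup.closure (Set.range c)) c' U := by
  refine ⟨by rw [sup_assoc, ← Subgroup.closure_union, ← Set.Sum.elim_range]; exact h.1,
    fun W _ f y hf => ?_⟩
  obtain ⟨g, h1, h2, h3⟩ := h.2 W f (Sum.elim (fun i => f (c i)) y) (hf.mono le_sup_left)
  exact ⟨g, h1, h.left.ext (h1.mono (sup_le h.le ((Subgroup.closure_le _).2 (by
    rintro _ ⟨i, rfl⟩; exact h.mem (Sum.inl i))))) hf h2 fun i => h3 (Sum.inl i),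
    fun i => h3 (Sum.inr i)⟩

lemma FF.swap (h : FF A (Sum.elim c c') U) : FF A (Sum.elim c' c) U := by
  have := h.reindex (Equiv.sumComm I' I)
  rwa [show Sum.elim c c' ∘ Equiv.sumComm I' I = Sum.elim c' c from
    funext fun x => by cases x <;> rfl] at this

lemma FF.map {F' : Type} [Group F'] (h : FF A c U) {j : F →* F'} (hj : Function.Injective j) :
    FF (A.map j) (fun i => j (c i)) (U.map j) := by
  refine ⟨by rw [h.1, Subgroup.map_sup, MonoidHom.map_closure, ← Set.range_comp]; rfl,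
    fun W _ f y hf => ?_⟩
  obtain ⟨g, h1, h2, h3⟩ := h.2 W (fun a => f (j a)) y
    (hf.comp' (hm_hom A j) fun a ha => ⟨a, ha, rfl⟩)
  have e : ∀ x, Function.invFun j (j x) = x := Function.leftInverse_invFun hj
  refine ⟨fun x => g (Function.invFun j x), ?_, ?_, fun i => by simp only [e, h3]⟩
  · rintro _ ⟨a, ha, rfl⟩ _ ⟨b, hb, rfl⟩
    simp only [← map_mul, e]
    exact h1 a ha b hb
  · rintro _ ⟨a, ha, rfl⟩
    simp only [e]
    exact h2 a ha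

lemma FF.comap {F' : Type} [Group F'] {j : F →* F'} (hj : Function.Injective j)
    (h : FF (A.map j) (fun i => j (c i)) (U.map j)) : FF A c U := by
  refine ⟨Subgroup.map_injective hj (by
    rw [h.1, Subgroup.map_sup, MonoidHom.map_closure, ← Set.range_comp]; rfl), fun W _ f y hf => ?_⟩
  have e : ∀ x, Function.invFun j (j x) = x := Function.leftInverse_invFun hj
  obtain ⟨g, h1, h2, h3⟩ := h.2 W (fun a => f (Function.invFun j a)) y (by
    rintro _ ⟨a, ha, rfl⟩ _ ⟨b, hb, rfl⟩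
    simp only [← map_mul, e]
    exact hf a ha b hb)
  exact ⟨fun x => g (j x), h1.comp' (hm_hom U j) fun a ha => ⟨a, ha, rfl⟩,
    fun a ha => (h2 _ ⟨a, ha, rfl⟩).trans (by simp only [e]), h3⟩

lemma ff_FS {X : Type} (S : Set X) :
    FF (FS S) (fun x : {x // x ∉ S} => FreeGroup.of x.1) ⊤ := by
  classical
  refine ⟨?_, fun W _ f y hf => ⟨FreeGroup.lift fun x => if h : x ∈ S then f (FreeGroup.of x)
    else y ⟨x, h⟩, hm_hom _ _, ?_, fun i => by simp [i.2]⟩⟩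
  · refine (eq_top_iff.2 ?_).symm
    rw [← FreeGroup.closure_range_of, Subgroup.closure_le]
    rintro _ ⟨x, rfl⟩
    by_cases h : x ∈ S
    · exact Subgroup.mem_sup_left (Subgroup.subset_closure ⟨x, h, rfl⟩)
    · exact Subgroup.mem_sup_right (Subgroup.subset_closure ⟨⟨x, h⟩, rfl⟩)
  · refine (hm_hom _ _).ext_closure hf le_rfl ?_
    rintro _ ⟨x, hx, rfl⟩
    simp [hx]

lemma Fc.le (h : Fc A U) : A ≤ U := let ⟨_, _, h⟩ := h; h.le

lemma Fc.refl (A : Subgroup F) : Fc A A := ⟨0, Fin.elim0, ff_refl A _⟩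

lemma Fc.trans (h : Fc A U) (h' : Fc U U') : Fc A U' :=
  let ⟨_, _, h⟩ := h; let ⟨_, _, h'⟩ := h'; (h.trans h').fc

lemma Fc.map {F' : Type} [Group F'] (h : Fc A U) {j : F →* F'} (hj : Function.Injective j) :
    Fc (A.map j) (U.map j) := let ⟨n, _, h⟩ := h; ⟨n, _, h.map hj⟩

lemma Fc.retr (h : Fc A U) : ∃ ρ : F → F, Hm U ρ ∧ (∀ a ∈ A, ρ a = a) ∧ ∀ x ∈ U, ρ x ∈ A :=
  let ⟨_, _, h⟩ := h; let ⟨ρ, h1, h2, _, h3⟩ := h.retr; ⟨ρ, h1, h2, h3⟩

lemma fg_sup_range [Finite I] (h : A.FG) (c : I → F) : (A ⊔ Subgroup.closure (Set.range c)).FG :=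
  h.sup ((Subgroup.fg_iff _).2 ⟨_, rfl, Set.finite_range c⟩)

lemma Fc.fg (h : Fc A U) (hA : A.FG) : U.FG := let ⟨_, c, h⟩ := h; h.1 ▸ fg_sup_range hA c

lemma Gn.le {n : ℕ} (h : Gn A U n) : A ≤ U := let ⟨_, h⟩ := h; h ▸ le_sup_left

lemma gn_of_fintype [Fintype I] (b : I → F) {n : ℕ} (hn : Fintype.card I ≤ n) :
    Gn A (A ⊔ Subgroup.closure (Set.range b)) n := by
  classical
  obtain ⟨e⟩ : Nonempty (I ↪ Fin n) := Function.Embedding.nonempty_of_card_le (by simpa using hn)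
  refine ⟨fun k => if h : ∃ i, e i = k then b h.choose else 1, le_antisymm
    (sup_le_sup_left (Subgroup.closure_mono ?_) _)
    (sup_le_sup_left ((Subgroup.closure_le _).2 ?_) _)⟩
  · rintro _ ⟨i, rfl⟩
    have h : ∃ i', e i' = e i := ⟨i, rfl⟩
    exact ⟨e i, by simp only [dif_pos h, e.injective h.choose_spec]⟩
  · rintro _ ⟨k, rfl⟩
    by_cases h : ∃ i, e i = k
    · simp only [dif_pos h]
      exact Subgroup.subset_closure ⟨_, rfl⟩
    · simp only [dif_neg h]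
      exact Subgroup.one_mem _

lemma Gn.mono {n m : ℕ} (h : Gn A U n) (le : n ≤ m) : Gn A U m :=
  let ⟨b, h⟩ := h; h ▸ gn_of_fintype b (by simpa using le)

end ff

section im
variable {F : Type} [Group F] {A B : Subgroup F} {Φ Ψ : MulAut F}

lemma mem_im {x : F} : x ∈ im Φ A ↔ Φ⁻¹ x ∈ A :=
  ⟨fun ⟨y, hy, e⟩ => by rw [← e]; simpa using hy, fun h => ⟨_, h, by simp⟩⟩

lemma apply_mem_im {x : F} : Φ x ∈ im Φ A ↔ x ∈ A := by rw [mem_im]; simp

lemma im_im : im Φ (im Ψ A) = im (Φ * Ψ) A := by ext x; simp [mem_im]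

lemma im_one : im 1 A = A := by ext x; simp [mem_im]

lemma im_mono (h : A ≤ B) : im Φ A ≤ im Φ B := Subgroup.map_mono h

lemma im_sup : im Φ (A ⊔ B) = im Φ A ⊔ im Φ B := Subgroup.map_sup _ _ _

lemma map_fg {F' : Type} [Group F'] (h : A.FG) (f : F →* F') : (A.map f).FG := by
  obtain ⟨s, rfl, hs⟩ := (Subgroup.fg_iff _).1 h
  exact (Subgroup.fg_iff _).2 ⟨_, (MonoidHom.map_closure f s).symm, hs.image f⟩

lemma im_fg (h : A.FG) : (im Φ A).FG := map_fg h _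

lemma FF.im {I : Type} {c : I → F} {U : Subgroup F} (h : FF A c U) (Φ : MulAut F) :
    FF (im Φ A) (fun i => Φ (c i)) (im Φ U) := h.map (j := Φ.toMonoidHom) Φ.injective

lemma Fc.im {U : Subgroup F} (h : Fc A U) (Φ : MulAut F) : Fc (im Φ A) (im Φ U) :=
  h.map (j := Φ.toMonoidHom) Φ.injective

lemma mem_Dv {v d : F} : d ∈ Dv A B v ↔ d ∈ A ∧ v * d * v⁻¹ ∈ B := by
  rw [Dv, Subgroup.mem_inf, mem_cj, inv_inv]

lemma Dv_le (v : F) : Dv A B v ≤ A := inf_le_left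

lemma Dv_mul {b a v : F} (hb : b ∈ B) (ha : a ∈ A) : Dv A B (b * v * a) = cj a⁻¹ (Dv A B v) := by
  ext d
  rw [mem_cj, mem_Dv, mem_Dv, inv_inv]
  refine and_congr ⟨fun h => A.mul_mem (A.mul_mem ha h) (A.inv_mem ha), fun h => ?_⟩ ?_
  · simpa [mul_assoc] using A.mul_mem (A.mul_mem (A.inv_mem ha) h) ha
  · rw [show b * v * a * d * (b * v * a)⁻¹ = b * (v * (a * d * a⁻¹) * v⁻¹) * b⁻¹ by group,
      B.mul_mem_cancel_right (B.inv_mem hb), B.mul_mem_cancel_left hb]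

lemma Dc.refl (v : F) : Dc B v A v := ⟨1, B.one_mem, 1, A.one_mem, by simp⟩

lemma Dc.symm {v g : F} (h : Dc B v A g) : Dc B g A v := by
  obtain ⟨b, hb, a, ha, rfl⟩ := h
  exact ⟨b⁻¹, B.inv_mem hb, a⁻¹, A.inv_mem ha, by group⟩

lemma Dc.trans {v g g' : F} (h : Dc B v A g) (h' : Dc B g A g') : Dc B v A g' := by
  obtain ⟨b, hb, a, ha, rfl⟩ := h
  obtain ⟨b', hb', a', ha', rfl⟩ := h'
  exact ⟨b' * b, B.mul_mem hb' hb, a * a', A.mul_mem ha ha', by group⟩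

lemma Dc.inv {v g : F} (h : Dc B v A g) : Dc A v⁻¹ B g⁻¹ := by
  obtain ⟨b, hb, a, ha, rfl⟩ := h
  exact ⟨a⁻¹, A.inv_mem ha, b⁻¹, B.inv_mem hb, by group⟩

lemma cj_eq_bot {c : F} : cj c A = ⊥ ↔ A = ⊥ :=
  ⟨fun h => by rw [← cj_one A, ← inv_mul_cancel c, ← cj_cj, h, cj_bot], fun h => h ▸ cj_bot c⟩

lemma Dc.bot {v g : F} (h : Dc B v A g) : Dv A B g = ⊥ ↔ Dv A B v = ⊥ := by
  obtain ⟨b, hb, a, ha, rfl⟩ := h
  rw [Dv_mul hb ha, cj_eq_bot]

lemma cj_Dv (v : F) : cj v (Dv A B v) = Dv B A v⁻¹ := by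
  ext d
  rw [mem_cj, mem_Dv, mem_Dv, inv_inv, and_comm]
  simp [mul_assoc]

lemma im_le_Vk {i k : ℕ} (h : i ≤ k) : im (Φ ^ i) A ≤ Vk Φ A k :=
  le_iSup₂_of_le (f := fun (i : ℕ) (_ : i ≤ k) => im (Φ ^ i) A) i h le_rfl

lemma Vk_le {k : ℕ} : Vk Φ A k ≤ B ↔ ∀ i ≤ k, im (Φ ^ i) A ≤ B := iSup₂_le_iff

lemma le_Vk (k : ℕ) : A ≤ Vk Φ A k := by simpa [im_one] using im_le_Vk (Φ := Φ) (A := A) k.zero_le

lemma Vk_zero : Vk Φ A 0 = A :=
  le_antisymm (Vk_le.2 fun i hi => by rw [Nat.le_zero.1 hi, pow_zero, im_one]) (le_Vk 0)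

lemma Vk_mono {k l : ℕ} (h : k ≤ l) : Vk Φ A k ≤ Vk Φ A l :=
  Vk_le.2 fun _ hi => im_le_Vk (hi.trans h)

lemma im_Vk_le (k m : ℕ) : im (Φ ^ k) (Vk Φ A m) ≤ Vk Φ A (k + m) := by
  rw [im, Subgroup.map_le_iff_le_comap, Vk_le]
  intro i hi
  rw [← Subgroup.map_le_iff_le_comap]
  change im (Φ ^ k) (im (Φ ^ i) A) ≤ _
  rw [im_im, ← pow_add]
  exact im_le_Vk (by omega)

lemma Vk_succ (k : ℕ) : Vk Φ A (k + 1) = Vk Φ A k ⊔ im (Φ ^ (k + 1)) A :=
  le_antisymm (Vk_le.2 fun i hi => by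
      rcases hi.lt_or_eq with h | rfl
      · exact (im_le_Vk (Nat.lt_succ_iff.1 h)).trans le_sup_left
      · exact le_sup_right)
    (sup_le (Vk_mono k.le_succ) (im_le_Vk le_rfl))

lemma Vk_one : Vk Φ A 1 = A ⊔ im Φ A := by rw [Vk_succ, Vk_zero, zero_add, pow_one]

lemma Vk_succ' (k : ℕ) : Vk Φ A (k + 1) = A ⊔ im Φ (Vk Φ A k) := by
  induction k with
  | zero => rw [Vk_zero, zero_add, Vk_one]
  | succ k ih =>
    conv_rhs => rw [Vk_succ, im_sup, ← sup_assoc, ← ih, im_im, ← pow_succ']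
    exact Vk_succ _

lemma Vk_Vk (k : ℕ) : Vk Φ (Vk Φ A k) 1 = Vk Φ A (k + 1) := by
  rw [Vk_one]
  refine le_antisymm (sup_le (Vk_mono k.le_succ) ?_) ?_
  · rw [Vk_succ']; exact le_sup_right
  · rw [Vk_succ']; exact sup_le_sup_right (le_Vk k) _

lemma Vk_fg (h : A.FG) (k : ℕ) : (Vk Φ A k).FG := by
  induction k with
  | zero => rwa [Vk_zero]
  | succ k ih => rw [Vk_succ]; exact ih.sup (im_fg h)

lemma Gt.mono (h : Gt Φ A) (le : A ≤ B) : Gt Φ B :=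
  eq_top_iff.2 (h.ge.trans (iSup_mono fun _ => im_mono le))

lemma pt_eq {U : Subgroup F} {g g' : F} : pt U g = pt U g' ↔ g * g'⁻¹ ∈ U := by
  rw [pt, pt, QuotientGroup.eq, inv_inv]

lemma qa_pt (U : Subgroup F) (h g : F) : (qa U h)⁻¹ (pt U g) = pt U (g * h) := by
  rw [← map_inv, pt, qa_mk, pt, mul_inv_rev]

lemma qa_pt' (U : Subgroup F) (h g : F) : qa U h (pt U g) = pt U (g * h⁻¹) := by
  rw [← qa_pt, map_inv, inv_inv]

lemma pt_out (U : Subgroup F) (x : F ⧸ U) : pt U x.out⁻¹ = x := by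
  rw [pt, inv_inv, QuotientGroup.out_eq']

lemma pt_surj (U : Subgroup F) (x : F ⧸ U) : ∃ g, pt U g = x := ⟨_, pt_out U x⟩

lemma pt_left {N : Subgroup F} (hN : N.Normal) {g g' : F} (h : pt N g = pt N g') (c : F) :
    pt N (c * g) = pt N (c * g') := by
  rw [pt_eq] at h ⊢
  simpa [mul_assoc] using hN.conj_mem _ h c

variable {W : Type} [Group W] {M M' : Subgroup F} {f g k : F → W}

lemma Cj.refl (M : Subgroup F) (f : F → W) : Cj M f f := ⟨1, fun _ _ => by simp⟩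

lemma Cj.symm (h : Cj M f g) : Cj M g f :=
  let ⟨w, h⟩ := h; ⟨w⁻¹, fun n hn => by rw [h n hn]; group⟩

lemma Cj.trans (h : Cj M f g) (h' : Cj M g k) : Cj M f k :=
  let ⟨w, h⟩ := h; let ⟨w', h'⟩ := h'; ⟨w * w', fun n hn => by rw [h n hn, h' n hn]; group⟩

lemma Cj.mono (h : Cj M f g) (le : M' ≤ M) : Cj M' f g :=
  let ⟨w, h⟩ := h; ⟨w, fun n hn => h n (le hn)⟩

lemma Cj.of_eq (h : ∀ n ∈ M, f n = g n) : Cj M f g := ⟨1, fun n hn => by simp [h n hn]⟩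

lemma Ful.iff {N : Subgroup F} (h : Ful N) (Θ : MulAut F) (n : F) : n ∈ N ↔ Θ n ∈ N :=
  ⟨h Θ.toMonoidHom n, fun hn => by simpa using h (Θ⁻¹ : MulAut F).toMonoidHom _ hn⟩

lemma Thick.mono {l s : F →* W} {Q Q' : Set F} (h : Thick l s Q) (le : Q' ⊆ Q) : Thick l s Q' :=
  ⟨h.fs, have := h.fe; Finite.of_injective _ (Subgroup.inclusion_injective
    (Subgroup.closure_mono (Set.image_mono le)))⟩

lemma dd_mul (l s : F →* W) (h q : F) : dd l s (h * q) = dd l s h * (s h * dd l s q * (s h)⁻¹) := by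
  simp only [dd, map_mul]; group

end im

section lab
variable {X Y W B : Type} [Group W] [Group B]

lemma lab_p (α : FreeGroup X →* Perm Y) (l : Y → X → W) (h : FreeGroup X) :
    (lab α l h).p = α h := by
  have : pHom.comp (lab α l) = α := FreeGroup.ext_hom _ _ fun x => by simp [lab]
  exact DFunLike.congr_fun this h

lemma lab_of (α : FreeGroup X →* Perm Y) (l : Y → X → W) (x : X) (y : Y) :
    (lab α l (FreeGroup.of x)).c y = l y x := by simp [lab]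

lemma lab_inv (α : FreeGroup X →* Perm Y) (l : Y → X → W) (x : X) (y : Y) :
    (lab α l (FreeGroup.of x)⁻¹).c y = (l (α (FreeGroup.of x) y) x)⁻¹ := by
  rw [map_inv, inv_c, lab_p, lab_of]

lemma cov_inv (g : Wr Y B) (q : Y × B) : (cov g)⁻¹ q = (g.p⁻¹ q.1, q.2 * g.c q.1) := rfl

lemma cov_apply (g : Wr Y B) (q : Y × B) : cov g q = (g.p q.1, q.2 * (g.c (g.p q.1))⁻¹) := rfl

lemma c_mul {H : Type} [Group H] (σ : H →* Wr Y W) (g h : H) (y : Y) :
    (σ (g * h)).c y = (σ g).c y * (σ h).c ((σ g).p⁻¹ y) := by rw [map_mul, mul_c]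

lemma c_inv {H : Type} [Group H] (σ : H →* Wr Y W) (g : H) (y : Y) :
    (σ g⁻¹).c ((σ g).p⁻¹ y) = ((σ g).c y)⁻¹ := by
  rw [map_inv, inv_c]; simp

lemma inv_mul_apply {H : Type} [Group H] (α : H →* Perm Y) (g h : H) (y : Y) :
    (α (g * h))⁻¹ y = (α h)⁻¹ ((α g)⁻¹ y) := by rw [map_mul, mul_inv_rev]; rfl

lemma z2_mul_self (a : Z2) : a * a = 1 := by revert a; decide

lemma z2_inv (a : Z2) : a⁻¹ = a := by revert a; decide

lemma z2_ne {a b : Z2} : a ≠ b ↔ a * b = ofAdd 1 := by revert a b; decide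

lemma tg_neg {E : Type} {p : Prop} (h : ¬p) (e : E) : tg p e = 1 := by
  funext e'; simp [tg, h]

lemma tg_inv {E : Type} (p : Prop) (e : E) : (tg p e)⁻¹ = tg p e := funext fun _ => z2_inv _

lemma cn_one : Cn ({1} : Set (FreeGroup X)) :=
  ⟨rfl, fun _ hp => hp ▸ Relation.ReflTransGen.refl⟩

lemma LS_le (S : Set (FreeGroup X)) (U : Subgroup (FreeGroup X)) : LS S U ≤ U :=
  (Subgroup.closure_le _).2 fun _ h => h.1

lemma mem_LS {S : Set (FreeGroup X)} {U : Subgroup (FreeGroup X)} {p q : FreeGroup X} (hp : p ∈ S)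
    (hq : q ∈ S) (h : p * q⁻¹ ∈ U) : p * q⁻¹ ∈ LS S U :=
  Subgroup.subset_closure ⟨h, p, hp, q, hq, rfl⟩

lemma LS_mono {S S' : Set (FreeGroup X)} {U U' : Subgroup (FreeGroup X)} (h : S ⊆ S')
    (h' : U ≤ U') : LS S U ≤ LS S' U' :=
  Subgroup.closure_mono fun _ ⟨a, p, hp, q, hq, e⟩ => ⟨h' a, p, h hp, q, h hq, e⟩

lemma LS_LS (S : Set (FreeGroup X)) (U : Subgroup (FreeGroup X)) : LS S (LS S U) = LS S U :=
  le_antisymm (LS_le _ _) ((Subgroup.closure_le _).2 fun _ ⟨a, _, hp, _, hq, e⟩ =>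
    e ▸ mem_LS hp hq (mem_LS hp hq (e ▸ a)))

lemma LS_fg {S : Set (FreeGroup X)} (h : S.Finite) (U : Subgroup (FreeGroup X)) : (LS S U).FG :=
  (Subgroup.fg_iff _).2 ⟨_, rfl, (h.image2 (fun p q => p * q⁻¹) h).subset
    fun _ ⟨_, p, hp, q, hq, e⟩ => ⟨p, hp, q, hq, e.symm⟩⟩

lemma pre_finite (g : FreeGroup X) : (Pre g).Finite := by
  classical
  refine (Set.finite_range fun i : Fin (g.toWord.length + 1) =>
    FreeGroup.mk (g.toWord.take i)).subset ?_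
  rintro _ ⟨L, L', e, rfl⟩
  refine ⟨⟨L.length, by rw [e]; simp⟩, ?_⟩
  simp only [e, List.take_left']

end lab

section raag
variable {T : Type} {Γ : SimpleGraph T}

lemma smul_wl (h : RAAG Γ) (a : T) (g : RAAG Γ) : h • wl Γ a g = wl Γ a (h * g) := rfl

lemma wl_eq {a b : T} {g h : RAAG Γ} :
    wl Γ a g = wl Γ b h ↔ a = b ∧ g⁻¹ * h ∈ PS Γ (Γ.neighborSet a) := by
  constructor
  · intro e
    obtain rfl : a = b := congrArg Sigma.fst e
    exact ⟨rfl, QuotientGroup.eq.1 (eq_of_heq (Sigma.mk.inj e).2)⟩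
  · rintro ⟨rfl, e⟩
    exact congrArg (Sigma.mk a) (QuotientGroup.eq.2 e)

lemma wl_surj (W : Wall Γ) : ∃ g, W = wl Γ W.1 g :=
  ⟨W.2.out, by rw [wl, QuotientGroup.out_eq']; rfl⟩

lemma smul_fst (h : RAAG Γ) (W : Wall Γ) : (h • W).1 = W.1 := rfl

lemma ew_fst (g : RAAG Γ) (x : T × Bool) : (ew Γ g x).1 = x.1 := rfl

lemma smul_ew (h g : RAAG Γ) (x : T × Bool) : h • ew Γ g x = ew Γ (h * g) x := by
  obtain ⟨a, _ | _⟩ := x <;> simp [ew, smul_wl, mul_assoc]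

lemma ew_not (g : RAAG Γ) (x : T × Bool) : ew Γ (g * wd Γ [x]) (x.1, !x.2) = ew Γ g x := by
  obtain ⟨a, _ | _⟩ := x
  · rfl
  · simp [ew, wd_true, wd_false]

lemma walls_append (g : RAAG Γ) (L L' : List (T × Bool)) :
    walls Γ g (L ++ L') = walls Γ g L ++ walls Γ (g * wd Γ L) L' := by
  induction L generalizing g with
  | nil => simp [walls, wd_nil]
  | cons x L ih => rw [List.cons_append, walls, walls, ih, wd_cons x L, mul_assoc]; rfl

lemma walls_smul (h g : RAAG Γ) (L : List (T × Bool)) :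
    walls Γ (h * g) L = (walls Γ g L).map (h • ·) := by
  induction L generalizing g with
  | nil => rfl
  | cons x L ih => rw [walls, walls, List.map_cons, smul_ew, mul_assoc, ih]

lemma walls_fst (g : RAAG Γ) (L : List (T × Bool)) :
    (walls Γ g L).map (fun W : Wall Γ => W.1) = L.map Prod.fst := by
  induction L generalizing g with
  | nil => rfl
  | cons x L ih => rw [walls, List.map_cons, List.map_cons, ih]; rfl

lemma walls_length (g : RAAG Γ) (L : List (T × Bool)) : (walls Γ g L).length = L.length := by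
  simpa using congrArg List.length (walls_fst g L)

lemma walls_split {g : RAAG Γ} {L : List (T × Bool)} {l₁ l₂ : List (Wall Γ)} {W : Wall Γ}
    (h : walls Γ g L = l₁ ++ W :: l₂) : ∃ L₁ x L₂, L = L₁ ++ x :: L₂ ∧ l₁ = walls Γ g L₁ ∧
      W = ew Γ (g * wd Γ L₁) x ∧ l₂ = walls Γ (g * wd Γ L₁ * wd Γ [x]) L₂ := by
  induction l₁ generalizing g L with
  | nil =>
    obtain _ | ⟨x, L⟩ := L
    · simp [walls] at h
    · rw [walls, List.nil_append, List.cons.injEq] at h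
      exact ⟨[], x, L, rfl, rfl, by simpa [wd_nil] using h.1.symm, by simpa [wd_nil] using h.2.symm⟩
  | cons Z l₁ ih =>
    obtain _ | ⟨y, L⟩ := L
    · simp [walls] at h
    · rw [walls, List.cons_append, List.cons.injEq] at h
      obtain ⟨L₁, x, L₂, rfl, e1, e2, e3⟩ := ih h.2
      exact ⟨y :: L₁, x, L₂, rfl, by rw [walls, h.1, e1], by rw [e2, wd_cons y L₁, mul_assoc],
        by rw [e3, wd_cons y L₁, mul_assoc g]⟩

lemma kap_of (a : T) : kap Γ (PresentedGroup.of a) = kg Γ a :=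
  (raag_lift (kg Γ) (kg_comm Γ)).choose_spec a

lemma kap_p (g : RAAG Γ) : (kap Γ g).p = MulAction.toPerm g := by
  have : pHom.comp (kap Γ) = MulAction.toPermHom (RAAG Γ) (Wall Γ) :=
    raag_ext fun a => by rw [MonoidHom.comp_apply, kap_of]; rfl
  exact DFunLike.congr_fun this g

lemma kap_mul (g h : RAAG Γ) (W : Wall Γ) :
    (kap Γ (g * h)).c W = (kap Γ g).c W * (kap Γ h).c (g⁻¹ • W) := by
  rw [c_mul, kap_p]; rfl

lemma Sp_comm (x y : RAAG Γ) : Sp Γ x y = Sp Γ y x := Set.ext fun _ => ne_comm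

lemma Sp_self (x : RAAG Γ) : Sp Γ x x = ∅ := Set.ext fun _ => by simp [Sp]

lemma Sp_xor (x y z : RAAG Γ) (W : Wall Γ) :
    W ∈ Sp Γ x z ↔ ¬(W ∈ Sp Γ x y ↔ W ∈ Sp Γ y z) := by
  simp only [Sp, Set.mem_ofPred_eq]
  generalize (kap Γ x).c W = a
  generalize (kap Γ y).c W = b
  generalize (kap Γ z).c W = c
  revert a b c; decide

lemma Sp_tri (x y z : RAAG Γ) : Sp Γ x z ⊆ Sp Γ x y ∪ Sp Γ y z := fun W h => by
  rw [Sp_xor x y z] at h
  by_contra h'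
  rw [Set.mem_union, not_or] at h'
  exact h (iff_of_false h'.1 h'.2)

lemma smul_mem_Sp (g x y : RAAG Γ) (W : Wall Γ) :
    g • W ∈ Sp Γ (g * x) (g * y) ↔ W ∈ Sp Γ x y := by
  simp only [Sp, Set.mem_ofPred_eq, kap_mul, inv_smul_smul, ne_eq, mul_right_inj]

lemma Sp_step (g : RAAG Γ) (x : T × Bool) : Sp Γ g (g * wd Γ [x]) = {ew Γ g x} := by
  have h : ∀ (g : RAAG Γ) (a : T), Sp Γ g (g * PresentedGroup.of a) = {wl Γ a g} := fun g a => by
    ext W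
    simp only [Sp, Set.mem_ofPred_eq, kap_mul, kap_of, kg, ne_eq, left_eq_mul, ite_eq_right_iff,
      Set.mem_singleton_iff, inv_smul_eq_iff, smul_wl, mul_one]
    by_cases e : W = wl Γ a g
    · simp only [e, forall_const, iff_true]; decide
    · simp [e]
  obtain ⟨a, _ | _⟩ := x
  · have := h (g * wd Γ [(a, false)]) a
    rw [wd_false, inv_mul_cancel_right, Sp_comm] at this
    rw [wd_false, this]; simp [ew, wd_false]
  · exact h g a

lemma Sp_sub (g : RAAG Γ) (L : List (T × Bool)) :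
    ∀ W ∈ Sp Γ g (g * wd Γ L), W ∈ walls Γ g L := by
  induction L generalizing g with
  | nil => simp [wd_nil, Sp_self]
  | cons x L ih =>
    intro W h
    rw [wd_cons, ← mul_assoc] at h
    rcases Sp_tri _ (g * wd Γ [x]) _ h with h | h
    · rw [Sp_step] at h
      exact List.mem_cons.2 (Or.inl h)
    · exact List.mem_cons.2 (Or.inr (ih _ W h))

lemma Sp_of_nodup {g : RAAG Γ} {L : List (T × Bool)} (h : (walls Γ g L).Nodup) (W : Wall Γ) :
    W ∈ Sp Γ g (g * wd Γ L) ↔ W ∈ walls Γ g L := by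
  refine ⟨Sp_sub g L W, ?_⟩
  induction L generalizing g with
  | nil => simp [walls]
  | cons x L ih =>
    rw [walls, List.nodup_cons] at h
    intro hW
    rw [wd_cons, ← mul_assoc, Sp_xor _ (g * wd Γ [x]), Sp_step, Set.mem_singleton_iff]
    rcases List.mem_cons.1 hW with rfl | hW
    · exact fun e => h.1 (Sp_sub _ _ _ (e.1 rfl))
    · exact fun e => h.1 (e.2 (ih h.2 hW) ▸ hW)

lemma wd_invRev (L : List (T × Bool)) : wd Γ (FreeGroup.invRev L) = (wd Γ L)⁻¹ := by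
  rw [wd, wd, ← map_inv, FreeGroup.inv_mk]

lemma Sh.mul {r s : ℕ} {g h : RAAG Γ} (h1 : Sh Γ r g) (h2 : Sh Γ s h) : Sh Γ (r + s) (g * h) :=
  let ⟨L, e, l⟩ := h1; let ⟨L', e', l'⟩ := h2
  ⟨L ++ L', by rw [wd_append, e, e'], by rw [List.length_append]; omega⟩

lemma Sh.inv {r : ℕ} {g : RAAG Γ} (h : Sh Γ r g) : Sh Γ r g⁻¹ :=
  let ⟨L, e, l⟩ := h; ⟨_, by rw [wd_invRev, e], by rwa [FreeGroup.invRev_length]⟩

lemma Sh.mono {r s : ℕ} {g : RAAG Γ} (h : Sh Γ r g) (le : r ≤ s) : Sh Γ s g :=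
  let ⟨L, e, l⟩ := h; ⟨L, e, l.trans le⟩

lemma sh_one (r : ℕ) : Sh Γ r 1 := ⟨[], rfl, r.zero_le⟩

lemma sh_letter (x : T × Bool) : Sh Γ 1 (wd Γ [x]) := ⟨[x], rfl, le_rfl⟩

lemma sh_exists (g : RAAG Γ) : ∃ r, Sh Γ r g := let ⟨L, e⟩ := wd_surj g; ⟨_, L, e, le_rfl⟩

lemma sh_finite [Finite T] (r : ℕ) : {g : RAAG Γ | Sh Γ r g}.Finite :=
  ((List.finite_length_le (T × Bool) r).image (wd Γ)).subset fun _ ⟨L, e, l⟩ => ⟨L, l, e⟩

lemma lb_eq {N : Subgroup (RAAG Γ)} {W W' : Wall Γ} :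
    lb Γ N W = lb Γ N W' ↔ ∃ n ∈ N, W = n • W' :=
  Quotient.eq.trans ⟨fun ⟨n, e⟩ => ⟨n, n.2, e.symm⟩, fun ⟨n, hn, e⟩ => ⟨⟨n, hn⟩, e.symm⟩⟩

end raag

end Pool.Agent.P.MP_67c9d4_al.FR
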