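import Pool.Agent.P.MP_67c9d4_al.FC.Iface2

/-! Definitions for the reduction to fibres of finite rank. -/

set_option autoImplicit false

namespace Pool.Agent.P.MP_67c9d4_al.FR

open Equiv Wr Multiplicative FC

abbrev Z2 : Type := Multiplicative (ZMod 2)

section groups
variable {F W : Type} [Group F] [Group W]

/-- `g` is multiplicative on the subgroup `U`. -/
def Hm (U : Subgroup F) (g : F → W) : Prop := ∀ a ∈ U, ∀ b ∈ U, g (a * b) = g a * g b

/-- `U` is the free product of `A` with the free group on the family `c`. -/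
def FF {I : Type} (A : Subgroup F) (c : I → F) (U : Subgroup F) : Prop :=
  U = A ⊔ Subgroup.closure (Set.range c) ∧
    ∀ (W : Type) [Group W] (f : F → W) (y : I → W), Hm A f →
      ∃ g : F → W, Hm U g ∧ (∀ a ∈ A, g a = f a) ∧ ∀ i, g (c i) = y i

/-- `A` is a free factor of `U` with a finitely generated free complement. -/
def Fc (A U : Subgroup F) : Prop := ∃ (n : ℕ) (c : Fin n → F), FF A c U

/-- `U` is generated by `A` and `n` further elements. -/
def Gn (A U : Subgroup F) (n : ℕ) : Prop :=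
  ∃ b : Fin n → F, U = A ⊔ Subgroup.closure (Set.range b)

/-- The image of a subgroup under an automorphism. -/
def im (Φ : MulAut F) (A : Subgroup F) : Subgroup F := A.map Φ.toMonoidHom

/-- The intersection of `A` with `v⁻¹ B v`. -/
def Dv (A B : Subgroup F) (v : F) : Subgroup F := A ⊓ cj v⁻¹ B

/-- `g` lies in the double coset `B v A`. -/
def Dc (B : Subgroup F) (v : F) (A : Subgroup F) (g : F) : Prop :=
  ∃ b ∈ B, ∃ a ∈ A, g = b * v * a

/-- The translates of `A` generate. -/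
def Gt (Φ : MulAut F) (A : Subgroup F) : Prop := ⨆ i : ℤ, im (Φ ^ i) A = ⊤

/-- The subgroup generated by `A, Φ A, ..., Φ ^ k A`. -/
def Vk (Φ : MulAut F) (A : Subgroup F) (k : ℕ) : Subgroup F := ⨆ i : ℕ, ⨆ _ : i ≤ k, im (Φ ^ i) A

/-- `F` is a line of free products. -/
structure Line (Φ : MulAut F) (A : Subgroup F) {n : ℕ} (b : Fin n → F) : Prop where
  gt : Gt Φ A
  up : ∀ k, FF (Vk Φ A k) (fun i => (Φ ^ k) (b i)) (Vk Φ A (k + 1))
  dn : Fc (im Φ A) (Vk Φ A 1)

/-- The elements `v j` of `U` represent the double cosets `B g A` with `g` in `U` and `A`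
meeting `g⁻¹ B g`. -/
structure Rp (U A B : Subgroup F) {J : Type} (v : J → F) : Prop where
  mem : ∀ j, v j ∈ U
  ne : ∀ j, Dv A B (v j) ≠ ⊥
  dist : ∀ j j', Dc B (v j) A (v j') → j = j'
  cover : ∀ g ∈ U, Dv A B g ≠ ⊥ → ∃ j, Dc B (v j) A g

/-- The intersections are finitely generated and invariant. -/
structure Cusp (U A : Subgroup F) (Θ : MulAut F) {J : Type} (v : J → F) : Prop where
  rep : Rp U A (im Θ A) v
  fg : ∀ j, (Dv A (im Θ A) (v j)).FG
  inv : ∀ j d, d ∈ Dv A (im Θ A) (v j) ↔ (v j)⁻¹ * Θ d * v j ∈ Dv A (im Θ A) (v j)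

/-- The intersections at all levels from `k₀` on are given by the family `D`. -/
def Stab (Φ : MulAut F) (A : Subgroup F) (k₀ : ℕ) {E : Type} (D : E → Subgroup F) : Prop :=
  ∀ k, k₀ ≤ k → ∃ v : E → F, Rp (Vk Φ A k) A (im (Φ ^ k) A) v ∧
    ∀ e, Dv A (im (Φ ^ k) A) (v e) = D e

/-- The mapping torus of an invariant intersection. -/
def Tor {G : Type} [Group G] (i : F →* G) (A : Subgroup F) (Θ : MulAut F) (t : G) (v : F) :
    Subgroup G := (Dv A (im Θ A) v).map i ⊔ Subgroup.zpowers (t * i v)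

/-- The twists of the intersections become inner under `f`. -/
def Tw {J : Type} (f : F →* W) (A : Subgroup F) (Θ : MulAut F) (v : J → F) : Prop :=
  ∀ j, ∃ s, ∀ x ∈ Dv A (im Θ A) (v j), s⁻¹ * f x * s = f ((v j)⁻¹ * Θ x * v j)

/-- Edges of a graph whose vertices are known points or new vertices. -/
abbrev Ed (F : Type) : Type := (F ⊕ ℕ) × F × (F ⊕ ℕ)

/-- The element of an edge for given positions of the new vertices. -/
def el (π : ℕ → F) (e : Ed F) : F := Sum.elim id π e.1 * e.2.1 * (Sum.elim id π e.2.2)⁻¹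

/-- The graph generates at least `V` over `A`. -/
def Spans (A V : Subgroup F) (E : List (Ed F)) : Prop :=
  ∀ H : Subgroup F, A ≤ H → ∀ π, (∀ e ∈ E, el π e ∈ H) → V ≤ H

/-- The graph maps to the coset graph of `V`. -/
def Fits (V : Subgroup F) (E : List (Ed F)) : Prop := ∃ π, ∀ e ∈ E, el π e ∈ V

/-- The new vertices lie in `N` and are joined to known points. -/
def Conn (E : List (Ed F)) (N : Finset ℕ) : Prop :=
  (∀ e ∈ E, ∀ ν, e.1 = Sum.inr ν ∨ e.2.2 = Sum.inr ν → ν ∈ N) ∧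
    ∀ ν ∈ N, ∃ p, Relation.ReflTransGen
      (fun a b => ∃ e ∈ E, e.1 = a ∧ e.2.2 = b ∨ e.1 = b ∧ e.2.2 = a) (Sum.inl p) (Sum.inr ν)

/-- An independent family of nontrivial subgroups of `A`. -/
structure Fam (A : Subgroup F) {E : Type} (D : E → Subgroup F) : Prop where
  le : ∀ e, D e ≤ A
  ne : ∀ e, D e ≠ ⊥
  ext : ∀ (K : Type) [Group K] (χ : E → F → K), (∀ e, Hm (D e) (χ e)) →
    ∃ ψ : F → K, Hm A ψ ∧ ∀ e, ∃ k, ∀ d ∈ D e, ψ d = k * χ e d * k⁻¹

/-- The characters of order two of `A` that kill all `D e`. -/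
def Zs (A : Subgroup F) {E : Type} (D : E → Subgroup F) : Set (A →* Z2) :=
  {χ | ∀ e (d : A), (d : F) ∈ D e → χ d = 1}

/-- `G` is the HNN extension of `F` whose stable letter `t` induces `Θ` on `A`. -/
structure IsHN {G : Type} [Group G] (i : F →* G) (A : Subgroup F) (Θ : MulAut F) (t : G) :
    Prop where
  inj : Function.Injective i
  rel : ∀ a ∈ A, t⁻¹ * i a * t = i (Θ a)
  gen : Subgroup.closure (Set.range i ∪ {t}) = ⊤
  up : ∀ (W : Type) [Group W] (f : F →* W) (w : W), (∀ a ∈ A, w⁻¹ * f a * w = f (Θ a)) →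
    ∃ g : G →* W, (∀ x, g (i x) = f x) ∧ g t = w

/-- The right coset `U g`, as a point of the space of left cosets. -/
def pt (U : Subgroup F) (g : F) : F ⧸ U := ((g⁻¹ : F) : F ⧸ U)

/-- The two functions are conjugate on `M`. -/
def Cj (M : Subgroup F) (f g : F → W) : Prop := ∃ w, ∀ n ∈ M, f n = w * g n * w⁻¹

/-- The subgroup is mapped into itself by all endomorphisms. -/
def Ful (N : Subgroup F) : Prop := ∀ φ : F →* F, ∀ n ∈ N, φ n ∈ N

end groups

section free
variable {X : Type}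

/-- A connected set of vertices of the Cayley tree that contains the identity. -/
def Cn (S : Set (FreeGroup X)) : Prop :=
  1 ∈ S ∧ ∀ p ∈ S, Relation.ReflTransGen (fun a b => b ∈ S ∧ ∃ x, b = a * lt x) 1 p

/-- The loops in the image of `S` in the coset graph of `U`. -/
def LS (S : Set (FreeGroup X)) (U : Subgroup (FreeGroup X)) : Subgroup (FreeGroup X) :=
  Subgroup.closure {g | g ∈ U ∧ ∃ p ∈ S, ∃ q ∈ S, g = p * q⁻¹}

/-- The labels are letters and the known points lie in `S`. -/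
def Let (S : Set (FreeGroup X)) (E : List (Ed (FreeGroup X))) : Prop :=
  ∀ e ∈ E, (∃ x, e.2.1 = lt x) ∧ (∀ p, e.1 = Sum.inl p → p ∈ S) ∧ ∀ p, e.2.2 = Sum.inl p → p ∈ S

/-- An arrow with letter `x` in the graph glued to the image of `S` in the coset graph of `A`. -/
def Arr (S : Set (FreeGroup X)) (A : Subgroup (FreeGroup X)) (E : List (Ed (FreeGroup X)))
    (x : X × Bool) (y y' : (FreeGroup X ⧸ A) ⊕ ℕ) : Prop :=
  (∃ r ∈ S, r * lt x ∈ S ∧ y = Sum.inl (pt A r) ∧ y' = Sum.inl (pt A (r * lt x))) ∨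
    ∃ e ∈ E, e.2.1 = lt x ∧ y = e.1.map (pt A) id ∧ y' = e.2.2.map (pt A) id ∨
      e.2.1 = (lt x)⁻¹ ∧ y = e.2.2.map (pt A) id ∧ y' = e.1.map (pt A) id

open Classical in
/-- The initial segments of the reduced word. -/
def Pre (g : FreeGroup X) : Set (FreeGroup X) :=
  {r | ∃ L L', g.toWord = L ++ L' ∧ r = FreeGroup.mk L}

/-- The representation given by labels: the edge from `y` along the letter `x` has label
`l y x`. -/
def lab {Y W : Type} [Group W] (α : FreeGroup X →* Perm Y) (l : Y → X → W) :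
    FreeGroup X →* Wr Y W :=
  FreeGroup.lift fun x => ⟨α (FreeGroup.of x), fun y => l y x⟩

end free

/-- The covering action: reading `g` from `(y, β)` leads to `(g.p⁻¹ y, β * g.c y)`. -/
def cov {Y B : Type} [Group B] : Wr Y B →* Perm (Y × B) where
  toFun g :=
    { toFun := fun q => (g.p q.1, q.2 * (g.c (g.p q.1))⁻¹)
      invFun := fun q => (g.p⁻¹ q.1, q.2 * g.c q.1)
      left_inv := fun q => by simp
      right_inv := fun q => by simp }
  map_one' := by ext q <;> simp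
  map_mul' a b := by ext q <;> simp [mul_assoc]

section raag
variable {T : Type} (Γ : SimpleGraph T)

/-- Walls of the Salvetti cover. -/
def Wall : Type := Σ a : T, RAAG Γ ⧸ PS Γ (Γ.neighborSet a)

instance : MulAction (RAAG Γ) (Wall Γ) :=
  inferInstanceAs (MulAction (RAAG Γ) (Σ a : T, RAAG Γ ⧸ PS Γ (Γ.neighborSet a)))

/-- The wall dual to the edge from `g` to `g a`. -/
def wl (a : T) (g : RAAG Γ) : Wall Γ := ⟨a, (g : RAAG Γ ⧸ PS Γ (Γ.neighborSet a))⟩

/-- The wall dual to the edge that starts at `g` and reads the signed letter `x`. -/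
def ew (g : RAAG Γ) (x : T × Bool) : Wall Γ := wl Γ x.1 (bif x.2 then g else g * wd Γ [x])

/-- The walls crossed by the path that starts at `g` and reads the word. -/
def walls : RAAG Γ → List (T × Bool) → List (Wall Γ)
  | _, [] => []
  | g, x :: L => ew Γ g x :: walls (g * wd Γ [x]) L

open Classical in
/-- The image of a generator under the crossing cocycle. -/
noncomputable def kg (a : T) : Wr (Wall Γ) Z2 :=
  ⟨MulAction.toPerm (PresentedGroup.of a : RAAG Γ),
    fun W => if W = wl Γ a 1 then ofAdd 1 else 1⟩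

lemma of_smul_wl {a b : T} (h : Γ.Adj a b) :
    (PresentedGroup.of a : RAAG Γ) • wl Γ b 1 = wl Γ b 1 := by
  change wl Γ b (PresentedGroup.of a * 1) = wl Γ b 1
  unfold wl
  congr 1
  rw [QuotientGroup.eq]
  have : (PresentedGroup.of a : RAAG Γ) ∈ PS Γ (Γ.neighborSet b) :=
    Subgroup.subset_closure ⟨a, h.symm, rfl⟩
  simpa using this

lemma kg_comm (a b : T) (h : Γ.Adj a b) : Commute (kg Γ a) (kg Γ b) := by
  have e : ∀ a b, Γ.Adj a b → ∀ W : Wall Γ,
      (MulAction.toPerm (PresentedGroup.of a : RAAG Γ))⁻¹ W = wl Γ b 1 ↔ W = wl Γ b 1 := by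
    intro a b h W
    rw [Perm.inv_eq_iff_eq, MulAction.toPerm_apply, of_smul_wl Γ h]
  refine Wr.ext ?_ (funext fun W => ?_)
  · ext1 W
    change (PresentedGroup.of a : RAAG Γ) • (PresentedGroup.of b : RAAG Γ) • W =
      (PresentedGroup.of b : RAAG Γ) • (PresentedGroup.of a : RAAG Γ) • W
    rw [← mul_smul, ← mul_smul, (of_comm h).eq]
  · change (kg Γ a).c W * (kg Γ b).c _ = (kg Γ b).c W * (kg Γ a).c _
    have e1 := e a b h W
    have e2 := e b a h.symm W
    simp only [kg]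
    by_cases h1 : W = wl Γ a 1 <;> by_cases h2 : W = wl Γ b 1
    · rw [if_pos h1, if_pos h2, if_pos (e1.2 h2), if_pos (e2.2 h1)]
    · rw [if_pos h1, if_neg h2, if_neg (mt e1.1 h2), if_pos (e2.2 h1), mul_one, one_mul]
    · rw [if_neg h1, if_pos h2, if_pos (e1.2 h2), if_neg (mt e2.1 h1), mul_one, one_mul]
    · rw [if_neg h1, if_neg h2, if_neg (mt e1.1 h2), if_neg (mt e2.1 h1)]

/-- The crossing cocycle. -/
noncomputable def kap : RAAG Γ →* Wr (Wall Γ) Z2 := (raag_lift (kg Γ) (kg_comm Γ)).choose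

/-- The walls that separate `x` from `y`. -/
def Sp (x y : RAAG Γ) : Set (Wall Γ) := {W | (kap Γ x).c W ≠ (kap Γ y).c W}

/-- Shortest words. -/
def Geo (L : List (T × Bool)) : Prop := ∀ L', wd Γ L' = wd Γ L → L.length ≤ L'.length

/-- No letter can be moved next to its inverse. -/
def Red (L : List (T × Bool)) : Prop :=
  ∀ L₁ x L₂ L₃, L = L₁ ++ x :: (L₂ ++ (x.1, !x.2) :: L₃) → ∃ y ∈ L₂, ¬Γ.Adj y.1 x.1

/-- The word length is at most `r`. -/
def Sh (r : ℕ) (g : RAAG Γ) : Prop := ∃ L, wd Γ L = g ∧ L.length ≤ r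

/-- Every wall that separates `x` from all of the parabolic subgroup is close to it. -/
def Nr (S : Set T) (r : ℕ) (x : RAAG Γ) : Prop :=
  ∀ W, (∀ c ∈ PS Γ S, W ∈ Sp Γ c x) → ∃ c ∈ PS Γ S, ∃ v, Sh Γ r v ∧ W ∈ Sp Γ c (c * v)

/-- Labels: orbits of walls. -/
def Lb (N : Subgroup (RAAG Γ)) : Type := Quotient (MulAction.orbitRel N (Wall Γ))

/-- The label of a wall. -/
def lb (N : Subgroup (RAAG Γ)) (W : Wall Γ) : Lb Γ N := Quotient.mk _ W

/-- Labels are adjacent when they occur in a common translate of `B`. -/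
def LG (N : Subgroup (RAAG Γ)) (B : Set (Wall Γ)) : SimpleGraph (Lb Γ N) where
  Adj l l' := l ≠ l' ∧ ∃ (y : RAAG Γ), ∃ W ∈ B, ∃ W' ∈ B, lb Γ N (y • W) = l ∧ lb Γ N (y • W') = l'
  symm := ⟨fun _ _ ⟨h, y, W, hW, W', hW', e, e'⟩ => ⟨h.symm, y, W', hW', W, hW, e', e⟩⟩
  loopless := ⟨fun _ h => h.1 rfl⟩

end raag

/-- The difference of two homomorphisms. -/
def dd {H W : Type} [Group H] [Group W] (l s : H →* W) (h : H) : W := l h * (s h)⁻¹

/-- The elements of `Q` have labels in a finite group. -/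
structure Thick {H W : Type} [Group H] [Group W] (l s : H →* W) (Q : Set H) : Prop where
  fs : Finite s.range
  fe : Finite (Subgroup.closure (dd l s '' Q))

/-- A thick labelling that sees `Λ`. -/
def TL {H : Type} [Group H] (Λ : Subgroup H) (Q : Set H) : Prop :=
  ∃ (W : Type) (_ : Group W) (l s : H →* W) (K : Subgroup W) (_ : K.FiniteIndex) (T : Type)
    (_ : Finite T) (Γ : SimpleGraph T) (f : K →* RAAG Γ) (S : Set T), Thick l s Q ∧
    ∀ h, s h = 1 → ∀ hK : l h ∈ K, (f ⟨l h, hK⟩ ∈ PS Γ S ↔ h ∈ Λ)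

section absorb
open Classical

/-- Bits on the edges of a coset graph. -/
abbrev MB {X : Type} (N : Subgroup (FreeGroup X)) : Type := (FreeGroup X ⧸ N) × X → Z2

/-- Toggle the bit of the edge `e` if `p` holds. -/
noncomputable def tg {E : Type} (p : Prop) (e : E) : E → Z2 :=
  fun e' => if p ∧ e' = e then ofAdd 1 else 1

/-- The data of an absorber. -/
structure AD (X H W : Type) [Group H] [Group W] where
  S : Set X
  Θ : MulAut (FreeGroup X)
  F1 : Set (FreeGroup X)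
  τ : FreeGroup X →* H
  α : FreeGroup X →* H
  pos : FreeGroup X → H
  l : H →* W
  s : H →* W
  N : Subgroup (FreeGroup X)

namespace AD
variable {X H W : Type} [Group H] [Group W] (d : AD X H W)

def A : Subgroup (FreeGroup X) := FS d.S
def B : Subgroup (FreeGroup X) := im d.Θ (FS d.S)

/-- The active region upstairs. -/
def Rg (v : FreeGroup X) : Prop := ∃ b ∈ d.B, ∃ u ∈ d.F1, v = b * u

/-- The label from position `v` to position `v'`. -/
def w (v v' : FreeGroup X) : W := (dd d.l d.s (d.pos v))⁻¹ * dd d.l d.s (d.pos v')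

/-- Inside edges. -/
def Ins (e : (FreeGroup X ⧸ d.N) × X) : Prop :=
  ∃ v, d.Rg v ∧ d.Rg (v * FreeGroup.of e.2) ∧ pt d.N v = e.1

/-- The label of an edge. -/
noncomputable def wt (e : (FreeGroup X ⧸ d.N) × X) : W :=
  if h : d.Ins e then d.w h.choose (h.choose * FreeGroup.of e.2) else 1

/-- The first level. -/
noncomputable def a1 : FreeGroup X →* Perm ((FreeGroup X ⧸ d.N) × MB d.N) :=
  cov.comp (lab (qa d.N) fun x y => tg (¬d.Ins (x, y)) (x, y))

/-- The edge along `y` from `q.1` lies in the piece of the orbit of `q`. -/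
def Pc (q : (FreeGroup X ⧸ d.N) × MB d.N) (y : X) : Prop :=
  ∃ a ∈ d.A, ∃ v, d.Rg v ∧ (d.a1 a)⁻¹ q = (pt d.N v, 1) ∧
    ∃ a' ∈ d.A, d.Rg (v * a') ∧ d.Rg (v * a' * FreeGroup.of y) ∧ pt d.N (v * a') = q.1

/-- The states. -/
abbrev Y : Type := ((FreeGroup X ⧸ d.N) × MB d.N) × MB d.N

/-- The second level. -/
noncomputable def a2 : FreeGroup X →* Perm d.Y :=
  cov.comp (lab d.a1 fun q y => tg (y ∈ d.S ∧ ¬d.Pc q y) (q.1, y))

/-- The absorber. -/
noncomputable def rho : FreeGroup X →* Wr d.Y W :=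
  lab d.a2 fun z y => if z.1.2 = 1 ∧ z.2 = 1 then d.wt (z.1.1, y) else 1

/-- The state over `v` with all bits zero. -/
def z0 (v : FreeGroup X) : d.Y := ((pt d.N v, 1), 1)

/-- The standing hypotheses. -/
structure Ok : Prop where
  fn : FN d.N
  eqv : ∀ b ∈ d.B, ∀ a ∈ d.A, ∀ g, d.pos (b * g * a) = d.τ b * d.pos g * d.α a
  kt : ∀ n ∈ d.N, d.s (d.τ n) = 1
  ka : ∀ n ∈ d.N, d.s (d.α n) = 1
  sep : ∀ u ∈ d.F1, ∀ u' ∈ d.F1, u' * u⁻¹ ∈ d.B ⊔ d.N → u' * u⁻¹ ∈ d.B
  one : 1 ∈ d.F1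
  pre : ∀ y ∈ d.S, Pre (d.Θ (FreeGroup.of y)) ⊆ d.F1

/-- The finite quotient sees the set `R`. -/
def Deep (R : Set (FreeGroup X)) : Prop :=
  ∀ g ∈ R, (g ∈ d.N → g = 1) ∧ (g ∈ d.B ⊔ d.N → g ∈ d.B)

/-- Differences of positions. -/
def QS (R : Set (FreeGroup X)) : Set H := {h | ∃ u ∈ R, ∃ g ∈ R, h = (d.pos u)⁻¹ * d.pos g}

/-- The group of labels of short paths. -/
def EQ (R : Set (FreeGroup X)) : Subgroup W := Subgroup.closure (dd d.l d.s '' d.QS R)

/-- Left translation of the coset graph. -/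
noncomputable def tr (g : FreeGroup X) (x : FreeGroup X ⧸ d.N) : FreeGroup X ⧸ d.N :=
  pt d.N (g * x.out⁻¹)

/-- The embedding of the cusp model at `g`. -/
noncomputable def nu (g : FreeGroup X) (z : (FreeGroup X ⧸ d.N) × MB d.N) : d.Y :=
  ((d.tr g z.1, fun e => if d.Ins e then 1 else z.2 (d.tr g⁻¹ e.1, e.2)),
    fun e => z.2 (d.tr g⁻¹ e.1, e.2))

end AD

/-- A statement about absorbers. -/
def OnAD (p : ∀ (X H W : Type) [Group H] [Group W], AD X H W → Prop) : Prop :=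
  ∀ (X H W : Type) [Finite X] [Group H] [Group W] (d : AD X H W), d.Ok → p X H W d

/-- The data of the model of a cusp; `C` is the active set. -/
structure MD (X H W : Type) [Group H] [Group W] where
  S : Set X
  C : Set (FreeGroup X)
  α : FreeGroup X →* H
  l : H →* W
  s : H →* W
  N : Subgroup (FreeGroup X)

namespace MD
variable {X H W : Type} [Group H] [Group W] (m : MD X H W)

def Ins (e : (FreeGroup X ⧸ m.N) × X) : Prop :=
  e.2 ∈ m.S ∧ ∃ a ∈ m.C, a * FreeGroup.of e.2 ∈ m.C ∧ pt m.N a = e.1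

noncomputable def a1 : FreeGroup X →* Perm ((FreeGroup X ⧸ m.N) × MB m.N) :=
  cov.comp (lab (qa m.N) fun x y => tg (¬m.Ins (x, y)) (x, y))

noncomputable def st : FreeGroup X →* Wr ((FreeGroup X ⧸ m.N) × MB m.N) W :=
  lab m.a1 fun z y => if z.2 = 1 ∧ m.Ins (z.1, y) then m.s (m.α z.1.out⁻¹) *
    dd m.l m.s (m.α (FreeGroup.of y)) * (m.s (m.α z.1.out⁻¹))⁻¹ else 1

/-- The states whose orbit meets the active set. -/
def Zp : Set ((FreeGroup X ⧸ m.N) × MB m.N) :=
  {z | ∃ a ∈ FS m.S, ∃ p ∈ m.C, (m.a1 a)⁻¹ (pt m.N p, 1) = z}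

end MD

/-- The set `D T`. -/
def DT {F : Type} [Group F] (D : Subgroup F) (T : Set F) : Set F := {g | ∃ x ∈ D, ∃ u ∈ T, g = x * u}

/-- The cusp model that belongs to an absorber. -/
def AD.md {X H W : Type} [Group H] [Group W] (d : AD X H W) (C : Set (FreeGroup X)) : MD X H W :=
  ⟨d.S, C, d.α, d.l, d.s, d.N⟩

/-- The output of an absorber. -/
def AbsOut {X J H W : Type} [Group H] [Group W] (S : Set X) (B : Subgroup (FreeGroup X))
    (D : J → Subgroup (FreeGroup X)) (T : Set (FreeGroup X)) (τ α : FreeGroup X →* H)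
    (l s : H →* W) (N : Subgroup (FreeGroup X)) (m : J → ℕ) : Prop :=
  ∃ (Y : Type) (_ : Finite Y) (ρ : FreeGroup X →* Wr Y W) (N₁ : Subgroup (FreeGroup X))
    (M C : Set Y) (ν : C ≃ Σ j, Fin (m j) × (MD.mk S (DT (D j) T) α l s N).Zp), FN N₁ ∧
    (∀ n ∈ N₁, (ρ n).p = 1) ∧ M.ncard = N.relIndex B ∧
    (∀ y ∈ M, Cj (N₁ ⊓ B) (fun n => (ρ n).c y) fun n => l (τ n)) ∧
    (∀ y ∉ M, ∀ n ∈ N₁ ⊓ B, (ρ n).c y = 1) ∧
    (∀ y : C, Cj (N₁ ⊓ FS S) (fun n => (ρ n).c y)
      fun n => ((MD.mk S (DT (D (ν y).1) T) α l s N).st n).c (ν y).2.2) ∧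
    ∀ y ∉ C, ∀ n ∈ N₁ ⊓ FS S, (ρ n).c y = 1

end absorb

end Pool.Agent.P.MP_67c9d4_al.FR
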