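import Pool.Agent.P.MP_67c9d4_al.FR.Base
import Pool.Agent.P.MP_67c9d4_al.SP.Defs

/-! The statements of the steps. -/

set_option autoImplicit false

namespace Pool.Agent.P.MP_67c9d4_al.FR

open Equiv Wr Multiplicative FC

/-! ### Free factors -/

-- deps:
def S_TRV : Prop := ∀ (F E : Type) [Group F] (A B : Subgroup F) (v : E → F),
  (∀ e e', Dc B (v e) A (v e') → e = e') → ∃ g o : F ⧸ A → F, (∀ y, pt A (g y) = y) ∧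
    (∀ y, o y * g y ∈ B) ∧ (∀ y, ∀ b ∈ B, o ((qa A b)⁻¹ y) = o y) ∧
    (∀ e, o (pt A (v e)⁻¹) = v e ∧ g (pt A (v e)⁻¹) = (v e)⁻¹) ∧
    ∀ y e, Dc B (v e) A (o y) → o y = v e

-- deps:
def S_FFL : Prop := ∀ (F I : Type) [Group F] (A V U : Subgroup F) (c : I → F), FF V c U → A ≤ V →
  FF A c (A ⊔ Subgroup.closure (Set.range c))

-- deps: TRV
def S_KUR : Prop := ∀ (F I E : Type) [Group F] (A B U : Subgroup F) (c : I → F) (v : E → F),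
  FF B c U → A ≤ U → (∀ e, v e ∈ U) → (∀ e e', Dc B (v e) A (v e') → e = e') →
  ∀ (K : Type) [Group K] (χ : E → F → K), (∀ e, Hm (Dv A B (v e)) (χ e)) →
    ∃ ψ : F → K, Hm A ψ ∧ ∀ e, ∃ k, ∀ d ∈ Dv A B (v e), ψ d = k * χ e d * k⁻¹

-- deps: KUR
def S_MALF : Prop := ∀ (F : Type) [Group F] (A U : Subgroup F), Fc A U → ∀ g ∈ U, ∀ a ∈ A,
  a ≠ 1 → g⁻¹ * a * g ∈ A → g ∈ A

-- deps: RFF
def S_HOPF : Prop := (∀ (H : Type) [Group H], Group.FG H → RF H → ∀ f : H →* H,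
    Function.Surjective f → Function.Injective f) ∧
  ∀ (X : Type) (U : Subgroup (FreeGroup X)), RF U

-- deps: HOPF
def S_RH : Prop := ∀ (X : Type) (A V : Subgroup (FreeGroup X)) (m n : ℕ)
  (c : Fin m → FreeGroup X) (b : Fin n → FreeGroup X), A.FG → FF A c V →
  V = A ⊔ Subgroup.closure (Set.range b) → m ≤ n ∧ (m = n → FF A b V)

/-! ### The structure theorem -/

-- deps:
def S_TREE1 : Prop := ∀ (X : Type) (S : Set (FreeGroup X)) (U : Subgroup (FreeGroup X))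
  (p : FreeGroup X) (x : X × Bool), Cn S → p ∈ S → Fc (LS S U) (LS (insert (p * lt x) S) U)

-- deps:
def S_FULL : Prop := ∀ (X : Type) (S : Set (FreeGroup X)) (U : Subgroup (FreeGroup X)),
  S.Finite → Cn S → U.FG → ∃ S', S ⊆ S' ∧ S'.Finite ∧ Cn S' ∧ LS S' U = U

-- deps: TREE1 FULL
def S_TREE : Prop := ∀ (X : Type) (S : Set (FreeGroup X)) (U : Subgroup (FreeGroup X)),
  S.Finite → Cn S → U.FG → Fc (LS S U) U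

-- deps:
def S_BOUND : Prop := ∀ (F : Type) [Group F] (A V : Subgroup F) (E : List (Ed F)) (N : Finset ℕ),
  A ≤ V → Spans A V E → Fits V E → Conn E N → N.card ≤ E.length ∧ Gn A V (E.length - N.card)

-- deps:
def S_INIT : Prop := ∀ (X : Type) (A V : Subgroup (FreeGroup X)) (m : ℕ), Gn A V m →
  ∃ (E : List (Ed (FreeGroup X))) (N : Finset ℕ), Let {1} E ∧ Spans A V E ∧ Fits V E ∧ Conn E N ∧
    E.length ≤ m + N.card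

-- deps:
def S_TERM : Prop := ∀ (X : Type) (S : Set (FreeGroup X)) (A V : Subgroup (FreeGroup X))
  (E : List (Ed (FreeGroup X))) (N : Finset ℕ), S.Finite → Cn S → LS S A = A → Let S E →
  Spans A V E → Conn E N → (∀ x y y₁ y₂, Arr S A E x y y₁ → Arr S A E x y y₂ → y₁ = y₂) →
  LS S V ≤ A

-- deps:
def S_FSTEP : Prop := ∀ (X : Type) (S : Set (FreeGroup X)) (A V : Subgroup (FreeGroup X))
  (E : List (Ed (FreeGroup X))) (N : Finset ℕ), A ≤ V → Let S E → Spans A V E → Fits V E →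
  Conn E N → ∀ x y y₁ y₂, Arr S A E x y y₁ → Arr S A E x y y₂ → y₁ ≠ y₂ →
  (∃ E' N', Let S E' ∧ Spans A V E' ∧ Fits V E' ∧ Conn E' N' ∧ E'.length + 1 = E.length ∧
    N'.card + 1 = N.card) ∨
  ∃ p ∈ S, ∃ q ∈ S, p * q⁻¹ ∈ V ∧ p * q⁻¹ ∉ A ∧ ∃ E', Spans (A ⊔ Subgroup.zpowers (p * q⁻¹)) V E' ∧
    Fits V E' ∧ Conn E' N ∧ E'.length + 1 = E.length

-- deps: BOUND INIT TERM FSTEP
def S_FOLD : Prop := ∀ (X : Type) (S : Set (FreeGroup X)) (A V : Subgroup (FreeGroup X)) (m : ℕ),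
  S.Finite → Cn S → LS S A = A → Gn A V m → ¬LS S V ≤ A →
  ∃ p ∈ S, ∃ q ∈ S, p * q⁻¹ ∈ V ∧ p * q⁻¹ ∉ A ∧ ∃ m', m = m' + 1 ∧
    Gn (A ⊔ Subgroup.zpowers (p * q⁻¹)) V m'

-- deps: TREE FULL FOLD RH FFL
def S_MINI : Prop := ∀ (X : Type) (Φ : MulAut (FreeGroup X)) (n : ℕ),
  (∀ A m, A.FG → Gt Φ A → Gn A (Vk Φ A 1) m → n ≤ m) → ∀ A, A.FG → Gt Φ A →
  ∀ b : Fin n → FreeGroup X, Vk Φ A 1 = A ⊔ Subgroup.closure (Set.range b) → FF A b (Vk Φ A 1)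

-- deps: MINI TREE FULL
def S_BOTH : Prop := ∀ (X : Type) (Φ : MulAut (FreeGroup X)) (A₀ : Subgroup (FreeGroup X)),
  A₀.FG → Gt Φ A₀ → ∃ (A : Subgroup (FreeGroup X)) (n : ℕ) (b : Fin n → FreeGroup X),
    A.FG ∧ Line Φ A b

-- deps: MALF
def S_LINE : Prop := ∀ (F : Type) [Group F] (Φ : MulAut F) (A : Subgroup F) (n : ℕ)
  (b : Fin n → F), Line Φ A b →
  (∀ k m, Fc (Vk Φ A k) (Vk Φ A (k + m))) ∧
  (∀ k m, Fc (im (Φ ^ k) (Vk Φ A m)) (Vk Φ A (k + m))) ∧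
  (∀ x, ∃ m : ℕ, ∀ l, m ≤ l → (Φ ^ l) x ∈ Vk Φ A (2 * l)) ∧
  (∀ k, ∃ ρ : F → F, Hm (Vk Φ A (k + 1)) ρ ∧ (∀ x ∈ Vk Φ A k, ρ x = x) ∧
    (∀ x ∈ Vk Φ A (k + 1), ρ x ∈ Vk Φ A k) ∧ ∀ x ∈ im (Φ ^ (k + 1)) A, ρ x ∈ im (Φ ^ k) A) ∧
  ∀ g, ∀ a ∈ A, a ≠ 1 → g⁻¹ * a * g ∈ A → g ∈ A

-- deps: LINE
def S_UP : Prop := ∀ (F : Type) [Group F] (Φ : MulAut F) (A : Subgroup F) (n : ℕ)
  (b : Fin n → F), Line Φ A b → ∀ k, 0 < k → ∀ (W : Type) [Group W] (f : F → W) (w : W),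
  Hm (Vk Φ A k) f → (∀ a ∈ A, w⁻¹ * f a * w = f ((Φ ^ k) a)) →
  ∃ g : F →* W, (∀ x ∈ Vk Φ A k, g x = f x) ∧ ∀ x, g ((Φ ^ k) x) = w⁻¹ * g x * w

/-! ### Stable intersections -/

-- deps:
def S_CMPA : Prop := ∀ (X E : Type) (A : Subgroup (FreeGroup X))
  (D : E → Subgroup (FreeGroup X)), A.FG → Fam A D → Finite (A →* Z2) ∧ Finite E ∧
    Nat.card E ≤ Nat.card (A →* Z2) ∧ (∀ e, (D e).FG) ∧
    Nat.card (A →* Z2) = (Zs A D).ncard * Nat.card (∀ e, D e →* Z2)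

-- deps: HOPF CMPA
def S_CMPB : Prop := ∀ (X E E' : Type) (A : Subgroup (FreeGroup X))
  (D : E → Subgroup (FreeGroup X)) (D' : E' → Subgroup (FreeGroup X)) (π : E' → E)
  (a : E' → FreeGroup X), A.FG → Fam A D → Fam A D' → (∀ e, a e ∈ A) →
  (∀ e, D' e ≤ cj (a e) (D (π e))) → Zs A D ⊆ Zs A D' ∧ (Zs A D' ⊆ Zs A D →
    Function.Surjective π ∧ (Function.Injective π → ∀ e, D' e = cj (a e) (D (π e))))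

-- deps: LINE KUR CMPA CMPB
def S_STAB1 : Prop := ∀ (X : Type) (Φ : MulAut (FreeGroup X)) (A : Subgroup (FreeGroup X))
  (n : ℕ) (b : Fin n → FreeGroup X), A.FG → Line Φ A b →
  ∃ (k₀ : ℕ) (E : Type) (_ : Finite E) (D : E → Subgroup (FreeGroup X)), Stab Φ A k₀ D

-- deps: LINE KUR CMPA CMPB
def S_STAB2 : Prop := ∀ (X : Type) (Φ : MulAut (FreeGroup X)) (A : Subgroup (FreeGroup X))
  (n : ℕ) (b : Fin n → FreeGroup X) (k₀ : ℕ) (E : Type) (D : E → Subgroup (FreeGroup X)),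
  A.FG → Line Φ A b → Stab Φ A k₀ D → ∀ k, k₀ ≤ k → ∀ e, ∃ e' w, ∀ d,
    d ∈ D e' ↔ w⁻¹ * (Φ ^ k) d * w ∈ D e

-- deps: STAB1 STAB2 LINE KUR CMPA
def S_STAB : Prop := ∀ (X : Type) (Φ : MulAut (FreeGroup X)) (A : Subgroup (FreeGroup X))
  (n : ℕ) (b : Fin n → FreeGroup X), A.FG → Line Φ A b →
  ∃ (k : ℕ) (J : Type) (_ : Finite J) (v : J → FreeGroup X), 0 < k ∧ Cusp (Vk Φ A k) A (Φ ^ k) v

-- deps:
def S_BAS : Prop := ∀ (X : Type) (Ψ : MulAut (FreeGroup X)) (A U : Subgroup (FreeGroup X)),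
  A.FG → Fc A U → Fc (im Ψ A) U → ∃ (Y : Type) (_ : Finite Y) (S : Set Y)
    (ι : FreeGroup Y →* FreeGroup X) (Θ : MulAut (FreeGroup Y)), Function.Injective ι ∧
    ι.range = U ∧ (FS S).map ι = A ∧ ∀ a ∈ FS S, ι (Θ a) = Ψ (ι a)

-- deps: BOTH LINE UP STAB BAS
def S_STRUCT : Prop := ∀ (X : Type) (φ : MulAut (FreeGroup X)), Group.FG (MT φ) →
  ∃ (k : ℕ) (Y : Type) (_ : Finite Y) (S : Set Y) (Θ : MulAut (FreeGroup Y))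
    (i : FreeGroup Y →* MT (φ ^ k)) (t : MT (φ ^ k)) (J : Type) (_ : Finite J)
    (v : J → FreeGroup Y), 0 < k ∧ IsHN i (FS S) Θ t ∧ Cusp ⊤ (FS S) Θ v ∧
    (∀ x, (i x).right = 1) ∧ t.right ≠ 1

/-! ### The model group -/

-- deps: T3 VPS
def S_FP : Prop := ∀ (H₁ H₂ : Type) [Group H₁] [Group H₂], VP (⊥ : Subgroup H₁) →
  VP (⊥ : Subgroup H₂) → VP (⊥ : Subgroup (Monoid.Coprod H₁ H₂)) ∧
    VP (Monoid.Coprod.inl : H₁ →* Monoid.Coprod H₁ H₂).range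

-- deps: FP
def S_KJ : Prop := (∀ (Y : Type) [Finite Y], VP (⊥ : Subgroup (FreeGroup Y))) ∧
  ∀ (G J : Type) [Group G] [Finite J] (P : J → Subgroup G), (∀ j, VP (⊥ : Subgroup (P j))) →
    ∃ (K : Type) (_ : Group K) (ι : J → G → K) (ψ : K →* G), VP (⊥ : Subgroup K) ∧
      (∀ j, Hm (P j) (ι j)) ∧ ∀ j, ∀ x ∈ P j, ψ (ι j x) = x

-- deps: TRV
def S_KEMB : Prop := ∀ (F I J K G : Type) [Group F] [Group K] [Group G] (A B : Subgroup F)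
  (c : I → F) (v : J → F) (ι : J → F → K) (ψ : K →* G) (i : F →* G), FF B c ⊤ → A.FG →
  Rp ⊤ A B v → (∀ j, Hm (Dv A B (v j)) (ι j)) → (∀ j, ∀ x ∈ Dv A B (v j), ψ (ι j x) = i x) →
  ∃ (E : Type) (_ : Finite E) (f : F → Monoid.Coprod K (FreeGroup E))
    (ψ' : Monoid.Coprod K (FreeGroup E) →* G), Hm A f ∧ (∀ a ∈ A, ψ' (f a) = i a) ∧
    ∀ j, ∃ κ : Monoid.Coprod K (FreeGroup E), ∀ x ∈ Dv A B (v j), f x = κ * Monoid.Coprod.inl (ι j x) * κ⁻¹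

-- deps: FP KJ KEMB
def S_MODEL : Prop := ∀ (Y G J : Type) [Finite Y] [Group G] [Finite J] (S : Set Y)
  (Θ : MulAut (FreeGroup Y)) (i : FreeGroup Y →* G) (t : G) (v : J → FreeGroup Y),
  IsHN i (FS S) Θ t → Cusp ⊤ (FS S) Θ v →
  (∀ j, VP (⊥ : Subgroup (Tor i (FS S) Θ t (v j)))) →
  ∃ (H : Type) (_ : Group H) (f : FreeGroup Y →* H) (Λ : Subgroup H), Function.Injective f ∧
    (∀ x, f x ∈ Λ ↔ x ∈ FS S) ∧ VP Λ ∧ VP (⊥ : Subgroup H) ∧ Tw f (FS S) Θ v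

/-! ### Thick labellings -/

-- deps:
def S_G2 : Prop := ∀ (T : Type) (Γ : SimpleGraph T),
  (∀ g, ∃ L, Geo Γ L ∧ wd Γ L = g) ∧
  (∀ S L, Geo Γ L → wd Γ L ∈ PS Γ S → ∀ x ∈ L, x.1 ∈ S) ∧
  (∀ L, Geo Γ L → Red Γ L) ∧
  (∀ L L', Geo Γ (L ++ L') → Geo Γ L ∧ Geo Γ L') ∧
  (∀ L L', Red Γ (L ++ L') → Red Γ L ∧ Red Γ L') ∧
  ∀ L, Geo Γ L → Geo Γ (FreeGroup.invRev L)

-- deps: G2
def S_G1 : Prop := ∀ (T : Type) (Γ : SimpleGraph T),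
  (∀ L, Red Γ L → Geo Γ L ∧ ∀ g, (walls Γ g L).Nodup) ∧
  ∀ g, (Sp Γ 1 g).Finite ∧ ∀ r, Sh Γ r g ↔ (Sp Γ 1 g).ncard ≤ r

-- deps: G2 G1
def S_CAN : Prop := ∀ (T : Type) (Γ : SimpleGraph T) (L M : List (T × Bool)) (W : Wall Γ),
  Geo Γ L → Geo Γ M → W ∈ Sp Γ 1 (wd Γ L) → W ∈ Sp Γ 1 (wd Γ M) →
  ∃ x L' M', x ∈ L ∧ x ∈ M ∧ wd Γ L = wd Γ (x :: L') ∧ wd Γ M = wd Γ (x :: M') ∧
    L'.length + 1 = L.length ∧ M'.length + 1 = M.length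

-- deps: G2 G1 CAN
def S_MED : Prop := ∀ (T : Type) (Γ : SimpleGraph T),
  (∀ S x, ∃ z ∈ PS Γ S, ∀ c ∈ PS Γ S, Disjoint (Sp Γ z x) (Sp Γ z c)) ∧
  ∀ g h, ∃ μ, Sp Γ 1 μ = Sp Γ 1 g ∩ Sp Γ 1 h

-- deps: G1 MED
def S_CNT : Prop := ∀ (T : Type) [Finite T] (Γ : SimpleGraph T) (ρ : ℕ), ∃ r, ∀ S x,
  Nr Γ S ρ x → ∃ z ∈ PS Γ S, Sh Γ r (z⁻¹ * x)

-- deps:
-- imports: Pool.Agent.P.MP_67c9d4_al.FC.COMP1
def S_ACT : Prop := ∀ (T Y : Type) (Γ : SimpleGraph T) (Mv : T × Bool → Y → Y → Prop), Cx Γ Mv →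
  ∃ a : RAAG Γ →* Perm (Y × (T → Bool)),
    (∀ L y y', Walk Mv L y y' → (a (wd Γ L))⁻¹ (y, fun _ => false) = (y', fun _ => false)) ∧
    ∀ S, ∀ g ∈ PS Γ S, ∀ q, ∃ L, (∀ x ∈ L, x.1 ∈ S) ∧ Walk Mv L q.1 ((a g)⁻¹ q).1

-- deps: G2 G1 CNT ACT
def S_DCS : Prop := ∀ (T : Type) [Finite T] (Γ : SimpleGraph T) (S S' : Set T) (g h : RAAG Γ),
  ¬Dc (PS Γ S') g (PS Γ S) h → ∃ N, FN N ∧ ∀ n ∈ N, ¬Dc (PS Γ S') g (PS Γ S) (h * n)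

-- deps: G2 G1 CNT DCS
def S_TRED : Prop := ∀ (T : Type) [Finite T] (Γ : SimpleGraph T) (B : Set (Wall Γ)), B.Finite →
  ∃ N, FN N ∧ ∀ L, Geo Γ L → ∀ (l₁ : List (Wall Γ)) W (l₂ : List (Wall Γ)) W' l₃, walls Γ 1 L = l₁ ++ W :: (l₂ ++ W' :: l₃) →
    lb Γ N W = lb Γ N W' → ∃ Z ∈ l₂, ¬(LG Γ N B).Adj (lb Γ N Z) (lb Γ N W)

-- deps:
def S_HOL : Prop := ∀ (T R : Type) [Finite T] [Group R] (Γ : SimpleGraph T) (a : R →* Perm T),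
  (∀ h x y, Γ.Adj x y → Γ.Adj (a h x) (a h y)) →
  ∃ (W : Type) (_ : Group W) (K : Subgroup W) (_ : K.FiniteIndex) (f : K →* RAAG Γ) (r : T → W)
    (s : R →* W), Finite s.range ∧ (∀ x, r x * r x = 1) ∧
    (∀ x y, Γ.Adj x y → Commute (r x) (r y)) ∧ (∀ h x, s h * r x * (s h)⁻¹ = r (a h x)) ∧
    ∀ (L : List T) (hK : (L.map r).prod ∈ K), ∃ L' : List (T × Bool), L'.map Prod.fst = L ∧
      f ⟨_, hK⟩ = wd Γ L'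

-- deps: G2 G1 HOL
def S_TLW : Prop := ∀ (T : Type) [Finite T] (Γ : SimpleGraph T) (N : Subgroup (RAAG Γ))
  (B : Set (Wall Γ)), FN N → B.Finite → (∀ a, wl Γ a 1 ∈ B) → Finite (Lb Γ N) ∧
  ∃ (W : Type) (_ : Group W) (l s : RAAG Γ →* W) (K : Subgroup W) (_ : K.FiniteIndex)
    (f : K →* RAAG (LG Γ N B)), Thick l s {q | Sp Γ 1 q ⊆ B} ∧ ∀ L, s (wd Γ L) = 1 →
      ∀ hK : l (wd Γ L) ∈ K, ∃ L' : List (Lb Γ N × Bool),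
        L'.map Prod.fst = (walls Γ 1 L).map (lb Γ N) ∧ f ⟨_, hK⟩ = wd _ L'

-- deps: G2 G1 TRED TLW
def S_TLR : Prop := ∀ (T : Type) [Finite T] (Γ : SimpleGraph T) (S : Set T) (Q : Set (RAAG Γ)),
  Q.Finite → TL (PS Γ S) Q

-- deps: TLR
def S_TL : Prop := ∀ (H : Type) [Group H] (Λ : Subgroup H) (Q : Set H), VP Λ → Q.Finite → TL Λ Q

/-! ### Absorbers -/

-- deps:
def S_POS : Prop := ∀ (F H : Type) [Group F] [Group H] (A B : Subgroup F) (τ α : F →* H),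
  (∀ v, ∃ v' c, Dc B v' A v ∧ ∀ x ∈ Dv A B v', τ (v' * x * v'⁻¹) = c * α x * c⁻¹) →
  ∃ pos : F → H, ∀ b ∈ B, ∀ a ∈ A, ∀ g, pos (b * g * a) = τ b * pos g * α a

-- deps:
def S_LIFT : Prop := OnAD fun _ _ _ _ _ d =>
  (∀ b ∈ d.B, ∀ v, d.Rg (b * v) ↔ d.Rg v) ∧
  (∀ v v', d.Rg v → d.Rg v' → pt d.N v = pt d.N v' → ∃ n ∈ d.N, n ∈ d.B ∧ v' = n * v) ∧
  (∀ n ∈ d.N, n ∈ d.B → ∀ v v', d.w (n * v) (n * v') = d.w v v') ∧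
  (∀ v y, d.Rg v → d.Rg (v * FreeGroup.of y) → d.wt (pt d.N v, y) = d.w v (v * FreeGroup.of y)) ∧
  (∀ v v' q, d.pos v' = d.pos v * q →
    d.w v v' = d.s (d.pos v) * dd d.l d.s q * (d.s (d.pos v))⁻¹) ∧
  ∀ b ∈ d.B, ∃ c, ∀ n ∈ d.N, n ∈ d.B → d.w b (b * n) = c * d.l (d.τ n) * c⁻¹

-- deps:
def S_POT : Prop := ∀ (X : Type) [Finite X] (N : Subgroup (FreeGroup X))
  (P : (FreeGroup X ⧸ N) × X → Prop) (η : FreeGroup X →* Wr (FreeGroup X ⧸ N) Z2)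
  (ψ : FreeGroup X ⧸ N → Z2), FN N → (∀ h, (η h).p = qa N h) →
  (∀ x y, P (x, y) → (η (FreeGroup.of y)).c x = ψ x * ψ ((qa N (FreeGroup.of y))⁻¹ x)) →
  ∀ h x x', (cov (lab (qa N) (fun x y => tg (¬P (x, y)) (x, y)) h))⁻¹ (x, 1) = (x', 1) →
    (η h).c x = ψ x * ψ x'

-- deps: LIFT POT
def S_PIECE : Prop := OnAD fun _ _ _ _ _ d => ∀ a ∈ d.A, ∀ v v', d.Rg v → d.Rg v' →
  (d.a1 a)⁻¹ (pt d.N v, 1) = (pt d.N v', 1) → ∃ n ∈ d.N, n ∈ d.B ∧ ∃ a' ∈ d.A, v' = n * v * a'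

-- deps: LIFT
def S_INS : Prop := OnAD fun _ _ _ _ _ d =>
  (∀ v x, d.Rg v → d.Rg (v * lt x) →
    (∀ β₁ β₂, ((d.a2 (lt x))⁻¹ ((pt d.N v, β₁), β₂)).1 = (pt d.N (v * lt x), β₁)) ∧
    (∀ β₂, (d.a2 (lt x))⁻¹ ((pt d.N v, 1), β₂) = ((pt d.N (v * lt x), 1), β₂)) ∧
    (d.rho (lt x)).c (d.z0 v) = d.w v (v * lt x)) ∧
  (∀ z x, (d.rho (lt x)).c z ≠ 1 → ∃ v, d.Rg v ∧ d.Rg (v * lt x) ∧ z = d.z0 v) ∧
  (∀ h, (d.rho h).p = d.a2 h) ∧ (∀ h z, ((d.a2 h)⁻¹ z).1 = (d.a1 h)⁻¹ z.1) ∧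
  ∀ h q, ((d.a1 h)⁻¹ q).1 = (qa d.N h)⁻¹ q.1

-- deps: LIFT INS
def S_BM : Prop := OnAD fun _ _ _ _ _ d =>
  (∀ b ∈ d.B, ∀ b' ∈ d.B, (d.rho b').c (d.z0 b) = d.w b (b * b')) ∧
  ∀ z : d.Y, (∃ b ∈ d.B, z.1.1 = pt d.N b) → (∀ b ∈ d.B, z ≠ d.z0 b) →
    ∀ b' ∈ d.B, (d.rho b').c z = 1

-- deps:
def S_EDGE : Prop := ∀ (X : Type) (S : Set X) (Θ : MulAut (FreeGroup X)) (g : FreeGroup X),
  g ∉ im Θ (FS S) → ∃ R : Set (FreeGroup X), R.Finite ∧ ∀ N : Subgroup (FreeGroup X), N.Normal →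
    (∀ r ∈ R, r ∈ N → r = 1) → ∀ x : FreeGroup X ⧸ N,
    ∃ (η : FreeGroup X →* Wr (FreeGroup X ⧸ N) Z2) (r₀ : FreeGroup X), r₀ ∈ R ∧
      (∀ h, (η h).p = qa N h) ∧ (∀ b ∈ im Θ (FS S), ∀ y, (η b).c y = 1) ∧ (η g).c x ≠ 1 ∧
      ∀ h y, (η h).c y ≠ 1 → ∃ r ∈ Θ '' Pre (Θ⁻¹ h), (qa N r)⁻¹ y = (qa N r₀)⁻¹ x

-- deps: LIFT POT INS EDGE
def S_BJ : Prop := ∀ (X : Type) [Finite X] (S : Set X) (Θ : MulAut (FreeGroup X))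
  (F1 : Set (FreeGroup X)), F1.Finite → ∃ R : Set (FreeGroup X), R.Finite ∧
  ∀ (H W : Type) [Group H] [Group W] (d : AD X H W), d.S = S → d.Θ = Θ → d.F1 = F1 → d.Ok →
    d.Deep R → ∀ z : d.Y, (∀ b ∈ d.B, z.1.1 ≠ pt d.N b) →
      ∃ c, ∀ b ∈ d.B, (d.rho b).c z ∈ cj c (d.EQ R)

-- deps: LIFT PIECE INS
def S_AJ : Prop := ∀ (X : Type) [Finite X] (S : Set X) (Θ : MulAut (FreeGroup X))
  (F1 : Set (FreeGroup X)), F1.Finite → ∃ R : Set (FreeGroup X), R.Finite ∧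
  ∀ (H W : Type) [Group H] [Group W] (d : AD X H W), d.S = S → d.Θ = Θ → d.F1 = F1 → d.Ok →
    ∀ z : d.Y, (∀ a ∈ d.A, ∀ v, d.Rg v → (d.a2 a)⁻¹ z = d.z0 v → Dv d.A d.B v = ⊥) →
      ∃ c, ∀ a ∈ d.A, (d.rho a).c z ∈ cj c (d.EQ R)

-- deps: LIFT PIECE INS
def S_CUSP1 : Prop := OnAD fun _ _ _ _ _ d => ∀ g (C : Set _), (∀ a ∈ C, a ∈ d.A) →
  (∀ a ∈ d.A, d.Rg (g * a) ↔ a ∈ C) →
  Function.Injective (d.nu g) ∧ (∀ p, d.nu g (pt d.N p, 1) = d.z0 (g * p)) ∧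
  (∀ z, ∀ a ∈ d.A, (d.a1 a)⁻¹ (d.nu g z).1 = (d.nu g (((d.md C).a1 a)⁻¹ z)).1) ∧
  ∀ z ∈ (d.md C).Zp, ∀ y ∈ d.S, d.Pc (d.nu g z).1 y ↔ (d.md C).Ins (z.1, y)

-- deps: LIFT INS CUSP1
def S_CUSP : Prop := OnAD fun _ _ _ _ _ d => ∀ g (C : Set _), (∀ a ∈ C, a ∈ d.A) →
  (∀ a ∈ d.A, d.Rg (g * a) ↔ a ∈ C) → ∀ z ∈ (d.md C).Zp, ∀ a ∈ d.A,
    (d.a2 a)⁻¹ (d.nu g z) = d.nu g (((d.md C).a1 a)⁻¹ z) ∧
    (d.rho a).c (d.nu g z) = d.s (d.pos g) * ((d.md C).st a).c z * (d.s (d.pos g))⁻¹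

-- deps:
def S_FINIM : Prop := ∀ (F Y W : Type) [Group F] [Finite Y] [Group W] (σ : F →* Wr Y W)
  (A : Subgroup F) (r : F →* F) (E : Subgroup W) (P : Y → Prop), Finite E →
  (∀ a ∈ A, r a = a) → (∀ x, r x ∈ A) → (∀ y, P y → ∃ c, ∀ a ∈ A, (σ a).c y ∈ cj c E) →
  ∃ N, FN N ∧ (∀ n ∈ N, (σ n).p = 1) ∧ ∀ y, P y → ∀ n ∈ N, n ∈ A → (σ n).c y = 1

-- deps: LIFT PIECE INS CUSP1 CUSP
def S_CSET : Prop := OnAD fun X _ _ _ _ d => ∀ (J : Type) (v : J → FreeGroup X)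
  (D : J → Subgroup (FreeGroup X)) (T : Set (FreeGroup X)), Rp ⊤ d.A d.B v →
  (∀ j, Dv d.A d.B (v j) = D j) → (∀ u ∈ T, u ∈ d.A) →
  (∀ j, ∀ b ∈ d.B, ∀ a ∈ d.A, d.Rg (b * v j * a) ↔ a ∈ DT (D j) T) →
  ∃ (C : Set d.Y) (ν : C ≃ Σ j, Fin ((cj (v j) (D j) ⊔ d.N).relIndex d.B) ×
      (d.md (DT (D j) T)).Zp),
    (∀ y : C, Cj d.A (fun n => (d.rho n).c y)
      fun n => ((d.md (DT (D (ν y).1) T)).st n).c (ν y).2.2) ∧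
    ∀ z ∉ C, ∀ a ∈ d.A, ∀ u, d.Rg u → (d.a2 a)⁻¹ z = d.z0 u → Dv d.A d.B u = ⊥

-- deps: RFF LIFT BM BJ AJ FINIM CSET
def S_ABS : Prop := ∀ (X J H : Type) [Finite X] [Finite J] [Group H] (S : Set X)
  (Θ : MulAut (FreeGroup X)) (v : J → FreeGroup X) (D : J → Subgroup (FreeGroup X))
  (τ α : FreeGroup X →* H) (pos : FreeGroup X → H), Rp ⊤ (FS S) (im Θ (FS S)) v →
  (∀ j, Dv (FS S) (im Θ (FS S)) (v j) = D j) →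
  (∀ b ∈ im Θ (FS S), ∀ a ∈ FS S, ∀ g, pos (b * g * a) = τ b * pos g * α a) →
  ∃ T₀ : Set (FreeGroup X), T₀.Finite ∧ (∀ u ∈ T₀, u ∈ FS S) ∧
    ∀ T : Set (FreeGroup X), T.Finite → T₀ ⊆ T → (∀ u ∈ T, u ∈ FS S) →
    ∃ Q : Set H, Q.Finite ∧ ∀ (W : Type) [Group W] (l s : H →* W), Thick l s Q →
      ∃ N₀, FN N₀ ∧ ∀ N, FN N → N ≤ N₀ → AbsOut S (im Θ (FS S)) D T τ α l s N
        fun j => (cj (v j) (D j) ⊔ N).relIndex (im Θ (FS S))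

/-! ### Gluing -/

-- deps:
def S_MATCH : Prop := ∀ (A Y W : Type) [Group A] [Finite Y] [Group W] (M : Subgroup A)
  (ρ₁ ρ₂ : A →* Wr Y W) (β : Y ≃ Y), (∀ a y, (ρ₁ a).p y = y ↔ a ∈ M) →
  (∀ a y, (ρ₂ a).p y = y ↔ a ∈ M) →
  (∀ y, Cj M (fun n => (ρ₁ n).c y) fun n => (ρ₂ n).c (β y)) →
  ∃ γ : Wr Y W, ∀ a, γ⁻¹ * ρ₁ a * γ = ρ₂ a

-- deps: MATCH
def S_TENS : Prop := ∀ (F G Y W : Type) [Group F] [Group G] [Finite Y] [Group W] (i : F →* G)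
  (A : Subgroup F) (Θ : MulAut F) (t : G) (ρ : F →* Wr Y W) (N : Subgroup F) (β : Y ≃ Y),
  IsHN i A Θ t → FN N → (∀ n, n ∈ N ↔ Θ n ∈ N) → (∀ n ∈ N, (ρ n).p = 1) →
  (∀ y, Cj (N ⊓ A) (fun n => (ρ n).c y) fun n => (ρ (Θ n)).c (β y)) →
  ∃ ρ' : G →* Wr (Y × F ⧸ N) W, ∀ x q, (ρ' (i x)).p q = ((ρ x).p q.1, qa N x q.2) ∧
    (ρ' (i x)).c q = (ρ x).c q.1

-- deps:
-- imports: Pool.Agent.P.MP_67c9d4_al.FC.VPS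
def S_VSL : Prop := ∀ (F G Y W T : Type) [Group F] [Group G] [Finite Y] [Group W] [Finite T]
  (i : F →* G) (ρ : G →* Wr Y W) (y₀ : Y) (Λ : Subgroup F) (K : Subgroup W) [K.FiniteIndex]
  (Γ : SimpleGraph T) (f : K →* RAAG Γ) (S : Set T), Function.Injective i →
  (∀ x, (ρ (i x)).p y₀ = y₀ → ∀ hK : (ρ (i x)).c y₀ ∈ K, (f ⟨_, hK⟩ ∈ PS Γ S ↔ x ∈ Λ)) →
  VS i.range (Λ.map i)

-- deps:
def S_FUL : Prop := ∀ (F : Type) [Group F] (N : Subgroup F), Group.FG F → FN N →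
  ∃ N', FN N' ∧ N' ≤ N ∧ Ful N'

-- deps:
def S_DUAL : Prop := ∀ (F J H : Type) [Group F] [Group H] (A : Subgroup F) (Θ : MulAut F)
  (v : J → F) (f : F →* H), Cusp ⊤ A Θ v → Tw f A Θ v →
  Rp ⊤ A (im Θ⁻¹ A) (fun j => Θ⁻¹ (v j)⁻¹) ∧
  (∀ j, Dv A (im Θ⁻¹ A) (Θ⁻¹ (v j)⁻¹) = Dv A (im Θ A) (v j)) ∧
  (∀ N : Subgroup F, Ful N → ∀ j,
    (cj (Θ⁻¹ (v j)⁻¹) (Dv A (im Θ A) (v j)) ⊔ N).relIndex (im Θ⁻¹ A) =
      (cj (v j) (Dv A (im Θ A) (v j)) ⊔ N).relIndex (im Θ A)) ∧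
  (∀ N : Subgroup F, Ful N → N.relIndex (im Θ A) = N.relIndex A ∧
    N.relIndex (im Θ⁻¹ A) = N.relIndex A) ∧
  (∀ u, ∃ u' c, Dc (im Θ A) u' A u ∧ ∀ x ∈ Dv A (im Θ A) u',
    f (Θ⁻¹ (u' * x * u'⁻¹)) = c * f x * c⁻¹) ∧
  (∀ u, ∃ u' c, Dc (im Θ⁻¹ A) u' A u ∧ ∀ x ∈ Dv A (im Θ⁻¹ A) u',
    f (Θ (Θ (u' * x * u'⁻¹))) = c * f x * c⁻¹) ∧
  Tw (f.comp (Θ⁻¹ : MulAut F).toMonoidHom) A Θ v

-- deps:
def S_BIJ : Prop := ∀ (P Y Y' : Type) [Finite P] [Finite Y] [Finite Y'] (M C : Set Y)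
  (M' C' : Set Y') (ν : C ≃ C'), M.ncard = Nat.card P → M'.ncard = Nat.card P →
  ∃ β : P ⊕ Y ⊕ Y' ≃ P ⊕ Y ⊕ Y', (∀ p, ∃ y ∈ M, β (Sum.inl p) = Sum.inr (Sum.inl y)) ∧
    (∀ y : C, β (Sum.inr (Sum.inl y)) = Sum.inr (Sum.inr (ν y).1)) ∧
    (∀ y ∈ M', ∃ p, β (Sum.inr (Sum.inr y)) = Sum.inl p) ∧
    ∀ q, (∃ y ∉ C, q = Sum.inr (Sum.inl y)) ∨ (∃ y ∉ M', q = Sum.inr (Sum.inr y)) →
      (∃ y ∉ M, β q = Sum.inr (Sum.inl y)) ∨ ∃ y ∉ C', β q = Sum.inr (Sum.inr y)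

-- deps: POS ABS TL TENS VSL FUL DUAL BIJ
def S_GLU : Prop := ∀ (X J G H : Type) [Finite X] [Finite J] [Group G] [Group H] (S : Set X)
  (Θ : MulAut (FreeGroup X)) (v : J → FreeGroup X) (i : FreeGroup X →* G) (t : G)
  (f : FreeGroup X →* H) (Λ : Subgroup H), IsHN i (FS S) Θ t → Cusp ⊤ (FS S) Θ v →
  Tw f (FS S) Θ v → VP Λ → VS i.range ((Λ.comap f).map i)

-- deps: T3
def S_HT : Prop := ∀ (F G : Type) [Group F] [Group G] (i : F →* G) (A : Subgroup F)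
  (Θ : MulAut F) (t : G), IsHN i A Θ t → VS i.range (A.map i) → VS i.range ((im Θ A).map i) →
  VS i.range ⊥ → VP (⊥ : Subgroup G)

-- deps: MODEL GLU HT DUAL
def S_TOP : Prop := ∀ (Y G J : Type) [Finite Y] [Group G] [Finite J] (S : Set Y)
  (Θ : MulAut (FreeGroup Y)) (i : FreeGroup Y →* G) (t : G) (v : J → FreeGroup Y),
  IsHN i (FS S) Θ t → Cusp ⊤ (FS S) Θ v →
  (∀ j, VP (⊥ : Subgroup (Tor i (FS S) Θ t (v j)))) → VP (⊥ : Subgroup G)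

-- deps:
-- imports: Pool.Agent.P.MP_67c9d4_al.SP.Spec
def S_SPV : Prop := (∀ (P : Type) [Group P], Group.FG P → Virtually SpecialGroup P →
    VP (⊥ : Subgroup P)) ∧
  (∀ (P G : Type) [Group P] [Group G] (j : P →* G), Function.Injective j →
    (Virtually SpecialGroup G → Virtually SpecialGroup P) ∧ (VRC G → VRC P) ∧
    (j.range.FiniteIndex → Virtually SpecialGroup P → Virtually SpecialGroup G)) ∧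
  ∀ (P : Type) [Group P], VP (⊥ : Subgroup P) → Virtually SpecialGroup P

-- deps: STRUCT TOP SPV
-- imports: Pool.Agent.P.MP_67c9d4_al.PG.FinPow
def S_REDN : Prop := ∀ (X : Type) (φ : MulAut (FreeGroup X)), Group.FG (MT φ) →
  (∀ (M : Subgroup (MT φ)) (g : MT φ), M.FG → (∀ m ∈ M, m.right = 1) → g.right ≠ 1 →
    (∀ m, m ∈ M ↔ g⁻¹ * m * g ∈ M) →
    Virtually SpecialGroup (M ⊔ Subgroup.zpowers g : Subgroup (MT φ))) →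
  Virtually SpecialGroup (MT φ)

end Pool.Agent.P.MP_67c9d4_al.FR
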