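import Pool.Agent.P.MP_67c9d4_al.FR.Iface

/-! Step CAN. -/

set_option autoImplicit false
set_option linter.unusedSectionVars false

namespace Pool.Agent.P.MP_67c9d4_al.FR

open Equiv Wr Multiplicative FC

lemma CAN_comm {T : Type} {Γ : SimpleGraph T} (x : T × Bool) (l : List (T × Bool))
    (h : ∀ z ∈ l, Γ.Adj z.1 x.1) : Commute (wd Γ l) (wd Γ [x]) := by
  induction l with
  | nil => exact Commute.one_left _
  | cons z l ih =>
    rw [wd_cons]
    exact (wd_comm (h z List.mem_cons_self)).mul_left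
      (ih fun w hw => h w (List.mem_cons_of_mem _ hw))

lemma CAN_move {T : Type} {Γ : SimpleGraph T} {x : T × Bool} {l : List (T × Bool)}
    (h : Commute (wd Γ l) (wd Γ [x])) (l' : List (T × Bool)) :
    wd Γ (l ++ x :: l') = wd Γ (x :: (l ++ l')) := by
  rw [wd_append, wd_cons x l', wd_cons x (l ++ l'), wd_append, ← mul_assoc, h.eq, mul_assoc]

theorem p_CAN (hG2 : S_G2) (hG1 : S_G1) :
    S_CAN := by
  intro T Γ L M W hL hM wL wM
  obtain ⟨-, -, g3, -, -, g6⟩ := hG2 T Γ
  have rL := g3 _ (g6 L hL)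
  have rM := g3 M hM
  have nr : ¬Red Γ (FreeGroup.invRev L ++ M) := fun h => by
    have := ((hG1 T Γ).1 _ h).2 (wd Γ L)
    rw [walls_append, List.nodup_append, wd_invRev, mul_inv_cancel] at this
    refine this.2.2 W (Sp_sub _ _ W ?_) W (Sp_sub _ _ W ?_) rfl
    · rwa [wd_invRev, mul_inv_cancel, Sp_comm]
    · rwa [one_mul]
  unfold Red at nr
  push Not at nr
  obtain ⟨L₁, y, L₂, L₃, e, adj⟩ := nr
  have bad : ∀ {N A B : List (T × Bool)}, Red Γ N → N ≠ A ++ y :: (L₂ ++ (y.1, !y.2) :: B) :=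
    fun h e => let ⟨z, hz, n⟩ := h _ _ _ _ e; n (adj z hz)
  have main : ∃ A2 M1, FreeGroup.invRev L = L₁ ++ y :: A2 ∧ M = M1 ++ (y.1, !y.2) :: L₃ ∧
      L₂ = A2 ++ M1 := by
    rcases List.append_eq_append_iff.1 e with ⟨a, -, e2⟩ | ⟨c, e1, e2⟩
    · exact absurd e2 (bad rM)
    · obtain _ | ⟨y', c⟩ := c
      · exact absurd e2.symm (bad (A := []) rM)
      · rw [List.cons_append, List.cons.injEq] at e2
        obtain ⟨rfl, e2⟩ := e2
        rcases List.append_eq_append_iff.1 e2 with ⟨a, e3, e4⟩ | ⟨a, e3, e4⟩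
        · obtain _ | ⟨x', a⟩ := a
          · exact ⟨c, [], e1, e4.symm, by simpa using e3.symm⟩
          · rw [List.cons_append, List.cons.injEq] at e4
            rw [e3, ← e4.1] at e1
            exact absurd e1 (bad rL)
        · exact ⟨c, a, e1, e4, e3⟩
  obtain ⟨A2, M1, e1, rfl, rfl⟩ := main
  have eL : L = FreeGroup.invRev A2 ++ (y.1, !y.2) :: FreeGroup.invRev L₁ := by
    rw [← FreeGroup.invRev_invRev (L₁ := L), e1, FreeGroup.invRev_append, FreeGroup.invRev_cons,
      List.append_assoc]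
    rfl
  refine ⟨(y.1, !y.2), FreeGroup.invRev A2 ++ FreeGroup.invRev L₁, M1 ++ L₃, by simp [eL], by simp,
    ?_, CAN_move (CAN_comm (y.1, !y.2) _ fun z hz => adj z (List.mem_append_right _ hz)) _, ?_, ?_⟩
  · rw [eL]
    refine CAN_move ?_ _
    rw [wd_invRev]
    exact (CAN_comm (y.1, !y.2) _ fun z hz => adj z (List.mem_append_left _ hz)).inv_left
  · rw [eL]; simp only [List.length_append, List.length_cons]; omega
  · simp only [List.length_append, List.length_cons]; omega

end Pool.Agent.P.MP_67c9d4_al.FR
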