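import Pool.Agent.P.MP_67c9d4_al.FR.Iface

/-! Step CSET. -/

set_option autoImplicit false
set_option linter.unusedSectionVars false

namespace Pool.Agent.P.MP_67c9d4_al.FR

open Equiv Wr Multiplicative FC

theorem p_CSET (hLIFT : S_LIFT) (hPIECE : S_PIECE) (hINS : S_INS) (hCUSP1 : S_CUSP1)
    (hCUSP : S_CUSP) : S_CSET := by
  intro X H W _ _ _ d ok J v D T rp hD hT hR
  classical
  have hN : d.N.Normal := ok.fn.1
  have fi : d.N.FiniteIndex := ok.fn.2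
  have pc := hPIECE X H W d ok
  obtain ⟨-, -, -, i4, -⟩ := hINS X H W d ok
  have hC : ∀ j, ∀ a ∈ DT (D j) T, a ∈ d.A := by
    rintro j _ ⟨x, hx, u, hu, rfl⟩
    exact d.A.mul_mem (Dv_le _ (hD j ▸ hx)) (hT u hu)
  have ex : ∀ j, ∃ b : Fin ((cj (v j) (D j) ⊔ d.N).relIndex d.B) → FreeGroup X,
      (∀ δ, b δ ∈ d.B) ∧ (∀ δ δ', (b δ)⁻¹ * b δ' ∈ cj (v j) (D j) ⊔ d.N → δ = δ') ∧
      ∀ c ∈ d.B, ∃ δ, (b δ)⁻¹ * c ∈ cj (v j) (D j) ⊔ d.N := by
    intro j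
    have : (cj (v j) (D j) ⊔ d.N).FiniteIndex := Subgroup.finiteIndex_of_le le_sup_right
    let e : (d.B ⧸ (cj (v j) (D j) ⊔ d.N).subgroupOf d.B) ≃
      Fin ((cj (v j) (D j) ⊔ d.N).relIndex d.B) := Finite.equivFin _
    refine ⟨fun δ => ((e.symm δ).out : d.B), fun δ => ((e.symm δ).out).2, fun δ δ' h => ?_,
      fun c hc => ⟨e (QuotientGroup.mk ⟨c, hc⟩), ?_⟩⟩
    · apply e.symm.injective
      rw [← QuotientGroup.out_eq' (e.symm δ), ← QuotientGroup.out_eq' (e.symm δ'),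
        QuotientGroup.eq]
      exact h
    · have := QuotientGroup.eq.1 (QuotientGroup.out_eq'
        (QuotientGroup.mk ⟨c, hc⟩ : d.B ⧸ (cj (v j) (D j) ⊔ d.N).subgroupOf d.B))
      simp only [Equiv.symm_apply_apply]
      exact this
  choose b b1 b2 b3 using ex
  have c1 := fun j δ => hCUSP1 X H W d ok (b j δ * v j) _ (hC j) (hR j _ (b1 j δ))
  have c2 := fun j δ => hCUSP X H W d ok (b j δ * v j) _ (hC j) (hR j _ (b1 j δ))
  have zp : ∀ j, ∀ p ∈ DT (D j) T, ((pt d.N p, 1) : _ × MB d.N) ∈ (d.md (DT (D j) T)).Zp :=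
    fun j p hp => ⟨1, Subgroup.one_mem _, p, hp, by rw [map_one, inv_one]; rfl⟩
  have key : ∀ j δ, ∀ a ∈ d.A, ∀ p ∈ DT (D j) T,
      d.nu (b j δ * v j) (((d.md (DT (D j) T)).a1 a)⁻¹ (pt d.N p, 1)) =
        (d.a2 a)⁻¹ (d.z0 (b j δ * v j * p)) := fun j δ a ha p hp =>
    (c2 j δ _ (zp j p hp) a ha).1.symm.trans (congrArg _ ((c1 j δ).2.1 p))
  let f : (Σ j, Fin ((cj (v j) (D j) ⊔ d.N).relIndex d.B) × (d.md (DT (D j) T)).Zp) → d.Y :=
    fun t => d.nu (b t.1 t.2.1 * v t.1) t.2.2.1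
  have inj : Function.Injective f := by
    rintro ⟨j, δ, _, a, ha, p, hp, rfl⟩ ⟨j', δ', _, a', ha', p', hp', rfl⟩ h
    have h0 : d.nu (b j δ * v j) (((d.md (DT (D j) T)).a1 a)⁻¹ (pt d.N p, 1)) =
      d.nu (b j' δ' * v j') (((d.md (DT (D j') T)).a1 a')⁻¹ (pt d.N p', 1)) := h
    have h1 := h0
    rw [key j δ a ha p hp, key j' δ' a' ha' p' hp'] at h1
    have h2 : (d.a2 (a * a'⁻¹))⁻¹ (d.z0 (b j δ * v j * p)) = d.z0 (b j' δ' * v j' * p') := by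
      rw [inv_mul_apply, h1, ← inv_mul_apply, mul_inv_cancel, map_one, inv_one, Perm.one_apply]
    have h3 := congrArg Prod.fst h2
    rw [i4] at h3
    obtain ⟨n, n1, n2, a'', ha'', e⟩ := pc _ (d.A.mul_mem ha (d.A.inv_mem ha')) _ _
      ((hR j _ (b1 j δ) p (hC j p hp)).2 hp) ((hR j' _ (b1 j' δ') p' (hC j' p' hp')).2 hp') h3
    have hA : p * a'' * p'⁻¹ ∈ d.A :=
      d.A.mul_mem (d.A.mul_mem (hC j p hp) ha'') (d.A.inv_mem (hC j' p' hp'))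
    have hB : (b j' δ')⁻¹ * n * b j δ ∈ d.B :=
      d.B.mul_mem (d.B.mul_mem (d.B.inv_mem (b1 j' δ')) n2) (b1 j δ)
    have e' : v j' = (b j' δ')⁻¹ * n * b j δ * v j * (p * a'' * p'⁻¹) := by
      rw [show v j' = (b j' δ')⁻¹ * (b j' δ' * v j' * p') * p'⁻¹ by group, e]; group
    obtain rfl : j = j' := rp.dist _ _ ⟨_, hB, _, hA, e'⟩
    have e'' : v j * (p * a'' * p'⁻¹) * (v j)⁻¹ = ((b j δ')⁻¹ * n * b j δ)⁻¹ := by
      rw [eq_inv_iff_mul_eq_one, mul_eq_one_comm, ← mul_assoc, ← mul_assoc, ← e', mul_inv_cancel]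
    have hx : p * a'' * p'⁻¹ ∈ D j := hD j ▸ mem_Dv.2 ⟨hA, e'' ▸ d.B.inv_mem hB⟩
    obtain rfl : δ = δ' := by
      refine b2 j _ _ ?_
      have : (b j δ)⁻¹ * b j δ' = ((b j δ)⁻¹ * n * (b j δ)⁻¹⁻¹) * ((b j δ')⁻¹ * n * b j δ)⁻¹ := by
        group
      rw [this, ← e'']
      refine Subgroup.mul_mem _ (Subgroup.mem_sup_right (hN.conj_mem _ n1 _))
        (Subgroup.mem_sup_left (mem_cj.2 ?_))
      simpa [mul_assoc] using hx
    have := (c1 j δ).1 h0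
    exact congrArg (Sigma.mk j) (Prod.ext rfl (Subtype.ext this))
  refine ⟨Set.range f, (Equiv.ofInjective f inj).symm, fun y => ?_, fun z hz a ha u hu e => ?_⟩
  · obtain ⟨t, rfl⟩ := (Equiv.ofInjective f inj).surjective y
    rw [Equiv.symm_apply_apply]
    exact ⟨_, fun n hn => (c2 t.1 t.2.1 _ t.2.2.2 n hn).2⟩
  · by_contra ne
    obtain ⟨j, c, hc, a1, ha1, rfl⟩ := rp.cover u trivial ne
    have m1 := (hR j c hc a1 ha1).1 hu
    obtain ⟨δ, hδ⟩ := b3 j c hc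
    obtain ⟨y, hy, n, hn, e1⟩ := Subgroup.mem_sup_of_normal_right.1 hδ
    have hx : (v j)⁻¹ * y * v j ∈ D j := mem_cj.1 hy
    have m2 : (v j)⁻¹ * y * v j * a1 ∈ DT (D j) T := by
      obtain ⟨x, hx', t, ht, rfl⟩ := m1
      exact ⟨_, (D j).mul_mem hx hx', t, ht, (mul_assoc _ _ _).symm⟩
    refine hz ⟨⟨j, δ, _, a⁻¹, d.A.inv_mem ha, _, m2, rfl⟩, ?_⟩
    refine (key j δ _ (d.A.inv_mem ha) _ m2).trans ?_
    have e2 : d.z0 (b j δ * v j * ((v j)⁻¹ * y * v j * a1)) = d.z0 (c * v j * a1) := by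
      have : pt d.N (b j δ * v j * ((v j)⁻¹ * y * v j * a1)) = pt d.N (c * v j * a1) := by
        rw [pt_eq, show c = b j δ * (y * n) by rw [e1]; group]
        have := hN.conj_mem _ (d.N.inv_mem hn) (b j δ * y)
        convert this using 1
        group
      rw [AD.z0, this, AD.z0]
    rw [e2, ← e, ← inv_mul_apply, mul_inv_cancel, map_one, inv_one, Perm.one_apply]

end Pool.Agent.P.MP_67c9d4_al.FR
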