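import Pool.Agent.P.MP_67c9d4_al.FR.Iface

/-! Step INIT. -/

set_option autoImplicit false
set_option linter.unusedSectionVars false

namespace Pool.Agent.P.MP_67c9d4_al.FR

open Equiv Wr Multiplicative FC

/-- The invariant of the construction. -/
def INIT_inv {X : Type} (V : Subgroup (FreeGroup X)) (E : List (Ed (FreeGroup X))) (k : ℕ)
    (π : ℕ → FreeGroup X) : Prop :=
  Let {1} E ∧ Conn E (Finset.range k) ∧ ∀ e ∈ E, el π e ∈ V

theorem INIT_mono {F : Type} {E : List (Ed F)} (e₀ : Ed F) {a b : F ⊕ ℕ}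
    (h : Relation.ReflTransGen
      (fun a b => ∃ e ∈ E, e.1 = a ∧ e.2.2 = b ∨ e.1 = b ∧ e.2.2 = a) a b) :
    Relation.ReflTransGen
      (fun a b => ∃ e ∈ e₀ :: E, e.1 = a ∧ e.2.2 = b ∨ e.1 = b ∧ e.2.2 = a) a b := by
  induction h with
  | refl => exact .refl
  | tail _ h ih => exact ih.tail (h.imp fun e he => ⟨List.mem_cons_of_mem _ he.1, he.2⟩)

theorem INIT_path {X : Type} (V : Subgroup (FreeGroup X)) : ∀ (L : List (X × Bool)) (x : X × Bool)
    (E : List (Ed (FreeGroup X))) (k : ℕ) (π : ℕ → FreeGroup X) (o : FreeGroup X ⊕ ℕ),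
    INIT_inv V E k π → (o = Sum.inl 1 ∨ ∃ ν < k, o = Sum.inr ν) →
    Sum.elim id π o * FreeGroup.mk (x :: L) ∈ V →
    ∃ E' k' π', INIT_inv V E' k' π' ∧ E ⊆ E' ∧ E'.length + k = E.length + 1 + k' ∧
      ∀ (H : Subgroup (FreeGroup X)) ρ, (∀ e ∈ E', el ρ e ∈ H) →
        Sum.elim id ρ o * FreeGroup.mk (x :: L) ∈ H := by
  intro L
  induction L with
  | nil =>
    intro x E k π o ⟨h1, ⟨h2, h3⟩, h4⟩ ho hV
    have e1 : ∀ ρ, el ρ (o, lt x, Sum.inl 1) = Sum.elim id ρ o * FreeGroup.mk [x] := fun ρ => by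
      simp [el, lt]
    refine ⟨(o, lt x, Sum.inl 1) :: E, k, π, ⟨?_, ⟨?_, fun ν hν => ?_⟩, ?_⟩,
      List.subset_cons_self _ _, by simp, fun H ρ h => e1 ρ ▸ h _ List.mem_cons_self⟩
    · refine List.forall_mem_cons.2 ⟨⟨⟨x, rfl⟩, fun p hp => ?_, fun p hp => ?_⟩, h1⟩
      · rcases ho with rfl | ⟨ν, -, rfl⟩
        · exact (Sum.inl.inj hp).symm
        · cases hp
      · exact (Sum.inl.inj hp).symm
    · refine List.forall_mem_cons.2 ⟨fun ν hν => ?_, h2⟩
      rcases hν with hν | hν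
      · rcases ho with rfl | ⟨ν', h, rfl⟩
        · cases hν
        · cases hν; exact Finset.mem_range.2 h
      · cases hν
    · exact (h3 ν hν).imp fun p hp => INIT_mono _ hp
    · exact List.forall_mem_cons.2 ⟨e1 π ▸ hV, h4⟩
  | cons y L ih =>
    intro x E k π o ⟨h1, ⟨h2, h3⟩, h4⟩ ho hV
    have e0 : FreeGroup.mk (x :: y :: L) = lt x * FreeGroup.mk (y :: L) := by simp [lt]
    have up : ∀ (g : FreeGroup X) (a : FreeGroup X ⊕ ℕ), (∀ ν, a = Sum.inr ν → ν < k) →
        Sum.elim id (Function.update π k g) a = Sum.elim id π a := fun g a ha => by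
      cases a with
      | inl p => rfl
      | inr ν => exact Function.update_of_ne (ha ν rfl).ne _ _
    have ho' : ∀ ν, o = Sum.inr ν → ν < k := fun ν hν => by
      rcases ho with rfl | ⟨ν', h, rfl⟩
      · cases hν
      · cases hν; exact h
    have ho2 : ∀ p, o = Sum.inl p → p ∈ ({1} : Set (FreeGroup X)) := fun p hp => by
      rcases ho with rfl | ⟨ν, -, rfl⟩
      · exact (Sum.inl.inj hp).symm
      · cases hp
    obtain ⟨E', k', π', i1, i2, i3, i4⟩ := ih y ((o, lt x, Sum.inr k) :: E) (k + 1)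
      (Function.update π k (Sum.elim id π o * lt x)) (Sum.inr k)
      ⟨List.forall_mem_cons.2 ⟨⟨⟨x, rfl⟩, ho2, fun p hp => by cases hp⟩, h1⟩,
        ⟨List.forall_mem_cons.2 ⟨fun ν hν => by
            rcases hν with hν | hν
            · exact Finset.mem_range.2 (Nat.lt_succ_of_lt (ho' ν hν))
            · cases hν; exact Finset.mem_range.2 (Nat.lt_succ_self _),
          fun e he ν hν => Finset.mem_range.2
            (Nat.lt_succ_of_lt (Finset.mem_range.1 (h2 e he ν hν)))⟩, fun ν hν => by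
          rcases Nat.lt_succ_iff_lt_or_eq.1 (Finset.mem_range.1 hν) with h | rfl
          · exact (h3 ν (Finset.mem_range.2 h)).imp fun p hp => INIT_mono _ hp
          · rcases ho with rfl | ⟨ν', h, rfl⟩
            · exact ⟨1, .single ⟨_, List.mem_cons_self, Or.inl ⟨rfl, rfl⟩⟩⟩
            · exact (h3 ν' (Finset.mem_range.2 h)).imp fun p hp =>
                (INIT_mono _ hp).tail ⟨_, List.mem_cons_self, Or.inl ⟨rfl, rfl⟩⟩⟩,
        List.forall_mem_cons.2 ⟨by simp [el, up _ o ho'], fun e he => by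
          have := h4 e he
          unfold el at this ⊢
          rwa [up _ _ fun ν hν => Finset.mem_range.1 (h2 e he ν (Or.inl hν)),
            up _ _ fun ν hν => Finset.mem_range.1 (h2 e he ν (Or.inr hν))]⟩⟩
      (Or.inr ⟨k, Nat.lt_succ_self _, rfl⟩) (by simpa [e0, mul_assoc] using hV)
    refine ⟨E', k', π', i1, fun e he => i2 (List.mem_cons_of_mem _ he), by simp at i3; omega,
      fun H ρ h => ?_⟩
    have := H.mul_mem (h _ (i2 List.mem_cons_self)) (i4 H ρ h)
    simpa [el, e0, mul_assoc] using this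

theorem INIT_all {X : Type} (V : Subgroup (FreeGroup X)) : ∀ (m : ℕ) (b : Fin m → FreeGroup X),
    (∀ i, b i ∈ V) → ∃ E k π, INIT_inv V E k π ∧ E.length ≤ m + k ∧
      ∀ (H : Subgroup (FreeGroup X)) ρ, (∀ e ∈ E, el ρ e ∈ H) → ∀ i, b i ∈ H := by
  intro m
  induction m with
  | zero =>
    exact fun b _ => ⟨[], 0, fun _ => 1, ⟨by simp [Let], by simp [Conn], by simp⟩, by simp,
      fun _ _ _ i => i.elim0⟩
  | succ m ih =>
    intro b hb
    obtain ⟨E, k, π, h1, h2, h3⟩ := ih (fun i => b i.succ) fun i => hb _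
    obtain ⟨L, hL⟩ := Quot.exists_rep (b 0)
    replace hL : FreeGroup.mk L = b 0 := hL
    cases L with
    | nil =>
      exact ⟨E, k, π, h1, by omega, fun H ρ h => Fin.cases (hL ▸ H.one_mem) (h3 H ρ h)⟩
    | cons x L =>
      obtain ⟨E', k', π', i1, i2, i3, i4⟩ := INIT_path V L x E k π (Sum.inl 1) h1 (Or.inl rfl)
        (by simpa [hL] using hb 0)
      exact ⟨E', k', π', i1, by omega, fun H ρ h => Fin.cases (by simpa [hL] using i4 H ρ h)
        (h3 H ρ fun e he => h e (i2 he))⟩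

theorem p_INIT :
    S_INIT := by
  rintro X A V m ⟨b, hb⟩
  obtain ⟨E, k, π, ⟨h1, h2, h3⟩, h4, h5⟩ := INIT_all V m b fun i =>
    hb ▸ Subgroup.mem_sup_right (Subgroup.subset_closure ⟨i, rfl⟩)
  refine ⟨E, Finset.range k, h1, fun H hA ρ h => ?_, ⟨π, h3⟩, h2, by simpa using h4⟩
  rw [hb]
  exact sup_le hA ((Subgroup.closure_le _).2 (Set.range_subset_iff.2 (h5 H ρ h)))

end Pool.Agent.P.MP_67c9d4_al.FR
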