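import Pool.Agent.P.MP_67c9d4_al.FR.Iface

/-! Step LIFT. -/

set_option autoImplicit false
set_option linter.unusedSectionVars false

namespace Pool.Agent.P.MP_67c9d4_al.FR

open Equiv Wr Multiplicative FC

theorem p_LIFT :
    S_LIFT := by
  intro X H W _ _ _ d ok
  have hN : d.N.Normal := ok.fn.1
  have e : ∀ b ∈ d.B, ∀ g, d.pos (b * g) = d.τ b * d.pos g := fun b hb g => by
    have := ok.eqv b hb 1 d.A.one_mem g
    rwa [mul_one, map_one, mul_one] at this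
  have h2 : ∀ v v', d.Rg v → d.Rg v' → pt d.N v = pt d.N v' →
      ∃ n ∈ d.N, n ∈ d.B ∧ v' = n * v := by
    rintro _ _ ⟨b, hb, u, hu, rfl⟩ ⟨b', hb', u', hu', rfl⟩ h
    have hn : b' * u' * (b * u)⁻¹ ∈ d.N := pt_eq.1 h.symm
    have h1 : u' * u⁻¹ ∈ d.B := ok.sep u hu u' hu' (by
      rw [show u' * u⁻¹ = b'⁻¹ * (b' * u' * (b * u)⁻¹) * b by group]
      exact Subgroup.mul_mem _ (Subgroup.mul_mem _ (Subgroup.mem_sup_left (d.B.inv_mem hb'))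
        (Subgroup.mem_sup_right hn)) (Subgroup.mem_sup_left hb))
    refine ⟨_, hn, ?_, by group⟩
    rw [show b' * u' * (b * u)⁻¹ = b' * (u' * u⁻¹) * b⁻¹ by group]
    exact d.B.mul_mem (d.B.mul_mem hb' h1) (d.B.inv_mem hb)
  have h3 : ∀ n ∈ d.N, n ∈ d.B → ∀ v v', d.w (n * v) (n * v') = d.w v v' := by
    intro n hn hb v v'
    rw [AD.w, AD.w, e n hb, e n hb, dd_mul, dd_mul, ok.kt n hn]
    group
  refine ⟨fun b hb v => ⟨?_, ?_⟩, h2, h3, fun v y hv hv' => ?_, fun v v' q h => ?_,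
    fun b hb => ⟨(dd d.l d.s (d.pos b))⁻¹ * d.l (d.τ b), fun n hn hb' => ?_⟩⟩
  · rintro ⟨b', hb', u, hu, h⟩
    exact ⟨b⁻¹ * b', d.B.mul_mem (d.B.inv_mem hb) hb', u, hu, by rw [mul_assoc, ← h]; group⟩
  · rintro ⟨b', hb', u, hu, rfl⟩
    exact ⟨b * b', d.B.mul_mem hb hb', u, hu, (mul_assoc _ _ _).symm⟩
  · have hi : d.Ins (pt d.N v, y) := ⟨v, hv, hv', rfl⟩
    rw [AD.wt, dif_pos hi]
    obtain ⟨c1, -, c3⟩ := hi.choose_spec
    obtain ⟨n, hn, hb, c⟩ := h2 v _ hv c1 c3.symm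
    rw [c, mul_assoc, h3 n hn hb]
  · rw [AD.w, h, dd_mul, inv_mul_cancel_left]
  · have c1 : b * n * b⁻¹ ∈ d.N := hN.conj_mem n hn b
    have c2 : b * n * b⁻¹ ∈ d.B := d.B.mul_mem (d.B.mul_mem hb hb') (d.B.inv_mem hb)
    have c3 := ok.kt _ c1
    rw [AD.w, show b * n = b * n * b⁻¹ * b by group, e _ c2, dd_mul, c3, dd, dd, c3]
    simp only [map_mul, map_inv]
    group

end Pool.Agent.P.MP_67c9d4_al.FR
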