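import Pool.Agent.P.MP_67c9d4_al.FR.Iface
import Pool.Agent.P.MP_67c9d4_al.SP.Spec

/-! Step SPV. -/

set_option autoImplicit false
set_option linter.unusedSectionVars false

namespace Pool.Agent.P.MP_67c9d4_al.FR

open Equiv Wr Multiplicative FC

theorem SPV_fin {K T : Type} [Group K] [Group.FG K] {Γ : SimpleGraph T} (f : K →* RAAG Γ) :
    ∃ S : Set T, S.Finite ∧ ∀ k, f k ∈ PS Γ S := by
  obtain ⟨A, h1, h2⟩ := Group.fg_iff.1 ‹Group.FG K›
  choose L hL using fun k : K => wd_surj (f k)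
  refine ⟨⋃ k ∈ A, {a | a ∈ (L k).map Prod.fst}, h2.biUnion fun k _ => List.finite_toSet _,
    fun k => ?_⟩
  have h3 : Subgroup.closure A ≤ (PS Γ (⋃ k ∈ A, {a | a ∈ (L k).map Prod.fst})).comap f :=
    (Subgroup.closure_le _).2 fun k hk => by
      show f k ∈ PS Γ _
      rw [← hL k]
      exact wd_mem fun x hx => Set.mem_biUnion hk (List.mem_map_of_mem hx)
  exact h3 (h1 ▸ Subgroup.mem_top k)

theorem SPV_ret {T : Type} (Γ : SimpleGraph T) (S : Set T) :
    ∃ r : RAAG Γ →* RAAG (Γ.induce S), ∀ g ∈ PS Γ S, r g = 1 → g = 1 := by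
  classical
  obtain ⟨r, hr⟩ := raag_lift (Γ := Γ)
    (fun a => if h : a ∈ S then (PresentedGroup.of ⟨a, h⟩ : RAAG (Γ.induce S)) else 1)
    fun a b hab => by
      by_cases ha : a ∈ S
      · by_cases hb : b ∈ S
        · rw [dif_pos ha, dif_pos hb]; exact of_comm hab
        · rw [dif_neg hb]; exact Commute.one_right _
      · rw [dif_neg ha]; exact Commute.one_left _
  obtain ⟨e, he⟩ := raag_lift (Γ := Γ.induce S) (fun a => (PresentedGroup.of a.1 : RAAG Γ))
    fun a b hab => of_comm hab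
  refine ⟨r, fun g hg h => ?_⟩
  have h1 : (e.comp r) g = MonoidHom.id _ g := by
    refine MonoidHom.eqOn_closure ?_ hg
    rintro _ ⟨a, ha, rfl⟩
    rw [MonoidHom.comp_apply, hr, dif_pos ha, he, MonoidHom.id_apply]
  rw [MonoidHom.comp_apply, h, map_one] at h1
  exact h1.symm

theorem SPV_comap {P G : Type} [Group P] [Group G] (j : P →* G) (K : Subgroup G)
    [K.FiniteIndex] : (K.comap j).FiniteIndex :=
  ⟨by rw [Subgroup.index_comap]; exact Subgroup.FiniteIndex.index_ne_zero⟩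

theorem SPV_inj {P G : Type} [Group P] [Group G] {j : P →* G} (hj : Function.Injective j)
    (K : Subgroup G) : Function.Injective (j.subgroupComap K) :=
  fun _ _ e => Subtype.ext (hj (congrArg Subtype.val e))

theorem p_SPV :
    S_SPV := by
  refine ⟨fun P _ hP ⟨K, hK, h⟩ => ?_, fun P G _ _ j hj => ⟨fun ⟨K, hK, h⟩ => ?_, fun h g => ?_,
    fun hr ⟨L, hL, h⟩ => ?_⟩, fun P _ h => ?_⟩
  · obtain ⟨T, Γ, f, hf⟩ := SP.emb_of_special h
    obtain ⟨S, s1, s2⟩ := SPV_fin f
    obtain ⟨r, hr⟩ := SPV_ret Γ S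
    refine ⟨K, hK, S, s1.to_subtype, Γ.induce S, r.comp f, ∅, fun g => ?_⟩
    rw [PS_empty, Subgroup.mem_bot, OneMemClass.coe_eq_one]
    exact ⟨fun e => hf ((hr _ (s2 g) e).trans (map_one f).symm), fun e => by rw [e, map_one]⟩
  · obtain ⟨T, Γ, f, hf⟩ := SP.emb_of_special h
    exact ⟨K.comap j, SPV_comap j K, SP.special_of_emb (f.comp (j.subgroupComap K))
      (hf.comp (SPV_inj hj K))⟩
  · obtain ⟨K, hK, h1, r, hr⟩ := h (j g)
    let e : Subgroup.zpowers g ≃* Subgroup.zpowers (j g) :=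
      ((Subgroup.zpowers g).equivMapOfInjective j hj).trans
        (MulEquiv.subgroupCongr (MonoidHom.map_zpowers j g))
    have he : ∀ x : Subgroup.zpowers g, (e x : G) = j x := fun x => rfl
    have hm : ∀ x ∈ Subgroup.zpowers g, j x ∈ Subgroup.zpowers (j g) := fun x hx => (e ⟨x, hx⟩).2
    refine ⟨K.comap j, SPV_comap j K, fun x hx => h1 (hm x hx),
      e.symm.toMonoidHom.comp (r.comp (j.subgroupComap K)), fun x hx => hj ?_⟩
    rw [← he]
    exact (congrArg Subtype.val (e.apply_symm_apply _)).trans (hr _ (hm x hx))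
  · obtain ⟨T, Γ, f, hf⟩ := SP.emb_of_special h
    refine ⟨L.map j, ⟨?_⟩, SP.special_of_emb
      (f.comp (L.equivMapOfInjective j hj).symm.toMonoidHom)
      (hf.comp (L.equivMapOfInjective j hj).symm.injective)⟩
    rw [Subgroup.index_map_of_injective _ hj]
    exact mul_ne_zero hL.index_ne_zero hr.index_ne_zero
  · obtain ⟨K, hK, T, -, Γ, f, hf⟩ := h.va
    exact ⟨K, hK, SP.special_of_emb f hf⟩

end Pool.Agent.P.MP_67c9d4_al.FR
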