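import Pool.Agent.P.MP_67c9d4_al.FR.Iface

/-! Step STAB1. -/

set_option autoImplicit false
set_option linter.unusedSectionVars false

namespace Pool.Agent.P.MP_67c9d4_al.FR

open Equiv Wr Multiplicative FC

lemma STAB1_ex {F : Type} [Group F] (U A B : Subgroup F) :
    ∃ (E : Type) (v : E → F), Rp U A B v := by
  let s : Setoid {g // g ∈ U ∧ Dv A B g ≠ ⊥} :=
    ⟨fun g h => Dc B g.1 A h.1, ⟨fun g => Dc.refl _, Dc.symm, Dc.trans⟩⟩
  refine ⟨Quotient s, fun e => e.out.1, fun e => e.out.2.1, fun e => e.out.2.2,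
    fun e e' h => ?_, fun g h1 h2 => ⟨Quotient.mk s ⟨g, h1, h2⟩, ?_⟩⟩
  · rw [← e.out_eq, ← e'.out_eq]
    exact Quotient.sound h
  · exact Quotient.mk_out (s := s) ⟨g, h1, h2⟩

lemma STAB1_chg {F E E' : Type} [Group F] {U A B : Subgroup F} {v : E → F} (h : Rp U A B v)
    (σ : E' ≃ E) (v' : E' → F) (h1 : ∀ e, v' e ∈ U) (h2 : ∀ e, Dc B (v (σ e)) A (v' e)) :
    Rp U A B v' := by
  refine ⟨h1, fun e => mt (h2 e).bot.1 (h.ne _), fun e e' d => σ.injective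
    (h.dist _ _ (((h2 e).trans d).trans (h2 e').symm)), fun g c1 c2 => ?_⟩
  obtain ⟨j, hj⟩ := h.cover g c1 c2
  refine ⟨σ.symm j, (h2 _).symm.trans ?_⟩
  rwa [σ.apply_symm_apply]

lemma STAB1_fam (hKUR : S_KUR) {F E : Type} [Group F] {U A B : Subgroup F} {v : E → F}
    (h : Rp U A B v) (h1 : Fc B U) (h2 : A ≤ U) : Fam A fun e => Dv A B (v e) :=
  let ⟨_, c, h1⟩ := h1
  ⟨fun _ => Dv_le _, h.ne, hKUR F _ E A B U c v h1 h2 h.mem h.dist⟩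

lemma STAB1_par {F E : Type} [Group F] {U U' A B B' : Subgroup F} {v : E → F} {ρ : F → F}
    (h : Rp U A B v) (le : A ≤ U) (le' : A ≤ U') (r1 : Hm U' ρ) (r2 : ∀ x ∈ U, ρ x = x)
    (r3 : ∀ x ∈ U', ρ x ∈ U) (r4 : ∀ x ∈ B', ρ x ∈ B) {g : F} (hg : g ∈ U')
    (ne : Dv A B' g ≠ ⊥) : ∃ e, ∃ a ∈ A, Dv A B' g ≤ cj a (Dv A B (v e)) := by
  have a1 : Dv A B' g ≤ Dv A B (ρ g) := fun d hd => by
    rw [mem_Dv] at hd ⊢
    refine ⟨hd.1, ?_⟩
    have := r4 _ hd.2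
    rwa [r1 _ (U'.mul_mem hg (le' hd.1)) _ (U'.inv_mem hg), r1 _ hg _ (le' hd.1), r1.inv hg,
      r2 _ (le hd.1)] at this
  obtain ⟨e, b, hb, a, ha, e1⟩ := h.cover _ (r3 g hg) fun c => ne (le_bot_iff.1 (c ▸ a1))
  rw [e1, Dv_mul hb ha] at a1
  exact ⟨e, a⁻¹, A.inv_mem ha, a1⟩

theorem p_STAB1 (hLINE : S_LINE) (hKUR : S_KUR) (hCMPA : S_CMPA) (hCMPB : S_CMPB) :
    S_STAB1 := by
  intro X Φ A n b hA hL
  obtain ⟨-, l2, -, l4, -⟩ := hLINE _ Φ A n b hL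
  have fam : ∀ k (E : Type) (v : E → FreeGroup X), Rp (Vk Φ A k) A (im (Φ ^ k) A) v →
      Fam A fun e => Dv A (im (Φ ^ k) A) (v e) := fun k E v h =>
    STAB1_fam hKUR h (by simpa only [Vk_zero, add_zero] using l2 k 0) (le_Vk k)
  set N := Nat.card (A →* Z2) with hN
  let M : Set ℕ := {m | ∃ (k : ℕ) (E : Type) (v : E → FreeGroup X),
    Rp (Vk Φ A k) A (im (Φ ^ k) A) v ∧
      m = (Zs A fun e => Dv A (im (Φ ^ k) A) (v e)).ncard * (N + 1) + Nat.card E}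
  have m1 : M.Nonempty := let ⟨E, v, h⟩ := STAB1_ex (Vk Φ A 0) A (im (Φ ^ 0) A)
    ⟨_, 0, E, v, h, rfl⟩
  have m2 : BddAbove M := ⟨N * (N + 1) + N, by
    rintro _ ⟨k, E, v, h, rfl⟩
    obtain ⟨c1, -, c3, -⟩ := hCMPA X E A _ hA (fam k E v h)
    exact add_le_add (Nat.mul_le_mul_right _ (Set.ncard_le_card _)) c3⟩
  obtain ⟨k₀, E, v₀, h₀, e₀⟩ := Nat.sSup_mem m1 m2
  obtain ⟨c1, c2, c3, -⟩ := hCMPA X E A _ hA (fam k₀ E v₀ h₀)
  refine ⟨k₀, E, c2, fun e => Dv A (im (Φ ^ k₀) A) (v₀ e), fun k hk => ?_⟩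
  induction k, hk using Nat.le_induction with
  | base => exact ⟨v₀, h₀, fun _ => rfl⟩
  | succ k hk ih =>
    obtain ⟨v, h, hv⟩ := ih
    obtain ⟨E', v', h'⟩ := STAB1_ex (Vk Φ A (k + 1)) A (im (Φ ^ (k + 1)) A)
    obtain ⟨ρ, r1, r2, r3, r4⟩ := l4 k
    choose π a ha hπ using fun e =>
      STAB1_par h (le_Vk k) (le_Vk (k + 1)) r1 r2 r3 r4 (h'.mem e) (h'.ne e)
    simp only [hv] at hπ
    obtain ⟨z1, z2⟩ := hCMPB X E E' A _ _ π a hA (fam k₀ E v₀ h₀) (fam _ E' v' h') ha hπ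
    obtain ⟨-, d2, d3, -⟩ := hCMPA X E' A _ hA (fam _ E' v' h')
    have mx := le_csSup m2 (⟨k + 1, E', v', h', rfl⟩ : _ ∈ M)
    rw [e₀] at mx
    have y1 := Set.ncard_le_ncard z1
    have y2 : (Zs A fun e => Dv A (im (Φ ^ (k + 1)) A) (v' e)).ncard ≤
        (Zs A fun e => Dv A (im (Φ ^ k₀) A) (v₀ e)).ncard := by
      by_contra c
      have := Nat.mul_le_mul_right (N + 1) (Nat.succ_le_of_lt (not_le.1 c))
      rw [Nat.succ_mul] at this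
      omega
    obtain ⟨s1, s2⟩ := z2 (Set.eq_of_subset_of_ncard_le z1 y2).ge
    rw [le_antisymm y2 y1] at mx
    have bij : Function.Bijective π := s1.bijective_of_nat_card_le (by omega)
    let σ := (Equiv.ofBijective π bij).symm
    refine ⟨fun e => 1 * v' (σ e) * a (σ e), STAB1_chg h' σ _ (fun e => ?_)
      fun e => ⟨1, Subgroup.one_mem _, _, ha _, rfl⟩, fun e => ?_⟩
    · rw [one_mul]
      exact Subgroup.mul_mem _ (h'.mem _) (le_Vk _ (ha _))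
    · rw [Dv_mul (Subgroup.one_mem _) (ha _), s2 bij.1 (σ e), cj_cj, inv_mul_cancel, cj_one,
        show π (σ e) = e from Equiv.ofBijective_apply_symm_apply π bij e]

end Pool.Agent.P.MP_67c9d4_al.FR
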