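import Pool.Agent.P.MP_67c9d4_al.FR.Iface

/-! Step TRV. -/

set_option autoImplicit false
set_option linter.unusedSectionVars false

namespace Pool.Agent.P.MP_67c9d4_al.FR

open Equiv Wr Multiplicative FC

theorem p_TRV :
    S_TRV := by
  classical
  intro F E _ A B v hv
  let s : Setoid F := ⟨fun u u' => Dc B u A u', Dc.refl, Dc.symm, Dc.trans⟩
  have eq : ∀ u u', Quotient.mk s u = Quotient.mk s u' ↔ Dc B u A u' := fun _ _ => Quotient.eq
  obtain ⟨R, R1, R2⟩ : ∃ R : Quotient s → F, (∀ q, Quotient.mk s (R q) = q) ∧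
      ∀ e, R (Quotient.mk s (v e)) = v e := by
    refine ⟨fun q => if h : ∃ e, Quotient.mk s (v e) = q then v h.choose else q.out,
      fun q => ?_, fun e => ?_⟩
    · dsimp only
      split_ifs with h
      · exact h.choose_spec
      · exact q.out_eq
    · have h : ∃ e', Quotient.mk s (v e') = Quotient.mk s (v e) := ⟨e, rfl⟩
      dsimp only
      rw [dif_pos h, hv _ _ ((eq _ _).1 h.choose_spec)]
  obtain ⟨cl, hcl⟩ : ∃ cl : F ⧸ A → Quotient s, ∀ u : F, cl (u : F ⧸ A) = Quotient.mk s u := by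
    refine ⟨fun y => Quotient.mk s y.out, fun u => ?_⟩
    obtain ⟨a, ha⟩ := QuotientGroup.mk_out_eq_mul A u
    exact ((eq _ _).2 ⟨1, B.one_mem, a, a.2, by rw [ha, one_mul]⟩).symm
  have hg : ∀ y : F ⧸ A, ∃ g, pt A g = y ∧ R (cl y) * g ∈ B ∧
      (pt A (R (cl y))⁻¹ = y → g = (R (cl y))⁻¹) := fun y => by
    by_cases c : pt A (R (cl y))⁻¹ = y
    · exact ⟨_, c, by rw [mul_inv_cancel]; exact B.one_mem, fun _ => rfl⟩
    · obtain ⟨u, rfl⟩ := QuotientGroup.mk_surjective y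
      obtain ⟨b, hb, a, ha, e⟩ := (eq _ _).1 ((R1 _).trans (hcl u))
      refine ⟨(b * R (cl u))⁻¹, ?_, ?_, fun k => absurd k c⟩
      · rw [pt, inv_inv, QuotientGroup.eq]
        generalize R (cl u) = r at e
        rw [e, inv_mul_cancel_left]
        exact ha
      · rw [mul_inv_rev, mul_inv_cancel_left]
        exact B.inv_mem hb
  choose g g1 g2 g3 using hg
  have he : ∀ e, R (cl (pt A (v e)⁻¹)) = v e := fun e => by rw [pt, inv_inv, hcl, R2]
  refine ⟨g, fun y => R (cl y), g1, g2, fun y b hb => ?_, fun e => ⟨he e, ?_⟩, fun y e h => ?_⟩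
  · obtain ⟨u, rfl⟩ := QuotientGroup.mk_surjective y
    dsimp only
    rw [← map_inv, qa_mk, hcl, hcl, (eq u (b⁻¹ * u)).2 ⟨_, B.inv_mem hb, 1, A.one_mem, by simp⟩]
  · rw [g3 _ (by rw [he]), he]
  · dsimp only
    rw [← ((eq _ _).2 h).trans (R1 _), R2]

end Pool.Agent.P.MP_67c9d4_al.FR
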